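import Mathlib

/-!
# Odd q-zeta values and the Donaldson-Thomas point series of affine three-space

Definitions used in the statement. `X = C^3`, `L = O`, and `G` is a torus acting diagonally with
weights `s = (s_1, s_2, s_3)` on the coordinates; the equivariant integrals over `Hilb(C^3, n)` are
given by virtual localization: the fixed points are the monomial ideals (finite lower sets
`π ⊂ ℕ^3`), and the contribution of `π` is the inverse Euler class of the virtual tangent space,
whose character is the vertex character `V_π` of Maulik, Nekrasov, Okounkov and Pandharipande.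
-/

open PowerSeries

namespace Pool.Agent.Lib.MPd9449f

/-- boxes `(i, j, k)` of `ℕ^3`, i.e. monomials `x^i y^j z^k` -/
abbrev Box := ℕ × ℕ × ℕ

/-- characters of the three-dimensional torus -/
abbrev Chr := ℤ × ℤ × ℤ

/-- the character of a box -/
def Box.chr (b : Box) : Chr := ((b.1 : ℤ), (b.2.1 : ℤ), (b.2.2 : ℤ))

/-- three-dimensional partitions of `n`: finite lower sets of `ℕ^3` with `n` elements
(= monomial ideals of colength `n` = torus fixed points of `Hilb(C^3, n)`) -/
def PP (n : ℕ) : Set (Finset Box) := {π | IsLowerSet (π : Set Box) ∧ π.card = n}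

/-- Laurent polynomials in `t_1, t_2, t_3` with integer coefficients -/
abbrev Laur := AddMonoidAlgebra ℤ Chr

/-- the Laurent monomial `t^w` -/
noncomputable def tm (w : Chr) : Laur := AddMonoidAlgebra.single w 1

/-- `Q_π = ∑_{b ∈ π} t^b`, the character of `O/I_π` -/
noncomputable def Qc (π : Finset Box) : Laur := ∑ b ∈ π, tm (Box.chr b)

/-- the dual character -/
noncomputable def Qd (π : Finset Box) : Laur := ∑ b ∈ π, tm (-(Box.chr b))

/-- the vertex character `V = Q - Qbar / (t1 t2 t3) + Q Qbar (1-t1)(1-t2)(1-t3) / (t1 t2 t3)`,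
the character of the virtual tangent space at the fixed point `π` -/
noncomputable def Vc (π : Finset Box) : Laur :=
  Qc π - Qd π * tm (-1, -1, -1) +
    Qc π * Qd π * ((1 - tm (1, 0, 0)) * (1 - tm (0, 1, 0)) * (1 - tm (0, 0, 1))) * tm (-1, -1, -1)

section field

variable {K : Type} [Field K] [CharZero K]

/-- the weight (first Chern class) of the character `w` if the coordinates have weights `s` -/
def lin (s : K × K × K) (w : Chr) : K := (w.1 : K) * s.1 + (w.2.1 : K) * s.2.1 + (w.2.2 : K) * s.2.2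

/-- the vertex measure of `π`: the inverse Euler class `∏_w (w · s)^(-v_w)` of the virtual
tangent space `V_π = ∑_w v_w t^w` -/
noncomputable def vertex (s : K × K × K) (π : Finset Box) : K :=
  (Vc π).coeff.prod fun w m => lin s w ^ (-m)

/-- the `k`-th component of the Chern character of the tautological bundle `O^{[n]}` at `π` -/
noncomputable def ch (s : K × K × K) (π : Finset Box) (k : ℕ) : K :=
  ∑ b ∈ π, lin s (Box.chr b) ^ k / (k.factorial : K)

/-- `⟨f⟩ = ∑_n (-q)^n ∫_{[Hilb(C^3,n)]^vir} f(ch_0, ch_1, ...)` by virtual localization -/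
noncomputable def bracket (s : K × K × K) (f : MvPolynomial ℕ ℚ) : PowerSeries K :=
  PowerSeries.mk fun n => (-1) ^ n * ∑ᶠ π ∈ PP n, vertex s π * MvPolynomial.aeval (ch s π) f

/-- `⟨f⟩' = ⟨f⟩ / ⟨1⟩` -/
noncomputable def bracket' (s : K × K × K) (f : MvPolynomial ℕ ℚ) : PowerSeries K :=
  bracket s f * (bracket s 1)⁻¹

end field

/-- the odd q-zeta value `Z(2k+1) = ∑_{n ≥ 1} q^{kn} (1 + q^n) / (1 - q^n)^{2k+1}`, `k ≥ 1`
(the summands with `n > N` do not contribute to the coefficient of `q^N`) -/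
noncomputable def Zodd (k : ℕ) : PowerSeries ℚ :=
  PowerSeries.mk fun N => ∑ n ∈ Finset.Icc 1 N,
    coeff N ((X : PowerSeries ℚ) ^ (k * n) * (1 + X ^ n) * ((1 - X ^ n) ^ (2 * k + 1))⁻¹)

/-- the derivation `q d/dq` -/
noncomputable def qD (F : PowerSeries ℚ) : PowerSeries ℚ := PowerSeries.mk fun n => (n : ℚ) * coeff n F

/-- the algebra `oqZ` generated by all `(q d/dq)^l Z(2k+1)`, `k ≥ 1`, `l ≥ 0` -/
noncomputable def oqZ : Subalgebra ℚ (PowerSeries ℚ) :=
  Algebra.adjoin ℚ {F | ∃ k l : ℕ, 1 ≤ k ∧ F = qD^[l] (Zodd k)}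

/-- `F` is a finite sum `∑_j a_j F_j` with `a_j ∈ K` and `F_j ∈ oqZ` -/
def InKoqZ {K : Type} [Field K] [CharZero K] (F : PowerSeries K) : Prop :=
  F ∈ Submodule.span K ((PowerSeries.map (algebraMap ℚ K)) '' (oqZ : Set (PowerSeries ℚ)))

/-- the field of fractions of `H*_T(pt) = ℚ[t_1, t_2, t_3]`, `T = (C^*)^3` -/
abbrev KT := FractionRing (MvPolynomial (Fin 3) ℚ)

/-- the weights of the coordinates for the full torus `T` -/
noncomputable def sT : KT × KT × KT :=
  (algebraMap (MvPolynomial (Fin 3) ℚ) KT (MvPolynomial.X 0),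
   algebraMap (MvPolynomial (Fin 3) ℚ) KT (MvPolynomial.X 1),
   algebraMap (MvPolynomial (Fin 3) ℚ) KT (MvPolynomial.X 2))

/-- the field of fractions of `H*_{T_0}(pt) = ℚ[s_1, s_2]`, where `T_0 ⊂ T` is the
two-dimensional Calabi-Yau torus `t_1 t_2 t_3 = 1` -/
abbrev K0 := FractionRing (MvPolynomial (Fin 2) ℚ)

/-- the weights `s_1, s_2, -s_1-s_2` of the coordinates for the Calabi-Yau torus `T_0` -/
noncomputable def s0 : K0 × K0 × K0 :=
  (algebraMap (MvPolynomial (Fin 2) ℚ) K0 (MvPolynomial.X 0),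
   algebraMap (MvPolynomial (Fin 2) ℚ) K0 (MvPolynomial.X 1),
   algebraMap (MvPolynomial (Fin 2) ℚ) K0 (-MvPolynomial.X 0 - MvPolynomial.X 1))

end Pool.Agent.Lib.MPd9449f
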