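import Pool.Agent.Lib.MP_d9449f_ag.WBDefs
import Pool.Agent.Lib.MP_d9449f_ag.OQ.Statement

/-!
# The exact two-point function of plane partitions: definitions

`R` is a commutative ring, power series are in the variable `q = X`.
-/

open PowerSeries Finset

namespace Pool.Agent.Lib.MPd9449f

section ring

variable {R : Type} [CommRing R]

/-- `1 / (1 - x q^a)`, `a ≥ 1` -/
noncomputable def ig (x : R) (a : ℕ) : PowerSeries R :=
  PowerSeries.mk fun n => if a ∣ n then x ^ (n / a) else 0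

/-- `∏_{a=1}^r (1 - x q^a) / (1 - q^a)` -/
noncomputable def rh (x : R) (r : ℕ) : PowerSeries R :=
  ∏ a ∈ range r, (1 - C x * X ^ (a + 1)) * ig 1 (a + 1)

/-- `∏_{a=1}^N (1 - xi q^a) / (1 - x q^a)` (used with `xi = 1/x`) -/
noncomputable def phiN (x xi : R) (N : ℕ) : PowerSeries R :=
  ∏ a ∈ range N, (1 - C xi * X ^ (a + 1)) * ig x (a + 1)

/-- `φ(x) = ∏_{a ≥ 1} (1 - q^a/x) / (1 - x q^a)` -/
noncomputable def phi (x xi : R) : PowerSeries R :=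
  PowerSeries.mk fun n => coeff n (phiN x xi n)

/-- `f_N = ∑_{r+s ≤ N} z^r rh_x(r) y'^s rh_{x'}(s)` -/
noncomputable def ff (x z x' y' : R) (N : ℕ) : PowerSeries R :=
  ∑ r ∈ range (N + 1), ∑ s ∈ range (N + 1 - r), C (z ^ r) * rh x r * (C (y' ^ s) * rh x' s)

/-- `q^a / ((1 - q^a) (1 - x q^a))` -/
noncomputable def Hh (x : R) (a : ℕ) : PowerSeries R := X ^ a * ig 1 a * ig x a

/-- `f_M g_M - f_{M-1} g_{M-1}` -/
noncomputable def Dl (x1 y1 z1 x2 y2 z2 : R) : ℕ → PowerSeries R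
  | 0 => ff x1 z1 x2 y2 0 * ff x2 z2 x1 y1 0
  | M + 1 => ff x1 z1 x2 y2 (M + 1) * ff x2 z2 x1 y1 (M + 1) - ff x1 z1 x2 y2 M * ff x2 z2 x1 y1 M

/-- partial sums of `∑_{M ≥ 0} H_{M+1} (f_M g_M - f_{M-1} g_{M-1})` -/
noncomputable def kapN (x1 y1 z1 x2 y2 z2 : R) (N : ℕ) : PowerSeries R :=
  ∑ M ∈ range N, Hh (x1 * x2) (M + 1) * Dl x1 y1 z1 x2 y2 z2 M

/-- the covariance series `κ = φ(x1) φ(x2) ∑_{M ≥ 0} H_{M+1} (f_M g_M - f_{M-1} g_{M-1})`
(`x_i y_i z_i = 1`) -/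
noncomputable def kap (x1 y1 z1 x2 y2 z2 : R) : PowerSeries R :=
  phi x1 (y1 * z1) * phi x2 (y2 * z2) *
    PowerSeries.mk fun n => coeff n (kapN x1 y1 z1 x2 y2 z2 n)

/-- `Ch(π) = ∑_{(i,j,k) ∈ π} x^i y^j z^k` -/
def Chp (x y z : R) (π : Finset Box) : R := ∑ b ∈ π, x ^ b.1 * y ^ b.2.1 * z ^ b.2.2

end ring

/-- generating series of a statistic of plane partitions: `∑_π g(π) q^{|π|}` -/
noncomputable def gs {R : Type} [CommRing R] (g : Finset Box → R) : PowerSeries R :=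
  PowerSeries.mk fun n => ∑ᶠ π ∈ PP n, g π

/-- the ring `ℤ[[u1]][[u2]]` -/
abbrev R2 := PowerSeries (PowerSeries ℤ)

/-- `w1 = 1 + u1` -/
noncomputable def w1 : R2 := C (1 + X)
/-- `1 / w1` -/
noncomputable def w1i : R2 := C (PowerSeries.mk fun n => (-1) ^ n)
/-- `w2 = 1 + u2` -/
noncomputable def w2 : R2 := 1 + X
/-- `1 / w2` -/
noncomputable def w2i : R2 := PowerSeries.mk fun n => (-1) ^ n

/-- the coefficient of `u1^a u2^b` -/
noncomputable def cf (a b : ℕ) (r : R2) : ℤ := coeff a (coeff b r)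

/-- `c^2 = 2 binom(c,2) + c` and `d^4 = 24 binom(d,4) + 36 binom(d,3) + 14 binom(d,2) + d`:
the functional `w1^c w2^d ↦ c^2 d^4` -/
noncomputable def ell (r : R2) : ℤ :=
  2 * (24 * cf 2 4 r + 36 * cf 2 3 r + 14 * cf 2 2 r + cf 2 1 r) +
    (24 * cf 1 4 r + 36 * cf 1 3 r + 14 * cf 1 2 r + cf 1 1 r)

/-- the covariance series with `x_i = w_i^{-2}`, `y_i = z_i = w_i` -/
noncomputable def kapW : PowerSeries R2 := kap (w1i ^ 2) w1 w1 (w2i ^ 2) w2 w2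

/-- the covariance of `p_2` and `p_4` for the weights `(-2, 1, 1)`:
`F = 66 q^2 + 5718 q^3 + 97236 q^4 + 804894 q^5 + 4402488 q^6 + 18187620 q^7 + ...` -/
noncomputable def Fser : PowerSeries ℤ := PowerSeries.mk fun n => ell (coeff n kapW)

/-- `D^l G_{2a+3}` as a power series -/
noncomputable def Gser (p : ℕ × ℕ) : PowerSeries ℚ :=
  PowerSeries.mk fun n => (n : ℚ) ^ p.2 * (ArithmeticFunction.sigma (2 * p.1 + 2) n : ℚ)

/-- `F` with rational coefficients -/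
noncomputable def FserQ : PowerSeries ℚ := PowerSeries.map (Int.castRingHom ℚ) Fser

/-- modular weight of a monomial in the variables `X_{(a,l)}` -/
def mwt (m : ℕ × ℕ →₀ ℕ) : ℕ := m.sum fun p n => n * wt p

/-- `p_a(π) = ∑_{(i,j,k) ∈ π} (-2i+j+k)^a` -/
def pa (a : ℕ) (π : Finset Box) : ℤ := ∑ b ∈ π, (-2 * (b.1 : ℤ) + b.2.1 + b.2.2) ^ a

/-- `∑_{(i,j,k) ∈ π} (j-k)^a` -/
def qa (a : ℕ) (π : Finset Box) : ℤ := ∑ b ∈ π, ((b.2.1 : ℤ) - b.2.2) ^ a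

end Pool.Agent.Lib.MPd9449f
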