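import Pool.Agent.Lib.MP_d9449f_ag.OQ.SpecS

/-!
# Top level Specs: vertex measure, transfer to `ℚ`, growth, finite check

Convention: in every module all other Specs may be taken as hypotheses.
-/

open PowerSeries Finset

namespace Pool.Agent.Lib.MPd9449f

/-! ### The vertex measure -/

/-- VK: the diagonal characters `(k,k,k)` do not occur in the vertex character. For `k ≥ 0` the
coefficient is `[(k,k,k) ∈ π] + ∑_{a ∈ π} ∏_i ([a_i ≥ k+1] - [a_i ≥ k]) = 0` since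
`#{(a,b) ∈ π² | a - b = c} = #{a ∈ π | a ≥ c}` for `c ∈ ℕ³`; `k < 0` by symmetry. -/
def SpecVK : Prop := ∀ (π : Finset Box) (k : ℤ), IsLowerSet (π : Set Box) →
  (Vc π).coeff (k, k, k) = 0

/-- number of pairs of boxes whose difference is diagonal after adding `c` -/
noncomputable def uz (π : Finset Box) (c : Chr) : ℕ :=
  open Classical in
  ((π ×ˢ π).filter fun p : Box × Box => ∃ k : ℤ, Box.chr p.1 - Box.chr p.2 + c = (k, k, k)).card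

/-- `u0` = number of diagonal characters (with multiplicity) in
`U = Q + Q Qbar (1/t1 + 1/t2 + 1/t3)` -/
noncomputable def u0 (π : Finset Box) : ℕ :=
  (π.filter fun b : Box => b.1 = b.2.1 ∧ b.2.1 = b.2.2).card +
    (uz π (-1, 0, 0) + uz π (0, -1, 0) + uz π (0, 0, -1))

/-- SGA: for weights with `s1+s2+s3 = 0` and otherwise generic, the vertex measure is
`(-1)^(number of nonzero weights of U)`, i.e. `(-1)^(n + 3n² - u0) = (-1)^u0`. Proof: replace the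
zero weights by `1` (allowed by VK), then `E(V) = ∏ (w·s)^(-v_w)` is multiplicative in `V`,
invariant under multiplication by `t1 t2 t3`, and `V = U - Ubar` up to such multiplications
(`(1-t1)(1-t2)(1-t3)/(t1t2t3) = 1/(t1t2t3) - 1 + ∑ 1/t_i - ∑ t_i/(t1t2t3)`). -/
def SpecSGA : Prop := ∀ (K : Type) [Field K] [CharZero K] (s : K × K × K) (π : Finset Box),
  s.1 + s.2.1 + s.2.2 = 0 → (∀ a b : ℤ, (a : K) * s.1 + b * s.2.1 = 0 → a = 0 ∧ b = 0) →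
  IsLowerSet (π : Set Box) → vertex s π = (-1) ^ u0 π

/-- SGB: the exponent in SGA has the parity of `n`. Induction: remove a maximal box `(i,j,k)`;
`u0` changes by `[i=j=k] + ∑ (min(i-1,j,k)+1) + ∑ min(i+1,j,k)` (cyclic sums), which is
always odd (`6m+1` or `6m+3`). -/
def SpecSGB : Prop := ∀ (π : Finset Box), IsLowerSet (π : Set Box) → u0 π % 2 = π.card % 2

/-- FIN0: `PP n` is finite (contained in the powerset of `[0,n)³`). -/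
def SpecFIN0 : Prop := ∀ n : ℕ, (PP n).Finite

/-- TT: transfer from the full torus `T` to the Calabi-Yau torus `T_0`. Let
`ρ : ℚ[t1,t2,t3] → K0` be the restriction and `Loc` the localization at all `b` with
`ρ(b) ≠ 0`; all coefficients lie in `Loc` (VK), and a `ℚ`-linear left inverse of the inclusion
`Loc → KT` followed by `Loc → K0` maps `a_j ⊗ F_j` to `ℓ(a_j) ⊗ F_j`. -/
def SpecTT : Prop := ∀ f : MvPolynomial ℕ ℚ, InKoqZ (bracket' sT f) → InKoqZ (bracket' s0 f)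

/-- the generating series of `f(ch_0, ch_1, ...)` for the weights `(-2,1,1)`, without signs -/
noncomputable def qs (f : MvPolynomial ℕ ℚ) : PowerSeries ℚ :=
  gs fun π => MvPolynomial.aeval (ch ((-2 : ℚ), (1 : ℚ), (1 : ℚ)) π) f

/-- TQ: transfer from `K0` to `ℚ` (evaluation `s1 = -2`, `s2 = 1`; SGA and SGB remove the vertex
measure, FIN0; a `ℚ`-linear left inverse of `ℚ[s1,s2] → K0`). -/
def SpecTQ : Prop := ∀ f : MvPolynomial ℕ ℚ,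
  InKoqZ (bracket' s0 f) → qs f * (qs 1)⁻¹ ∈ oqZ

/-- ZG: `Z(2k+1)` is a rational combination of `G_3, ..., G_{2k+1}`:
`binom(m+k,2k) + binom(m+k-1,2k) = 2 m² ∏_{0<i<k} (m²-i²) / (2k)!`. -/
def SpecZG : Prop := oqZ ≤ Algebra.adjoin ℚ (Set.range Gser)

/-! ### The series `F` -/

/-- FK: `F` is the covariance of `p_2` and `p_4` (from TWO in the domain `ℤ[[u1]][[u2]]`,
applying `ell` to the coefficients; the series `gs 1` has integer coefficients;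
`(1+u)^c = ∑ binom(c,k) u^k` also for negative `c`). -/
def SpecFK : Prop :=
  gs (fun _ => (1 : ℤ)) * gs (fun π => pa 2 π * pa 4 π) - gs (pa 2) * gs (pa 4) =
    gs (fun _ => (1 : ℤ)) ^ 2 * Fser

/-- SLZ: expected size of the slice `k ≤ N` (from CHA and CAU in `ℤ[[ε]]`: the weight
`(1+ε)^{|p_k|}` multiplies the variables `X_j`, `j < k`, by `1+ε`; compare the coefficients of `ε`). -/
def SpecSLZ : Prop := ∀ (N L k : ℕ), L < N → k ≤ N →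
  X ^ (L + 1) ∣ pi0 ℤ N * (∑ p ∈ paths N L, X ^ psz p * C (sz (slc p k) : ℤ)) -
    ∑ j ∈ range k, ∑ l ∈ range N, X ^ (2 * N - 1 - j - l) * ig 1 (2 * N - 1 - j - l)

/-- QA: `E[∑ (j-k)^a] = ∑_n (∑_{|m|<n} m^a (n-|m|)) q^n/(1-q^n)` for even `a` (from SLZ, REV, BRI,
Z0). -/
def SpecQA : Prop := ∀ a : ℕ, Even a → 0 < a →
  gs (qa a) = gs (fun _ => (1 : ℤ)) * PowerSeries.mk fun N =>
    ∑ n ∈ N.divisors, 2 * ∑ m ∈ range n, (m : ℤ) ^ a * ((n : ℤ) - m)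

/-- SYM: by the `S_3`-symmetry, `E[∑ (s·b)^2] = c e_2(s)` and `E[∑ (s·b)^4] = c e_2(s)^2` for
`s1+s2+s3 = 0`; `e_2(-2,1,1) = -3`, `e_2(0,1,-1) = -1`. -/
def SpecSYM : Prop := gs (pa 2) = 3 * gs (qa 2) ∧ gs (pa 4) = 9 * gs (qa 4)

/-- ONE: `E[p_2]` and `E[p_4]` are in `oqZ`-form (from QA, SYM:
`2∑ m²(n-m) = (n⁴-n²)/6`, `2∑ m⁴(n-m) = (2n⁶-5n⁴+3n²)/30`). -/
def SpecONE : Prop := ∀ a : ℕ, a = 2 ∨ a = 4 → ∃ g ∈ Algebra.adjoin ℚ (Set.range Gser),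
  gs (fun π => (pa a π : ℚ)) = gs (fun _ => (1 : ℚ)) * g

/-- CERT: the finite check. -/
def SpecCERT : Prop := ∀ P : MvPolynomial (ℕ × ℕ) ℚ, (∀ m ∈ P.support, mwt m ≤ 20) →
  MvPolynomial.aeval Gser P ≠ FserQ

/-- EVL: evaluation of polynomials in the `D^l G_j` in the unit disc. -/
def SpecEVL : Prop := ∀ (P : MvPolynomial (ℕ × ℕ) ℚ) (q : ℂ), ‖q‖ < 1 →
  HasSum (fun n => ((coeff n (MvPolynomial.aeval Gser P) : ℚ) : ℂ) * q ^ n)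
    (MvPolynomial.aeval (fun p => Gfun p q) (MvPolynomial.map (algebraMap ℚ ℂ) P))

/-! ### Growth -/

/-- the truncated weighted norm `∑_{a≤2,b≤4} |r_{ab}| ρ^(a+b)` on `ℤ[[u1]][[u2]]` -/
noncomputable def nu (ρ : ℝ) (r : R2) : ℝ :=
  ∑ a ∈ range 3, ∑ b ∈ range 5, |(cf a b r : ℝ)| * ρ ^ (a + b)

/-- `∑_n ν(f_n) t^n` as an extended nonnegative real -/
noncomputable def Nm (ρ t : ℝ) (f : PowerSeries R2) : ENNReal :=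
  ∑' n, ENNReal.ofReal (nu ρ (coeff n f) * t ^ n)

/-- NUM: `ν` is a submultiplicative seminorm. -/
def SpecNUM : Prop := ∀ (ρ : ℝ), 0 ≤ ρ → ∀ (r s : R2),
  nu ρ (r * s) ≤ nu ρ r * nu ρ s ∧ nu ρ (r + s) ≤ nu ρ r + nu ρ s ∧ nu ρ 1 = 1 ∧
    nu ρ (-r) = nu ρ r ∧ 0 ≤ nu ρ r ∧ nu ρ 0 = 0

/-- NMM: so is `Nm`. -/
def SpecNMM : Prop := ∀ (ρ t : ℝ), 0 ≤ ρ → 0 ≤ t → ∀ (f g : PowerSeries R2),
  Nm ρ t (f * g) ≤ Nm ρ t f * Nm ρ t g ∧ Nm ρ t (f + g) ≤ Nm ρ t f + Nm ρ t g ∧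
    Nm ρ t (-f) = Nm ρ t f

/-- NWS: norms of the special elements, `0 ≤ ρ ≤ 1/10`. -/
def SpecNWS : Prop := ∀ (ρ : ℝ), 0 ≤ ρ → ρ ≤ 1 / 10 →
  nu ρ w1 ≤ 1 + ρ ∧ nu ρ w2 ≤ 1 + ρ ∧ nu ρ (w1i ^ 2) ≤ 1 + 4 * ρ ∧ nu ρ (w2i ^ 2) ≤ 1 + 4 * ρ ∧
    nu ρ (1 - w1i ^ 2) ≤ 4 * ρ ∧ nu ρ (1 - w2i ^ 2) ≤ 4 * ρ ∧
    nu ρ (w1i ^ 2 - w1 * w1) ≤ 8 * ρ ∧ nu ρ (w2i ^ 2 - w2 * w2) ≤ 8 * ρ ∧
    nu ρ (w1i ^ 2 * w2i ^ 2) ≤ 1 + 10 * ρ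

/-- NRH: `N(rh_x(r)) ≤ (r+1)^η` for `ρ = ε (1-t)`: `(1-xq^a)/(1-q^a) = 1 + (1-x) q^a/(1-q^a)` and
`t^a/(1-t^a) ≤ 1/(a(1-t))`, so each factor is `≤ 1 + 4ε/a`. -/
def SpecNRH : Prop := ∀ η : ℝ, 0 < η → ∃ ε : ℝ, 0 < ε ∧ ∀ ε' : ℝ, 0 ≤ ε' → ε' ≤ ε →
  ∀ t : ℝ, 0 ≤ t → t < 1 → ∀ r : ℕ,
    Nm (ε' * (1 - t)) t (rh (w1i ^ 2) r) ≤ ENNReal.ofReal (((r : ℝ) + 1) ^ η) ∧
    Nm (ε' * (1 - t)) t (rh (w2i ^ 2) r) ≤ ENNReal.ofReal (((r : ℝ) + 1) ^ η)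

/-- NPH: `N(φ) ≤ C (1-t)^(-η)`: `(1-xi q^a)/(1-xq^a) = 1 + (x-xi) q^a/(1-xq^a)`, and
`∑_a t^a/(1-t^a) ≤ (1 + log(2/h))/h`, `h = 1-t`. -/
def SpecNPH : Prop := ∀ η : ℝ, 0 < η → ∃ ε C : ℝ, 0 < ε ∧ 0 < C ∧ ∀ ε' : ℝ, 0 ≤ ε' → ε' ≤ ε →
  ∀ t : ℝ, 0 ≤ t → t < 1 →
    Nm (ε' * (1 - t)) t (phi (w1i ^ 2) (w1 * w1)) ≤ ENNReal.ofReal (C * (1 - t) ^ (-η)) ∧
    Nm (ε' * (1 - t)) t (phi (w2i ^ 2) (w2 * w2)) ≤ ENNReal.ofReal (C * (1 - t) ^ (-η))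

/-- NDL: `N(f_M²-f_{M-1}²) ≤ C (M+1)^(3+η) (1+ε'(1-t))^(2M)`: the difference is
`d_M (f_M + f_{M-1})`, `d_M = ∑_{r+s=M} w1^r rh(r) w2^s rh(s)` (here `f = g` by symmetry). -/
def SpecNDL : Prop := ∀ η : ℝ, 0 < η → ∃ ε C : ℝ, 0 < ε ∧ 0 < C ∧ ∀ ε' : ℝ, 0 ≤ ε' → ε' ≤ ε →
  ∀ t : ℝ, 0 ≤ t → t < 1 → ∀ M : ℕ,
    Nm (ε' * (1 - t)) t (Dl (w1i ^ 2) w1 w1 (w2i ^ 2) w2 w2 M) ≤
      ENNReal.ofReal (C * ((M : ℝ) + 1) ^ (3 + η) * (1 + ε' * (1 - t)) ^ (2 * M))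

/-- NHH: `N(H_a) ≤ C t^a (1 + 1/(a(1-t)))²`. -/
def SpecNHH : Prop := ∃ ε C : ℝ, 0 < ε ∧ 0 < C ∧ ∀ ε' : ℝ, 0 ≤ ε' → ε' ≤ ε →
  ∀ t : ℝ, 0 ≤ t → t < 1 → ∀ a : ℕ, 1 ≤ a →
    Nm (ε' * (1 - t)) t (Hh (w1i ^ 2 * w2i ^ 2) a) ≤
      ENNReal.ofReal (C * t ^ a * (1 + 1 / (a * (1 - t))) ^ 2)

/-- NSM: the elementary sum `∑_a t^a (1+ε'(1-t))^(2a) (1+1/(a(1-t)))² a^(3+η) ≤ C (1-t)^(-4-η)`. -/
def SpecNSM : Prop := ∀ η : ℝ, 0 < η → η ≤ 1 → ∃ ε C : ℝ, 0 < ε ∧ 0 < C ∧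
  ∀ ε' : ℝ, 0 ≤ ε' → ε' ≤ ε → ∀ t : ℝ, 0 ≤ t → t < 1 →
    ∑' a : ℕ, ENNReal.ofReal (t ^ (a + 1) * (1 + ε' * (1 - t)) ^ (2 * a) *
      (1 + 1 / (((a : ℝ) + 1) * (1 - t))) ^ 2 * ((a : ℝ) + 1) ^ (3 + η)) ≤
    ENNReal.ofReal (C * (1 - t) ^ (-(4 + η)))

/-- GRO: the growth bound (from NMM, NPH, NDL, NHH, NSM with a fixed small `ε` and
`|ell r| ≤ 100 ρ^(-6) ν(r)` for `0 < ρ ≤ 1`). -/
def SpecGRO : Prop := ∃ A : ℝ, ∀ t : ℝ, 0 ≤ t → t < 1 →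
  Summable (fun n => |((coeff n Fser : ℤ) : ℝ)| * t ^ n) ∧
    ∑' n, |((coeff n Fser : ℤ) : ℝ)| * t ^ n ≤ A * (1 - t) ^ (-(41 / 4 : ℝ))

/-! ### The theorem -/

/-- FIN: the conjecture fails for `X = C³`, `L = O`, `f = ch_2 ch_4`, for the full torus and for
the Calabi-Yau torus. -/
def SpecFINAL : Prop :=
  ¬InKoqZ (bracket' sT (MvPolynomial.X 2 * MvPolynomial.X 4)) ∧
    ¬InKoqZ (bracket' s0 (MvPolynomial.X 2 * MvPolynomial.X 4))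

end Pool.Agent.Lib.MPd9449f
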