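import Mathlib
import Pool.Agent.Lib.MP_d9449f_ag.OQ.Defs
import Pool.Agent.Lib.MP_d9449f_ag.OQ.SpecT

section
/-!
# Weighted majorant norms on power series

All norms take values in `ENNReal`, so no summability has to be checked.
-/
open Finset
open scoped ENNReal

namespace Pool.Agent.Lib.MPd9449f

namespace Gr

/-- ring norms with values in `ENNReal` -/
structure RN {R : Type*} [CommRing R] (ν : R → ℝ≥0∞) : Prop where
  zero : ν 0 = 0
  one : ν 1 ≤ 1
  neg : ∀ a, ν (-a) = ν a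
  add : ∀ a b, ν (a + b) ≤ ν a + ν b
  mul : ∀ a b, ν (a * b) ≤ ν a * ν b

section
variable {R : Type*} [CommRing R] {ν : R → ℝ≥0∞}

theorem RN.sub (h : RN ν) (a b : R) : ν (a - b) ≤ ν a + ν b := by
  rw [sub_eq_add_neg, ← h.neg b]
  exact h.add a (-b)

theorem RN.sum (h : RN ν) {ι : Type*} (s : Finset ι) (f : ι → R) :
    ν (∑ i ∈ s, f i) ≤ ∑ i ∈ s, ν (f i) := by
  classical
  induction s using Finset.induction_on with
  | empty => simp [h.zero]
  | insert a s ha ih =>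
    rw [sum_insert ha, sum_insert ha]
    exact (h.add _ _).trans (by gcongr)

theorem RN.pow (h : RN ν) (a : R) (n : ℕ) : ν (a ^ n) ≤ ν a ^ n := by
  induction n with
  | zero => simpa using h.one
  | succ n ih =>
    rw [pow_succ, pow_succ]
    exact (h.mul _ _).trans (by gcongr)

theorem RN.prod (h : RN ν) {ι : Type*} (s : Finset ι) (f : ι → R) :
    ν (∏ i ∈ s, f i) ≤ ∏ i ∈ s, ν (f i) := by
  classical
  induction s using Finset.induction_on with
  | empty => simpa using h.one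
  | insert a s ha ih =>
    rw [prod_insert ha, prod_insert ha]
    exact (h.mul _ _).trans (by gcongr)

/-- submultiplicative weights -/
structure WT (ω : ℕ → ℝ≥0∞) : Prop where
  zero : ω 0 = 1
  mul : ∀ m n, ω (m + n) ≤ ω m * ω n

theorem WT.pow (r : ℝ≥0∞) : WT fun n => r ^ n := ⟨pow_zero r, fun m n => (pow_add r m n).le⟩

theorem WT.trunc (r : ℝ≥0∞) (K : ℕ) : WT fun n => if n < K + 1 then r ^ n else 0 := by
  refine ⟨by simp, fun m n => ?_⟩
  split_ifs with h1 h2 h3 h3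
  · exact (pow_add r m n).le
  · omega
  · omega
  · omega
  all_goals simp

/-- weighted norm of a power series -/
noncomputable def WN (ω : ℕ → ℝ≥0∞) (ν : R → ℝ≥0∞) (f : PowerSeries R) : ℝ≥0∞ :=
  ∑' n, ν (PowerSeries.coeff n f) * ω n

theorem WN_mul (h : RN ν) {ω : ℕ → ℝ≥0∞} (hω : WT ω) (f g : PowerSeries R) :
    WN ω ν (f * g) ≤ WN ω ν f * WN ω ν g := by
  have h1 : WN ω ν f * WN ω ν g = ∑' n : ℕ, ∑ x ∈ antidiagonal n,
      (ν (PowerSeries.coeff x.1 f) * ω x.1) * (ν (PowerSeries.coeff x.2 g) * ω x.2) := by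
    have h2 : WN ω ν f * WN ω ν g = ∑' x : ℕ × ℕ,
        (ν (PowerSeries.coeff x.1 f) * ω x.1) * (ν (PowerSeries.coeff x.2 g) * ω x.2) := by
      rw [ENNReal.tsum_prod']
      simp only [WN]
      rw [← ENNReal.tsum_mul_right]
      refine tsum_congr fun m => ?_
      rw [← ENNReal.tsum_mul_left]
    rw [h2, ← (HasAntidiagonal.sigmaAntidiagonalEquivProd (A := ℕ)).tsum_eq, ENNReal.tsum_sigma']
    refine tsum_congr fun n => ?_
    rw [tsum_fintype]
    exact (Finset.sum_attach (antidiagonal n) fun x : ℕ × ℕ =>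
      (ν (PowerSeries.coeff x.1 f) * ω x.1) * (ν (PowerSeries.coeff x.2 g) * ω x.2))
  rw [h1, WN]
  refine ENNReal.tsum_le_tsum fun n => ?_
  rw [PowerSeries.coeff_mul]
  refine (mul_le_mul_left (h.sum _ _) _).trans ?_
  rw [sum_mul]
  refine sum_le_sum fun x hx => ?_
  rw [← mem_antidiagonal.1 hx]
  calc ν (PowerSeries.coeff x.1 f * PowerSeries.coeff x.2 g) * ω (x.1 + x.2)
      ≤ (ν (PowerSeries.coeff x.1 f) * ν (PowerSeries.coeff x.2 g)) * (ω x.1 * ω x.2) := by
        gcongr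
        · exact h.mul _ _
        · exact hω.mul _ _
    _ = _ := by ring

theorem WN_rn (h : RN ν) {ω : ℕ → ℝ≥0∞} (hω : WT ω) : RN (WN ω ν) where
  zero := by simp [WN, h.zero]
  one := by
    rw [WN, tsum_eq_single 0]
    · simp [hω.zero, h.one]
    · intro n hn
      simp [PowerSeries.coeff_one, hn, h.zero]
  neg f := by simp [WN, h.neg]
  add f g := by
    rw [WN, WN, WN, ← ENNReal.tsum_add]
    refine ENNReal.tsum_le_tsum fun n => ?_
    rw [map_add, ← add_mul]
    gcongr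
    exact h.add _ _
  mul f g := WN_mul h hω f g

theorem WN_C (h : RN ν) {ω : ℕ → ℝ≥0∞} (hω : WT ω) (a : R) : WN ω ν (PowerSeries.C a) = ν a := by
  rw [WN, tsum_eq_single 0]
  · simp [hω.zero]
  · intro n hn
    simp [PowerSeries.coeff_C, hn, h.zero]

theorem WN_monomial (h : RN ν) (ω : ℕ → ℝ≥0∞) (k : ℕ) (a : R) :
    WN ω ν (PowerSeries.monomial k a) = ν a * ω k := by
  rw [WN, tsum_eq_single k]
  · simp
  · intro n hn
    simp [PowerSeries.coeff_monomial, hn, h.zero]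

theorem WN_X_pow_le (h : RN ν) (ω : ℕ → ℝ≥0∞) (k : ℕ) :
    WN ω ν (PowerSeries.X ^ k : PowerSeries R) ≤ ω k := by
  rw [PowerSeries.X_pow_eq, WN_monomial h]
  calc ν 1 * ω k ≤ 1 * ω k := by gcongr; exact h.one
    _ = ω k := one_mul _

/-- coefficientwise finite sums -/
theorem WN_le_tsum (h : RN ν) (ω : ℕ → ℝ≥0∞) {ι : Type*} (f : PowerSeries R)
    (g : ι → PowerSeries R)
    (hfg : ∀ n, ∃ s : Finset ι, PowerSeries.coeff n f = ∑ i ∈ s, PowerSeries.coeff n (g i)) :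
    WN ω ν f ≤ ∑' i, WN ω ν (g i) := by
  simp only [WN]
  rw [ENNReal.tsum_comm]
  refine ENNReal.tsum_le_tsum fun n => ?_
  obtain ⟨s, hs⟩ := hfg n
  rw [hs, ENNReal.tsum_mul_right]
  gcongr
  exact (h.sum _ _).trans (ENNReal.sum_le_tsum s)

end

end Gr

end Pool.Agent.Lib.MPd9449f
end

section
/-!
# Elementary real estimates for the growth bound
-/
open Finset

namespace Pool.Agent.Lib.MPd9449f

namespace Gr

/-- AM-GM for geometric sums -/
theorem geom_amgm (s : ℝ) (n : ℕ) :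
    (n + 1 : ℝ) * s ^ n ≤ ∑ j ∈ range (n + 1), (s ^ 2) ^ j := by
  have h1 : ∑ j ∈ range (n + 1), (s ^ 2) ^ j = ∑ j ∈ range (n + 1), (s ^ 2) ^ (n - j) := by
    rw [← sum_range_reflect]
    refine sum_congr rfl fun j _ => ?_
    congr 1
  have h2 : ∑ j ∈ range (n + 1), (2 * s ^ n) ≤
      ∑ j ∈ range (n + 1), ((s ^ 2) ^ j + (s ^ 2) ^ (n - j)) := by
    refine sum_le_sum fun j hj => ?_
    have hj' : j ≤ n := Nat.lt_succ_iff.1 (mem_range.1 hj)
    have h3 : s ^ n = s ^ j * s ^ (n - j) := by rw [← pow_add]; congr 1; omega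
    rw [h3, ← pow_mul, ← pow_mul, mul_comm 2 j, mul_comm 2 (n - j), pow_mul, pow_mul]
    nlinarith [sq_nonneg (s ^ j - s ^ (n - j))]
  rw [sum_add_distrib, ← h1, sum_const, card_range, nsmul_eq_mul] at h2
  push_cast at h2
  linarith

theorem one_sub_pow {r s : ℝ} (hs : 0 ≤ s) (hr : r = s ^ 2) (hs1 : s < 1) (n : ℕ) :
    (1 - r) * ((n + 1 : ℝ) * s ^ n) ≤ 1 - r ^ (n + 1) := by
  have h1 := geom_amgm s n
  have h2 : (1 - r) * ∑ j ∈ range (n + 1), r ^ j = 1 - r ^ (n + 1) := by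
    rw [mul_comm]; exact geom_sum_mul_neg r (n + 1)
  rw [← h2]
  have h3 : r ≤ 1 := by rw [hr]; nlinarith
  refine mul_le_mul_of_nonneg_left ?_ (by linarith)
  rw [hr]
  exact h1

/-- Lemma A -/
theorem sum_le_log {r : ℝ} (hr0 : 0 ≤ r) (hr1 : r < 1) (n : ℕ) :
    ∑ a ∈ range n, r ^ (a + 1) / (1 - r ^ (a + 1)) ≤ Real.log (2 / (1 - r)) / (1 - r) := by
  set s := Real.sqrt r with hs
  have hs0 : 0 ≤ s := Real.sqrt_nonneg r
  have hrs : r = s ^ 2 := (Real.sq_sqrt hr0).symm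
  have hs1 : s < 1 := by
    by_contra h
    rw [not_lt] at h
    nlinarith
  have hh : 0 < 1 - r := by linarith
  have h1 : ∀ a : ℕ, r ^ (a + 1) / (1 - r ^ (a + 1)) ≤ (s ^ (a + 1) / ((a : ℝ) + 1)) / (1 - r) := by
    intro a
    have h2 := one_sub_pow hs0 hrs hs1 a
    have h3 : 0 < 1 - r ^ (a + 1) := by
      have : r ^ (a + 1) < 1 := pow_lt_one₀ hr0 hr1 (by omega)
      linarith
    have ha : (0 : ℝ) < (a : ℝ) + 1 := by positivity
    rw [div_div, div_le_div_iff₀ h3 (by positivity)]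
    have h4 : r ^ (a + 1) * (((a : ℝ) + 1) * (1 - r)) ≤
        s ^ (a + 1) * ((1 - r) * (((a : ℝ) + 1) * s ^ a)) := by
      have h5 : r ^ (a + 1) = s ^ (a + 1) * (s ^ a * s) := by
        rw [hrs, ← pow_succ, ← pow_add, ← pow_mul]; congr 1; ring
      rw [h5]
      have h6 : s ^ (a + 1) * (s ^ a * s) * (((a : ℝ) + 1) * (1 - r)) =
        (s ^ (a + 1) * ((1 - r) * (((a : ℝ) + 1) * s ^ a))) * s := by ring
      rw [h6]
      refine mul_le_of_le_one_right (by positivity) hs1.le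
    exact h4.trans (mul_le_mul_of_nonneg_left h2 (by positivity))
  refine (sum_le_sum fun a _ => h1 a).trans ?_
  rw [← sum_div]
  refine div_le_div_of_nonneg_right ?_ hh.le
  have h2 := Real.hasSum_pow_div_log_of_abs_lt_one (x := s) (by rwa [abs_of_nonneg hs0])
  refine (sum_le_hasSum (range n) (fun a _ => by positivity) h2).trans ?_
  rw [← Real.log_inv]
  refine Real.log_le_log (inv_pos.2 (by linarith)) ?_
  rw [inv_eq_one_div, div_le_div_iff₀ (by linarith) hh, hrs]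
  nlinarith

/-- Lemma B -/
theorem prod_le_rpow {r : ℝ} (hr0 : 0 ≤ r) (hr1 : r < 1) (K : ℝ) (hK : 0 ≤ K) (n : ℕ) :
    ∏ a ∈ range n, (1 + K * (1 - r) * (r ^ (a + 1) / (1 - r ^ (a + 1)))) ≤
      (2 / (1 - r)) ^ K := by
  have hh : 0 < 1 - r := by linarith
  have h0 : ∀ a : ℕ, 0 ≤ r ^ (a + 1) / (1 - r ^ (a + 1)) := by
    intro a
    have : r ^ (a + 1) < 1 := pow_lt_one₀ hr0 hr1 (by omega)
    exact div_nonneg (by positivity) (by linarith)
  have h1 : ∏ a ∈ range n, (1 + K * (1 - r) * (r ^ (a + 1) / (1 - r ^ (a + 1)))) ≤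
      ∏ a ∈ range n, Real.exp (K * (1 - r) * (r ^ (a + 1) / (1 - r ^ (a + 1)))) := by
    refine prod_le_prod (fun a _ => ?_) (fun a _ => ?_)
    · have := h0 a
      positivity
    · rw [add_comm]
      exact Real.add_one_le_exp _
  refine h1.trans ?_
  rw [← Real.exp_sum, ← mul_sum, Real.rpow_def_of_pos (by positivity)]
  refine Real.exp_le_exp.2 ?_
  have h2 := sum_le_log hr0 hr1 n
  calc K * (1 - r) * ∑ a ∈ range n, r ^ (a + 1) / (1 - r ^ (a + 1))
      ≤ K * (1 - r) * (Real.log (2 / (1 - r)) / (1 - r)) := by gcongr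
    _ = Real.log (2 / (1 - r)) * K := by field_simp

/-- Lemma C, one term -/
theorem term_le {r : ℝ} (hr0 : 0 ≤ r) (hr1 : r < 1) (n : ℕ) :
    r ^ (n + 1) / (1 - r ^ (n + 1)) ^ 2 * ((n : ℝ) + 1) ^ 3 * (1 + (1 - r) / 200) ^ (2 * (n + 1)) ≤
      512 / (1 - r) ^ 3 * (1 / (1 + (1 - r) / 2)) ^ (n + 1) := by
  set h := 1 - r with hh
  have h0 : 0 < h := by rw [hh]; linarith
  have h1 : h ≤ 1 := by rw [hh]; linarith
  set m : ℝ := (n : ℝ) + 1 with hm
  have hm0 : 0 < m := by rw [hm]; positivity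
  have hr : r = 1 - h := by rw [hh]; ring
  have hrn : r ^ (n + 1) < 1 := pow_lt_one₀ hr0 hr1 (by omega)
  have hrn0 : 0 ≤ r ^ (n + 1) := by positivity
  have hb : ∀ x : ℝ, 0 ≤ x → 1 + m * x ≤ (1 + x) ^ (n + 1) := by
    intro x hx
    have := one_add_mul_le_pow (a := x) (by linarith) (n + 1)
    push_cast at this
    exact this
  -- 1 - r^(n+1) >= m h / (1 + m h)
  have h2 : m * h / (1 + m * h) ≤ 1 - r ^ (n + 1) := by
    have h3 : r ^ (n + 1) * (1 + m * h) ≤ 1 := by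
      calc r ^ (n + 1) * (1 + m * h) ≤ r ^ (n + 1) * (1 + h) ^ (n + 1) := by
            gcongr; exact hb h h0.le
        _ = (r * (1 + h)) ^ (n + 1) := by rw [mul_pow]
        _ ≤ 1 := by
            refine pow_le_one₀ (by positivity) ?_
            rw [hr]; nlinarith
    have h4 : 0 < 1 + m * h := by positivity
    rw [div_le_iff₀ h4]
    nlinarith
  have h5 : 0 < m * h / (1 + m * h) := by positivity
  have h6 : 1 / (1 - r ^ (n + 1)) ^ 2 ≤ (1 + m * h) ^ 2 / (m * h) ^ 2 := by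
    have : (1 + m * h) ^ 2 / (m * h) ^ 2 = 1 / (m * h / (1 + m * h)) ^ 2 := by
      rw [div_pow, one_div_div]
    rw [this]
    exact one_div_le_one_div_of_le (by positivity) (by gcongr)
  have h7 : 1 + m * h ≤ 8 * (1 + h / 8) ^ (n + 1) := by
    have := hb (h / 8) (by positivity)
    nlinarith
  have h8 : m * h ≤ 8 * (1 + h / 8) ^ (n + 1) := by linarith
  have h9 : r ^ (n + 1) / (1 - r ^ (n + 1)) ^ 2 * m ^ 3 ≤
      512 / h ^ 3 * (r * (1 + h / 8) ^ 3) ^ (n + 1) := by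
    calc r ^ (n + 1) / (1 - r ^ (n + 1)) ^ 2 * m ^ 3
        = r ^ (n + 1) * (1 / (1 - r ^ (n + 1)) ^ 2) * m ^ 3 := by ring
      _ ≤ r ^ (n + 1) * ((1 + m * h) ^ 2 / (m * h) ^ 2) * m ^ 3 := by gcongr
      _ = r ^ (n + 1) * (1 + m * h) ^ 2 * (m * h) / h ^ 3 := by field_simp
      _ ≤ r ^ (n + 1) * (8 * (1 + h / 8) ^ (n + 1)) ^ 2 * (8 * (1 + h / 8) ^ (n + 1)) / h ^ 3 := by
          gcongr
      _ = 512 / h ^ 3 * (r * (1 + h / 8) ^ 3) ^ (n + 1) := by
          rw [mul_pow r, ← pow_mul, mul_comm 3 (n + 1), pow_mul]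
          ring
  have h10 : r * (1 + h / 8) ^ 3 * (1 + h / 200) ^ 2 ≤ 1 / (1 + h / 2) := by
    rw [le_div_iff₀ (by positivity)]
    have e1 : r ≤ Real.exp (-h) := by
      have := Real.add_one_le_exp (-h)
      rw [hr]; linarith
    have e2 : 1 + h / 8 ≤ Real.exp (h / 8) := by
      have := Real.add_one_le_exp (h / 8)
      linarith
    have e3 : 1 + h / 200 ≤ Real.exp (h / 200) := by
      have := Real.add_one_le_exp (h / 200)
      linarith
    have e4 : 1 + h / 2 ≤ Real.exp (h / 2) := by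
      have := Real.add_one_le_exp (h / 2)
      linarith
    calc r * (1 + h / 8) ^ 3 * (1 + h / 200) ^ 2 * (1 + h / 2)
        ≤ Real.exp (-h) * Real.exp (h / 8) ^ 3 * Real.exp (h / 200) ^ 2 * Real.exp (h / 2) := by
          gcongr
      _ = Real.exp (-h + 3 * (h / 8) + 2 * (h / 200) + h / 2) := by
          rw [Real.exp_add, Real.exp_add, Real.exp_add, ← Real.exp_nat_mul, ← Real.exp_nat_mul]
          push_cast
          ring_nf
      _ ≤ 1 := by
          rw [← Real.exp_zero]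
          exact Real.exp_le_exp.2 (by linarith)
  calc r ^ (n + 1) / (1 - r ^ (n + 1)) ^ 2 * m ^ 3 * (1 + h / 200) ^ (2 * (n + 1))
      ≤ 512 / h ^ 3 * (r * (1 + h / 8) ^ 3) ^ (n + 1) * (1 + h / 200) ^ (2 * (n + 1)) := by gcongr
    _ = 512 / h ^ 3 * (r * (1 + h / 8) ^ 3 * (1 + h / 200) ^ 2) ^ (n + 1) := by
        rw [mul_pow _ ((1 + h / 200) ^ 2), ← pow_mul]
        ring
    _ ≤ 512 / h ^ 3 * (1 / (1 + h / 2)) ^ (n + 1) := by gcongr

end Gr

end Pool.Agent.Lib.MPd9449f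
end

section
/-!
# Real bounds for the majorant norms
-/
open Finset
open scoped ENNReal

namespace Pool.Agent.Lib.MPd9449f

namespace Gr

/-- the norm of `f` is at most the real number `b` -/
structure Bd {R : Type*} [CommRing R] (ν : R → ℝ≥0∞) (f : R) (b : ℝ) : Prop where
  le : ν f ≤ ENNReal.ofReal b
  nonneg : 0 ≤ b

section
variable {R : Type*} [CommRing R] {ν : R → ℝ≥0∞}

theorem Bd.mono {f : R} {b c : ℝ} (h : Bd ν f b) (hbc : b ≤ c) : Bd ν f c :=
  ⟨h.le.trans (ENNReal.ofReal_le_ofReal hbc), h.nonneg.trans hbc⟩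

theorem Bd.zero (h : RN ν) : Bd ν (0 : R) 0 := ⟨by simp [h.zero], le_rfl⟩

theorem Bd.one (h : RN ν) : Bd ν (1 : R) 1 := ⟨by simpa using h.one, zero_le_one⟩

theorem Bd.neg (h : RN ν) {f : R} {b : ℝ} (hf : Bd ν f b) : Bd ν (-f) b :=
  ⟨by rw [h.neg]; exact hf.le, hf.nonneg⟩

theorem Bd.add (h : RN ν) {f g : R} {b c : ℝ} (hf : Bd ν f b) (hg : Bd ν g c) :
    Bd ν (f + g) (b + c) := by
  refine ⟨?_, add_nonneg hf.nonneg hg.nonneg⟩
  rw [ENNReal.ofReal_add hf.nonneg hg.nonneg]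
  exact (h.add f g).trans (add_le_add hf.le hg.le)

theorem Bd.sub (h : RN ν) {f g : R} {b c : ℝ} (hf : Bd ν f b) (hg : Bd ν g c) :
    Bd ν (f - g) (b + c) := by
  rw [sub_eq_add_neg]
  exact hf.add h (hg.neg h)

theorem Bd.mul (h : RN ν) {f g : R} {b c : ℝ} (hf : Bd ν f b) (hg : Bd ν g c) :
    Bd ν (f * g) (b * c) := by
  refine ⟨?_, mul_nonneg hf.nonneg hg.nonneg⟩
  rw [ENNReal.ofReal_mul hf.nonneg]
  exact (h.mul f g).trans (mul_le_mul' hf.le hg.le)

theorem Bd.pow (h : RN ν) {f : R} {b : ℝ} (hf : Bd ν f b) (n : ℕ) : Bd ν (f ^ n) (b ^ n) := by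
  induction n with
  | zero => simpa using Bd.one h
  | succ n ih => rw [pow_succ, pow_succ]; exact ih.mul h hf

theorem Bd.sum (h : RN ν) {ι : Type*} (s : Finset ι) {f : ι → R} {b : ι → ℝ}
    (hf : ∀ i ∈ s, Bd ν (f i) (b i)) : Bd ν (∑ i ∈ s, f i) (∑ i ∈ s, b i) := by
  classical
  induction s using Finset.induction_on with
  | empty => simpa using Bd.zero h
  | insert a s ha ih =>
    rw [sum_insert ha, sum_insert ha]
    exact (hf a (mem_insert_self a s)).add h (ih fun i hi => hf i (mem_insert_of_mem hi))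

theorem Bd.prod (h : RN ν) {ι : Type*} (s : Finset ι) {f : ι → R} {b : ι → ℝ}
    (hf : ∀ i ∈ s, Bd ν (f i) (b i)) : Bd ν (∏ i ∈ s, f i) (∏ i ∈ s, b i) := by
  classical
  induction s using Finset.induction_on with
  | empty => simpa using Bd.one h
  | insert a s ha ih =>
    rw [prod_insert ha, prod_insert ha]
    exact (hf a (mem_insert_self a s)).mul h (ih fun i hi => hf i (mem_insert_of_mem hi))

end

section
variable {R : Type*} [CommRing R] {ν : R → ℝ≥0∞}

/-- the norm on power series in `q` with weights `r ^ n` -/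
noncomputable def QN (r : ℝ) (ν : R → ℝ≥0∞) (f : PowerSeries R) : ℝ≥0∞ :=
  WN (fun n => ENNReal.ofReal r ^ n) ν f

theorem QN_rn (h : RN ν) (r : ℝ) : RN (QN r ν) := WN_rn h (WT.pow _)

theorem Bd.C (h : RN ν) (r : ℝ) {a : R} {b : ℝ} (ha : Bd ν a b) :
    Bd (QN r ν) (PowerSeries.C a) b := by
  refine ⟨?_, ha.nonneg⟩
  rw [QN, WN_C h (WT.pow _)]
  exact ha.le

theorem Bd.Xpow (h : RN ν) {r : ℝ} (hr : 0 ≤ r) (k : ℕ) :
    Bd (QN r ν) (PowerSeries.X ^ k : PowerSeries R) (r ^ k) := by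
  refine ⟨?_, pow_nonneg hr k⟩
  rw [ENNReal.ofReal_pow hr]
  exact WN_X_pow_le h _ k

/-- Fatou -/
theorem Bd.lim {r : ℝ} {f : PowerSeries R} {b : ℝ} (g : ℕ → PowerSeries R)
    (hg : ∀ m, Bd (QN r ν) (g m) b)
    (hf : ∀ n, ∃ m, ∀ k < n, PowerSeries.coeff k f = PowerSeries.coeff k (g m)) :
    Bd (QN r ν) f b := by
  refine ⟨?_, (hg 0).nonneg⟩
  rw [QN, WN, ENNReal.tsum_eq_iSup_nat]
  refine iSup_le fun n => ?_
  obtain ⟨m, hm⟩ := hf n
  have h1 : ∑ k ∈ range n, ν (PowerSeries.coeff k f) * ENNReal.ofReal r ^ k =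
      ∑ k ∈ range n, ν (PowerSeries.coeff k (g m)) * ENNReal.ofReal r ^ k :=
    sum_congr rfl fun k hk => by rw [hm k (mem_range.1 hk)]
  rw [h1]
  exact (ENNReal.sum_le_tsum (range n)).trans (hg m).le

/-- coefficientwise finite series -/
theorem Bd.tsum (h : RN ν) {r : ℝ} {ι : Type*} {f : PowerSeries R} (g : ι → PowerSeries R)
    (hfg : ∀ n, ∃ s : Finset ι, PowerSeries.coeff n f = ∑ i ∈ s, PowerSeries.coeff n (g i))
    {b : ι → ℝ} {c : ℝ} (hg : ∀ i, Bd (QN r ν) (g i) (b i)) (hb : HasSum b c) :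
    Bd (QN r ν) f c := by
  refine ⟨?_, hb.nonneg fun i => (hg i).nonneg⟩
  refine (WN_le_tsum h _ f g hfg).trans ?_
  rw [← hb.tsum_eq, ENNReal.ofReal_tsum_of_nonneg (fun i => (hg i).nonneg) hb.summable]
  exact ENNReal.tsum_le_tsum fun i => (hg i).le

/-- division by `1 - y` -/
theorem Bd.div (h : RN ν) {r : ℝ} {g y z : PowerSeries R} (hy : PowerSeries.X ∣ y)
    (hg : g * (1 - y) = z) {b c : ℝ} (hyb : Bd (QN r ν) y b) (hb : b < 1)
    (hz : Bd (QN r ν) z c) : Bd (QN r ν) g (c / (1 - b)) := by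
  have h1 : HasSum (fun k : ℕ => c * b ^ k) (c / (1 - b)) := by
    have := (hasSum_geometric_of_lt_one hyb.nonneg hb).mul_left c
    rwa [div_eq_mul_inv]
  refine Bd.tsum h (fun k : ℕ => z * y ^ k) (fun n => ⟨range (n + 1), ?_⟩)
    (fun k => hz.mul (QN_rn h r) (hyb.pow (QN_rn h r) k)) h1
  have h2 : g = ∑ k ∈ range (n + 1), z * y ^ k + g * y ^ (n + 1) := by
    rw [← mul_sum, ← hg, mul_assoc, mul_neg_geom_sum]
    ring
  conv_lhs => rw [h2]
  rw [map_add, map_sum]
  have h3 : PowerSeries.coeff n (g * y ^ (n + 1)) = 0 := by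
    have h4 : (PowerSeries.X : PowerSeries R) ^ (n + 1) ∣ g * y ^ (n + 1) :=
      Dvd.dvd.mul_left (pow_dvd_pow_of_dvd hy (n + 1)) g
    exact PowerSeries.X_pow_dvd_iff.1 h4 n (Nat.lt_succ_self n)
  rw [h3, add_zero]

/-- the basic factor `(1 - x' q^(a+1)) / (1 - x q^(a+1))` -/
theorem Bd.fac (h : RN ν) {r : ℝ} (hr : 0 ≤ r) {x x' : R} {a : ℕ} {g : PowerSeries R}
    (hg : g * (1 - PowerSeries.C x * PowerSeries.X ^ (a + 1)) =
      1 - PowerSeries.C x' * PowerSeries.X ^ (a + 1)) {b c : ℝ} (hx : Bd ν x b)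
    (hb : b * r ^ (a + 1) < 1) (hxx : Bd ν (x - x') c) :
    Bd (QN r ν) g (1 + c * r ^ (a + 1) / (1 - b * r ^ (a + 1))) := by
  have h1 : (g - 1) * (1 - PowerSeries.C x * PowerSeries.X ^ (a + 1)) =
      PowerSeries.C (x - x') * PowerSeries.X ^ (a + 1) := by
    rw [sub_mul, hg, map_sub]
    ring
  have h2 := Bd.div h (Dvd.dvd.mul_left (dvd_pow_self _ (Nat.succ_ne_zero a)) _) h1
    ((hx.C h r).mul (QN_rn h r) (Bd.Xpow h hr (a + 1))) hb
    ((hxx.C h r).mul (QN_rn h r) (Bd.Xpow h hr (a + 1)))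
  have h3 := (Bd.one (QN_rn h r)).add (QN_rn h r) h2
  rwa [add_sub_cancel] at h3

end

end Gr

end Pool.Agent.Lib.MPd9449f
end

section
/-!
# Norms on the coefficient rings
-/
open Finset
open scoped ENNReal

namespace Pool.Agent.Lib.MPd9449f

namespace Gr

/-- absolute value on `ℤ` -/
noncomputable def zn (a : ℤ) : ℝ≥0∞ := ENNReal.ofReal |(a : ℝ)|

theorem zn_rn : RN zn where
  zero := by simp [zn]
  one := by simp [zn]
  neg a := by simp [zn]
  add a b := by
    rw [zn, zn, zn, ← ENNReal.ofReal_add (abs_nonneg _) (abs_nonneg _)]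
    refine ENNReal.ofReal_le_ofReal ?_
    push_cast
    exact abs_add_le _ _
  mul a b := by
    rw [zn, zn, zn, ← ENNReal.ofReal_mul (abs_nonneg _)]
    refine ENNReal.ofReal_le_ofReal ?_
    push_cast
    rw [abs_mul]

/-- truncated weights -/
noncomputable def tw (ρ : ℝ) (K n : ℕ) : ℝ≥0∞ := if n < K + 1 then ENNReal.ofReal ρ ^ n else 0

theorem tw_wt (ρ : ℝ) (K : ℕ) : WT (tw ρ K) := WT.trunc _ K

section
variable {R : Type*} [CommRing R] {ν : R → ℝ≥0∞}

/-- the truncated norm on `R[[u]]` -/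
noncomputable def UN (ρ : ℝ) (K : ℕ) (ν : R → ℝ≥0∞) (f : PowerSeries R) : ℝ≥0∞ := WN (tw ρ K) ν f

theorem UN_rn (h : RN ν) (ρ : ℝ) (K : ℕ) : RN (UN ρ K ν) := WN_rn h (tw_wt ρ K)

theorem UN_C (h : RN ν) (ρ : ℝ) (K : ℕ) (a : R) : UN ρ K ν (PowerSeries.C a) = ν a :=
  WN_C h (tw_wt ρ K) a

theorem UN_eq (ρ : ℝ) (K : ℕ) (f : PowerSeries R) :
    UN ρ K ν f = ∑ n ∈ range (K + 1), ν (PowerSeries.coeff n f) * ENNReal.ofReal ρ ^ n := by
  rw [UN, WN, tsum_eq_sum (s := range (K + 1))]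
  · refine sum_congr rfl fun n hn => ?_
    rw [tw, if_pos (by simpa using hn)]
  · intro n hn
    rw [tw, if_neg (by simpa using hn), mul_zero]

theorem UN_mono (ρ : ℝ) {K K' : ℕ} (hK : K ≤ K') (f : PowerSeries R) :
    UN ρ K ν f ≤ UN ρ K' ν f := by
  rw [UN_eq, UN_eq]
  exact sum_le_sum_of_subset (range_mono (by omega))

theorem Bd.Umono {ρ : ℝ} {K K' : ℕ} (hK : K ≤ K') {f : PowerSeries R} {b : ℝ}
    (hf : Bd (UN ρ K' ν) f b) : Bd (UN ρ K ν) f b := ⟨(UN_mono ρ hK f).trans hf.le, hf.nonneg⟩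

theorem Bd.U {ρ : ℝ} (hρ : 0 ≤ ρ) {K : ℕ} {f : PowerSeries R} {b : ℕ → ℝ}
    (hf : ∀ n < K + 1, Bd ν (PowerSeries.coeff n f) (b n)) :
    Bd (UN ρ K ν) f (∑ n ∈ range (K + 1), b n * ρ ^ n) := by
  have h1 : ∀ n ∈ range (K + 1), 0 ≤ b n * ρ ^ n := fun n hn =>
    mul_nonneg (hf n (mem_range.1 hn)).nonneg (pow_nonneg hρ n)
  refine ⟨?_, sum_nonneg h1⟩
  rw [UN_eq, ENNReal.ofReal_sum_of_nonneg h1]
  refine sum_le_sum fun n hn => ?_
  rw [ENNReal.ofReal_mul (hf n (mem_range.1 hn)).nonneg, ENNReal.ofReal_pow hρ]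
  gcongr
  exact (hf n (mem_range.1 hn)).le

theorem Bd.UC (h : RN ν) (ρ : ℝ) (K : ℕ) {a : R} {b : ℝ} (ha : Bd ν a b) :
    Bd (UN ρ K ν) (PowerSeries.C a) b := ⟨by rw [UN_C h]; exact ha.le, ha.nonneg⟩

theorem coeff_le_UN {ρ : ℝ} {K : ℕ} (f : PowerSeries R) {n : ℕ} (hn : n < K + 1) :
    ν (PowerSeries.coeff n f) * ENNReal.ofReal ρ ^ n ≤ UN ρ K ν f := by
  rw [UN_eq]
  exact single_le_sum (f := fun n => ν (PowerSeries.coeff n f) * ENNReal.ofReal ρ ^ n)
    (fun _ _ => zero_le) (mem_range.2 hn)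

end

/-- functionals -/
theorem Bd.functional {R S : Type*} [CommRing R] [CommRing S] {ν : R → ℝ≥0∞} {μ : S → ℝ≥0∞}
    {r K : ℝ} (hK : 0 ≤ K) (L : R → S) (hL : ∀ a, μ (L a) ≤ ENNReal.ofReal K * ν a)
    {f : PowerSeries R} {b : ℝ} (hf : Bd (QN r ν) f b) :
    Bd (QN r μ) (PowerSeries.mk fun n => L (PowerSeries.coeff n f)) (K * b) := by
  refine ⟨?_, mul_nonneg hK hf.nonneg⟩
  rw [ENNReal.ofReal_mul hK]
  refine le_trans ?_ (mul_le_mul_right hf.le _)
  rw [QN, WN, QN, WN, ← ENNReal.tsum_mul_left]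
  refine ENNReal.tsum_le_tsum fun n => ?_
  rw [PowerSeries.coeff_mk, ← mul_assoc]
  gcongr
  exact hL _

/-- from the majorant norm to values -/
theorem Bd.value {r : ℝ} {F : PowerSeries ℤ} {b : ℝ} (hF : Bd (QN r zn) F b) (q : ℂ)
    (hq : ‖q‖ ≤ r) : Summable (fun n => ‖((PowerSeries.coeff n F : ℤ) : ℂ) * q ^ n‖) ∧
      ‖∑' n, ((PowerSeries.coeff n F : ℤ) : ℂ) * q ^ n‖ ≤ b := by
  have hr : 0 ≤ r := (norm_nonneg q).trans hq
  have h1 : ∑' n, ENNReal.ofReal (|((PowerSeries.coeff n F : ℤ) : ℝ)| * r ^ n) ≤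
      ENNReal.ofReal b := by
    refine le_trans (le_of_eq (tsum_congr fun n => ?_)) hF.le
    rw [zn, ENNReal.ofReal_mul (abs_nonneg _), ENNReal.ofReal_pow hr]
  have h2 : Summable fun n => |((PowerSeries.coeff n F : ℤ) : ℝ)| * r ^ n := by
    have h3 := ENNReal.summable_toReal (ne_top_of_le_ne_top ENNReal.ofReal_ne_top h1)
    refine h3.congr fun n => ?_
    rw [ENNReal.toReal_ofReal (by positivity)]
  have h3 : ∑' n, |((PowerSeries.coeff n F : ℤ) : ℝ)| * r ^ n ≤ b := by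
    rw [← ENNReal.ofReal_tsum_of_nonneg (fun n => by positivity) h2] at h1
    exact (ENNReal.ofReal_le_ofReal_iff hF.nonneg).1 h1
  have h4 : ∀ n, ‖((PowerSeries.coeff n F : ℤ) : ℂ) * q ^ n‖ ≤
      |((PowerSeries.coeff n F : ℤ) : ℝ)| * r ^ n := by
    intro n
    rw [norm_mul, norm_pow, Complex.norm_intCast]
    gcongr
  have h5 := Summable.of_nonneg_of_le (fun n => norm_nonneg _) h4 h2
  exact ⟨h5, (norm_tsum_le_tsum_norm h5).trans ((h5.tsum_le_tsum h4 h2).trans h3)⟩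

end Gr

end Pool.Agent.Lib.MPd9449f
end

section
/-!
# The growth bound, abstract form
-/
open Finset
open scoped ENNReal

namespace Pool.Agent.Lib.MPd9449f

namespace Gr

variable {R : Type*} [CommRing R] {ν : R → ℝ≥0∞} {r : ℝ}

theorem pow_mul_le {r : ℝ} (hr0 : 0 ≤ r) (hr1 : r < 1) (n : ℕ) :
    r ^ (n + 1) * (1 - r) ≤ 1 - r ^ (n + 1) := by
  have h1 : r ^ (n + 1) ≤ r := by
    calc r ^ (n + 1) = r ^ n * r := pow_succ r n
      _ ≤ 1 * r := by gcongr; exact pow_le_one₀ hr0 hr1.le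
      _ = r := one_mul r
  have h2 : r ^ (n + 1) * (1 - r) ≤ 1 * (1 - r) := by
    refine mul_le_mul_of_nonneg_right ?_ (by linarith)
    exact pow_le_one₀ hr0 hr1.le
  linarith

theorem pow_lt {r : ℝ} (hr0 : 0 ≤ r) (hr1 : r < 1) (n : ℕ) : r ^ (n + 1) < 1 :=
  pow_lt_one₀ hr0 hr1 (Nat.succ_ne_zero n)

/-- the finite products `rh` -/
theorem rh_bd (h : RN ν) (hr0 : 0 ≤ r) (hr1 : r < 1) {x : R}
    (h1x : Bd ν (1 - x) (3 * ((1 - r) / 200))) (g : ℕ → PowerSeries R)
    (hg : ∀ a, g a * (1 - PowerSeries.X ^ (a + 1)) =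
      1 - PowerSeries.C x * PowerSeries.X ^ (a + 1)) (n : ℕ) :
    Bd (QN r ν) (∏ a ∈ range n, g a) ((2 / (1 - r)) ^ (3 / 200 : ℝ)) := by
  refine Bd.mono (Bd.prod (QN_rn h r) (range n) (b := fun a =>
    1 + (3 / 200) * (1 - r) * (r ^ (a + 1) / (1 - r ^ (a + 1)))) fun a _ => ?_)
    (prod_le_rpow hr0 hr1 _ (by norm_num) n)
  have h1 : g a * (1 - PowerSeries.C (1 : R) * PowerSeries.X ^ (a + 1)) =
      1 - PowerSeries.C x * PowerSeries.X ^ (a + 1) := by
    rw [map_one, one_mul]; exact hg a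
  have h2 := Bd.fac h hr0 h1 (Bd.one h) (by rw [one_mul]; exact pow_lt hr0 hr1 a) h1x
  refine h2.mono (le_of_eq ?_)
  rw [one_mul]
  ring

/-- the infinite products `phi` -/
theorem phi_bd (h : RN ν) (hr0 : 0 ≤ r) (hr1 : r < 1) {x y : R}
    (hx : Bd ν x (1 + 3 * ((1 - r) / 200))) (hxy : Bd ν (x - y) (6 * ((1 - r) / 200)))
    (g : ℕ → PowerSeries R)
    (hg : ∀ a, g a * (1 - PowerSeries.C x * PowerSeries.X ^ (a + 1)) =
      1 - PowerSeries.C y * PowerSeries.X ^ (a + 1)) (phi : PowerSeries R)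
    (hphi : ∀ n, ∃ m, ∀ k < n, PowerSeries.coeff k phi =
      PowerSeries.coeff k (∏ a ∈ range m, g a)) :
    Bd (QN r ν) phi ((2 / (1 - r)) ^ (7 / 200 : ℝ)) := by
  refine Bd.lim (fun m => ∏ a ∈ range m, g a) (fun m => ?_) hphi
  refine Bd.mono (Bd.prod (QN_rn h r) (range m) (b := fun a =>
    1 + (7 / 200) * (1 - r) * (r ^ (a + 1) / (1 - r ^ (a + 1)))) fun a _ => ?_)
    (prod_le_rpow hr0 hr1 _ (by norm_num) m)
  have hh : 0 < 1 - r := by linarith
  have e1 := pow_mul_le hr0 hr1 a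
  have e2 := pow_lt hr0 hr1 a
  have e3 : 0 ≤ r ^ (a + 1) := pow_nonneg hr0 _
  have e4 : (197 / 200) * (1 - r ^ (a + 1)) ≤ 1 - (1 + 3 * ((1 - r) / 200)) * r ^ (a + 1) := by
    nlinarith
  have e5 : 0 < 1 - r ^ (a + 1) := by linarith
  have h2 := Bd.fac h hr0 (hg a) hx (by linarith) hxy
  refine h2.mono ?_
  have e6 : 6 * ((1 - r) / 200) * r ^ (a + 1) / (1 - (1 + 3 * ((1 - r) / 200)) * r ^ (a + 1)) ≤
      6 * ((1 - r) / 200) * r ^ (a + 1) / ((197 / 200) * (1 - r ^ (a + 1))) := by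
    gcongr
  have e7 : 6 * ((1 - r) / 200) * r ^ (a + 1) / ((197 / 200) * (1 - r ^ (a + 1))) =
      (6 / 197) * (1 - r) * (r ^ (a + 1) / (1 - r ^ (a + 1))) := by
    field_simp
  have e8 : (6 / 197) * (1 - r) * (r ^ (a + 1) / (1 - r ^ (a + 1))) ≤
      (7 / 200) * (1 - r) * (r ^ (a + 1) / (1 - r ^ (a + 1))) := by
    have e9 : 0 ≤ (1 - r) * (r ^ (a + 1) / (1 - r ^ (a + 1))) :=
      mul_nonneg hh.le (div_nonneg e3 e5.le)
    rw [mul_assoc, mul_assoc]
    exact mul_le_mul_of_nonneg_right (by norm_num) e9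
  linarith

/-- the denominators -/
theorem den_bd (h : RN ν) (hr0 : 0 ≤ r) (hr1 : r < 1) {x : R}
    (hx : Bd ν x (1 + 7 * ((1 - r) / 200))) (n : ℕ) {E : PowerSeries R}
    (hE : E * ((1 - PowerSeries.X ^ (n + 1)) * (1 - PowerSeries.C x * PowerSeries.X ^ (n + 1))) =
      PowerSeries.X ^ (n + 1)) :
    Bd (QN r ν) E (2 * (r ^ (n + 1) / (1 - r ^ (n + 1)) ^ 2)) := by
  have e1 := pow_mul_le hr0 hr1 n
  have e2 := pow_lt hr0 hr1 n
  have e3 : 0 ≤ r ^ (n + 1) := pow_nonneg hr0 _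
  have e4 : (193 / 200) * (1 - r ^ (n + 1)) ≤ 1 - (1 + 7 * ((1 - r) / 200)) * r ^ (n + 1) := by
    nlinarith
  have e5 : 0 < 1 - r ^ (n + 1) := by linarith
  have h1 : E * (1 - PowerSeries.X ^ (n + 1)) *
      (1 - PowerSeries.C x * PowerSeries.X ^ (n + 1)) = PowerSeries.X ^ (n + 1) := by
    rw [mul_assoc]; exact hE
  have h2 := Bd.div h (Dvd.dvd.mul_left (dvd_pow_self _ (Nat.succ_ne_zero n)) _) h1
    ((hx.C h r).mul (QN_rn h r) (Bd.Xpow h hr0 (n + 1))) (by linarith)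
    (Bd.Xpow h hr0 (n + 1))
  have h3 := Bd.div h (dvd_pow_self _ (Nat.succ_ne_zero n)) rfl (Bd.Xpow h hr0 (n + 1)) e2 h2
    (g := E)
  refine h3.mono ?_
  have e6 : r ^ (n + 1) / (1 - (1 + 7 * ((1 - r) / 200)) * r ^ (n + 1)) ≤
      r ^ (n + 1) / ((193 / 200) * (1 - r ^ (n + 1))) := by
    gcongr
  calc r ^ (n + 1) / (1 - (1 + 7 * ((1 - r) / 200)) * r ^ (n + 1)) / (1 - r ^ (n + 1))
      ≤ r ^ (n + 1) / ((193 / 200) * (1 - r ^ (n + 1))) / (1 - r ^ (n + 1)) := by gcongr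
    _ = (200 / 193) * (r ^ (n + 1) / (1 - r ^ (n + 1)) ^ 2) := by field_simp
    _ ≤ 2 * (r ^ (n + 1) / (1 - r ^ (n + 1)) ^ 2) :=
        mul_le_mul_of_nonneg_right (by norm_num) (div_nonneg e3 (by positivity))

/-- the sums `d_n` -/
theorem d_bd (h : RN ν) (hr1 : r < 1) {w1 w2 : R}
    (hw1 : Bd ν w1 (1 + (1 - r) / 200)) (hw2 : Bd ν w2 (1 + (1 - r) / 200))
    (rh1 rh2 : ℕ → PowerSeries R)
    (h1 : ∀ n, Bd (QN r ν) (rh1 n) ((2 / (1 - r)) ^ (3 / 200 : ℝ)))
    (h2 : ∀ n, Bd (QN r ν) (rh2 n) ((2 / (1 - r)) ^ (3 / 200 : ℝ))) (n : ℕ) :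
    Bd (QN r ν) (∑ x ∈ antidiagonal n, (PowerSeries.C w1 ^ x.1 * rh1 x.1) *
      (PowerSeries.C w2 ^ x.2 * rh2 x.2))
      (((n : ℝ) + 1) * (1 + (1 - r) / 200) ^ n * (2 / (1 - r)) ^ (6 / 200 : ℝ)) := by
  have hh : 0 < 1 - r := by linarith
  have hN := QN_rn h r
  refine Bd.mono (Bd.sum hN (antidiagonal n) (b := fun x =>
    ((1 + (1 - r) / 200) ^ x.1 * (2 / (1 - r)) ^ (3 / 200 : ℝ)) *
    ((1 + (1 - r) / 200) ^ x.2 * (2 / (1 - r)) ^ (3 / 200 : ℝ))) fun x _ => ?_) (le_of_eq ?_)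
  · exact (((hw1.C h r).pow hN _).mul hN (h1 _)).mul hN (((hw2.C h r).pow hN _).mul hN (h2 _))
  · have e1 : (2 / (1 - r)) ^ (6 / 200 : ℝ) =
        (2 / (1 - r)) ^ (3 / 200 : ℝ) * (2 / (1 - r)) ^ (3 / 200 : ℝ) := by
      rw [← Real.rpow_add (by positivity)]; norm_num
    have e2 : ∀ x ∈ antidiagonal n, ((1 + (1 - r) / 200) ^ x.1 * (2 / (1 - r)) ^ (3 / 200 : ℝ)) *
        ((1 + (1 - r) / 200) ^ x.2 * (2 / (1 - r)) ^ (3 / 200 : ℝ)) =
        (1 + (1 - r) / 200) ^ n * (2 / (1 - r)) ^ (6 / 200 : ℝ) := by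
      intro x hx
      rw [← mem_antidiagonal.1 hx, pow_add, e1]
      ring
    rw [sum_congr rfl e2, sum_const, Nat.card_antidiagonal, nsmul_eq_mul]
    push_cast
    ring

/-- the sums `f_n` -/
theorem f_bd (h : RN ν) (hr1 : r < 1) (d : ℕ → PowerSeries R)
    (hd : ∀ n, Bd (QN r ν) (d n)
      (((n : ℝ) + 1) * (1 + (1 - r) / 200) ^ n * (2 / (1 - r)) ^ (6 / 200 : ℝ))) (n m : ℕ)
    (hm : m ≤ n + 1) : Bd (QN r ν) (∑ k ∈ range m, d k)
      (((n : ℝ) + 1) ^ 2 * (1 + (1 - r) / 200) ^ n * (2 / (1 - r)) ^ (6 / 200 : ℝ)) := by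
  have hh : 0 < 1 - r := by linarith
  refine Bd.mono (Bd.sum (QN_rn h r) (range m) fun k _ => hd k) ?_
  have h1 : ∀ k ∈ range m, ((k : ℝ) + 1) * (1 + (1 - r) / 200) ^ k *
      (2 / (1 - r)) ^ (6 / 200 : ℝ) ≤
      ((n : ℝ) + 1) * (1 + (1 - r) / 200) ^ n * (2 / (1 - r)) ^ (6 / 200 : ℝ) := by
    intro k hk
    have hk' : k ≤ n := by have := mem_range.1 hk; omega
    gcongr
    linarith
  refine (sum_le_sum h1).trans ?_
  rw [sum_const, card_range, nsmul_eq_mul]
  have h2 : (m : ℝ) ≤ (n : ℝ) + 1 := by exact_mod_cast hm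
  calc (m : ℝ) * (((n : ℝ) + 1) * (1 + (1 - r) / 200) ^ n * (2 / (1 - r)) ^ (6 / 200 : ℝ))
      ≤ ((n : ℝ) + 1) * (((n : ℝ) + 1) * (1 + (1 - r) / 200) ^ n *
        (2 / (1 - r)) ^ (6 / 200 : ℝ)) := by gcongr
    _ = _ := by ring

theorem hasSum_geo {h : ℝ} (hh : 0 < h) (c : ℝ) :
    HasSum (fun n : ℕ => c * (1 / (1 + h / 2)) ^ (n + 1)) (c * (2 / h)) := by
  have h1 : (1 / (1 + h / 2)) < 1 := by
    rw [div_lt_one (by positivity)]
    linarith
  have h2 := ((hasSum_geometric_of_lt_one (r := 1 / (1 + h / 2)) (by positivity) h1).mul_left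
    (c * (1 / (1 + h / 2))))
  have h3 : c * (1 / (1 + h / 2)) * (1 - 1 / (1 + h / 2))⁻¹ = c * (2 / h) := by
    have : 1 - 1 / (1 + h / 2) = (h / 2) / (1 + h / 2) := by field_simp; ring
    rw [this]
    field_simp
  rw [h3] at h2
  have h4 : (fun n : ℕ => c * (1 / (1 + h / 2)) ^ (n + 1)) =
      fun n : ℕ => c * (1 / (1 + h / 2)) * (1 / (1 + h / 2)) ^ n := by
    funext n
    rw [pow_succ]
    ring
  rw [h4]
  exact h2

/-- the sum over `M` -/
theorem S_bd (h : RN ν) (hr0 : 0 ≤ r) (hr1 : r < 1) {x : R}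
    (hx : Bd ν x (1 + 7 * ((1 - r) / 200))) (E d : ℕ → PowerSeries R)
    (hE : ∀ n, E n * ((1 - PowerSeries.X ^ (n + 1)) *
      (1 - PowerSeries.C x * PowerSeries.X ^ (n + 1))) = PowerSeries.X ^ (n + 1))
    (hd : ∀ n, Bd (QN r ν) (d n)
      (((n : ℝ) + 1) * (1 + (1 - r) / 200) ^ n * (2 / (1 - r)) ^ (6 / 200 : ℝ)))
    (S : PowerSeries R)
    (hS : ∀ n, ∃ s : Finset ℕ, PowerSeries.coeff n S = ∑ M ∈ s, PowerSeries.coeff n
      (E M * ((∑ k ∈ range (M + 1), d k) ^ 2 - (∑ k ∈ range M, d k) ^ 2))) :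
    Bd (QN r ν) S (4096 / (1 - r) ^ 4 * (2 / (1 - r)) ^ (12 / 200 : ℝ)) := by
  have hh : 0 < 1 - r := by linarith
  have hN := QN_rn h r
  set K := (2 / (1 - r)) ^ (12 / 200 : ℝ) with hK
  have hK0 : 0 < K := by rw [hK]; positivity
  refine Bd.tsum h _ hS (b := fun n => (2048 / (1 - r) ^ 3 * K) *
    (1 / (1 + (1 - r) / 2)) ^ (n + 1)) (fun n => ?_) ?_
  · have h1 := f_bd h hr1 d hd n (n + 1) le_rfl
    have h2 := f_bd h hr1 d hd n n (Nat.le_succ n)
    have h3 : (∑ k ∈ range (n + 1), d k) ^ 2 - (∑ k ∈ range n, d k) ^ 2 =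
        d n * (∑ k ∈ range (n + 1), d k + ∑ k ∈ range n, d k) := by
      rw [sum_range_succ]; ring
    rw [h3]
    refine Bd.mono ((den_bd h hr0 hr1 hx n (hE n)).mul hN ((hd n).mul hN (h1.add hN h2))) ?_
    have h4 := term_le hr0 hr1 n
    set A := r ^ (n + 1) / (1 - r ^ (n + 1)) ^ 2 with hA
    have hA0 : 0 ≤ A := by
      rw [hA]
      have := pow_nonneg hr0 (n + 1)
      positivity
    set b := 1 + (1 - r) / 200 with hb
    have hb1 : 1 ≤ b := by rw [hb]; linarith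
    have e1 : K = (2 / (1 - r)) ^ (6 / 200 : ℝ) * (2 / (1 - r)) ^ (6 / 200 : ℝ) := by
      rw [hK, ← Real.rpow_add (by positivity)]; norm_num
    have e2 : b ^ (2 * n) ≤ b ^ (2 * (n + 1)) := pow_le_pow_right₀ hb1 (by omega)
    calc 2 * A * (((n : ℝ) + 1) * b ^ n * (2 / (1 - r)) ^ (6 / 200 : ℝ) *
          (((n : ℝ) + 1) ^ 2 * b ^ n * (2 / (1 - r)) ^ (6 / 200 : ℝ) +
            ((n : ℝ) + 1) ^ 2 * b ^ n * (2 / (1 - r)) ^ (6 / 200 : ℝ)))
        = 4 * K * (A * ((n : ℝ) + 1) ^ 3 * b ^ (2 * n)) := by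
          rw [e1, two_mul n, pow_add]; ring
      _ ≤ 4 * K * (A * ((n : ℝ) + 1) ^ 3 * b ^ (2 * (n + 1))) := by gcongr
      _ ≤ 4 * K * (512 / (1 - r) ^ 3 * (1 / (1 + (1 - r) / 2)) ^ (n + 1)) := by gcongr
      _ = 2048 / (1 - r) ^ 3 * K * (1 / (1 + (1 - r) / 2)) ^ (n + 1) := by ring
  · have h5 := hasSum_geo hh (2048 / (1 - r) ^ 3 * K)
    have h6 : 2048 / (1 - r) ^ 3 * K * (2 / (1 - r)) = 4096 / (1 - r) ^ 4 * K := by
      field_simp
      ring
    rwa [h6] at h5

end Gr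

end Pool.Agent.Lib.MPd9449f
end

section
/-!
# Bounds for `w = 1 + u`, `x = w ^ (-2)`
-/
open Finset
open scoped ENNReal

namespace Pool.Agent.Lib.MPd9449f

namespace Gr

variable {A : Type*} [CommRing A] {ν : A → ℝ≥0∞}

theorem coeffs_x {x : PowerSeries A} (hx : x * (1 + PowerSeries.X) ^ 2 = 1) :
    PowerSeries.coeff 0 x = 1 ∧ PowerSeries.coeff 1 x = -2 ∧ PowerSeries.coeff 2 x = 3 ∧
      PowerSeries.coeff 3 x = -4 ∧ PowerSeries.coeff 4 x = 5 := by
  have h0 : x + 2 * (x * PowerSeries.X) + x * PowerSeries.X * PowerSeries.X = 1 := by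
    rw [← hx]; ring
  have e0 := congrArg (PowerSeries.coeff 0) h0
  have e1 := congrArg (PowerSeries.coeff 1) h0
  have e2 := congrArg (PowerSeries.coeff 2) h0
  have e3 := congrArg (PowerSeries.coeff 3) h0
  have e4 := congrArg (PowerSeries.coeff 4) h0
  have t : (2 : PowerSeries A) = PowerSeries.C 2 := (map_ofNat PowerSeries.C 2).symm
  rw [t] at e0 e1 e2 e3 e4
  simp only [map_add, PowerSeries.coeff_C_mul, PowerSeries.coeff_zero_mul_X,
    PowerSeries.coeff_one, if_true, mul_zero, add_zero] at e0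
  have s1 : PowerSeries.coeff 1 (x * PowerSeries.X) = PowerSeries.coeff 0 x :=
    PowerSeries.coeff_succ_mul_X 0 x
  have s2 : PowerSeries.coeff 2 (x * PowerSeries.X) = PowerSeries.coeff 1 x :=
    PowerSeries.coeff_succ_mul_X 1 x
  have s3 : PowerSeries.coeff 3 (x * PowerSeries.X) = PowerSeries.coeff 2 x :=
    PowerSeries.coeff_succ_mul_X 2 x
  have s4 : PowerSeries.coeff 4 (x * PowerSeries.X) = PowerSeries.coeff 3 x :=
    PowerSeries.coeff_succ_mul_X 3 x
  have t4 : PowerSeries.coeff 4 (x * PowerSeries.X * PowerSeries.X) = PowerSeries.coeff 2 x := by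
    rw [show (4 : ℕ) = 3 + 1 from rfl, PowerSeries.coeff_succ_mul_X, s3]
  have t1 : PowerSeries.coeff 1 (x * PowerSeries.X * PowerSeries.X) = 0 := by
    rw [show (1 : ℕ) = 0 + 1 from rfl, PowerSeries.coeff_succ_mul_X,
      PowerSeries.coeff_zero_mul_X]
  have t2 : PowerSeries.coeff 2 (x * PowerSeries.X * PowerSeries.X) = PowerSeries.coeff 0 x := by
    rw [show (2 : ℕ) = 1 + 1 from rfl, PowerSeries.coeff_succ_mul_X, s1]
  have t3 : PowerSeries.coeff 3 (x * PowerSeries.X * PowerSeries.X) = PowerSeries.coeff 1 x := by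
    rw [show (3 : ℕ) = 2 + 1 from rfl, PowerSeries.coeff_succ_mul_X, s2]
  simp only [map_add, PowerSeries.coeff_C_mul, s1, t1, PowerSeries.coeff_one, one_ne_zero,
    if_false, add_zero] at e1
  simp only [map_add, PowerSeries.coeff_C_mul, s2, t2, PowerSeries.coeff_one,
    OfNat.ofNat_ne_zero, if_false] at e2
  simp only [map_add, PowerSeries.coeff_C_mul, s3, t3, PowerSeries.coeff_one,
    OfNat.ofNat_ne_zero, if_false] at e3
  simp only [map_add, PowerSeries.coeff_C_mul, s4, t4, PowerSeries.coeff_one,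
    OfNat.ofNat_ne_zero, if_false] at e4
  rw [e0] at e1 e2
  have f1 : PowerSeries.coeff 1 x = -2 := by linear_combination e1
  rw [f1] at e2 e3
  have f2 : PowerSeries.coeff 2 x = 3 := by linear_combination e2
  rw [f2] at e3 e4
  have f3 : PowerSeries.coeff 3 x = -4 := by linear_combination e3
  rw [f3] at e4
  exact ⟨e0, f1, f2, f3, by linear_combination e4⟩

theorem Bd.natCast (h : RN ν) (n : ℕ) : Bd ν (n : A) n := by
  induction n with
  | zero => simpa using Bd.zero h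
  | succ n ih =>
    push_cast
    exact ih.add h (Bd.one h)

theorem Bd.two (h : RN ν) : Bd ν (2 : A) 2 := by simpa using Bd.natCast h 2
theorem Bd.three (h : RN ν) : Bd ν (3 : A) 3 := by simpa using Bd.natCast h 3
theorem Bd.four (h : RN ν) : Bd ν (4 : A) 4 := by simpa using Bd.natCast h 4
theorem Bd.five (h : RN ν) : Bd ν (5 : A) 5 := by simpa using Bd.natCast h 5

theorem Bd.U4 {ρ : ℝ} (hρ : 0 ≤ ρ) {f : PowerSeries A} {b0 b1 b2 b3 b4 : ℝ}
    (h0 : Bd ν (PowerSeries.coeff 0 f) b0) (h1 : Bd ν (PowerSeries.coeff 1 f) b1)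
    (h2 : Bd ν (PowerSeries.coeff 2 f) b2) (h3 : Bd ν (PowerSeries.coeff 3 f) b3)
    (h4 : Bd ν (PowerSeries.coeff 4 f) b4) :
    Bd (UN ρ 4 ν) f (b0 + b1 * ρ + b2 * ρ ^ 2 + b3 * ρ ^ 3 + b4 * ρ ^ 4) := by
  have := Bd.U (ν := ν) hρ (K := 4) (f := f) (b := fun n => match n with
    | 0 => b0
    | 1 => b1
    | 2 => b2
    | 3 => b3
    | _ => b4) (fun n hn => by
      match n, hn with
      | 0, _ => exact h0
      | 1, _ => exact h1
      | 2, _ => exact h2
      | 3, _ => exact h3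
      | 4, _ => exact h4)
  refine this.mono (le_of_eq ?_)
  simp [sum_range_succ]

theorem w_bd (h : RN ν) {ρ : ℝ} (hρ : 0 ≤ ρ) :
    Bd (UN ρ 4 ν) (1 + PowerSeries.X : PowerSeries A) (1 + ρ) := by
  refine (Bd.U4 hρ (b0 := 1) (b1 := 1) (b2 := 0) (b3 := 0) (b4 := 0) ?_ ?_ ?_ ?_ ?_).mono (by simp)
  · simpa using Bd.one h
  · have : PowerSeries.coeff 1 (1 + PowerSeries.X : PowerSeries A) = 1 := by
      simp [PowerSeries.coeff_one]
    rw [this]; exact Bd.one h
  · have : PowerSeries.coeff 2 (1 + PowerSeries.X : PowerSeries A) = 0 := by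
      simp [PowerSeries.coeff_one, PowerSeries.coeff_X]
    rw [this]; exact Bd.zero h
  · have : PowerSeries.coeff 3 (1 + PowerSeries.X : PowerSeries A) = 0 := by
      simp [PowerSeries.coeff_one, PowerSeries.coeff_X]
    rw [this]; exact Bd.zero h
  · have : PowerSeries.coeff 4 (1 + PowerSeries.X : PowerSeries A) = 0 := by
      simp [PowerSeries.coeff_one, PowerSeries.coeff_X]
    rw [this]; exact Bd.zero h

theorem x_bd (h : RN ν) {ρ : ℝ} (hρ : 0 ≤ ρ) (hρ1 : ρ ≤ 1 / 100) {x : PowerSeries A}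
    (hx : x * (1 + PowerSeries.X) ^ 2 = 1) : Bd (UN ρ 4 ν) x (1 + 3 * ρ) := by
  obtain ⟨e0, e1, e2, e3, e4⟩ := coeffs_x hx
  refine (Bd.U4 hρ (b0 := 1) (b1 := 2) (b2 := 3) (b3 := 4) (b4 := 5) ?_ ?_ ?_ ?_ ?_).mono ?_
  · rw [e0]; exact Bd.one h
  · rw [e1]; exact (Bd.two h).neg h
  · rw [e2]; exact Bd.three h
  · rw [e3]; exact (Bd.four h).neg h
  · rw [e4]; exact Bd.five h
  · have k2 : ρ ^ 2 ≤ ρ * (1 / 100) := by nlinarith
    have k3 : ρ ^ 3 ≤ ρ * (1 / 100) := by
      have : ρ ^ 3 = ρ ^ 2 * ρ := by ring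
      nlinarith [mul_nonneg hρ hρ]
    have k4 : ρ ^ 4 ≤ ρ * (1 / 100) := by
      have : ρ ^ 4 = ρ ^ 2 * ρ ^ 2 := by ring
      nlinarith [mul_nonneg hρ hρ]
    linarith

theorem one_sub_x_bd (h : RN ν) {ρ : ℝ} (hρ : 0 ≤ ρ) (hρ1 : ρ ≤ 1 / 100) {x : PowerSeries A}
    (hx : x * (1 + PowerSeries.X) ^ 2 = 1) : Bd (UN ρ 4 ν) (1 - x) (3 * ρ) := by
  obtain ⟨e0, e1, e2, e3, e4⟩ := coeffs_x hx
  refine (Bd.U4 hρ (b0 := 0) (b1 := 2) (b2 := 3) (b3 := 4) (b4 := 5) ?_ ?_ ?_ ?_ ?_).mono ?_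
  · rw [map_sub, e0]; simpa using Bd.zero h
  · rw [map_sub, e1]; simpa [PowerSeries.coeff_one] using Bd.two h
  · rw [map_sub, e2]; simpa [PowerSeries.coeff_one] using (Bd.three h).neg h
  · rw [map_sub, e3]; simpa [PowerSeries.coeff_one] using Bd.four h
  · rw [map_sub, e4]; simpa [PowerSeries.coeff_one] using (Bd.five h).neg h
  · have k2 : ρ ^ 2 ≤ ρ * (1 / 100) := by nlinarith
    have k3 : ρ ^ 3 ≤ ρ * (1 / 100) := by
      have : ρ ^ 3 = ρ ^ 2 * ρ := by ring
      nlinarith [mul_nonneg hρ hρ]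
    have k4 : ρ ^ 4 ≤ ρ * (1 / 100) := by
      have : ρ ^ 4 = ρ ^ 2 * ρ ^ 2 := by ring
      nlinarith [mul_nonneg hρ hρ]
    linarith

theorem x_sub_y_bd (h : RN ν) {ρ : ℝ} (hρ : 0 ≤ ρ) (hρ1 : ρ ≤ 1 / 100) {x y : PowerSeries A}
    (hx : x * (1 + PowerSeries.X) ^ 2 = 1) (hxy : x * y = 1) :
    Bd (UN ρ 4 ν) (x - y) (6 * ρ) := by
  obtain ⟨e0, e1, e2, e3, e4⟩ := coeffs_x hx
  have hy : y = (1 + PowerSeries.X) ^ 2 := by
    calc y = (x * (1 + PowerSeries.X) ^ 2) * y := by rw [hx, one_mul]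
      _ = (x * y) * (1 + PowerSeries.X) ^ 2 := by ring
      _ = _ := by rw [hxy, one_mul]
  have t : (2 : PowerSeries A) = PowerSeries.C 2 := (map_ofNat PowerSeries.C 2).symm
  have h0 : y = 1 + PowerSeries.C 2 * PowerSeries.X + PowerSeries.X ^ 2 := by
    rw [hy, ← t]; ring
  have y0 : PowerSeries.coeff 0 y = 1 := by rw [h0]; simp
  have y1 : PowerSeries.coeff 1 y = 2 := by
    rw [h0]; simp [PowerSeries.coeff_one, PowerSeries.coeff_X_pow]
  have y2 : PowerSeries.coeff 2 y = 1 := by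
    rw [h0]; simp [PowerSeries.coeff_one, PowerSeries.coeff_X_pow]
  have y3 : PowerSeries.coeff 3 y = 0 := by
    rw [h0]; simp [PowerSeries.coeff_one, PowerSeries.coeff_X_pow]
  have y4 : PowerSeries.coeff 4 y = 0 := by
    rw [h0]; simp [PowerSeries.coeff_one, PowerSeries.coeff_X_pow]
  refine (Bd.U4 hρ (b0 := 0) (b1 := 4) (b2 := 4) (b3 := 4) (b4 := 5) ?_ ?_ ?_ ?_ ?_).mono ?_
  · rw [map_sub, e0, y0, sub_self]; exact Bd.zero h
  · rw [map_sub, e1, y1]
    have : (-2 - 2 : A) = -4 := by norm_num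
    rw [this]; exact (Bd.four h).neg h
  · rw [map_sub, e2, y2]
    exact ((Bd.three h).sub h (Bd.one h)).mono (by norm_num)
  · rw [map_sub, e3, y3, sub_zero]; exact (Bd.four h).neg h
  · rw [map_sub, e4, y4, sub_zero]; exact Bd.five h
  · have k2 : ρ ^ 2 ≤ ρ * (1 / 100) := by nlinarith
    have k3 : ρ ^ 3 ≤ ρ * (1 / 100) := by
      have : ρ ^ 3 = ρ ^ 2 * ρ := by ring
      nlinarith [mul_nonneg hρ hρ]
    have k4 : ρ ^ 4 ≤ ρ * (1 / 100) := by
      have : ρ ^ 4 = ρ ^ 2 * ρ ^ 2 := by ring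
      nlinarith [mul_nonneg hρ hρ]
    linarith

end Gr

end Pool.Agent.Lib.MPd9449f
end

section
/-!
# Packed numbers: slots of 25 bits

`pk a m = ∑_{e<m} a_e 2^(25e)`; the operations used in the kernel computation of the finite check.
-/
open Finset

namespace Pool.Agent.Lib.MPd9449f.CertM

/-! ### Operations evaluated by the kernel -/

/-- strict evaluation -/
noncomputable def frc {β : Type} (v : ℕ) (k : ℕ → β) : β :=
  Nat.rec (k 0) (fun n _ => k (Nat.succ n)) v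

theorem frc_eq {β : Type} (v : ℕ) (k : ℕ → β) : frc v k = k v := by
  cases v <;> rfl

/-- `∑_{i<n} 2^(w i)` -/
noncomputable def geo (w n : ℕ) : ℕ :=
  Nat.div (Nat.sub (Nat.pow 2 (Nat.mul w n)) 1) (Nat.sub (Nat.pow 2 w) 1)

/-- one folding step -/
noncomputable def fd (c s h x : ℕ) : ℕ :=
  Nat.sub x (Nat.mul c (Nat.land (Nat.shiftRight x s) h))

theorem geo_eq (w n : ℕ) (hw : 1 ≤ w) : geo w n = ∑ i ∈ range n, 2 ^ (w * i) := by
  have h2 : 2 ≤ 2 ^ w := by
    calc 2 = 2 ^ 1 := by norm_num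
      _ ≤ 2 ^ w := Nat.pow_le_pow_right (by norm_num) hw
  have h := Nat.geomSum_eq h2 n
  show (2 ^ (w * n) - 1) / (2 ^ w - 1) = _
  rw [pow_mul, ← h]
  exact sum_congr rfl fun i _ => by rw [pow_mul]

/-! ### Packed sums -/

/-- `∑_{e<m} a_e 2^(25e)` -/
def pk (a : ℕ → ℕ) (m : ℕ) : ℕ := ∑ e ∈ range m, a e * 2 ^ (25 * e)

theorem pk_zero (a : ℕ → ℕ) : pk a 0 = 0 := by simp [pk]

theorem pk_succ (a : ℕ → ℕ) (m : ℕ) : pk a (m + 1) = pk a m + a m * 2 ^ (25 * m) := by
  simp [pk, sum_range_succ]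

theorem pk_add_len (a : ℕ → ℕ) (m k : ℕ) :
    pk a (m + k) = pk a m + 2 ^ (25 * m) * pk (fun e => a (m + e)) k := by
  unfold pk
  rw [sum_range_add, mul_sum]
  congr 1
  refine sum_congr rfl fun e _ => ?_
  rw [Nat.mul_add, pow_add]
  ring

theorem pk_bot (a : ℕ → ℕ) (m : ℕ) :
    pk a (m + 1) = 2 ^ 25 * pk (fun e => a (e + 1)) m + a 0 := by
  rw [add_comm m 1, pk_add_len]
  have h1 : pk a 1 = a 0 := by simp [pk]
  rw [h1, mul_one, add_comm]
  congr 2
  exact sum_congr rfl fun e _ => by simp [add_comm]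

theorem pk_congr {a b : ℕ → ℕ} {m : ℕ} (h : ∀ e, e < m → a e = b e) : pk a m = pk b m :=
  sum_congr rfl fun e he => by rw [h e (mem_range.1 he)]

theorem pk_extend {a : ℕ → ℕ} {m M : ℕ} (hM : m ≤ M) (h : ∀ e, m ≤ e → a e = 0) :
    pk a M = pk a m := by
  obtain ⟨k, rfl⟩ := Nat.exists_eq_add_of_le hM
  rw [pk_add_len]
  have : pk (fun e => a (m + e)) k = 0 := sum_eq_zero fun e _ => by
    simp [h (m + e) (Nat.le_add_right m e)]
  rw [this, mul_zero, add_zero]

theorem pk_lt {a : ℕ → ℕ} (m : ℕ) (h : ∀ e, a e < 2 ^ 25) : pk a m < 2 ^ (25 * m) := by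
  induction m with
  | zero => simp [pk_zero]
  | succ m ih =>
    rw [pk_succ]
    have h1 : a m * 2 ^ (25 * m) ≤ (2 ^ 25 - 1) * 2 ^ (25 * m) :=
      Nat.mul_le_mul_right _ (Nat.le_sub_one_of_lt (h m))
    have h2 : 2 ^ (25 * (m + 1)) = (2 ^ 25 - 1) * 2 ^ (25 * m) + 2 ^ (25 * m) := by
      rw [Nat.mul_add, pow_add]
      norm_num
      ring
    omega

theorem pk_mod {a : ℕ → ℕ} {m k : ℕ} (hk : k ≤ m) (h : ∀ e, a e < 2 ^ 25) :
    pk a m % 2 ^ (25 * k) = pk a k := by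
  obtain ⟨r, rfl⟩ := Nat.exists_eq_add_of_le hk
  rw [pk_add_len, Nat.add_mul_mod_self_left, Nat.mod_eq_of_lt (pk_lt k h)]

theorem pk_shiftRight {a : ℕ → ℕ} {m k : ℕ} (h : ∀ e, a e < 2 ^ 25) :
    pk a (k + m) >>> (25 * k) = pk (fun e => a (k + e)) m := by
  rw [Nat.shiftRight_eq_div_pow, pk_add_len, Nat.add_mul_div_left _ _ (by positivity),
    Nat.div_eq_of_lt (pk_lt k h), zero_add]

theorem pk_digit {a : ℕ → ℕ} {m e : ℕ} (he : e < m) (h : ∀ e, a e < 2 ^ 25) :
    (pk a m >>> (25 * e)) % 33554432 = a e := by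
  obtain ⟨r, rfl⟩ := Nat.exists_eq_add_of_lt he
  rw [show e + r + 1 = e + (r + 1) by ring, pk_shiftRight h, pk_bot]
  have : (33554432 : ℕ) = 2 ^ 25 := by norm_num
  rw [this, Nat.mul_add_mod, Nat.mod_eq_of_lt (h _), add_zero]

/-! ### Bit operations -/

theorem land_step (a b x y : ℕ) (ha : a < 2 ^ 25) (hb : b < 2 ^ 25) :
    (2 ^ 25 * x + a) &&& (2 ^ 25 * y + b) = 2 ^ 25 * (x &&& y) + (a &&& b) := by
  refine Nat.eq_of_testBit_eq fun i => ?_
  have hab : a &&& b < 2 ^ 25 := Nat.lt_of_le_of_lt Nat.and_le_left ha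
  rw [Nat.testBit_land, Nat.testBit_two_pow_mul_add _ ha, Nat.testBit_two_pow_mul_add _ hb,
    Nat.testBit_two_pow_mul_add _ hab]
  split_ifs <;> rw [Nat.testBit_land]

theorem pk_land (m : ℕ) : ∀ (a b : ℕ → ℕ), (∀ e, a e < 2 ^ 25) → (∀ e, b e < 2 ^ 25) →
    pk a m &&& pk b m = pk (fun e => a e &&& b e) m := by
  induction m with
  | zero => intro a b _ _; simp [pk_zero]
  | succ m ih =>
    intro a b ha hb
    rw [pk_bot, pk_bot, pk_bot, land_step _ _ _ _ (ha 0) (hb 0),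
      ih _ _ (fun e => ha _) (fun e => hb _)]

theorem hi_step (s a b x y : ℕ) (hs : s ≤ 25) (ha : a < 2 ^ 25) (hb : b < 2 ^ (25 - s)) :
    ((2 ^ 25 * x + a) >>> s) &&& (2 ^ 25 * y + b) =
      2 ^ 25 * ((x >>> s) &&& y) + ((a >>> s) &&& b) := by
  have hb' : b < 2 ^ 25 := lt_of_lt_of_le hb (Nat.pow_le_pow_right (by norm_num) (by omega))
  refine Nat.eq_of_testBit_eq fun i => ?_
  have hab : (a >>> s) &&& b < 2 ^ 25 := Nat.lt_of_le_of_lt Nat.and_le_right hb'
  rw [Nat.testBit_land, Nat.testBit_shiftRight, Nat.testBit_two_pow_mul_add _ ha,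
    Nat.testBit_two_pow_mul_add _ hb', Nat.testBit_two_pow_mul_add _ hab]
  by_cases hi : i < 25
  · by_cases hi2 : s + i < 25
    · simp only [hi, hi2, if_true, Nat.testBit_land, Nat.testBit_shiftRight]
    · have : b.testBit i = false := by
        refine Nat.testBit_lt_two_pow (lt_of_lt_of_le hb (Nat.pow_le_pow_right (by norm_num) ?_))
        omega
      simp only [hi, if_true, Nat.testBit_land, this, Bool.and_false]
  · have hi2 : ¬ (s + i < 25) := by omega
    simp only [hi, hi2, if_false, Nat.testBit_land, Nat.testBit_shiftRight]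
    rw [show s + i - 25 = s + (i - 25) by omega]

theorem pk_hi (s : ℕ) (hs : s ≤ 25) (m : ℕ) : ∀ (a b : ℕ → ℕ), (∀ e, a e < 2 ^ 25) →
    (∀ e, b e < 2 ^ (25 - s)) →
    (pk a m >>> s) &&& pk b m = pk (fun e => (a e >>> s) &&& b e) m := by
  induction m with
  | zero => intro a b _ _; simp [pk_zero]
  | succ m ih =>
    intro a b ha hb
    rw [pk_bot, pk_bot, pk_bot, hi_step s _ _ _ _ hs (ha 0) (hb 0),
      ih _ _ (fun e => ha _) (fun e => hb _)]

/-- the mask with the value `c` in the valid slots -/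
def msk (V : ℕ → Prop) [DecidablePred V] (c : ℕ) (m : ℕ) : ℕ := pk (fun e => if V e then c else 0) m

theorem msk_mul (V : ℕ → Prop) [DecidablePred V] (c m : ℕ) : c * msk V 1 m = msk V c m := by
  unfold msk pk
  rw [mul_sum]
  refine sum_congr rfl fun e _ => ?_
  by_cases h : V e <;> simp [h]

/-- folding -/
theorem fd_pk (V : ℕ → Prop) [DecidablePred V] (s : ℕ) (hs : s ≤ 25) (m : ℕ) (a : ℕ → ℕ)
    (ha : ∀ e, a e < 2 ^ 25) (hV : ∀ e, ¬ V e → a e = 0) :
    fd (2 ^ s - 1) s (msk V (2 ^ (25 - s) - 1) m) (pk a m) =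
      pk (fun e => a e % 2 ^ s + a e / 2 ^ s) m := by
  have h1 : (pk a m >>> s) &&& msk V (2 ^ (25 - s) - 1) m = pk (fun e => a e / 2 ^ s) m := by
    unfold msk
    rw [pk_hi s hs m a _ ha]
    · refine pk_congr fun e _ => ?_
      show (a e >>> s) &&& (if V e then 2 ^ (25 - s) - 1 else 0) = a e / 2 ^ s
      split_ifs with h
      · rw [Nat.and_two_pow_sub_one_eq_mod, Nat.shiftRight_eq_div_pow]
        refine Nat.mod_eq_of_lt ?_
        rw [Nat.div_lt_iff_lt_mul (by positivity), ← pow_add, Nat.sub_add_cancel hs]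
        exact ha e
      · rw [hV e h]; simp
    · intro e
      split_ifs
      · exact Nat.sub_lt (by positivity) one_pos
      · positivity
  show pk a m - (2 ^ s - 1) * ((pk a m >>> s) &&& msk V (2 ^ (25 - s) - 1) m) = _
  rw [h1]
  have h2 : pk a m = pk (fun e => a e % 2 ^ s + a e / 2 ^ s) m +
      (2 ^ s - 1) * pk (fun e => a e / 2 ^ s) m := by
    unfold pk
    rw [mul_sum, ← sum_add_distrib]
    refine sum_congr rfl fun e _ => ?_
    have h3 : a e = (a e % 2 ^ s + a e / 2 ^ s) + (2 ^ s - 1) * (a e / 2 ^ s) := by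
      have h5 : a e = 2 ^ s * (a e / 2 ^ s) + a e % 2 ^ s := (Nat.div_add_mod _ _).symm
      have h4 : 2 ^ s = (2 ^ s - 1) + 1 := (Nat.sub_add_cancel Nat.one_le_two_pow).symm
      generalize a e / 2 ^ s = u at h5 ⊢
      generalize a e % 2 ^ s = v at h5 ⊢
      rw [h5]
      generalize 2 ^ s - 1 = c at h4 ⊢
      rw [h4]
      ring
    show a e * 2 ^ (25 * e) = (a e % 2 ^ s + a e / 2 ^ s) * 2 ^ (25 * e) +
      (2 ^ s - 1) * ((a e / 2 ^ s) * 2 ^ (25 * e))
    rw [← mul_assoc, ← Nat.add_mul, ← h3]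
  omega

end Pool.Agent.Lib.MPd9449f.CertM
end

section
/-!
# Packed numbers representing sequences modulo 31
-/
open Finset Polynomial

namespace Pool.Agent.Lib.MPd9449f.CertM

theorem eval_pk {P : Polynomial ℕ} {m : ℕ} (h : ∀ e, m ≤ e → P.coeff e = 0) :
    P.eval (2 ^ 25) = pk P.coeff m := by
  have hn : P.natDegree < max m (P.natDegree + 1) := lt_of_lt_of_le (Nat.lt_succ_self _)
    (le_max_right _ _)
  rw [Polynomial.eval_eq_sum_range' hn, ← pk_extend (le_max_left m (P.natDegree + 1)) h]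
  exact sum_congr rfl fun e _ => by rw [← pow_mul]

theorem exists_poly (a : ℕ → ℕ) (m : ℕ) (h : ∀ e, m ≤ e → a e = 0) :
    ∃ P : Polynomial ℕ, (∀ e, P.coeff e = a e) ∧ P.eval (2 ^ 25) = pk a m := by
  have hc : ∀ e, (∑ i ∈ range m, Polynomial.monomial i (a i)).coeff e = a e := by
    intro e
    rw [Polynomial.finsetSum_coeff]
    simp only [Polynomial.coeff_monomial, sum_ite_eq', mem_range]
    split_ifs with he
    · rfl
    · exact (h e (not_lt.1 he)).symm
  refine ⟨_, hc, ?_⟩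
  rw [eval_pk (m := m) fun e he => by rw [hc, h e he]]
  exact pk_congr fun e _ => hc e

/-- `x` represents the sequence `t` modulo 31 in the slots `e < m` with `V e`, all slots being at
most `B` -/
def Rq (V : ℕ → Prop) (m B x : ℕ) (t : ℕ → ZMod 31) : Prop :=
  ∃ P : Polynomial ℕ, x = P.eval (2 ^ 25) ∧ (∀ e, P.coeff e ≤ B) ∧
    ∀ e, e < m → V e → ((P.coeff e : ℕ) : ZMod 31) = t e

/-- the same, all the other slots being empty -/
def Rp (V : ℕ → Prop) (m B x : ℕ) (t : ℕ → ZMod 31) : Prop :=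
  ∃ P : Polynomial ℕ, x = P.eval (2 ^ 25) ∧ (∀ e, P.coeff e ≤ B) ∧
    (∀ e, e < m → V e → ((P.coeff e : ℕ) : ZMod 31) = t e) ∧
      ∀ e, (m ≤ e ∨ ¬ V e) → P.coeff e = 0

/-- convolution over the valid slots -/
def cv (V : ℕ → Prop) [DecidablePred V] (t t' : ℕ → ZMod 31) (s : ℕ) : ZMod 31 :=
  ∑ p ∈ antidiagonal s, (if V p.1 then t p.1 else 0) * (if V p.2 then t' p.2 else 0)

section

variable {V : ℕ → Prop} {m B x : ℕ} {t : ℕ → ZMod 31}

theorem Rp.toRq (h : Rp V m B x t) : Rq V m B x t := by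
  obtain ⟨P, h1, h2, h3, -⟩ := h
  exact ⟨P, h1, h2, h3⟩

theorem Rq.mono (h : Rq V m B x t) {m' B' : ℕ} (hm : m' ≤ m) (hB : B ≤ B') : Rq V m' B' x t := by
  obtain ⟨P, h1, h2, h3⟩ := h
  exact ⟨P, h1, fun e => (h2 e).trans hB, fun e he => h3 e (he.trans_le hm)⟩

theorem Rq.congr (h : Rq V m B x t) {t' : ℕ → ZMod 31} (ht : ∀ e, e < m → V e → t e = t' e) :
    Rq V m B x t' := by
  obtain ⟨P, h1, h2, h3⟩ := h
  exact ⟨P, h1, h2, fun e he hv => (h3 e he hv).trans (ht e he hv)⟩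

theorem Rp.congr (h : Rp V m B x t) {t' : ℕ → ZMod 31} (ht : ∀ e, e < m → V e → t e = t' e) :
    Rp V m B x t' := by
  obtain ⟨P, h1, h2, h3, h4⟩ := h
  exact ⟨P, h1, h2, fun e he hv => (h3 e he hv).trans (ht e he hv), h4⟩

theorem Rp.monoB (h : Rp V m B x t) {B' : ℕ} (hB : B ≤ B') : Rp V m B' x t := by
  obtain ⟨P, h1, h2, h3, h4⟩ := h
  exact ⟨P, h1, fun e => (h2 e).trans hB, h3, h4⟩

/-- extension when the sequence vanishes beyond `m` -/
theorem Rp.extend (h : Rp V m B x t) {m' : ℕ} (hm : m ≤ m')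
    (ht : ∀ e, m ≤ e → V e → t e = 0) : Rp V m' B x t := by
  obtain ⟨P, h1, h2, h3, h4⟩ := h
  refine ⟨P, h1, h2, fun e _ hv => ?_, fun e he => h4 e ?_⟩
  · by_cases h5 : e < m
    · exact h3 e h5 hv
    · rw [h4 e (Or.inl (not_lt.1 h5)), ht e (not_lt.1 h5) hv, Nat.cast_zero]
  · rcases he with he | he
    · exact Or.inl (hm.trans he)
    · exact Or.inr he

theorem Rq.add (h : Rq V m B x t) {B' y : ℕ} {t' : ℕ → ZMod 31} (h' : Rq V m B' y t') :
    Rq V m (B + B') (Nat.add x y) (fun e => t e + t' e) := by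
  obtain ⟨P, h1, h2, h3⟩ := h
  obtain ⟨Q, g1, g2, g3⟩ := h'
  refine ⟨P + Q, ?_, fun e => ?_, fun e he hv => ?_⟩
  · rw [h1, g1, Polynomial.eval_add]; rfl
  · rw [Polynomial.coeff_add]; exact add_le_add (h2 e) (g2 e)
  · rw [Polynomial.coeff_add, Nat.cast_add, h3 e he hv, g3 e he hv]

theorem Rp.add (h : Rp V m B x t) {B' y : ℕ} {t' : ℕ → ZMod 31} (h' : Rp V m B' y t') :
    Rp V m (B + B') (Nat.add x y) (fun e => t e + t' e) := by
  obtain ⟨P, h1, h2, h3, h4⟩ := h
  obtain ⟨Q, g1, g2, g3, g4⟩ := h'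
  refine ⟨P + Q, ?_, fun e => ?_, fun e he hv => ?_, fun e he => ?_⟩
  · rw [h1, g1, Polynomial.eval_add]; rfl
  · rw [Polynomial.coeff_add]; exact add_le_add (h2 e) (g2 e)
  · rw [Polynomial.coeff_add, Nat.cast_add, h3 e he hv, g3 e he hv]
  · rw [Polynomial.coeff_add, h4 e he, g4 e he]

theorem Rq.smul (h : Rq V m B x t) (c : ℕ) :
    Rq V m (c * B) (Nat.mul c x) (fun e => (c : ZMod 31) * t e) := by
  obtain ⟨P, h1, h2, h3⟩ := h
  refine ⟨Polynomial.C c * P, ?_, fun e => ?_, fun e he hv => ?_⟩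
  · rw [h1, Polynomial.eval_mul, Polynomial.eval_C]; rfl
  · rw [Polynomial.coeff_C_mul]; exact Nat.mul_le_mul_left _ (h2 e)
  · rw [Polynomial.coeff_C_mul, Nat.cast_mul, h3 e he hv]

theorem Rp.smul (h : Rp V m B x t) (c : ℕ) :
    Rp V m (c * B) (Nat.mul c x) (fun e => (c : ZMod 31) * t e) := by
  obtain ⟨P, h1, h2, h3, h4⟩ := h
  refine ⟨Polynomial.C c * P, ?_, fun e => ?_, fun e he hv => ?_, fun e he => ?_⟩
  · rw [h1, Polynomial.eval_mul, Polynomial.eval_C]; rfl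
  · rw [Polynomial.coeff_C_mul]; exact Nat.mul_le_mul_left _ (h2 e)
  · rw [Polynomial.coeff_C_mul, Nat.cast_mul, h3 e he hv]
  · rw [Polynomial.coeff_C_mul, h4 e he, mul_zero]

/-- shift to the left by `k` slots -/
theorem Rq.shift (h : Rq V m B x t) (k : ℕ) (hV : ∀ e, k ≤ e → V e → V (e - k)) :
    Rq V (m + k) B (Nat.mul x (Nat.pow 2 (25 * k))) (fun e => if k ≤ e then t (e - k) else 0) := by
  obtain ⟨P, h1, h2, h3⟩ := h
  refine ⟨P * Polynomial.X ^ k, ?_, fun e => ?_, fun e he hv => ?_⟩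
  · rw [h1, Polynomial.eval_mul, Polynomial.eval_pow, Polynomial.eval_X, ← pow_mul]; rfl
  · rw [Polynomial.coeff_mul_X_pow']
    split_ifs
    · exact h2 _
    · exact Nat.zero_le _
  · rw [Polynomial.coeff_mul_X_pow']
    by_cases hk : k ≤ e
    · simp only [hk, if_true]
      exact h3 _ (by omega) (hV e hk hv)
    · simp only [hk, if_false, Nat.cast_zero]

theorem Rp.shift (h : Rp V m B x t) (k : ℕ) (hV : ∀ e, k ≤ e → (V e ↔ V (e - k))) :
    Rp V (m + k) B (Nat.mul x (Nat.pow 2 (25 * k))) (fun e => if k ≤ e then t (e - k) else 0) := by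
  obtain ⟨P, h1, h2, h3, h4⟩ := h
  refine ⟨P * Polynomial.X ^ k, ?_, fun e => ?_, fun e he hv => ?_, fun e he => ?_⟩
  · rw [h1, Polynomial.eval_mul, Polynomial.eval_pow, Polynomial.eval_X, ← pow_mul]; rfl
  · rw [Polynomial.coeff_mul_X_pow']
    split_ifs
    · exact h2 _
    · exact Nat.zero_le _
  · rw [Polynomial.coeff_mul_X_pow']
    by_cases hk : k ≤ e
    · simp only [hk, if_true]
      exact h3 _ (by omega) ((hV e hk).1 hv)
    · simp only [hk, if_false, Nat.cast_zero]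
  · rw [Polynomial.coeff_mul_X_pow']
    split_ifs with hk
    · refine h4 _ ?_
      rcases he with he | he
      · left; omega
      · right; exact fun h5 => he ((hV e hk).2 h5)
    · rfl

theorem Rp.zero (V : ℕ → Prop) (m B : ℕ) : Rp V m B 0 (fun _ => 0) :=
  ⟨0, by simp, fun e => by simp, fun e _ _ => by simp, fun e _ => by simp⟩

theorem Rq.zero (V : ℕ → Prop) (m B : ℕ) : Rq V m B 0 (fun _ => 0) :=
  (Rp.zero V m B).toRq

variable [DecidablePred V]

/-- the raw product -/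
theorem Rp.mul {m₁ m₂ B' y N : ℕ} {t' : ℕ → ZMod 31} (h : Rp V m₁ B x t) (h' : Rp V m₂ B' y t')
    (hm₁ : m ≤ m₁) (hm₂ : m ≤ m₂) (hN : Nat.count V m₁ ≤ N) :
    Rq V m (N * (B * B')) (Nat.mul x y) (cv V t t') := by
  obtain ⟨P, h1, h2, h3, h4⟩ := h
  obtain ⟨Q, g1, g2, g3, g4⟩ := h'
  refine ⟨P * Q, ?_, fun s => ?_, fun s hs hv => ?_⟩
  · rw [h1, g1, Polynomial.eval_mul]; rfl
  · rw [Polynomial.coeff_mul, Finset.Nat.sum_antidiagonal_eq_sum_range_succ
      (fun i j => P.coeff i * Q.coeff j)]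
    calc ∑ i ∈ range (s + 1), P.coeff i * Q.coeff (s - i)
        ≤ ∑ i ∈ range (s + 1), (if i ∈ (range m₁).filter V then B * B' else 0) := by
          refine sum_le_sum fun i _ => ?_
          split_ifs with hi
          · exact Nat.mul_le_mul (h2 _) (g2 _)
          · rw [mem_filter, mem_range, not_and_or, not_lt] at hi
            rw [h4 i hi, zero_mul]
      _ = (((range (s + 1)).filter fun i => i ∈ (range m₁).filter V).card) * (B * B') := by
          rw [← sum_filter, sum_const, smul_eq_mul]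
      _ ≤ N * (B * B') := by
          refine Nat.mul_le_mul_right _ (le_trans (card_le_card fun i hi => ?_)
            ((Nat.count_eq_card_filter_range V m₁).ge.trans hN))
          exact (mem_filter.1 hi).2
  · rw [Polynomial.coeff_mul, Nat.cast_sum]
    refine sum_congr rfl fun p hp => ?_
    have hp' := mem_antidiagonal.1 hp
    rw [Nat.cast_mul]
    congr 1
    · split_ifs with hv1
      · exact h3 _ (by omega) hv1
      · rw [h4 _ (Or.inr hv1), Nat.cast_zero]
    · split_ifs with hv1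
      · exact g3 _ (by omega) hv1
      · rw [g4 _ (Or.inr hv1), Nat.cast_zero]

/-- truncation and selection of the valid slots -/
theorem Rq.fin (h : Rq V m B x t) (hB : B < 2 ^ 25) {M : ℕ} (hM : m ≤ M) :
    Rp V m B (Nat.land (Nat.mod x (Nat.pow 2 (25 * m))) (msk V (2 ^ 25 - 1) M)) t := by
  obtain ⟨P, h1, h2, h3⟩ := h
  have hb : ∀ e, P.coeff e < 2 ^ 25 := fun e => (h2 e).trans_lt hB
  obtain ⟨Q, q1, q2⟩ := exists_poly (fun e => if e < m ∧ V e then P.coeff e else 0) m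
    (fun e he => if_neg fun h => absurd h.1 (not_lt.2 he))
  refine ⟨Q, ?_, fun e => ?_, fun e he hv => ?_, fun e he => ?_⟩
  · rw [q2]
    show (x % 2 ^ (25 * m)) &&& msk V (2 ^ 25 - 1) M = _
    have e1 : x % 2 ^ (25 * m) = pk (fun e => if e < m then P.coeff e else 0) M := by
      rw [h1, eval_pk (m := max m (P.natDegree + 1)) fun e he =>
        Polynomial.coeff_eq_zero_of_natDegree_lt
          (lt_of_lt_of_le (Nat.lt_succ_self _) ((le_max_right _ _).trans he)),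
        pk_mod (le_max_left _ _) hb, pk_extend hM]
      · exact pk_congr fun e he => (if_pos he).symm
      · intro e he
        exact if_neg (not_lt.2 he)
    rw [e1, msk, pk_land]
    · rw [← pk_extend (a := fun e => if e < m ∧ V e then P.coeff e else 0) hM
        (fun e he => if_neg fun h => absurd h.1 (not_lt.2 he))]
      refine pk_congr fun e _ => ?_
      show (if e < m then P.coeff e else 0) &&& (if V e then 2 ^ 25 - 1 else 0) =
        if e < m ∧ V e then P.coeff e else 0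
      by_cases hv : V e
      · simp only [hv, if_true, and_true]
        rw [Nat.and_two_pow_sub_one_eq_mod]
        split_ifs
        · exact Nat.mod_eq_of_lt (hb e)
        · exact Nat.zero_mod _
      · simp [hv]
    · intro e; split_ifs
      · exact hb e
      · positivity
    · intro e; split_ifs
      · norm_num
      · positivity
  · rw [q1]; split_ifs
    · exact h2 e
    · exact Nat.zero_le _
  · rw [q1, if_pos ⟨he, hv⟩]; exact h3 e he hv
  · rw [q1, if_neg]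
    rintro ⟨h5, h6⟩
    rcases he with he | he
    · omega
    · exact he h6

/-- truncation -/
theorem Rp.trunc (h : Rp V m B x t) (hB : B < 2 ^ 25) {m' : ℕ} (hm : m' ≤ m) :
    Rp V m' B (Nat.mod x (Nat.pow 2 (25 * m'))) t := by
  obtain ⟨P, h1, h2, h3, h4⟩ := h
  have hb : ∀ e, P.coeff e < 2 ^ 25 := fun e => (h2 e).trans_lt hB
  obtain ⟨Q, q1, q2⟩ := exists_poly (fun e => if e < m' then P.coeff e else 0) m'
    (fun e he => if_neg (not_lt.2 he))
  refine ⟨Q, ?_, fun e => ?_, fun e he hv => ?_, fun e he => ?_⟩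
  · rw [q2]
    show x % 2 ^ (25 * m') = _
    rw [h1, eval_pk (m := m) fun e he => h4 e (Or.inl he), pk_mod hm hb]
    exact pk_congr fun e he => (if_pos he).symm
  · rw [q1]; split_ifs
    · exact h2 e
    · exact Nat.zero_le _
  · rw [q1, if_pos he]; exact h3 e (by omega) hv
  · rw [q1]
    split_ifs with h5
    · refine h4 e ?_
      rcases he with he | he
      · omega
      · exact Or.inr he
    · rfl

/-- truncation of a `Rq` when all slots are valid -/
theorem Rq.fin' {x : ℕ} {t : ℕ → ZMod 31} (h : Rq (fun _ => True) m B x t) (hB : B < 2 ^ 25) :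
    Rp (fun _ => True) m B (Nat.mod x (Nat.pow 2 (25 * m))) t := by
  obtain ⟨P, h1, h2, h3⟩ := h
  have hb : ∀ e, P.coeff e < 2 ^ 25 := fun e => (h2 e).trans_lt hB
  obtain ⟨Q, q1, q2⟩ := exists_poly (fun e => if e < m then P.coeff e else 0) m
    (fun e he => if_neg (not_lt.2 he))
  refine ⟨Q, ?_, fun e => ?_, fun e he hv => ?_, fun e he => ?_⟩
  · rw [q2]
    show x % 2 ^ (25 * m) = _
    rw [h1, eval_pk (m := max m (P.natDegree + 1)) fun e he =>
        Polynomial.coeff_eq_zero_of_natDegree_lt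
          (lt_of_lt_of_le (Nat.lt_succ_self _) ((le_max_right _ _).trans he)),
        pk_mod (le_max_left _ _) hb]
    exact pk_congr fun e he => (if_pos he).symm
  · rw [q1]; split_ifs
    · exact h2 e
    · exact Nat.zero_le _
  · rw [q1, if_pos he]; exact h3 e he hv
  · rw [q1, if_neg]
    simpa using he

/-- folding -/
theorem Rp.fd (h : Rp V m B x t) (hB : B < 2 ^ 25) (s : ℕ) (hs : s ≤ 25) (h31 : 31 ∣ 2 ^ s - 1)
    {M : ℕ} (hM : m ≤ M) :
    Rp V m ((2 ^ s - 1) + B / 2 ^ s) (fd (2 ^ s - 1) s (msk V (2 ^ (25 - s) - 1) M) x) t := by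
  obtain ⟨P, h1, h2, h3, h4⟩ := h
  have hb : ∀ e, P.coeff e < 2 ^ 25 := fun e => (h2 e).trans_lt hB
  obtain ⟨Q, q1, q2⟩ := exists_poly (fun e => P.coeff e % 2 ^ s + P.coeff e / 2 ^ s) m
    (fun e he => by simp [h4 e (Or.inl he)])
  refine ⟨Q, ?_, fun e => ?_, fun e he hv => ?_, fun e he => ?_⟩
  · rw [q2, h1, eval_pk (m := m) fun e he => h4 e (Or.inl he),
      ← pk_extend (a := P.coeff) hM (fun e he => h4 e (Or.inl he)),
      fd_pk V s hs M P.coeff hb (fun e he => h4 e (Or.inr he)),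
      pk_extend hM]
    intro e he
    simp [h4 e (Or.inl he)]
  · rw [q1]
    refine add_le_add (Nat.le_sub_one_of_lt (Nat.mod_lt _ (by positivity))) ?_
    exact Nat.div_le_div_right (h2 e)
  · rw [q1, ← h3 e he hv]
    have h5 : P.coeff e = 2 ^ s * (P.coeff e / 2 ^ s) + P.coeff e % 2 ^ s :=
      (Nat.div_add_mod _ _).symm
    have h6 : ((2 ^ s : ℕ) : ZMod 31) = 1 := by
      have h7 : ((2 ^ s - 1 : ℕ) : ZMod 31) = 0 := (ZMod.natCast_eq_zero_iff _ _).2 h31
      rw [Nat.cast_sub Nat.one_le_two_pow, Nat.cast_one, sub_eq_zero] at h7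
      exact h7
    conv_rhs => rw [h5, Nat.cast_add, Nat.cast_mul, h6, one_mul]
    push_cast
    ring
  · rw [q1, h4 e he]; simp

/-- three foldings -/
theorem Rp.fold3 (h : Rp V m B x t) (hB : B < 2 ^ 25) {M : ℕ} (hM : m ≤ M) :
    Rp V m 63 (CertM.fd 31 5 (msk V 1048575 M) (CertM.fd 1023 10 (msk V 32767 M)
      (CertM.fd 1023 10 (msk V 32767 M) x))) t := by
  have h1 := h.fd hB 10 (by norm_num) (by norm_num) hM
  have h2 := h1.monoB (B' := 33790) (by omega)
  have h3 := (h2.fd (by norm_num) 10 (by norm_num) (by norm_num) hM).monoB (B' := 1055)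
    (by norm_num)
  have h4 := (h3.fd (by norm_num) 5 (by norm_num) (by norm_num) hM).monoB (B' := 63) (by norm_num)
  norm_num at h4
  exact h4

end

end Pool.Agent.Lib.MPd9449f.CertM
end

section
/-!
# Packed numbers representing power series over `ℤ[[u1]][[u2]]` modulo `(31, u1^3, u2^5)`

The coefficient of `q^n u1^i u2^j` is in the slot `45 n + 9 i + j`.
-/
open Finset PowerSeries

namespace Pool.Agent.Lib.MPd9449f.CertM

/-- valid slots -/
def val (e : ℕ) : Prop := e % 45 / 9 < 3 ∧ e % 9 < 5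

instance : DecidablePred val := fun e => inferInstanceAs (Decidable (e % 45 / 9 < 3 ∧ e % 9 < 5))

theorem val_add (n e : ℕ) : val (45 * n + e) ↔ val e := by
  unfold val
  have h1 : (45 * n + e) % 45 = e % 45 := by omega
  have h2 : (45 * n + e) % 9 = e % 9 := by omega
  rw [h1, h2]

theorem count_val (n : ℕ) : Nat.count val (45 * n) = 15 * n := by
  induction n with
  | zero => simp
  | succ n ih =>
    rw [Nat.mul_add, mul_one, Nat.count_add, ih]
    have : Nat.count (fun k => val (45 * n + k)) 45 = Nat.count val 45 := by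
      simp_rw [val_add]
    rw [this]
    have : Nat.count val 45 = 15 := by decide
    omega

/-! ### Masks -/

@[irreducible] noncomputable def vK : ℕ :=
  Nat.mul (Nat.mul (geo 25 5) (geo 225 3)) (geo 1125 388)
@[irreducible] noncomputable def mK : ℕ := Nat.mul 33554431 vK
@[irreducible] noncomputable def hK10 : ℕ := Nat.mul 32767 vK
@[irreducible] noncomputable def hK5 : ℕ := Nat.mul 1048575 vK

theorem rmul (a b : ℕ) : Nat.mul a b = a * b := rfl
theorem radd (a b : ℕ) : Nat.add a b = a + b := rfl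

theorem msk_shift (n : ℕ) : pk (fun e => if val (45 * n + e) then 1 else 0) 45 =
    pk (fun e => if val e then 1 else 0) 45 := by
  simp_rw [val_add]

theorem msk_val (n : ℕ) : msk val 1 (45 * n) = msk val 1 45 * ∑ i ∈ range n, 2 ^ (1125 * i) := by
  induction n with
  | zero => simp [msk, pk]
  | succ n ih =>
    have h1 : msk val 1 (45 * (n + 1)) = msk val 1 (45 * n) + 2 ^ (25 * (45 * n)) * msk val 1 45 := by
      unfold msk
      rw [Nat.mul_add, mul_one, pk_add_len, msk_shift]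
    have h2 : 25 * (45 * n) = 1125 * n := by ring
    rw [h1, h2, ih, sum_range_succ, Nat.mul_add, Nat.mul_comm (2 ^ (1125 * n))]

theorem msk_val_45 : msk val 1 45 = Nat.mul (geo 25 5) (geo 225 3) := by
  decide +kernel

theorem vK_eq : vK = msk val 1 17460 := by
  have h0 : 45 * 388 = 17460 := by norm_num
  have h1 := msk_val 388
  rw [← geo_eq _ _ (by norm_num), msk_val_45, h0] at h1
  unfold vK
  rw [rmul (Nat.mul _ _), ← h1]

theorem mK_eq : mK = msk val (2 ^ 25 - 1) 17460 := by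
  have h := msk_mul val 33554431 17460
  rw [← vK_eq, ← rmul] at h
  have h2 : (33554431 : ℕ) = 2 ^ 25 - 1 := by norm_num
  unfold mK
  rw [h, h2]

theorem hK10_eq : hK10 = msk val 32767 17460 := by
  have h := msk_mul val 32767 17460
  rw [← vK_eq, ← rmul] at h
  unfold hK10
  rw [h]

theorem hK5_eq : hK5 = msk val 1048575 17460 := by
  have h := msk_mul val 1048575 17460
  rw [← vK_eq, ← rmul] at h
  unfold hK5
  rw [h]

/-! ### Kernel operations -/

noncomputable def fdK (x : ℕ) : ℕ := fd 31 5 hK5 (fd 1023 10 hK10 (fd 1023 10 hK10 x))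

/-- product of two series to precision `P` -/
noncomputable def mulK (P x y : ℕ) : ℕ :=
  fdK (Nat.land (Nat.mod (Nat.mul x y) (Nat.pow 2 (Nat.mul 1125 P))) mK)

theorem fdK_spec {m B x : ℕ} {t : ℕ → ZMod 31} (h : Rp val m B x t) (hB : B < 2 ^ 25)
    (hm : m ≤ 17460) : Rp val m 63 (fdK x) t := by
  unfold fdK
  rw [hK5_eq, hK10_eq]
  exact h.fold3 hB hm

theorem fin_spec {P B x : ℕ} {t : ℕ → ZMod 31} (h : Rq val (45 * P) B x t) (hB : B < 2 ^ 25)
    (hP : P ≤ 388) :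
    Rp val (45 * P) 63 (fdK (Nat.land (Nat.mod x (Nat.pow 2 (Nat.mul 1125 P))) mK)) t := by
  have h1 := h.fin hB (M := 17460) (by omega)
  have h2 := fdK_spec h1 hB (by omega)
  rw [show 25 * (45 * P) = Nat.mul 1125 P by show _ = 1125 * P; ring, ← mK_eq] at h2
  exact h2

theorem mulK_spec {m₁ m₂ P x y : ℕ} {t t' : ℕ → ZMod 31} (hx : Rp val m₁ 63 x t)
    (hy : Rp val m₂ 63 y t') (h1 : 45 * P ≤ m₁) (h2 : 45 * P ≤ m₂) (h3 : m₁ ≤ 17460) :
    Rp val (45 * P) 63 (mulK P x y) (cv val t t') := by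
  refine fin_spec (hx.mul hy h1 h2 (N := 5820) ?_) (by norm_num) (by omega)
  calc Nat.count val m₁ ≤ Nat.count val (45 * 388) := Nat.count_monotone _ (by omega)
    _ = 15 * 388 := count_val _
    _ ≤ 5820 := by norm_num

/-! ### Coefficients -/

/-- the coefficient of `q^n u1^i u2^j` modulo 31 -/
noncomputable def dg (f : PowerSeries R2) (n i j : ℕ) : ZMod 31 := ((cf i j (coeff n f) : ℤ) : ZMod 31)

/-- the sequence of coefficients -/
noncomputable def tg (f : PowerSeries R2) (e : ℕ) : ZMod 31 := dg f (e / 45) (e % 45 / 9) (e % 9)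

theorem dg_add (f g : PowerSeries R2) (n i j : ℕ) : dg (f + g) n i j = dg f n i j + dg g n i j := by
  simp [dg, cf]

theorem dg_mul (f g : PowerSeries R2) (n i j : ℕ) : dg (f * g) n i j =
    ∑ p ∈ antidiagonal n, ∑ r ∈ antidiagonal j, ∑ q ∈ antidiagonal i,
      dg f p.1 q.1 r.1 * dg g p.2 q.2 r.2 := by
  unfold dg cf
  rw [PowerSeries.coeff_mul, map_sum, map_sum, Int.cast_sum]
  refine sum_congr rfl fun p _ => ?_
  rw [PowerSeries.coeff_mul, map_sum, Int.cast_sum]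
  refine sum_congr rfl fun r _ => ?_
  rw [PowerSeries.coeff_mul, Int.cast_sum]
  refine sum_congr rfl fun q _ => ?_
  rw [Int.cast_mul]

theorem tg_add (f g : PowerSeries R2) : tg (f + g) = fun e => tg f e + tg g e := by
  funext e; exact dg_add _ _ _ _ _

theorem tg_zero : tg 0 = fun _ => 0 := by
  funext e; simp [tg, dg, cf]

theorem tg_mul (f g : PowerSeries R2) (s : ℕ) (hs : val s) :
    cv val (tg f) (tg g) s = tg (f * g) s := by
  unfold tg cv
  have hL : dg (f * g) (s / 45) (s % 45 / 9) (s % 9) =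
      ∑ z ∈ antidiagonal (s / 45) ×ˢ (antidiagonal (s % 9) ×ˢ antidiagonal (s % 45 / 9)),
        dg f z.1.1 z.2.2.1 z.2.1.1 * dg g z.1.2 z.2.2.2 z.2.1.2 := by
    rw [dg_mul, sum_product]
    refine sum_congr rfl fun p _ => ?_
    rw [sum_product]
  rw [hL]
  symm
  have hs1 : s % 45 / 9 < 3 := hs.1
  have hs2 : s % 9 < 5 := hs.2
  refine Finset.sum_of_injOn
    (fun z : (ℕ × ℕ) × (ℕ × ℕ) × (ℕ × ℕ) =>
      (45 * z.1.1 + 9 * z.2.2.1 + z.2.1.1, 45 * z.1.2 + 9 * z.2.2.2 + z.2.1.2)) ?_ ?_ ?_ ?_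
  · rintro ⟨⟨a, a'⟩, ⟨b, b'⟩, ⟨c, c'⟩⟩ h1 ⟨⟨d, d'⟩, ⟨e, e'⟩, ⟨k, k'⟩⟩ h2 h3
    simp only [coe_product, Set.mem_prod, mem_coe, HasAntidiagonal.mem_antidiagonal] at h1 h2
    simp only [Prod.mk.injEq] at h3 ⊢
    omega
  · rintro ⟨⟨a, a'⟩, ⟨b, b'⟩, ⟨c, c'⟩⟩ h1
    simp only [coe_product, Set.mem_prod, mem_coe, HasAntidiagonal.mem_antidiagonal] at h1 ⊢
    omega
  · rintro ⟨a, a'⟩ h1 h2
    rw [HasAntidiagonal.mem_antidiagonal] at h1
    dsimp only at h1 ⊢
    by_cases ha : val a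
    · by_cases ha' : val a'
      · exfalso
        apply h2
        have ha1 : a % 45 / 9 < 3 := ha.1
        have ha2 : a % 9 < 5 := ha.2
        have hb1 : a' % 45 / 9 < 3 := ha'.1
        have hb2 : a' % 9 < 5 := ha'.2
        refine ⟨((a / 45, a' / 45), (a % 9, a' % 9), (a % 45 / 9, a' % 45 / 9)), ?_, ?_⟩
        · simp only [coe_product, Set.mem_prod, mem_coe, HasAntidiagonal.mem_antidiagonal]
          omega
        · simp only [Prod.mk.injEq]
          omega
      · rw [if_neg ha', mul_zero]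
    · rw [if_neg ha, zero_mul]
  · rintro ⟨⟨a, a'⟩, ⟨b, b'⟩, ⟨c, c'⟩⟩ h1
    simp only [mem_product, HasAntidiagonal.mem_antidiagonal] at h1
    dsimp only
    have v1 : val (45 * a + 9 * c + b) := by unfold val; omega
    have v2 : val (45 * a' + 9 * c' + b') := by unfold val; omega
    rw [if_pos v1, if_pos v2]
    have e1 : (45 * a + 9 * c + b) / 45 = a := by omega
    have e2 : (45 * a + 9 * c + b) % 45 / 9 = c := by omega
    have e3 : (45 * a + 9 * c + b) % 9 = b := by omega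
    have e4 : (45 * a' + 9 * c' + b') / 45 = a' := by omega
    have e5 : (45 * a' + 9 * c' + b') % 45 / 9 = c' := by omega
    have e6 : (45 * a' + 9 * c' + b') % 9 = b' := by omega
    rw [e1, e2, e3, e4, e5, e6]

end Pool.Agent.Lib.MPd9449f.CertM
end

section
/-!
# Packed numbers: substitution `q ↦ q^a`, tables of powers
-/
open Finset PowerSeries

namespace Pool.Agent.Lib.MPd9449f.CertM

/-! ### Appending blocks -/

theorem Rp.append {V : ℕ → Prop} {m m' B x y : ℕ} {t t' : ℕ → ZMod 31} (h : Rp V m B x t)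
    (h' : Rp V m' B y t') (hV : ∀ e, V (m + e) ↔ V e)
    (ht : ∀ e, e < m' → V e → t (m + e) = t' e) :
    Rp V (m + m') B (Nat.add x (Nat.mul y (Nat.pow 2 (25 * m)))) t := by
  obtain ⟨P, h1, h2, h3, h4⟩ := h
  obtain ⟨Q, g1, g2, g3, g4⟩ := h'
  have hc : ∀ e, (P + Q * Polynomial.X ^ m).coeff e =
      if m ≤ e then Q.coeff (e - m) else P.coeff e := by
    intro e
    rw [Polynomial.coeff_add, Polynomial.coeff_mul_X_pow']
    split_ifs with he
    · rw [h4 e (Or.inl he), zero_add]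
    · rw [add_zero]
  refine ⟨P + Q * Polynomial.X ^ m, ?_, fun e => ?_, fun e he hv => ?_, fun e he => ?_⟩
  · rw [h1, g1, Polynomial.eval_add, Polynomial.eval_mul, Polynomial.eval_pow,
      Polynomial.eval_X, ← pow_mul]
    rfl
  · rw [hc]; split_ifs
    · exact g2 _
    · exact h2 _
  · rw [hc]
    split_ifs with hm
    · obtain ⟨d, rfl⟩ := Nat.exists_eq_add_of_le hm
      rw [Nat.add_sub_cancel_left, g3 d (by omega) ((hV d).1 hv), ht d (by omega) ((hV d).1 hv)]
    · exact h3 e (not_le.1 hm) hv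
  · rw [hc]
    split_ifs with hm
    · obtain ⟨d, rfl⟩ := Nat.exists_eq_add_of_le hm
      rw [Nat.add_sub_cancel_left]
      refine g4 d ?_
      rcases he with he | he
      · left; omega
      · right; exact fun h => he ((hV d).2 h)
    · refine h4 e ?_
      rcases he with he | he
      · left; omega
      · exact Or.inr he

/-- extraction of blocks -/
theorem Rp.block {V : ℕ → Prop} {m B x k w : ℕ} {t : ℕ → ZMod 31} (h : Rp V m B x t)
    (hB : B < 2 ^ 25) (hV : ∀ e, V (k + e) ↔ V e) (hk : k + w ≤ m) :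
    Rp V w B (Nat.mod (Nat.shiftRight x (25 * k)) (Nat.pow 2 (25 * w))) (fun e => t (k + e)) := by
  obtain ⟨P, h1, h2, h3, h4⟩ := h
  have hb : ∀ e, P.coeff e < 2 ^ 25 := fun e => (h2 e).trans_lt hB
  obtain ⟨Q, q1, q2⟩ := exists_poly (fun e => if e < w then P.coeff (k + e) else 0) w
    (fun e he => if_neg (not_lt.2 he))
  refine ⟨Q, ?_, fun e => ?_, fun e he hv => ?_, fun e he => ?_⟩
  · rw [q2]
    show (x >>> (25 * k)) % 2 ^ (25 * w) = _
    obtain ⟨r, hr⟩ := Nat.exists_eq_add_of_le hk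
    rw [h1, eval_pk (m := m) fun e he => h4 e (Or.inl he), hr, add_assoc, pk_shiftRight hb,
      pk_mod (Nat.le_add_right w r) fun e => hb _]
    exact pk_congr fun e he => (if_pos he).symm
  · rw [q1]; split_ifs
    · exact h2 _
    · exact Nat.zero_le _
  · rw [q1, if_pos he]; exact h3 _ (by omega) ((hV e).2 hv)
  · rw [q1]
    split_ifs with h5
    · refine h4 _ ?_
      rcases he with he | he
      · omega
      · exact Or.inr fun h => he ((hV e).1 h)
    · rfl

/-! ### Series -/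

/-- `x` represents the first `P` coefficients of `f` -/
def RK (P x : ℕ) (f : PowerSeries R2) : Prop := Rp val (45 * P) 63 x (tg f)

theorem tg_congr {f g : PowerSeries R2} {P : ℕ} (h : ∀ n, n < P → coeff n f = coeff n g) {e : ℕ}
    (he : e < 45 * P) : tg f e = tg g e := by
  unfold tg dg
  rw [h (e / 45) (by omega)]

theorem RK.congr {P x : ℕ} {f g : PowerSeries R2} (hf : RK P x f)
    (h : ∀ n, n < P → coeff n f = coeff n g) : RK P x g :=
  Rp.congr hf fun e he _ => tg_congr h he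

theorem RK.mul {P P₁ P₂ x y : ℕ} {f g : PowerSeries R2} (hf : RK P₁ x f) (hg : RK P₂ y g)
    (h1 : P ≤ P₁) (h2 : P ≤ P₂) (h3 : P₁ ≤ 388) : RK P (mulK P x y) (f * g) :=
  (mulK_spec hf hg (by omega) (by omega) (by omega)).congr fun e _ hv => tg_mul f g e hv

theorem RK.trunc {P P' x : ℕ} {f : PowerSeries R2} (hf : RK P x f) (h : P' ≤ P) :
    RK P' (Nat.mod x (Nat.pow 2 (Nat.mul 1125 P'))) f := by
  have h1 := Rp.trunc hf (by norm_num) (m' := 45 * P') (by omega)
  rw [show 25 * (45 * P') = Nat.mul 1125 P' by rw [rmul]; ring] at h1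
  exact h1

theorem RK.addf {P x y : ℕ} {f g : PowerSeries R2} (hf : RK P x f) (hg : RK P y g)
    (hP : P ≤ 388) : RK P (fdK (Nat.add x y)) (f + g) := by
  have h1 := fdK_spec (Rp.add hf hg) (by norm_num) (by omega)
  rw [← tg_add] at h1
  exact h1

theorem tg_neg (f : PowerSeries R2) (e : ℕ) : tg (-f) e = ((30 : ℕ) : ZMod 31) * tg f e := by
  have h30 : ((30 : ℕ) : ZMod 31) = -1 := by decide
  rw [h30]
  simp [tg, dg, cf]

theorem RK.negf {P x : ℕ} {f : PowerSeries R2} (hf : RK P x f) (hP : P ≤ 388) :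
    RK P (fdK (Nat.mul 30 x)) (-f) := by
  have h1 := fdK_spec (Rp.smul hf 30) (by norm_num) (by omega)
  exact h1.congr fun e _ _ => (tg_neg f e).symm

theorem tg_C_ge (r : R2) {e : ℕ} (he : 45 ≤ e) : tg (C r) e = 0 := by
  unfold tg dg
  rw [PowerSeries.coeff_C, if_neg (by omega)]
  simp [cf]

theorem RK.ext {P x : ℕ} {r : R2} (hf : RK 1 x (C r)) (hP : 1 ≤ P) : RK P x (C r) :=
  Rp.extend hf (by omega) fun _ he _ => tg_C_ge r (by omega)

theorem tg_shift (a : ℕ) (f : PowerSeries R2) (e : ℕ) :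
    tg (X ^ a * f) e = if 45 * a ≤ e then tg f (e - 45 * a) else 0 := by
  unfold tg dg
  rw [PowerSeries.coeff_X_pow_mul']
  by_cases h : 45 * a ≤ e
  · rw [if_pos h, if_pos (by omega)]
    have h1 : e / 45 - a = (e - 45 * a) / 45 := by omega
    have h2 : e % 45 / 9 = (e - 45 * a) % 45 / 9 := by omega
    have h3 : e % 9 = (e - 45 * a) % 9 := by omega
    rw [h1, h2, h3]
  · rw [if_neg h, if_neg (by omega)]
    simp [cf]

theorem val_sub (a e : ℕ) (h : 45 * a ≤ e) : val e ↔ val (e - 45 * a) := by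
  obtain ⟨d, rfl⟩ := Nat.exists_eq_add_of_le h
  rw [Nat.add_sub_cancel_left, val_add]

/-! ### The substitution `q ↦ q^a` -/

/-- `∑_{k<n} (coefficient of q^k in R) q^(ak)` -/
noncomputable def expd (R a n : ℕ) : ℕ :=
  Nat.rec 0 (fun k ih => Nat.add ih (Nat.mul
    (Nat.mod (Nat.shiftRight R (Nat.mul 1125 k)) (Nat.pow 2 1125))
    (Nat.pow 2 (Nat.mul (Nat.mul 1125 a) k)))) n

theorem expd_succ (R a n : ℕ) : expd R a (n + 1) = Nat.add (expd R a n) (Nat.mul
    (Nat.mod (Nat.shiftRight R (Nat.mul 1125 n)) (Nat.pow 2 1125))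
    (Nat.pow 2 (Nat.mul (Nat.mul 1125 a) n))) := rfl

theorem expd_spec {N R a : ℕ} {r : PowerSeries R2} (h : RK N R r) (ha : a ≠ 0) (n : ℕ)
    (hn : n ≤ N) : RK (a * n) (expd R a n) (PowerSeries.expand a ha r) := by
  induction n with
  | zero => exact (Rp.zero val (45 * (a * 0)) 63).congr fun e he _ => by omega
  | succ n ih =>
    have ih := ih (by omega)
    have hb := Rp.block (w := 45) h (by norm_num) (fun e => val_add n e) (by omega)
    -- the block represents the constant `coeff n r`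
    have hc : RK 1 (Nat.mod (Nat.shiftRight R (Nat.mul 1125 n)) (Nat.pow 2 1125))
        (C (coeff n r)) := by
      have e1 : 25 * (45 * n) = Nat.mul 1125 n := by rw [rmul]; ring
      have e2 : 25 * 45 = 1125 := by norm_num
      rw [e1, e2] at hb
      refine Rp.congr hb fun e he _ => ?_
      unfold tg dg
      have h1 : (45 * n + e) / 45 = n := by omega
      have h2 : (45 * n + e) % 45 / 9 = e % 45 / 9 := by omega
      have h3 : (45 * n + e) % 9 = e % 9 := by omega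
      have h4 : e / 45 = 0 := by omega
      rw [h1, h2, h3, h4, PowerSeries.coeff_C, if_pos rfl]
    have hc' : RK a _ (C (coeff n r)) := hc.ext (by omega)
    have := Rp.append ih hc' (fun e => val_add (a * n) e) ?_
    · rw [expd_succ]
      have e1 : 25 * (45 * (a * n)) = Nat.mul (Nat.mul 1125 a) n := by rw [rmul, rmul]; ring
      have e2 : 45 * (a * n) + 45 * a = 45 * (a * (n + 1)) := by ring
      rw [e1, e2] at this
      exact this
    · intro e he _
      unfold tg dg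
      rw [PowerSeries.coeff_expand]
      have h1 : (45 * (a * n) + e) / 45 = a * n + e / 45 := by omega
      have h2 : (45 * (a * n) + e) % 45 / 9 = e % 45 / 9 := by omega
      have h3 : (45 * (a * n) + e) % 9 = e % 9 := by omega
      rw [h1, h2, h3]
      by_cases h4 : e / 45 = 0
      · rw [h4, add_zero, if_pos (Dvd.intro n rfl), Nat.mul_div_cancel_left _ (by omega),
          PowerSeries.coeff_C, if_pos rfl]
      · have h5 : ¬ a ∣ a * n + e / 45 := by
          intro h6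
          have h7 : a ∣ e / 45 := (Nat.dvd_add_right (Dvd.intro n rfl)).1 h6
          have h8 := Nat.le_of_dvd (by omega) h7
          omega
        rw [if_neg h5, PowerSeries.coeff_C, if_neg h4]

/-- number of blocks -/
noncomputable def nt (P a : ℕ) : ℕ := Nat.div (Nat.sub (Nat.add P a) 1) a

theorem nt_spec (P a : ℕ) (ha : 1 ≤ a) : P ≤ a * nt P a ∧ nt P a ≤ P := by
  show P ≤ a * ((P + a - 1) / a) ∧ (P + a - 1) / a ≤ P
  have h1 := Nat.div_add_mod (P + a - 1) a
  have h2 := Nat.mod_lt (P + a - 1) (show 0 < a by omega)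
  constructor
  · omega
  · rw [Nat.div_le_iff_le_mul_add_pred (by omega)]
    have h3 := Nat.mul_le_mul_right P ha
    omega

/-! ### Tables of powers -/

/-- `∑_{k<n} c^k q^k` -/
noncomputable def gtab (c n : ℕ) : ℕ :=
  Nat.rec (motive := fun _ => ℕ → ℕ → ℕ → ℕ) (fun _ _ y => y)
    (fun _ ih k P y => frc (mulK 1 P c) fun P' =>
      frc (Nat.add y (Nat.mul P (Nat.pow 2 (Nat.mul 1125 k)))) fun y' =>
      frc (Nat.succ k) fun k' => ih k' P' y') n 0 1 0

/-- the recursion of `gtab` -/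
noncomputable def gtabL (c n : ℕ) : ℕ → ℕ → ℕ → ℕ :=
  Nat.rec (motive := fun _ => ℕ → ℕ → ℕ → ℕ) (fun _ _ y => y)
    (fun _ ih k P y => frc (mulK 1 P c) fun P' =>
      frc (Nat.add y (Nat.mul P (Nat.pow 2 (Nat.mul 1125 k)))) fun y' =>
      frc (Nat.succ k) fun k' => ih k' P' y') n

theorem gtabL_succ (c n k P y : ℕ) : gtabL c (n + 1) k P y =
    gtabL c n (k + 1) (mulK 1 P c) (Nat.add y (Nat.mul P (Nat.pow 2 (Nat.mul 1125 k)))) := by
  show frc (mulK 1 P c) (fun P' =>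
      frc (Nat.add y (Nat.mul P (Nat.pow 2 (Nat.mul 1125 k)))) fun y' =>
      frc (Nat.succ k) fun k' => gtabL c n k' P' y') = _
  rw [frc_eq, frc_eq, frc_eq]

theorem gtabL_spec {c : ℕ} {r : R2} (hc : RK 1 c (C r)) (n : ℕ) : ∀ k P y : ℕ,
    RK 1 P (C (r ^ k)) → RK k y (ig r 1) → RK (n + k) (gtabL c n k P y) (ig r 1) := by
  induction n with
  | zero => intro k P y _ hy; rw [zero_add]; exact hy
  | succ n ih =>
    intro k P y hP hy
    rw [gtabL_succ, show n + 1 + k = n + (k + 1) by ring]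
    refine ih _ _ _ ?_ ?_
    · have := RK.mul (P := 1) hP hc le_rfl le_rfl (by norm_num)
      rw [← map_mul, ← pow_succ] at this
      exact this
    · have := Rp.append hy hP (fun e => val_add k e) ?_
      · have e1 : 25 * (45 * k) = Nat.mul 1125 k := by rw [rmul]; ring
        have e2 : 45 * k + 45 * 1 = 45 * (k + 1) := by ring
        rw [e1, e2] at this
        exact this
      · intro e he _
        unfold tg dg
        have h1 : (45 * k + e) / 45 = k := by omega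
        have h2 : (45 * k + e) % 45 / 9 = e % 45 / 9 := by omega
        have h3 : (45 * k + e) % 9 = e % 9 := by omega
        have h4 : e / 45 = 0 := by omega
        rw [h1, h2, h3, h4, PowerSeries.coeff_C, if_pos rfl]
        simp [ig]

theorem RK_one : RK 1 1 (C 1) := by
  refine ⟨1, by simp, fun e => ?_, fun e he hv => ?_, fun e he => ?_⟩
  · rw [Polynomial.coeff_one]; split_ifs <;> norm_num
  · unfold tg dg
    rw [Polynomial.coeff_one]
    have h4 : e / 45 = 0 := by omega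
    have h5 := hv.1
    have h6 := hv.2
    rw [h4, PowerSeries.coeff_C, if_pos rfl, cf, PowerSeries.coeff_one]
    by_cases h7 : e = 0
    · subst h7; simp
    · rw [if_neg h7]
      by_cases h8 : e % 9 = 0
      · rw [if_pos h8, PowerSeries.coeff_one, if_neg (by omega)]
        simp
      · rw [if_neg h8]
        simp
  · rw [Polynomial.coeff_one, if_neg]
    rintro rfl
    rcases he with he | he
    · omega
    · exact he (by decide)

theorem gtab_spec {c : ℕ} {r : R2} (hc : RK 1 c (C r)) (n : ℕ) : RK n (gtab c n) (ig r 1) := by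
  have := gtabL_spec hc n 0 1 0 (by rw [pow_zero]; exact RK_one)
    ((Rp.zero val (45 * 0) 63).congr fun e he _ => by omega)
  exact this

end Pool.Agent.Lib.MPd9449f.CertM
end

section
/-!
# Packed Eisenstein series modulo 31
-/
open Finset PowerSeries

namespace Pool.Agent.Lib.MPd9449f.CertM

/-- all slots are valid -/
def tr (_ : ℕ) : Prop := True

instance : DecidablePred tr := fun _ => isTrue trivial

/-- `x` represents `f` to precision 388 -/
def R1 (x : ℕ) (f : PowerSeries (ZMod 31)) : Prop := Rp tr 388 63 x (fun e => coeff e f)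

@[irreducible] noncomputable def v1 : ℕ := geo 25 388
@[irreducible] noncomputable def h10 : ℕ := Nat.mul 32767 v1
@[irreducible] noncomputable def h5 : ℕ := Nat.mul 1048575 v1

theorem v1_eq : v1 = msk tr 1 388 := by
  unfold v1 msk pk
  rw [geo_eq _ _ (by norm_num)]
  refine sum_congr rfl fun e _ => ?_
  beta_reduce
  rw [if_pos (show tr e from trivial), one_mul]

theorem h10_eq : h10 = msk tr 32767 388 := by
  have h := msk_mul tr 32767 388
  rw [← v1_eq, ← rmul] at h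
  unfold h10
  rw [h]

theorem h5_eq : h5 = msk tr 1048575 388 := by
  have h := msk_mul tr 1048575 388
  rw [← v1_eq, ← rmul] at h
  unfold h5
  rw [h]

noncomputable def fd1 (x : ℕ) : ℕ := fd 31 5 h5 (fd 1023 10 h10 (fd 1023 10 h10 x))

noncomputable def mul1 (x y : ℕ) : ℕ := fd1 (Nat.mod (Nat.mul x y) (Nat.pow 2 9700))

theorem fd1_spec {B x : ℕ} {t : ℕ → ZMod 31} (h : Rp tr 388 B x t) (hB : B < 2 ^ 25) :
    Rp tr 388 63 (fd1 x) t := by
  unfold fd1
  rw [h5_eq, h10_eq]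
  exact h.fold3 hB le_rfl

theorem mul1_spec {x y : ℕ} {f g : PowerSeries (ZMod 31)} (hx : R1 x f) (hy : R1 y g) :
    R1 (mul1 x y) (f * g) := by
  have h1 := Rp.mul (N := 388) hx hy le_rfl le_rfl (Nat.count_le _)
  have h2 := Rq.fin' h1 (by norm_num)
  have h3 := fd1_spec h2 (by norm_num)
  have e1 : 25 * 388 = 9700 := by norm_num
  rw [e1] at h3
  refine Rp.congr h3 fun e _ _ => ?_
  rw [PowerSeries.coeff_mul]
  exact sum_congr rfl fun p _ => by
    rw [if_pos (show tr p.1 from trivial), if_pos (show tr p.2 from trivial)]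

theorem R1_one : R1 1 1 := by
  refine ⟨1, by simp, fun e => ?_, fun e he hv => ?_, fun e he => ?_⟩
  · rw [Polynomial.coeff_one]; split_ifs <;> norm_num
  · beta_reduce
    rw [Polynomial.coeff_one, PowerSeries.coeff_one]
    split_ifs <;> simp
  · rw [Polynomial.coeff_one, if_neg]
    rintro rfl
    rcases he with he | he
    · omega
    · exact he trivial

/-! ### `∑ σ_k(n) q^n` -/

theorem geo1_spec (a : ℕ) (ha : 1 ≤ a) : Rp tr 388 1 (Nat.sub (geo (Nat.mul 25 a) (nt 388 a)) 1)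
    (fun e => if e ≠ 0 ∧ a ∣ e then 1 else 0) := by
  obtain ⟨P, q1, q2⟩ := exists_poly (fun e => if e < 388 ∧ e ≠ 0 ∧ a ∣ e then 1 else 0) 388
    (fun e he => if_neg fun h => absurd h.1 (not_lt.2 he))
  have hnt := nt_spec 388 a ha
  have hn1 : 1 ≤ nt 388 a := by
    by_contra h
    have : nt 388 a = 0 := by omega
    rw [this] at hnt
    omega
  have hlt : a * (nt 388 a - 1) < 388 := by
    show a * ((388 + a - 1) / a - 1) < 388
    have h1 := Nat.div_add_mod (388 + a - 1) a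
    have h2 : 1 ≤ (388 + a - 1) / a := hn1
    generalize (388 + a - 1) / a = u at *
    obtain ⟨v, rfl⟩ := Nat.exists_eq_add_of_le h2
    rw [Nat.add_sub_cancel_left]
    rw [Nat.mul_add] at h1
    omega
  refine ⟨P, ?_, fun e => ?_, fun e he _ => ?_, fun e he => ?_⟩
  · rw [q2]
    show geo (25 * a) (nt 388 a) - 1 = _
    rw [geo_eq _ _ (by omega)]
    obtain ⟨m, hm⟩ := Nat.exists_eq_add_of_le hn1
    rw [hm, sum_range_add]
    simp only [sum_range_one, mul_zero, pow_zero, Nat.add_sub_cancel_left]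
    unfold pk
    refine Finset.sum_of_injOn (fun i => a * (1 + i)) ?_ ?_ ?_ ?_
    · intro i _ j _ hij
      have h3 : a * (1 + i) = a * (1 + j) := hij
      have h4 := Nat.eq_of_mul_eq_mul_left (by omega : 0 < a) h3
      omega
    · intro i hi
      rw [mem_coe, mem_range] at hi ⊢
      have h3 : a * (1 + i) ≤ a * (nt 388 a - 1) := Nat.mul_le_mul_left _ (by omega)
      show a * (1 + i) < 388
      omega
    · intro e he h
      beta_reduce
      rw [if_neg, zero_mul]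
      rintro ⟨h1, h2, k, rfl⟩
      apply h
      have hk : k ≠ 0 := by rintro rfl; simp at h2
      refine ⟨k - 1, ?_, ?_⟩
      · rw [mem_coe, mem_range]
        have h5 : a * k < a * nt 388 a := lt_of_lt_of_le h1 hnt.1
        have h6 := Nat.lt_of_mul_lt_mul_left h5
        omega
      · show a * (1 + (k - 1)) = a * k
        congr 1; omega
    · intro i hi
      rw [mem_range] at hi
      have h3 : a * (1 + i) ≤ a * (nt 388 a - 1) := Nat.mul_le_mul_left _ (by omega)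
      have h4 : 1 ≤ a * (1 + i) := Nat.mul_pos (by omega) (by omega)
      beta_reduce
      rw [if_pos ⟨by omega, by omega, Dvd.intro _ rfl⟩, one_mul, mul_assoc]
  · rw [q1]; split_ifs <;> norm_num
  · rw [q1]
    beta_reduce
    by_cases h : e ≠ 0 ∧ a ∣ e
    · rw [if_pos ⟨he, h⟩, if_pos h, Nat.cast_one]
    · rw [if_neg (fun h' => h h'.2), if_neg h, Nat.cast_zero]
  · rw [q1, if_neg]
    rcases he with he | he
    · exact fun h => absurd h.1 (not_lt.2 he)
    · exact absurd trivial he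

noncomputable def sgn (k n : ℕ) : ℕ := Nat.rec 0 (fun d ih => Nat.add ih
  (Nat.mul (Nat.mod (Nat.pow (Nat.succ d) k) 31)
    (Nat.sub (geo (Nat.mul 25 (Nat.succ d)) (nt 388 (Nat.succ d))) 1))) n

noncomputable def sg (k : ℕ) : ℕ := fd1 (sgn k 387)

theorem sgn_spec (k n : ℕ) : Rp tr 388 (30 * n) (sgn k n) (fun e => ∑ d ∈ range n,
    if e ≠ 0 ∧ (d + 1) ∣ e then ((d + 1 : ℕ) : ZMod 31) ^ k else 0) := by
  induction n with
  | zero => exact (Rp.zero _ _ _).congr fun e _ _ => by simp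
  | succ n ih =>
    have h1 := (Rp.smul (geo1_spec (n + 1) (by omega)) ((n + 1) ^ k % 31)).monoB (B' := 30) (by
      have := Nat.mod_lt ((n + 1) ^ k) (show 0 < 31 by norm_num)
      omega)
    have h2 := ih.add h1
    have h3 : 30 * n + 30 = 30 * (n + 1) := by ring
    rw [h3] at h2
    refine Rp.congr h2 fun e _ _ => ?_
    rw [sum_range_succ]
    congr 1
    rw [ZMod.natCast_mod, Nat.cast_pow]
    by_cases h : e ≠ 0 ∧ (n + 1) ∣ e
    · rw [if_pos h, if_pos h, mul_one]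
    · rw [if_neg h, if_neg h, mul_zero]

theorem sum_divisors_eq (k e : ℕ) (he : e < 388) :
    (∑ d ∈ range 387, if e ≠ 0 ∧ (d + 1) ∣ e then ((d + 1 : ℕ) : ZMod 31) ^ k else 0) =
      ((ArithmeticFunction.sigma k e : ℕ) : ZMod 31) := by
  rw [ArithmeticFunction.sigma_apply, Nat.cast_sum]
  symm
  refine Finset.sum_of_injOn (fun i => i - 1) ?_ ?_ ?_ ?_
  · intro i hi j hj hij
    rw [mem_coe] at hi hj
    have h1 := Nat.pos_of_mem_divisors hi
    have h2 := Nat.pos_of_mem_divisors hj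
    have h3 : i - 1 = j - 1 := hij
    omega
  · intro i hi
    rw [mem_coe] at hi
    rw [mem_coe, mem_range]
    have h1 := Nat.pos_of_mem_divisors hi
    have h2 := Nat.divisor_le hi
    show i - 1 < 387
    omega
  · intro d hd h
    rw [if_neg]
    rintro ⟨h1, h2⟩
    exact h ⟨d + 1, by rw [mem_coe]; exact Nat.mem_divisors.2 ⟨h2, h1⟩, rfl⟩
  · intro i hi
    have h1 := Nat.pos_of_mem_divisors hi
    have h2 := Nat.mem_divisors.1 hi
    have h3 : i - 1 + 1 = i := by omega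
    show ((i ^ k : ℕ) : ZMod 31) = if e ≠ 0 ∧ (i - 1 + 1) ∣ e then ((i - 1 + 1 : ℕ) : ZMod 31) ^ k else 0
    rw [h3, if_pos ⟨h2.2, h2.1⟩, Nat.cast_pow]

/-- `D^l G_{2a+3}` modulo 31 -/
noncomputable def G31 (p : ℕ × ℕ) : PowerSeries (ZMod 31) :=
  PowerSeries.mk fun n => (n : ZMod 31) ^ p.2 * ((ArithmeticFunction.sigma (2 * p.1 + 2) n : ℕ) : ZMod 31)

theorem sg_spec (a : ℕ) : R1 (sg (Nat.add (Nat.mul 2 a) 2)) (G31 (a, 0)) := by
  have h1 := fd1_spec (sgn_spec (2 * a + 2) 387) (by norm_num)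
  refine Rp.congr h1 fun e he _ => ?_
  rw [sum_divisors_eq _ e he, G31, PowerSeries.coeff_mk, pow_zero, one_mul]

/-! ### The derivative -/

noncomputable def mr (r : ℕ) : ℕ :=
  Nat.mul (Nat.mul 33554431 (Nat.pow 2 (Nat.mul 25 r))) (geo 775 13)

theorem mr_eq : ∀ r, r < 31 → mr r = msk (fun e => e % 31 = r) 33554431 403 := by
  decide +kernel

noncomputable def dopn (x n : ℕ) : ℕ :=
  Nat.rec 0 (fun r ih => Nat.add ih (Nat.mul r (Nat.land x (mr r)))) n

noncomputable def dop (x : ℕ) : ℕ := fd1 (dopn x 31)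

theorem land_mr {B x : ℕ} {t : ℕ → ZMod 31} (h : Rp tr 388 B x t) (hB : B < 2 ^ 25) (r : ℕ)
    (hr : r < 31) : Rp tr 388 B (Nat.land x (mr r)) (fun e => if e % 31 = r then t e else 0) := by
  obtain ⟨P, h1, h2, h3, h4⟩ := h
  have hb : ∀ e, P.coeff e < 2 ^ 25 := fun e => (h2 e).trans_lt hB
  obtain ⟨Q, q1, q2⟩ := exists_poly (fun e => if e % 31 = r then P.coeff e else 0) 388
    (fun e he => by rw [h4 e (Or.inl he)]; exact ite_self 0)
  refine ⟨Q, ?_, fun e => ?_, fun e he hv => ?_, fun e he => ?_⟩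
  · rw [q2, mr_eq r hr]
    show x &&& msk (fun e => e % 31 = r) 33554431 403 = _
    rw [h1, eval_pk (m := 388) fun e he => h4 e (Or.inl he),
      ← pk_extend (a := P.coeff) (show 388 ≤ 403 by norm_num) (fun e he => h4 e (Or.inl he)),
      ← pk_extend (a := fun e => if e % 31 = r then P.coeff e else 0)
        (show 388 ≤ 403 by norm_num) (fun e he => by rw [h4 e (Or.inl he)]; exact ite_self 0),
      msk, pk_land _ _ _ hb (fun e => by split_ifs <;> norm_num)]
    refine pk_congr fun e _ => ?_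
    by_cases h5 : e % 31 = r
    · rw [if_pos h5, if_pos h5]
      exact (Nat.and_two_pow_sub_one_eq_mod (P.coeff e) 25).trans (Nat.mod_eq_of_lt (hb e))
    · rw [if_neg h5, if_neg h5, Nat.and_zero]
  · rw [q1]; split_ifs
    · exact h2 e
    · exact Nat.zero_le _
  · rw [q1]
    beta_reduce
    by_cases h5 : e % 31 = r
    · rw [if_pos h5, if_pos h5]; exact h3 e he hv
    · rw [if_neg h5, if_neg h5, Nat.cast_zero]
  · rw [q1, h4 e he, ite_self]

theorem dopn_spec {x : ℕ} {t : ℕ → ZMod 31} (h : Rp tr 388 63 x t) (n : ℕ) (hn : n ≤ 31) :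
    Rp tr 388 (30 * 63 * n) (dopn x n) (fun e => ∑ r ∈ range n,
      (r : ZMod 31) * (if e % 31 = r then t e else 0)) := by
  induction n with
  | zero => exact (Rp.zero _ _ _).congr fun e _ _ => by simp
  | succ n ih =>
    have h1 := (Rp.smul (land_mr h (by norm_num) n (by omega)) n).monoB (B' := 30 * 63)
      (Nat.mul_le_mul_right _ (by omega))
    have h2 := (ih (by omega)).add h1
    have h3 : 30 * 63 * n + 30 * 63 = 30 * 63 * (n + 1) := by ring
    rw [h3] at h2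
    refine Rp.congr h2 fun e _ _ => ?_
    rw [sum_range_succ]

theorem dop_spec {x : ℕ} {p : ℕ × ℕ} (h : R1 x (G31 p)) : R1 (dop x) (G31 (p.1, p.2 + 1)) := by
  have h1 := fd1_spec (dopn_spec h 31 le_rfl) (by norm_num)
  refine Rp.congr h1 fun e he _ => ?_
  have h2 : ∀ r ∈ range 31, (r : ZMod 31) * (if e % 31 = r then coeff e (G31 p) else 0) =
      if e % 31 = r then (e : ZMod 31) * coeff e (G31 p) else 0 := by
    intro r _
    split_ifs with h3
    · rw [← h3, ZMod.natCast_mod]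
    · rw [mul_zero]
  rw [sum_congr rfl h2, sum_ite_eq, if_pos (mem_range.2 (Nat.mod_lt _ (by norm_num))), G31, G31,
    PowerSeries.coeff_mk, PowerSeries.coeff_mk, pow_succ]
  ring

noncomputable def ds (a l : ℕ) : ℕ :=
  Nat.rec (sg (Nat.add (Nat.mul 2 a) 2)) (fun _ ih => dop ih) l

theorem ds_spec (a l : ℕ) : R1 (ds a l) (G31 (a, l)) := by
  induction l with
  | zero => exact sg_spec a
  | succ l ih => exact dop_spec ih

end Pool.Agent.Lib.MPd9449f.CertM
end

section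
/-!
# Gaussian elimination modulo 31 on packed vectors
-/
open Finset PowerSeries

namespace Pool.Agent.Lib.MPd9449f.CertM

instance : Fact (Nat.Prime 31) := ⟨by norm_num⟩

theorem rshr (a b : ℕ) : Nat.shiftRight a b = a >>> b := rfl
theorem rmod (a b : ℕ) : Nat.mod a b = a % b := rfl
theorem rpow (a b : ℕ) : Nat.pow a b = a ^ b := rfl

/-- vectors -/
abbrev Wv := ℕ → ZMod 31

/-- rotation of the slots -/
def ro (t : Wv) : Wv := fun e => if e < 388 then (if e < 4 then t (384 + e) else t (e - 4)) else 0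

noncomputable def rot (x : ℕ) : ℕ := Nat.add (Nat.shiftRight x 9600)
  (Nat.mul (Nat.mod x (Nat.pow 2 9600)) (Nat.pow 2 100))

theorem rot_spec {B x : ℕ} {t : Wv} (h : Rp tr 388 B x t) (hB : B < 2 ^ 25) :
    Rp tr 388 B (rot x) (ro t) := by
  obtain ⟨P, h1, h2, h3, h4⟩ := h
  have hb : ∀ e, P.coeff e < 2 ^ 25 := fun e => (h2 e).trans_lt hB
  obtain ⟨Q, q1, q2⟩ := exists_poly (fun e => if e < 388 then
    (if e < 4 then P.coeff (384 + e) else P.coeff (e - 4)) else 0) 388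
    (fun e he => if_neg (not_lt.2 he))
  refine ⟨Q, ?_, fun e => ?_, fun e he hv => ?_, fun e he => ?_⟩
  · rw [q2]
    have hx : x = pk P.coeff (384 + 4) := by
      rw [h1, eval_pk (m := 388) fun e he => h4 e (Or.inl he)]
    have e1 : Nat.shiftRight x 9600 = pk (fun e => P.coeff (384 + e)) 4 := by
      have h6 : x >>> (25 * 384) = pk (fun e => P.coeff (384 + e)) 4 := by
        rw [hx]
        exact pk_shiftRight hb
      have h7 : 25 * 384 = 9600 := by norm_num
      rw [h7] at h6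
      rw [rshr, h6]
    have e2 : Nat.mod x (Nat.pow 2 9600) = pk P.coeff 384 := by
      have h6 : x % 2 ^ (25 * 384) = pk P.coeff 384 := by
        rw [hx]
        exact pk_mod (by norm_num) hb
      have h7 : 25 * 384 = 9600 := by norm_num
      rw [h7] at h6
      rw [rmod, rpow, h6]
    have e3 : ∀ a b : ℕ, Nat.add a (Nat.mul b (Nat.pow 2 100)) = a + 2 ^ (25 * 4) * b := by
      intro a b
      have h7 : 25 * 4 = 100 := by norm_num
      rw [radd, rmul, rpow, h7, mul_comm]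
    have hrot : rot x = pk (fun e => P.coeff (384 + e)) 4 + 2 ^ (25 * 4) * pk P.coeff 384 := by
      rw [← e1, ← e2, ← e3]
      rfl
    have hrhs := pk_add_len (fun e => if e < 388 then
      (if e < 4 then P.coeff (384 + e) else P.coeff (e - 4)) else 0) 4 384
    have h8 : pk (fun e => P.coeff (384 + e)) 4 = pk (fun e => if e < 388 then
      (if e < 4 then P.coeff (384 + e) else P.coeff (e - 4)) else 0) 4 :=
      pk_congr fun e he => by rw [if_pos (by omega), if_pos he]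
    have h9 : pk P.coeff 384 = pk (fun e => if 4 + e < 388 then
      (if 4 + e < 4 then P.coeff (384 + (4 + e)) else P.coeff (4 + e - 4)) else 0) 384 :=
      pk_congr fun e he => by rw [if_pos (by omega), if_neg (by omega), Nat.add_sub_cancel_left]
    rw [hrot, h8, h9]
    exact hrhs.symm
  · rw [q1]; split_ifs
    · exact h2 _
    · exact h2 _
    · exact Nat.zero_le _
  · rw [q1]
    unfold ro
    rw [if_pos he, if_pos he]
    split_ifs with h5
    · exact h3 _ (by omega) trivial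
    · exact h3 _ (by omega) trivial
  · rw [q1, if_neg]
    rcases he with he | he
    · omega
    · exact absurd trivial he

theorem ro_add (t t' : Wv) : ro (t + t') = ro t + ro t' := by
  funext e
  simp only [ro, Pi.add_apply]
  split_ifs <;> simp

theorem ro_smul (c : ZMod 31) (t : Wv) : ro (c • t) = c • ro t := by
  funext e
  simp only [ro, Pi.smul_apply]
  split_ifs <;> simp

/-- rotation as a linear map -/
def roL : Wv →ₗ[ZMod 31] Wv where
  toFun := ro
  map_add' := ro_add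
  map_smul' := ro_smul

/-- the digit of a representative -/
theorem Rp.digit {B x : ℕ} {t : Wv} (h : Rp tr 388 B x t) (hB : B < 2 ^ 25)
    (ht : ∀ e, 388 ≤ e → t e = 0) (p : ℕ) :
    ((Nat.mod (Nat.mod (Nat.shiftRight x (25 * p)) 33554432) 31 : ℕ) : ZMod 31) = t p := by
  obtain ⟨P, h1, h2, h3, h4⟩ := h
  have hb : ∀ e, P.coeff e < 2 ^ 25 := fun e => (h2 e).trans_lt hB
  have h5 : (x >>> (25 * p)) % 33554432 = P.coeff p := by
    rw [h1, eval_pk (m := max 388 (p + 1)) fun e he => h4 e (Or.inl ((le_max_left _ _).trans he))]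
    exact pk_digit (lt_of_lt_of_le (Nat.lt_succ_self p) (le_max_right _ _)) hb
  have h6 : Nat.mod (Nat.mod (Nat.shiftRight x (25 * p)) 33554432) 31 = P.coeff p % 31 := by
    rw [← h5]; rfl
  rw [h6, ZMod.natCast_mod]
  by_cases h7 : p < 388
  · exact h3 p h7 trivial
  · rw [h4 p (Or.inl (not_lt.1 h7)), ht p (not_lt.1 h7), Nat.cast_zero]

/-! ### Kernel functions -/

noncomputable def red (x : ℕ) (T : List (ℕ × ℕ × ℕ)) : ℕ :=
  List.rec x (fun row _ ih => frc ih fun v =>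
    Nat.add v (Nat.mul (Nat.mod (Nat.mul (Nat.sub 31
      (Nat.mod (Nat.mod (Nat.shiftRight v row.1) 33554432) 31)) row.2.1) 31) row.2.2)) T

noncomputable def run (L : List ℕ) : List ℕ → List (ℕ × ℕ × ℕ) → Bool :=
  List.rec (motive := fun _ => List ℕ → List (ℕ × ℕ × ℕ) → Bool) (fun _ _ => true)
    (fun x _ ih H E => List.rec false (fun p H' _ => frc (rot x) fun y =>
      frc (fd1 (red y E)) fun v => frc (Nat.mul 25 p) fun h =>
      frc (Nat.mod (Nat.mod (Nat.shiftRight v h) 33554432) 31) fun c =>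
        Bool.rec (motive := fun _ => Bool) (frc (Nat.mod (Nat.pow c 29) 31) fun ci =>
          ih H' ((h, ci, v) :: E)) false (Nat.beq c 0)) H) L

theorem red_cons (x : ℕ) (row : ℕ × ℕ × ℕ) (T : List (ℕ × ℕ × ℕ)) : red x (row :: T) =
    Nat.add (red x T) (Nat.mul (Nat.mod (Nat.mul (Nat.sub 31
      (Nat.mod (Nat.mod (Nat.shiftRight (red x T) row.1) 33554432) 31)) row.2.1) 31) row.2.2) := by
  show frc (red x T) (fun v =>
    Nat.add v (Nat.mul (Nat.mod (Nat.mul (Nat.sub 31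
      (Nat.mod (Nat.mod (Nat.shiftRight v row.1) 33554432) 31)) row.2.1) 31) row.2.2)) = _
  rw [frc_eq]

theorem run_cons (x : ℕ) (L : List ℕ) (p : ℕ) (H : List ℕ) (E : List (ℕ × ℕ × ℕ)) :
    run (x :: L) (p :: H) E =
      Bool.rec (motive := fun _ => Bool) (run L H ((Nat.mul 25 p, Nat.mod (Nat.pow (Nat.mod (Nat.mod (Nat.shiftRight
        (fd1 (red (rot x) E)) (Nat.mul 25 p)) 33554432) 31) 29) 31, fd1 (red (rot x) E)) :: E)) false
          (Nat.beq (Nat.mod (Nat.mod (Nat.shiftRight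
        (fd1 (red (rot x) E)) (Nat.mul 25 p)) 33554432) 31) 0) := by
  show frc (rot x) (fun y =>
      frc (fd1 (red y E)) fun v => frc (Nat.mul 25 p) fun h =>
      frc (Nat.mod (Nat.mod (Nat.shiftRight v h) 33554432) 31) fun c =>
        Bool.rec (motive := fun _ => Bool) (frc (Nat.mod (Nat.pow c 29) 31) fun ci =>
          run L H ((h, ci, v) :: E)) false (Nat.beq c 0)) = _
  rw [frc_eq, frc_eq, frc_eq, frc_eq, frc_eq]

/-! ### Triangular systems -/

/-- echelon form, newest row first -/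
def Tri : List (ℕ × Wv) → Prop
  | [] => True
  | a :: A => a.2 a.1 ≠ 0 ∧ (∀ b ∈ A, a.2 b.1 = 0) ∧ Tri A

/-- span of the rows -/
def sp (A : List (ℕ × Wv)) : Submodule (ZMod 31) Wv := Submodule.span (ZMod 31) {t | ∃ a ∈ A, a.2 = t}

theorem sp_cons (a : ℕ × Wv) (A : List (ℕ × Wv)) :
    sp (a :: A) = sp A ⊔ Submodule.span (ZMod 31) {a.2} := by
  unfold sp
  rw [← Submodule.span_union]
  congr 1
  ext t
  simp only [List.mem_cons, exists_eq_or_imp, Set.mem_union, Set.mem_ofPred_eq,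
    Set.mem_singleton_iff]
  constructor
  · rintro (h | h)
    · exact Or.inr h.symm
    · exact Or.inl h
  · rintro (h | h)
    · exact Or.inr h
    · exact Or.inl h.symm

theorem sp_le_cons (a : ℕ × Wv) (A : List (ℕ × Wv)) : sp A ≤ sp (a :: A) := by
  rw [sp_cons]; exact le_sup_left

theorem tri_zero : ∀ A : List (ℕ × Wv), Tri A → ∀ y ∈ sp A, (∀ a ∈ A, y a.1 = 0) → y = 0 := by
  intro A
  induction A with
  | nil =>
    intro _ y hy _
    have : sp ([] : List (ℕ × Wv)) = ⊥ := by simp [sp]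
    rw [this, Submodule.mem_bot] at hy
    exact hy
  | cons a A ih =>
    rintro ⟨h1, h2, h3⟩ y hy hz
    rw [sp_cons, Submodule.mem_sup] at hy
    obtain ⟨y', hy', z, hzz, rfl⟩ := hy
    obtain ⟨c, rfl⟩ := Submodule.mem_span_singleton.1 hzz
    have h4 : y' = 0 := by
      refine ih h3 y' hy' fun b hb => ?_
      have := hz b (List.mem_cons_of_mem _ hb)
      rw [Pi.add_apply, Pi.smul_apply, h2 b hb, smul_zero, add_zero] at this
      exact this
    have h5 := hz a List.mem_cons_self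
    rw [h4, zero_add, Pi.smul_apply, smul_eq_mul] at h5
    have h6 : c = 0 := by
      rcases mul_eq_zero.1 h5 with h | h
      · exact h
      · exact absurd h h1
    rw [h4, h6, zero_smul, add_zero]

/-- the packed rows represent the rows -/
def RelRow (k : ℕ × ℕ × ℕ) (a : ℕ × Wv) : Prop :=
  k.1 = 25 * a.1 ∧ ((k.2.1 : ℕ) : ZMod 31) * a.2 a.1 = 1 ∧ Rp tr 388 63 k.2.2 a.2 ∧
    ∀ e, 388 ≤ e → a.2 e = 0

theorem red_spec {x : ℕ} {t : Wv} (hx : Rp tr 388 63 x t) (ht : ∀ e, 388 ≤ e → t e = 0) :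
    ∀ (E : List (ℕ × ℕ × ℕ)) (A : List (ℕ × Wv)), List.Forall₂ RelRow E A → Tri A →
      E.length ≤ 388 → ∃ s : Wv, Rp tr 388 (63 + 1890 * E.length) (red x E) s ∧
        s - t ∈ sp A ∧ (∀ a ∈ A, s a.1 = 0) ∧ ∀ e, 388 ≤ e → s e = 0 := by
  intro E
  induction E with
  | nil =>
    intro A hA _ _
    cases hA
    exact ⟨t, hx, by simp, by simp, ht⟩
  | cons row E ih =>
    intro A hA hT hl
    cases hA with
    | cons hr hA =>
      rename_i a A
      rw [List.length_cons] at hl ⊢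
      obtain ⟨s, hs1, hs2, hs3, hs4⟩ := ih A hA hT.2.2 (by omega)
      obtain ⟨r1, r2, r3, r4⟩ := hr
      rw [red_cons, r1]
      have hB : 63 + 1890 * E.length < 2 ^ 25 := by omega
      have hd := hs1.digit hB hs4 a.1
      set c : ℕ := Nat.mod (Nat.mod (Nat.shiftRight (red x E) (25 * a.1)) 33554432) 31 with hc
      have hc31 : c < 31 := Nat.mod_lt _ (by norm_num)
      set m : ℕ := Nat.mod (Nat.mul (Nat.sub 31 c) row.2.1) 31 with hm
      have hm31 : m < 31 := Nat.mod_lt _ (by norm_num)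
      have hmc : (m : ZMod 31) = -(s a.1) * ((row.2.1 : ℕ) : ZMod 31) := by
        have e1 : m = ((31 - c) * row.2.1) % 31 := rfl
        have e31 : ((31 : ℕ) : ZMod 31) = 0 := by decide
        rw [e1, ZMod.natCast_mod, Nat.cast_mul, Nat.cast_sub hc31.le, e31, hd, zero_sub]
      have hsum := hs1.add ((Rp.smul r3 m).monoB (B' := 1890) (by omega))
      have e2 : 63 + 1890 * E.length + 1890 = 63 + 1890 * (E.length + 1) := by ring
      rw [e2] at hsum
      refine ⟨s + (m : ZMod 31) • a.2, hsum, ?_, ?_, ?_⟩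
      · have e3 : s + (m : ZMod 31) • a.2 - t = (s - t) + (m : ZMod 31) • a.2 := by abel
        rw [e3]
        refine Submodule.add_mem _ (sp_le_cons a A hs2) (Submodule.smul_mem _ _ ?_)
        exact Submodule.subset_span ⟨a, List.mem_cons_self, rfl⟩
      · intro b hb
        rw [Pi.add_apply, Pi.smul_apply, smul_eq_mul]
        rcases List.mem_cons.1 hb with rfl | hb
        · rw [hmc, mul_assoc, r2]; ring
        · rw [hs3 b hb, hT.2.1 b hb, mul_zero, add_zero]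
      · intro e he
        rw [Pi.add_apply, Pi.smul_apply, smul_eq_mul, hs4 e he, r4 e he, mul_zero, add_zero]

/-- each vector of the list is independent of the previous ones and of `B` -/
def IndF : Submodule (ZMod 31) Wv → List Wv → Prop
  | _, [] => True
  | B, t :: ts => t ∉ B ∧ IndF (B ⊔ Submodule.span (ZMod 31) {t}) ts

theorem ro_ge (t : Wv) (e : ℕ) (he : 388 ≤ e) : ro t e = 0 := if_neg (not_lt.2 he)

theorem run_spec : ∀ (L : List ℕ) (ts : List Wv) (H : List ℕ) (E : List (ℕ × ℕ × ℕ))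
    (A : List (ℕ × Wv)), run L H E = true → List.Forall₂ (fun x t => Rp tr 388 63 x t) L ts →
    List.Forall₂ RelRow E A → Tri A → L.length + E.length ≤ 388 → IndF (sp A) (ts.map ro) := by
  intro L
  induction L with
  | nil =>
    intro ts H E A _ hL _ _ _
    cases hL
    trivial
  | cons x L ih =>
    intro ts H E A hrun hL hE hT hlen
    cases hL with
    | cons hx hL =>
      rename_i t ts
      rw [List.length_cons] at hlen
      cases H with
      | nil => exact absurd hrun (by show ¬ (false = true); decide)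
      | cons p H =>
        rw [run_cons, rmul] at hrun
        obtain ⟨s, hs1, hs2, hs3, hs4⟩ := red_spec (rot_spec hx (by norm_num)) (ro_ge t) E A hE hT
          (by omega)
        have hv := fd1_spec hs1 (by omega)
        have hd := hv.digit (by norm_num) hs4 p
        set v := fd1 (red (rot x) E) with hvdef
        set c : ℕ := Nat.mod (Nat.mod (Nat.shiftRight v (25 * p)) 33554432) 31 with hc
        have hc31 : c < 31 := Nat.mod_lt _ (by norm_num)
        have hc0 : c ≠ 0 := by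
          intro h0
          rw [h0] at hrun
          exact absurd hrun (by show ¬ (false = true); decide)
        have hbeq : Nat.beq c 0 = false := by
          cases hb : Nat.beq c 0
          · rfl
          · exact absurd (Nat.eq_of_beq_eq_true hb) hc0
        rw [hbeq] at hrun
        have hcz : (c : ZMod 31) ≠ 0 := by
          rw [Ne, ZMod.natCast_eq_zero_iff]
          intro h
          exact hc0 (Nat.eq_zero_of_dvd_of_lt h hc31)
        have hsp : s p ≠ 0 := by rw [← hd]; exact hcz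
        have hci : ((Nat.mod (Nat.pow c 29) 31 : ℕ) : ZMod 31) * s p = 1 := by
          have e1 : Nat.mod (Nat.pow c 29) 31 = c ^ 29 % 31 := rfl
          rw [e1, ZMod.natCast_mod, Nat.cast_pow, ← hd, ← pow_succ]
          exact ZMod.pow_card_sub_one_eq_one hcz
        have hT' : Tri ((p, s) :: A) := ⟨hsp, hs3, hT⟩
        have key := ih ts H _ ((p, s) :: A) hrun hL
          (List.Forall₂.cons ⟨rfl, hci, hv, hs4⟩ hE) hT' (by rw [List.length_cons]; omega)
        rw [List.map_cons]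
        refine ⟨fun hmem => ?_, ?_⟩
        · have h5 : s ∈ sp A := by
            have : s = (s - ro t) + ro t := by abel
            rw [this]
            exact Submodule.add_mem _ hs2 hmem
          exact hsp (by rw [tri_zero A hT s h5 hs3]; rfl)
        · have h6 : sp ((p, s) :: A) = sp A ⊔ Submodule.span (ZMod 31) {ro t} := by
            rw [sp_cons]
            apply le_antisymm
            · refine sup_le le_sup_left ?_
              rw [Submodule.span_singleton_le_iff_mem]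
              have : s = (s - ro t) + ro t := by abel
              show s ∈ _
              rw [this]
              exact Submodule.add_mem _ (Submodule.mem_sup_left hs2)
                (Submodule.mem_sup_right (Submodule.mem_span_singleton_self _))
            · refine sup_le le_sup_left ?_
              rw [Submodule.span_singleton_le_iff_mem]
              have : ro t = s - (s - ro t) := by abel
              rw [this]
              exact Submodule.sub_mem _
                (Submodule.mem_sup_right (Submodule.mem_span_singleton_self _))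
                (Submodule.mem_sup_left hs2)
          rw [← h6]
          exact key

/-- linear independence -/
theorem IndF.coeff {M : Type} [DecidableEq M] (vec : M → Wv) : ∀ (ms : List M)
    (B : Submodule (ZMod 31) Wv), IndF B (ms.map vec) → ∀ (S : Finset M), (∀ m ∈ S, m ∈ ms) →
    ∀ c : M → ZMod 31, ∑ m ∈ S, c m • vec m ∈ B → ∀ m ∈ S, c m = 0 := by
  intro ms
  induction ms with
  | nil =>
    intro B _ S hS c _ m hm
    exact absurd (hS m hm) List.not_mem_nil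
  | cons m₀ ms ih =>
    rintro B ⟨h1, h2⟩ S hS c hc
    have hrest : ∀ m ∈ S.erase m₀, c m = 0 := by
      refine ih _ h2 (S.erase m₀) (fun m hm => ?_) c ?_
      · rcases List.mem_cons.1 (hS m (Finset.mem_of_mem_erase hm)) with h | h
        · exact absurd h (Finset.ne_of_mem_erase hm)
        · exact h
      · by_cases hm : m₀ ∈ S
        · have h3 := Finset.add_sum_erase S (fun m => c m • vec m) hm
          have h4 : ∑ m ∈ S.erase m₀, c m • vec m = ∑ m ∈ S, c m • vec m - c m₀ • vec m₀ := by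
            rw [← h3]; abel
          rw [h4]
          exact Submodule.sub_mem _ (Submodule.mem_sup_left hc) (Submodule.smul_mem _ _
            (Submodule.mem_sup_right (Submodule.mem_span_singleton_self _)))
        · rw [Finset.erase_eq_of_notMem hm]
          exact Submodule.mem_sup_left hc
    intro m hm
    by_cases h : m = m₀
    · subst h
      have h3 := Finset.add_sum_erase S (fun m => c m • vec m) hm
      have h4 : ∑ k ∈ S.erase m, c k • vec k = 0 :=
        Finset.sum_eq_zero fun k hk => by rw [hrest k hk, zero_smul]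
      rw [h4, add_zero] at h3
      rw [← h3] at hc
      by_contra hne
      exact h1 ((Submodule.smul_mem_iff _ hne).1 hc)
    · exact hrest m (Finset.mem_erase.2 ⟨h, hm⟩)

end Pool.Agent.Lib.MPd9449f.CertM
end

section
/-!
# The recursion for the covariance series
-/
open Finset PowerSeries

namespace Pool.Agent.Lib.MPd9449f.CertM

section ring

variable {R : Type} [CommRing R]

theorem ig_inv (x : R) (a : ℕ) (ha : 1 ≤ a) : (1 - C x * X ^ a) * ig x a = 1 := by
  ext n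
  rw [sub_mul, one_mul, map_sub, mul_assoc, PowerSeries.coeff_C_mul,
    PowerSeries.coeff_X_pow_mul', ig, PowerSeries.coeff_mk, PowerSeries.coeff_mk,
    PowerSeries.coeff_one]
  by_cases hn : n = 0
  · subst hn
    rw [if_pos (dvd_zero a), Nat.zero_div, pow_zero, if_neg (by omega), mul_zero, sub_zero,
      if_pos rfl]
  · rw [if_neg hn]
    by_cases h : a ∣ n
    · obtain ⟨k, rfl⟩ := h
      have hk : k ≠ 0 := by rintro rfl; simp at hn
      obtain ⟨j, rfl⟩ := Nat.exists_eq_succ_of_ne_zero hk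
      have h1 : a ≤ a * (j + 1) := Nat.le_mul_of_pos_right a (by omega)
      have h2 : a * (j + 1) - a = a * j := by rw [Nat.mul_succ]; omega
      rw [if_pos (Dvd.intro _ rfl), if_pos h1, h2, if_pos (Dvd.intro _ rfl),
        Nat.mul_div_cancel_left _ (by omega), Nat.mul_div_cancel_left _ (by omega), pow_succ]
      ring
    · rw [if_neg h]
      by_cases h1 : a ≤ n
      · rw [if_pos h1, if_neg, mul_zero, sub_zero]
        intro h2
        exact h ((Nat.dvd_sub_iff_left h1 (dvd_refl a)).1 h2)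
      · rw [if_neg h1, mul_zero, sub_zero]

theorem rh_succ (x : R) (r : ℕ) :
    rh x (r + 1) = rh x r * ((1 - C x * X ^ (r + 1)) * ig 1 (r + 1)) := by
  simp [rh, prod_range_succ]

/-- `∑ w^r rh(r) t^r` -/
noncomputable def Gw (w x : R) : PowerSeries (PowerSeries R) :=
  PowerSeries.mk fun r => C (w ^ r) * rh x r

theorem Gw_eq (w wi : R) (h : w * wi = 1) :
    (1 - C (C w) * X) * Gw w (wi ^ 2) =
      (1 - C (X * C wi) * X) * rescale (X : PowerSeries R) (Gw w (wi ^ 2)) := by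
  ext1 r
  cases r with
  | zero =>
    rw [sub_mul, sub_mul, one_mul, one_mul, map_sub, map_sub, mul_assoc, mul_assoc,
      PowerSeries.coeff_C_mul, PowerSeries.coeff_C_mul, PowerSeries.coeff_zero_X_mul,
      PowerSeries.coeff_zero_X_mul, PowerSeries.coeff_rescale, pow_zero, one_mul, mul_zero,
      mul_zero]
  | succ r =>
    rw [sub_mul, sub_mul, one_mul, one_mul, map_sub, map_sub, mul_assoc, mul_assoc,
      PowerSeries.coeff_C_mul, PowerSeries.coeff_C_mul, PowerSeries.coeff_succ_X_mul,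
      PowerSeries.coeff_succ_X_mul, PowerSeries.coeff_rescale, PowerSeries.coeff_rescale,
      Gw, PowerSeries.coeff_mk, PowerSeries.coeff_mk, rh_succ]
    have h1 := ig_inv (1 : R) (r + 1) (by omega)
    have hC : (C w : PowerSeries R) * C wi = 1 := by rw [← map_mul, h, map_one]
    simp only [map_pow, map_one, one_mul] at h1 ⊢
    generalize (C w : PowerSeries R) = u at *
    generalize (C wi : PowerSeries R) = v at *
    generalize ig (1 : R) (r + 1) = g at *
    generalize rh (wi ^ 2) r = ρ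
    have h2 : g = 1 + X ^ (r + 1) * g := by linear_combination h1
    have h3 : u ^ (r + 1) * v ^ 2 = u ^ r * v := by
      rw [pow_succ]; linear_combination (u ^ r * v) * hC
    linear_combination (u ^ (r + 1) * ρ * (1 - v ^ 2 * X ^ (r + 1))) * h1 -
      (ρ * X ^ (r + 1)) * h3

/-- `d_N = ∑_{r+s=N} w1^r rh1(r) w2^s rh2(s)` -/
noncomputable def dN (w x w' x' : R) (N : ℕ) : PowerSeries R :=
  ∑ p ∈ antidiagonal N, C (w ^ p.1) * rh x p.1 * (C (w' ^ p.2) * rh x' p.2)

/-- `d_{N-1}` -/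
noncomputable def dz (w x w' x' : R) : ℕ → PowerSeries R
  | 0 => 0
  | N + 1 => dN w x w' x' N

theorem coeff_Gw_mul (w x w' x' : R) (N : ℕ) : coeff N (Gw w x * Gw w' x') = dN w x w' x' N := by
  rw [PowerSeries.coeff_mul]
  simp [Gw, dN]

theorem coeff_quad (a b : PowerSeries R) (D : PowerSeries (PowerSeries R)) (n : ℕ) :
    coeff (n + 1) ((1 - C a * X + C b * X ^ 2) * D) =
      coeff (n + 1) D - a * coeff n D + b * (if n = 0 then 0 else coeff (n - 1) D) := by
  rw [add_mul, sub_mul, one_mul, map_add, map_sub, mul_assoc, mul_assoc,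
    PowerSeries.coeff_C_mul, PowerSeries.coeff_C_mul, PowerSeries.coeff_succ_X_mul,
    PowerSeries.coeff_X_pow_mul']
  cases n with
  | zero => simp
  | succ n =>
    have h1 : 2 ≤ n + 1 + 1 := by omega
    have h2 : n + 1 + 1 - 2 = n := by omega
    have h3 : n + 1 - 1 = n := by omega
    rw [if_pos h1, if_neg (by omega), h2, h3]

/-- the recursion -/
theorem dN_rec (w wi w' wi' : R) (h : w * wi = 1) (h' : w' * wi' = 1) (n : ℕ) :
    (1 - X ^ (n + 1)) * dN w (wi ^ 2) w' (wi' ^ 2) (n + 1) =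
      (C (w + w') * dz w (wi ^ 2) w' (wi' ^ 2) (n + 1) -
        C (w * w') * dz w (wi ^ 2) w' (wi' ^ 2) n) -
      X ^ (n + 1) * (C (wi + wi') * dz w (wi ^ 2) w' (wi' ^ 2) (n + 1) -
        C (wi * wi') * dz w (wi ^ 2) w' (wi' ^ 2) n) := by
  set D := Gw w (wi ^ 2) * Gw w' (wi' ^ 2) with hD
  have h1 : (1 - C (C (w + w') : PowerSeries R) * X + C (C (w * w') : PowerSeries R) * X ^ 2) * D =
      (1 - C (X * C (wi + wi') : PowerSeries R) * X +
        C (X ^ 2 * C (wi * wi') : PowerSeries R) * X ^ 2) * rescale (X : PowerSeries R) D := by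
    have e1 := Gw_eq w wi h
    have e2 := Gw_eq w' wi' h'
    have e3 : (1 - C (C (w + w') : PowerSeries R) * X + C (C (w * w') : PowerSeries R) * X ^ 2) * D =
        ((1 - C (C w) * X) * Gw w (wi ^ 2)) * ((1 - C (C w') * X) * Gw w' (wi' ^ 2)) := by
      rw [hD]; simp only [map_add, map_mul]; ring
    rw [e3, e1, e2, hD, map_mul]
    simp only [map_add, map_mul, map_pow]
    ring
  have h2 := congrArg (coeff (n + 1)) h1
  rw [coeff_quad, coeff_quad, PowerSeries.coeff_rescale, PowerSeries.coeff_rescale,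
    PowerSeries.coeff_rescale, hD, coeff_Gw_mul, coeff_Gw_mul] at h2
  have h3 : ∀ m : ℕ, (if m = 0 then 0 else coeff (m - 1) (Gw w (wi ^ 2) * Gw w' (wi' ^ 2))) =
      dz w (wi ^ 2) w' (wi' ^ 2) m := by
    intro m
    cases m with
    | zero => rfl
    | succ m => rw [if_neg (by omega), Nat.add_sub_cancel, coeff_Gw_mul]; rfl
  have h4 : (if n = 0 then 0 else (X : PowerSeries R) ^ (n - 1) *
      coeff (n - 1) (Gw w (wi ^ 2) * Gw w' (wi' ^ 2))) * X ^ 2 =
      X ^ (n + 1) * dz w (wi ^ 2) w' (wi' ^ 2) n := by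
    cases n with
    | zero => simp [dz]
    | succ m =>
      rw [if_neg (by omega), Nat.add_sub_cancel, coeff_Gw_mul]
      show X ^ m * dN w (wi ^ 2) w' (wi' ^ 2) m * X ^ 2 = _
      rw [show m + 1 + 1 = m + 2 by ring, pow_add]
      show _ = X ^ m * X ^ 2 * dN w (wi ^ 2) w' (wi' ^ 2) m
      ring
  rw [h3] at h2
  show (1 - X ^ (n + 1)) * dN w (wi ^ 2) w' (wi' ^ 2) (n + 1) =
      (C (w + w') * dN w (wi ^ 2) w' (wi' ^ 2) n -
        C (w * w') * dz w (wi ^ 2) w' (wi' ^ 2) n) -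
      X ^ (n + 1) * (C (wi + wi') * dN w (wi ^ 2) w' (wi' ^ 2) n -
        C (wi * wi') * dz w (wi ^ 2) w' (wi' ^ 2) n)
  have h5 : (X : PowerSeries R) ^ (n + 1) = X * X ^ n := by rw [pow_succ']
  linear_combination h2 + C (wi * wi') * h4

/-- `f_{N-1}` -/
noncomputable def sf (w x w' x' : R) (N : ℕ) : PowerSeries R := ∑ k ∈ range N, dN w x w' x' k

theorem ff_eq (w x w' x' : R) (N : ℕ) : ff x w x' w' N = sf w x w' x' (N + 1) := by
  unfold ff sf dN
  rw [← Finset.sum_range_diag_flip (N + 1)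
    (fun r s => C (w ^ r) * rh x r * (C (w' ^ s) * rh x' s))]
  refine sum_congr rfl fun k _ => ?_
  rw [Finset.Nat.sum_antidiagonal_eq_sum_range_succ
    (fun r s => C (w ^ r) * rh x r * (C (w' ^ s) * rh x' s))]

theorem dN_symm (w x w' x' : R) (N : ℕ) : dN w x w' x' N = dN w' x' w x N := by
  unfold dN
  rw [← Finset.Nat.sum_antidiagonal_swap]
  refine sum_congr rfl fun p _ => ?_
  simp only [Prod.fst_swap, Prod.snd_swap]
  ring

theorem Dl_eq (w x w' x' : R) (M : ℕ) : Dl x w w x' w' w' M =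
    dN w x w' x' M * (sf w x w' x' M + sf w x w' x' M + dN w x w' x' M) := by
  have h1 : ∀ N, ff x' w' x w N = ff x w x' w' N := by
    intro N
    rw [ff_eq, ff_eq]
    exact sum_congr rfl fun k _ => dN_symm _ _ _ _ _
  cases M with
  | zero =>
    show ff x w x' w' 0 * ff x' w' x w 0 = _
    rw [h1, ff_eq]
    simp [sf]
  | succ M =>
    show ff x w x' w' (M + 1) * ff x' w' x w (M + 1) - ff x w x' w' M * ff x' w' x w M = _
    rw [h1, h1, ff_eq, ff_eq]
    have : sf w x w' x' (M + 1 + 1) = sf w x w' x' (M + 1) + dN w x w' x' (M + 1) :=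
      sum_range_succ _ _
    rw [this]
    ring

/-- partial sums of `∑ H_{M+1} (f_M² - f_{M-1}²)` -/
noncomputable def kS (w x w' x' : R) (N : ℕ) : PowerSeries R :=
  ∑ M ∈ range N, Hh (x * x') (M + 1) *
    (dN w x w' x' M * (sf w x w' x' M + sf w x w' x' M + dN w x w' x' M))

theorem kapN_eq (w x w' x' : R) (N : ℕ) : kapN x w w x' w' w' N = kS w x w' x' N := by
  unfold kapN kS
  exact sum_congr rfl fun M _ => by rw [Dl_eq]

theorem kS_stab (w x w' x' : R) (n N : ℕ) (h : n ≤ N) :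
    coeff n (kS w x w' x' N) = coeff n (kS w x w' x' n) := by
  obtain ⟨k, rfl⟩ := Nat.exists_eq_add_of_le h
  induction k with
  | zero => rfl
  | succ k ih =>
    rw [← ih (Nat.le_add_right n k), ← add_assoc, kS, sum_range_succ, map_add, ← kS]
    rw [Hh, mul_assoc, mul_assoc, PowerSeries.coeff_X_pow_mul', if_neg (by omega), add_zero]

theorem phiN_succ (x xi : R) (N : ℕ) :
    phiN x xi (N + 1) = phiN x xi N * ((1 - C xi * X ^ (N + 1)) * ig x (N + 1)) := by
  simp [phiN, prod_range_succ]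

theorem coeff_mul_one_add (f g : PowerSeries R) (n a : ℕ) (h : n < a) :
    coeff n (f * (1 + X ^ a * g)) = coeff n f := by
  have : f * (1 + X ^ a * g) = f + X ^ a * (f * g) := by ring
  rw [this, map_add, PowerSeries.coeff_X_pow_mul', if_neg (by omega), add_zero]

theorem phiN_stab (x xi : R) (n N : ℕ) (h : n ≤ N) :
    coeff n (phiN x xi N) = coeff n (phiN x xi n) := by
  obtain ⟨k, rfl⟩ := Nat.exists_eq_add_of_le h
  induction k with
  | zero => rfl
  | succ k ih =>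
    have h1 : (1 - C xi * X ^ (n + k + 1)) * ig x (n + k + 1) =
        1 + X ^ (n + k + 1) * ((C x - C xi) * ig x (n + k + 1)) := by
      have := ig_inv x (n + k + 1) (by omega)
      linear_combination this
    rw [← ih (Nat.le_add_right n k), ← add_assoc, phiN_succ, h1,
      coeff_mul_one_add _ _ _ _ (by omega)]

theorem coeff_mul_congr {f f' g g' : PowerSeries R} {n : ℕ} (h : ∀ m, m ≤ n → coeff m f = coeff m f')
    (h' : ∀ m, m ≤ n → coeff m g = coeff m g') : coeff n (f * g) = coeff n (f' * g') := by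
  rw [PowerSeries.coeff_mul, PowerSeries.coeff_mul]
  refine sum_congr rfl fun p hp => ?_
  have := HasAntidiagonal.mem_antidiagonal.1 hp
  rw [h _ (by omega), h' _ (by omega)]

/-- the covariance series to precision `N` -/
theorem coeff_kap (w x w' x' : R) (n N : ℕ) (h : n ≤ N) :
    coeff n (kap x w w x' w' w') =
      coeff n (phiN x (w * w) N * phiN x' (w' * w') N * kS w x w' x' N) := by
  unfold kap
  refine coeff_mul_congr (fun m hm => coeff_mul_congr (fun k hk => ?_) fun k hk => ?_)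
    fun m hm => ?_
  · rw [phi, PowerSeries.coeff_mk, phiN_stab x (w * w) k N (by omega)]
  · rw [phi, PowerSeries.coeff_mk, phiN_stab x' (w' * w') k N (by omega)]
  · rw [PowerSeries.coeff_mk, kapN_eq, kS_stab w x w' x' m N (by omega)]

end ring

end Pool.Agent.Lib.MPd9449f.CertM
end

section
/-!
# GRO: the growth bound
-/
open Finset
open scoped ENNReal

namespace Pool.Agent.Lib.MPd9449f

namespace Gr

/-- the norm on the coefficient ring `ℤ[[u1]][[u2]]` -/
noncomputable def rn (ρ : ℝ) : R2 → ℝ≥0∞ := UN ρ 4 (UN ρ 2 zn)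

theorem rn_rn (ρ : ℝ) : RN (rn ρ) := UN_rn (UN_rn zn_rn ρ 2) ρ 4

theorem zn_cf {ρ : ℝ} (hρ : 0 < ρ) (hρ1 : ρ ≤ 1) (a : R2) (i j : ℕ) (hi : i < 3) (hj : j < 5) :
    zn (cf i j a) ≤ ENNReal.ofReal (1 / ρ ^ 6) * rn ρ a := by
  rw [cf]
  have e1 := coeff_le_UN (ν := zn) (ρ := ρ) (K := 2) (PowerSeries.coeff j a) hi
  have e2 := coeff_le_UN (ν := UN ρ 2 zn) (ρ := ρ) (K := 4) a hj
  have e3 : ENNReal.ofReal (ρ ^ 6) ≤ ENNReal.ofReal ρ ^ i * ENNReal.ofReal ρ ^ j := by
    rw [← pow_add, ← ENNReal.ofReal_pow hρ.le]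
    exact ENNReal.ofReal_le_ofReal (pow_le_pow_of_le_one hρ.le hρ1 (by omega))
  have e4 : zn (PowerSeries.coeff i (PowerSeries.coeff j a)) * ENNReal.ofReal (ρ ^ 6) ≤
      rn ρ a := by
    calc zn (PowerSeries.coeff i (PowerSeries.coeff j a)) * ENNReal.ofReal (ρ ^ 6)
        ≤ zn (PowerSeries.coeff i (PowerSeries.coeff j a)) *
          (ENNReal.ofReal ρ ^ i * ENNReal.ofReal ρ ^ j) := by gcongr
      _ = (zn (PowerSeries.coeff i (PowerSeries.coeff j a)) * ENNReal.ofReal ρ ^ i) *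
          ENNReal.ofReal ρ ^ j := by ring
      _ ≤ UN ρ 2 zn (PowerSeries.coeff j a) * ENNReal.ofReal ρ ^ j := by gcongr
      _ ≤ rn ρ a := e2
  calc zn (PowerSeries.coeff i (PowerSeries.coeff j a))
      = ENNReal.ofReal (1 / ρ ^ 6) * (zn (PowerSeries.coeff i (PowerSeries.coeff j a)) *
        ENNReal.ofReal (ρ ^ 6)) := by
        rw [mul_comm (zn _), ← mul_assoc, ← ENNReal.ofReal_mul (by positivity),
          one_div_mul_cancel (by positivity), ENNReal.ofReal_one, one_mul]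
    _ ≤ _ := by gcongr

theorem zn_smul (n : ℕ) (a : ℤ) {B : ℝ≥0∞} (ha : zn a ≤ B) : zn ((n : ℤ) * a) ≤ n * B := by
  refine (zn_rn.mul _ _).trans ?_
  have h1 : zn (n : ℤ) = n := by
    rw [zn]
    simp
  rw [h1]
  gcongr

theorem zn_add {a b : ℤ} {A B : ℝ≥0∞} (ha : zn a ≤ A) (hb : zn b ≤ B) : zn (a + b) ≤ A + B :=
  (zn_rn.add a b).trans (add_le_add ha hb)

theorem zn_ell_le {ρ : ℝ} (hρ : 0 < ρ) (hρ1 : ρ ≤ 1) (a : R2) :
    zn (ell a) ≤ ENNReal.ofReal (225 / ρ ^ 6) * rn ρ a := by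
  set B := ENNReal.ofReal (1 / ρ ^ 6) * rn ρ a with hB
  have hc : ∀ i j, i < 3 → j < 5 → zn (cf i j a) ≤ B := fun i j hi hj => zn_cf hρ hρ1 a i j hi hj
  have h1 : ∀ i < 3, zn (24 * cf i 4 a + 36 * cf i 3 a + 14 * cf i 2 a + cf i 1 a) ≤
      ((24 : ℕ) : ℝ≥0∞) * B + ((36 : ℕ) : ℝ≥0∞) * B + ((14 : ℕ) : ℝ≥0∞) * B + B := by
    intro i hi
    refine zn_add (zn_add (zn_add ?_ ?_) ?_) (hc i 1 hi (by norm_num))
    · exact_mod_cast zn_smul 24 _ (hc i 4 hi (by norm_num))
    · exact_mod_cast zn_smul 36 _ (hc i 3 hi (by norm_num))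
    · exact_mod_cast zn_smul 14 _ (hc i 2 hi (by norm_num))
  rw [ell]
  refine (zn_add (zn_smul 2 _ (h1 2 (by norm_num))) (h1 1 (by norm_num))).trans ?_
  have h4 : ENNReal.ofReal (225 / ρ ^ 6) = 225 * ENNReal.ofReal (1 / ρ ^ 6) := by
    have : (225 : ℝ≥0∞) = ENNReal.ofReal 225 := by norm_num
    rw [this, ← ENNReal.ofReal_mul (by norm_num)]
    congr 1
    ring
  rw [h4, mul_assoc, ← hB]
  apply le_of_eq
  push_cast
  ring

/-- the growth bound for the two-point function -/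
theorem kappa_bd {r : ℝ} (hr0 : 0 ≤ r) (hr1 : r < 1) (x1 x2 y1 y2 : R2)
    (w1 w2 : R2) (hw1 : w1 = PowerSeries.C (1 + PowerSeries.X)) (hw2 : w2 = 1 + PowerSeries.X)
    (hx1 : x1 * w1 ^ 2 = 1) (hx2 : x2 * w2 ^ 2 = 1) (hy1 : y1 = w1 ^ 2) (hy2 : y2 = w2 ^ 2)
    (g1 g2 p1 p2 : ℕ → PowerSeries R2)
    (hg1 : ∀ a, g1 a * (1 - PowerSeries.X ^ (a + 1)) =
      1 - PowerSeries.C x1 * PowerSeries.X ^ (a + 1))
    (hg2 : ∀ a, g2 a * (1 - PowerSeries.X ^ (a + 1)) =
      1 - PowerSeries.C x2 * PowerSeries.X ^ (a + 1))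
    (hp1 : ∀ a, p1 a * (1 - PowerSeries.C x1 * PowerSeries.X ^ (a + 1)) =
      1 - PowerSeries.C y1 * PowerSeries.X ^ (a + 1))
    (hp2 : ∀ a, p2 a * (1 - PowerSeries.C x2 * PowerSeries.X ^ (a + 1)) =
      1 - PowerSeries.C y2 * PowerSeries.X ^ (a + 1))
    (phi1 phi2 : PowerSeries R2)
    (hphi1 : ∀ n, ∃ m, ∀ k < n, PowerSeries.coeff k phi1 =
      PowerSeries.coeff k (∏ a ∈ range m, p1 a))
    (hphi2 : ∀ n, ∃ m, ∀ k < n, PowerSeries.coeff k phi2 =
      PowerSeries.coeff k (∏ a ∈ range m, p2 a))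
    (E d : ℕ → PowerSeries R2)
    (hE : ∀ n, E n * ((1 - PowerSeries.X ^ (n + 1)) *
      (1 - PowerSeries.C (x1 * x2) * PowerSeries.X ^ (n + 1))) = PowerSeries.X ^ (n + 1))
    (hd : ∀ n, d n = ∑ x ∈ antidiagonal n,
      (PowerSeries.C w1 ^ x.1 * ∏ a ∈ range x.1, g1 a) *
      (PowerSeries.C w2 ^ x.2 * ∏ a ∈ range x.2, g2 a))
    (S : PowerSeries R2)
    (hS : ∀ n, ∃ s : Finset ℕ, PowerSeries.coeff n S = ∑ M ∈ s, PowerSeries.coeff n
      (E M * ((∑ k ∈ range (M + 1), d k) ^ 2 - (∑ k ∈ range M, d k) ^ 2))) :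
    Bd (QN r zn) (PowerSeries.mk fun n => ell (PowerSeries.coeff n (phi1 * phi2 * S)))
      (225 * 200 ^ 6 * 4096 * 2 * (1 - r) ^ (-(41 / 4) : ℝ)) := by
  set ρ := (1 - r) / 200 with hρ
  have hh : 0 < 1 - r := by linarith
  have hρ0 : 0 < ρ := by rw [hρ]; positivity
  have hρ1 : ρ ≤ 1 / 100 := by rw [hρ]; linarith
  have hz := zn_rn
  have hu := UN_rn hz ρ 2
  have hR := rn_rn ρ
  have hx1' : ∃ x : PowerSeries ℤ, x1 = PowerSeries.C x ∧ x * (1 + PowerSeries.X) ^ 2 = 1 := by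
    obtain ⟨x, hx⟩ : ∃ x : PowerSeries ℤ, x * (1 + PowerSeries.X) ^ 2 = 1 := by
      have h1 : IsUnit ((1 + PowerSeries.X : PowerSeries ℤ) ^ 2) := by
        rw [PowerSeries.isUnit_iff_constantCoeff]
        simp
      obtain ⟨x, hx⟩ := h1.exists_left_inv
      exact ⟨x, hx⟩
    refine ⟨x, ?_, hx⟩
    have h2 : PowerSeries.C x * w1 ^ 2 = 1 := by
      rw [hw1, ← map_pow, ← map_mul, hx, map_one]
    calc x1 = x1 * (PowerSeries.C x * w1 ^ 2) := by rw [h2, mul_one]
      _ = PowerSeries.C x * (x1 * w1 ^ 2) := by ring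
      _ = PowerSeries.C x := by rw [hx1, mul_one]
  obtain ⟨x, hxx, hx⟩ := hx1'
  have hy1' : y1 = PowerSeries.C ((1 + PowerSeries.X) ^ 2) := by rw [hy1, hw1, ← map_pow]
  have bw1 : Bd (rn ρ) w1 (1 + ρ) := by
    rw [hw1]; exact ((w_bd hz hρ0.le).Umono (by norm_num)).UC hu ρ 4
  have bw2 : Bd (rn ρ) w2 (1 + ρ) := by
    rw [hw2]; exact w_bd hu hρ0.le
  have hx2'' : x2 * (1 + PowerSeries.X) ^ 2 = 1 := by rw [← hw2]; exact hx2
  have bx1 : Bd (rn ρ) x1 (1 + 3 * ρ) := by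
    rw [hxx]; exact ((x_bd hz hρ0.le hρ1 hx).Umono (by norm_num)).UC hu ρ 4
  have bx2 : Bd (rn ρ) x2 (1 + 3 * ρ) := x_bd hu hρ0.le hρ1 hx2''
  have b1x1 : Bd (rn ρ) (1 - x1) (3 * ρ) := by
    have : (1 : R2) - x1 = PowerSeries.C (1 - x) := by rw [hxx, map_sub, map_one]
    rw [this]; exact ((one_sub_x_bd hz hρ0.le hρ1 hx).Umono (by norm_num)).UC hu ρ 4
  have b1x2 : Bd (rn ρ) (1 - x2) (3 * ρ) := one_sub_x_bd hu hρ0.le hρ1 hx2''
  have bxy1 : Bd (rn ρ) (x1 - y1) (6 * ρ) := by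
    have : x1 - y1 = PowerSeries.C (x - (1 + PowerSeries.X) ^ 2) := by rw [hxx, hy1', map_sub]
    rw [this]; exact ((x_sub_y_bd hz hρ0.le hρ1 hx hx).Umono (by norm_num)).UC hu ρ 4
  have bxy2 : Bd (rn ρ) (x2 - y2) (6 * ρ) := by
    refine x_sub_y_bd hu hρ0.le hρ1 hx2'' ?_
    rw [hy2]; exact hx2
  have bxx : Bd (rn ρ) (x1 * x2) (1 + 7 * ρ) := by
    refine (bx1.mul hR bx2).mono ?_
    nlinarith
  have rh1 := rh_bd hR hr0 hr1 b1x1 g1 hg1
  have rh2 := rh_bd hR hr0 hr1 b1x2 g2 hg2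
  have bd := d_bd hR hr1 bw1 bw2 (fun n => ∏ a ∈ range n, g1 a) (fun n => ∏ a ∈ range n, g2 a)
    rh1 rh2
  have bp1 := phi_bd hR hr0 hr1 bx1 bxy1 p1 hp1 phi1 hphi1
  have bp2 := phi_bd hR hr0 hr1 bx2 bxy2 p2 hp2 phi2 hphi2
  have bS := S_bd hR hr0 hr1 bxx E d hE (fun n => by rw [hd]; exact bd n) S hS
  have hN := QN_rn hR r
  have bk := (bp1.mul hN bp2).mul hN bS
  have bF := Bd.functional (K := 225 / ρ ^ 6) (by positivity) ell
    (zn_ell_le hρ0 (by linarith)) bk
  refine bF.mono ?_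
  set h := 1 - r with hhdef
  have e1 : (2 / h) ^ (7 / 200 : ℝ) * (2 / h) ^ (7 / 200 : ℝ) * (2 / h) ^ (12 / 200 : ℝ) =
      (2 / h) ^ (26 / 200 : ℝ) := by
    rw [← Real.rpow_add (by positivity), ← Real.rpow_add (by positivity)]
    norm_num
  have e2 : (2 / h) ^ (26 / 200 : ℝ) ≤ 2 * h ^ (-(1 / 4) : ℝ) := by
    rw [Real.div_rpow (by norm_num) hh.le, div_eq_mul_inv, ← Real.rpow_neg hh.le]
    have f1 : (2 : ℝ) ^ (26 / 200 : ℝ) ≤ 2 := by
      calc (2 : ℝ) ^ (26 / 200 : ℝ) ≤ (2 : ℝ) ^ (1 : ℝ) :=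
            Real.rpow_le_rpow_of_exponent_le (by norm_num) (by norm_num)
        _ = 2 := Real.rpow_one 2
    have f2 : h ^ (-(26 / 200) : ℝ) ≤ h ^ (-(1 / 4) : ℝ) :=
      Real.rpow_le_rpow_of_exponent_ge hh (by linarith) (by norm_num)
    exact mul_le_mul f1 f2 (by positivity) (by norm_num)
  have e3 : h ^ (-(41 / 4) : ℝ) = h ^ (-(1 / 4) : ℝ) * (1 / h ^ 10) := by
    have : (-(41 / 4) : ℝ) = -(1 / 4) + -(10 : ℕ) := by norm_num
    rw [this, Real.rpow_add hh, Real.rpow_neg hh.le (10 : ℕ), Real.rpow_natCast, one_div (h ^ 10)]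
  rw [e3]
  calc 225 / ρ ^ 6 * ((2 / h) ^ (7 / 200 : ℝ) * (2 / h) ^ (7 / 200 : ℝ) *
        (4096 / h ^ 4 * (2 / h) ^ (12 / 200 : ℝ)))
      = 225 / ρ ^ 6 * (4096 / h ^ 4) * ((2 / h) ^ (7 / 200 : ℝ) * (2 / h) ^ (7 / 200 : ℝ) *
        (2 / h) ^ (12 / 200 : ℝ)) := by ring
    _ = 225 / ρ ^ 6 * (4096 / h ^ 4) * (2 / h) ^ (26 / 200 : ℝ) := by rw [e1]
    _ ≤ 225 / ρ ^ 6 * (4096 / h ^ 4) * (2 * h ^ (-(1 / 4) : ℝ)) := by gcongr
    _ = 225 * 200 ^ 6 * 4096 * 2 * (h ^ (-(1 / 4) : ℝ) * (1 / h ^ 10)) := by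
        rw [hρ]
        field_simp

end Gr

namespace GROM

variable {R : Type} [CommRing R]

theorem ig_mul (x : R) (a : ℕ) : ig x (a + 1) * (1 - PowerSeries.C x * PowerSeries.X ^ (a + 1)) =
    1 := by
  ext n
  have h1 : ig x (a + 1) * (1 - PowerSeries.C x * PowerSeries.X ^ (a + 1)) =
      ig x (a + 1) - PowerSeries.C x * (ig x (a + 1) * PowerSeries.X ^ (a + 1)) := by ring
  rw [h1, map_sub, PowerSeries.coeff_C_mul, PowerSeries.coeff_mul_X_pow', ig,
    PowerSeries.coeff_mk, PowerSeries.coeff_one]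
  by_cases h0 : n = 0
  · subst h0
    simp
  · rw [if_neg h0]
    by_cases hle : a + 1 ≤ n
    · rw [if_pos hle, PowerSeries.coeff_mk]
      by_cases hd : a + 1 ∣ n
      · obtain ⟨k, hk⟩ := hd
        have hk0 : k ≠ 0 := by rintro rfl; simp at hk; exact h0 hk
        obtain ⟨j, rfl⟩ := Nat.exists_eq_succ_of_ne_zero hk0
        have h2 : n - (a + 1) = (a + 1) * j := by rw [hk, Nat.mul_succ]; omega
        have hd1 : a + 1 ∣ n := ⟨j + 1, hk⟩
        have hd2 : a + 1 ∣ n - (a + 1) := ⟨j, h2⟩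
        rw [if_pos hd1, if_pos hd2, h2, hk, Nat.mul_div_cancel_left _ (Nat.succ_pos a),
          Nat.mul_div_cancel_left _ (Nat.succ_pos a), Nat.succ_eq_add_one, pow_succ]
        ring
      · have hd2 : ¬ a + 1 ∣ n - (a + 1) := by
          intro hd2
          exact hd ((Nat.dvd_sub_iff_left hle dvd_rfl).1 hd2)
        rw [if_neg hd, if_neg hd2]
        ring
    · have hd : ¬ a + 1 ∣ n := fun hd => hle (Nat.le_of_dvd (Nat.pos_of_ne_zero h0) hd)
      rw [if_neg hle, if_neg hd]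
      ring

theorem ig_one_mul (a : ℕ) : ig (1 : R) (a + 1) * (1 - PowerSeries.X ^ (a + 1)) = 1 := by
  have := ig_mul (1 : R) a
  rwa [map_one, one_mul] at this

theorem fac_eq (x xi : R) (a : ℕ) : ∃ c : PowerSeries R,
    (1 - PowerSeries.C xi * PowerSeries.X ^ (a + 1)) * ig x (a + 1) =
      1 + PowerSeries.X ^ (a + 1) * c := by
  refine ⟨(PowerSeries.C x - PowerSeries.C xi) * ig x (a + 1), ?_⟩
  have h := ig_mul x a
  linear_combination h

theorem phiN_stable (x xi : R) (n m : ℕ) : ∃ c : PowerSeries R,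
    phiN x xi (n + m) = phiN x xi n + PowerSeries.X ^ (n + 1) * c := by
  induction m with
  | zero => exact ⟨0, by simp⟩
  | succ m ih =>
    obtain ⟨c, hc⟩ := ih
    obtain ⟨d, hd⟩ := fac_eq x xi (n + m)
    have h1 : phiN x xi (n + (m + 1)) = phiN x xi (n + m) *
        ((1 - PowerSeries.C xi * PowerSeries.X ^ (n + m + 1)) * ig x (n + m + 1)) := by
      rw [phiN, ← add_assoc, prod_range_succ, phiN]
    rw [h1, hd]
    have h2 : (PowerSeries.X : PowerSeries R) ^ (n + m + 1) =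
        PowerSeries.X ^ (n + 1) * PowerSeries.X ^ m := by
      rw [← pow_add]; congr 1; ring
    rw [h2]
    exact ⟨c + PowerSeries.X ^ m * d * phiN x xi (n + m), by linear_combination hc⟩

theorem phi_coeff (x xi : R) (n k : ℕ) (hk : k ≤ n) :
    PowerSeries.coeff k (phi x xi) = PowerSeries.coeff k (phiN x xi n) := by
  obtain ⟨m, rfl⟩ := Nat.exists_eq_add_of_le hk
  obtain ⟨c, hc⟩ := phiN_stable x xi k m
  rw [phi, PowerSeries.coeff_mk, hc, map_add, PowerSeries.coeff_X_pow_mul', if_neg (by omega),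
    add_zero]

/-- the diagonal sums -/
noncomputable def dd (x z x' y' : R) (n : ℕ) : PowerSeries R :=
  ∑ p ∈ antidiagonal n, (PowerSeries.C z ^ p.1 * rh x p.1) * (PowerSeries.C y' ^ p.2 * rh x' p.2)

theorem ff_eq (x z x' y' : R) (N : ℕ) : ff x z x' y' N = ∑ k ∈ range (N + 1), dd x z x' y' k := by
  induction N with
  | zero => simp [ff, dd]
  | succ N ih =>
    rw [sum_range_succ, ← ih, ff, ff, dd]
    rw [Finset.Nat.sum_antidiagonal_eq_sum_range_succ (fun i j =>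
      (PowerSeries.C z ^ i * rh x i) * (PowerSeries.C y' ^ j * rh x' j)) (N + 1)]
    rw [sum_range_succ _ (N + 1), sum_range_succ _ (N + 1)]
    have h1 : ∀ r ∈ range (N + 1), ∑ s ∈ range (N + 1 + 1 - r),
        PowerSeries.C (z ^ r) * rh x r * (PowerSeries.C (y' ^ s) * rh x' s) =
        ∑ s ∈ range (N + 1 - r),
          PowerSeries.C (z ^ r) * rh x r * (PowerSeries.C (y' ^ s) * rh x' s) +
        (PowerSeries.C z ^ r * rh x r) * (PowerSeries.C y' ^ (N + 1 - r) * rh x' (N + 1 - r)) := by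
      intro r hr
      have hr' : r < N + 1 := mem_range.1 hr
      have h2 : N + 1 + 1 - r = (N + 1 - r) + 1 := by omega
      rw [h2, sum_range_succ, map_pow, map_pow]
    rw [sum_congr rfl h1, sum_add_distrib]
    have h3 : N + 1 + 1 - (N + 1) = 1 := by omega
    rw [h3, Nat.sub_self]
    simp only [sum_range_one, map_pow]
    ring

theorem dd_symm (x z x' y' : R) (n : ℕ) : dd x z x' y' n = dd x' y' x z n := by
  rw [dd, dd, ← Finset.Nat.sum_antidiagonal_swap]
  refine sum_congr rfl fun p _ => ?_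
  simp only [Prod.fst_swap, Prod.snd_swap]
  ring

theorem Dl_eq (x1 w1 x2 w2 : R) (M : ℕ) : Dl x1 w1 w1 x2 w2 w2 M =
    (∑ k ∈ range (M + 1), dd x1 w1 x2 w2 k) ^ 2 - (∑ k ∈ range M, dd x1 w1 x2 w2 k) ^ 2 := by
  have h1 : ∀ N, ff x2 w2 x1 w1 N = ff x1 w1 x2 w2 N := by
    intro N
    rw [ff_eq, ff_eq]
    exact sum_congr rfl fun k _ => dd_symm _ _ _ _ k
  cases M with
  | zero =>
    rw [Dl, h1, ff_eq, range_zero, sum_empty, sq, sq, mul_zero, sub_zero]
  | succ M =>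
    rw [Dl, h1, h1, ff_eq, ff_eq]
    ring

theorem w1_inv : w1i * w1 = 1 := by
  rw [w1i, w1, ← map_mul]
  have h : (PowerSeries.mk fun n => (-1 : ℤ) ^ n) * (1 + PowerSeries.X) = 1 := by
    ext n
    rw [mul_add, mul_one, map_add]
    cases n with
    | zero => simp
    | succ n =>
      rw [PowerSeries.coeff_succ_mul_X, PowerSeries.coeff_mk, PowerSeries.coeff_mk,
        PowerSeries.coeff_one, if_neg (Nat.succ_ne_zero n), pow_succ]
      ring
  rw [h, map_one]

theorem w2_inv : w2i * w2 = 1 := by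
  rw [w2i, w2]
  ext n
  rw [mul_add, mul_one, map_add]
  cases n with
  | zero => simp
  | succ n =>
    rw [PowerSeries.coeff_succ_mul_X, PowerSeries.coeff_mk, PowerSeries.coeff_mk,
      PowerSeries.coeff_one, if_neg (Nat.succ_ne_zero n), pow_succ]
    ring_nf

open Gr in
theorem main {r : ℝ} (hr0 : 0 ≤ r) (hr1 : r < 1) :
    Bd (QN r zn) Fser (225 * 200 ^ 6 * 4096 * 2 * (1 - r) ^ (-(41 / 4) : ℝ)) := by
  have e1 : w1i ^ 2 * w1 ^ 2 = 1 := by rw [← mul_pow, w1_inv, one_pow]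
  have e2 : w2i ^ 2 * w2 ^ 2 = 1 := by rw [← mul_pow, w2_inv, one_pow]
  have hrh : ∀ (x : R2) (n : ℕ), rh x n = ∏ a ∈ range n,
      (1 - PowerSeries.C x * PowerSeries.X ^ (a + 1)) * ig 1 (a + 1) := fun x n => rfl
  refine kappa_bd hr0 hr1 (w1i ^ 2) (w2i ^ 2) (w1 * w1) (w2 * w2) w1 w2 rfl rfl e1 e2
    (sq w1).symm (sq w2).symm
    (fun a => (1 - PowerSeries.C (w1i ^ 2) * PowerSeries.X ^ (a + 1)) * ig 1 (a + 1))
    (fun a => (1 - PowerSeries.C (w2i ^ 2) * PowerSeries.X ^ (a + 1)) * ig 1 (a + 1))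
    (fun a => (1 - PowerSeries.C (w1 * w1) * PowerSeries.X ^ (a + 1)) * ig (w1i ^ 2) (a + 1))
    (fun a => (1 - PowerSeries.C (w2 * w2) * PowerSeries.X ^ (a + 1)) * ig (w2i ^ 2) (a + 1))
    (fun a => by rw [mul_assoc, ig_one_mul, mul_one])
    (fun a => by rw [mul_assoc, ig_one_mul, mul_one])
    (fun a => by rw [mul_assoc, ig_mul, mul_one])
    (fun a => by rw [mul_assoc, ig_mul, mul_one])
    (phi (w1i ^ 2) (w1 * w1)) (phi (w2i ^ 2) (w2 * w2))
    (fun n => ⟨n, fun k hk => phi_coeff _ _ n k hk.le⟩)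
    (fun n => ⟨n, fun k hk => phi_coeff _ _ n k hk.le⟩)
    (fun n => Hh (w1i ^ 2 * w2i ^ 2) (n + 1)) (dd (w1i ^ 2) w1 (w2i ^ 2) w2)
    (fun n => ?_) (fun n => rfl)
    (PowerSeries.mk fun n => PowerSeries.coeff n (kapN (w1i ^ 2) w1 w1 (w2i ^ 2) w2 w2 n))
    (fun n => ⟨range n, ?_⟩)
  · rw [Hh]
    have f1 := ig_one_mul (R := R2) n
    have f2 := ig_mul (w1i ^ 2 * w2i ^ 2) n
    calc PowerSeries.X ^ (n + 1) * ig 1 (n + 1) * ig (w1i ^ 2 * w2i ^ 2) (n + 1) *
          ((1 - PowerSeries.X ^ (n + 1)) *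
            (1 - PowerSeries.C (w1i ^ 2 * w2i ^ 2) * PowerSeries.X ^ (n + 1)))
        = PowerSeries.X ^ (n + 1) * (ig 1 (n + 1) * (1 - PowerSeries.X ^ (n + 1))) *
          (ig (w1i ^ 2 * w2i ^ 2) (n + 1) *
            (1 - PowerSeries.C (w1i ^ 2 * w2i ^ 2) * PowerSeries.X ^ (n + 1))) := by ring
      _ = PowerSeries.X ^ (n + 1) := by rw [f1, f2, mul_one, mul_one]
  · rw [PowerSeries.coeff_mk, kapN, map_sum]
    refine sum_congr rfl fun M _ => ?_
    rw [Dl_eq]

end GROM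

open Gr GROM in
/-- the growth bound -/
theorem specGRO : SpecGRO := by
  refine ⟨225 * 200 ^ 6 * 4096 * 2, fun t ht0 ht1 => ?_⟩
  have h := main ht0 ht1
  have h0 := h.value (t : ℂ) (by rw [Complex.norm_real, Real.norm_of_nonneg ht0])
  have e : ∀ n, ‖((PowerSeries.coeff n Fser : ℤ) : ℂ) * (t : ℂ) ^ n‖ =
      |((PowerSeries.coeff n Fser : ℤ) : ℝ)| * t ^ n := by
    intro n
    rw [norm_mul, norm_pow, Complex.norm_intCast, Complex.norm_real, Real.norm_of_nonneg ht0]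
  have hs : Summable (fun n => |((PowerSeries.coeff n Fser : ℤ) : ℝ)| * t ^ n) :=
    h0.1.congr e
  refine ⟨hs, ?_⟩
  have h1 : ∑' n, ENNReal.ofReal (|((PowerSeries.coeff n Fser : ℤ) : ℝ)| * t ^ n) ≤
      ENNReal.ofReal (225 * 200 ^ 6 * 4096 * 2 * (1 - t) ^ (-(41 / 4) : ℝ)) := by
    refine le_trans (le_of_eq (tsum_congr fun n => ?_)) h.le
    rw [zn, ENNReal.ofReal_mul (abs_nonneg _), ENNReal.ofReal_pow ht0]
  rw [← ENNReal.ofReal_tsum_of_nonneg (fun n => by positivity) hs] at h1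
  exact (ENNReal.ofReal_le_ofReal_iff h.nonneg).1 h1

end Pool.Agent.Lib.MPd9449f
end
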