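import Pool.Agent.Lib.MP_d9449f_ag.OQ.CertF
import Pool.Agent.Lib.MP_d9449f_ag.OQ.GRO
import Pool.Agent.Lib.MP_d9449f_ag.OQ.SpecT

section
/-!
# The packed computation of `F` modulo 31 is correct
-/
open Finset PowerSeries

namespace Pool.Agent.Lib.MPd9449f.CertM

theorem w1_mul : w1 * w1i = 1 := by
  unfold w1 w1i
  rw [← map_mul]
  have : ((1 : PowerSeries ℤ) + X) * (PowerSeries.mk fun n => (-1) ^ n) = 1 := by
    ext n
    cases n with
    | zero => simp [add_mul]
    | succ n =>
      rw [add_mul, one_mul, map_add, PowerSeries.coeff_succ_X_mul, PowerSeries.coeff_mk,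
        PowerSeries.coeff_mk, PowerSeries.coeff_one, if_neg (by omega), pow_succ]
      ring
  rw [this, map_one]

theorem w2_mul : w2 * w2i = 1 := by
  unfold w2 w2i
  ext1 n
  cases n with
  | zero => simp [add_mul]
  | succ n =>
    rw [add_mul, one_mul, map_add, PowerSeries.coeff_succ_X_mul, PowerSeries.coeff_mk,
      PowerSeries.coeff_mk, PowerSeries.coeff_one, if_neg (by omega), pow_succ]
    ring

noncomputable def D1 (N : ℕ) : PowerSeries R2 := dN w1 (w1i ^ 2) w2 (w2i ^ 2) N
noncomputable def Z1 (N : ℕ) : PowerSeries R2 := dz w1 (w1i ^ 2) w2 (w2i ^ 2) N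
noncomputable def S1 (N : ℕ) : PowerSeries R2 := sf w1 (w1i ^ 2) w2 (w2i ^ 2) N
noncomputable def K1 (N : ℕ) : PowerSeries R2 := kS w1 (w1i ^ 2) w2 (w2i ^ 2) N

theorem D1_succ (b : ℕ) :
    ((C (w1 + w2) * D1 b + C (-(w1 * w2)) * Z1 b) +
      X ^ (b + 1) * (C (-(w1i + w2i)) * D1 b + C (w1i * w2i) * Z1 b)) * ig 1 (b + 1) =
      D1 (b + 1) := by
  have h1 := dN_rec w1 w1i w2 w2i w1_mul w2_mul b
  have h2 := ig_inv (1 : R2) (b + 1) (by omega)
  have h3 : dz w1 (w1i ^ 2) w2 (w2i ^ 2) (b + 1) = D1 b := rfl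
  rw [h3] at h1
  rw [map_one, one_mul] at h2
  rw [map_neg, map_neg]
  have h4 : (1 - X ^ (b + 1)) * D1 (b + 1) =
    (C (w1 + w2) * D1 b - C (w1 * w2) * Z1 b) - X ^ (b + 1) *
      (C (w1i + w2i) * D1 b - C (w1i * w2i) * Z1 b) := h1
  linear_combination (-(ig (1 : R2) (b + 1))) * h4 + D1 (b + 1) * h2

theorem tg_add' (f g : PowerSeries R2) (e : ℕ) : tg (f + g) e = tg f e + tg g e :=
  dg_add _ _ _ _ _

theorem tloop_spec (n : ℕ) : ∀ b d d' g T : ℕ, n + (b + 1) = 388 → RK n d (D1 b) →
    RK n d' (Z1 b) → RK n g (S1 b) → Rp val 17460 (63 * b) T (tg (K1 b)) →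
    Rp val 17460 (63 * (b + n)) (tloop n (b + 1) d d' g T) (tg (K1 (b + n))) := by
  induction n with
  | zero => intro b d d' g T _ _ _ _ hT; exact hT
  | succ n ih =>
    intro b d d' g T hn hd hd' hg hT
    rw [tloop_succ, show b + (n + 1) = (b + 1) + n by ring]
    have ha : b + 1 ≠ 0 := by omega
    have hnt := nt_spec (n + 1) (b + 1) (by omega)
    -- the sum `f_M + f_{M-1}`
    have hs0 := Rp.add (Rp.smul hg 2) hd
    have hs : RK (n + 1) (fdK (Nat.add (Nat.mul 2 g) d)) (S1 b + S1 b + D1 b) :=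
      (fdK_spec hs0 (by norm_num) (by omega)).congr fun e _ _ => by
        rw [tg_add, tg_add]; push_cast; ring
    -- the new term
    have hΔ := RK.mul (P := n + 1) hd hs le_rfl le_rfl (by omega)
    have hE := expd_spec tT_spec ha (nt (n + 1) (b + 1)) (by omega)
    have hterm := RK.mul (P := n + 1) hΔ hE le_rfl hnt.1 (by omega)
    have hsh := Rp.shift hterm (45 * (b + 1)) (val_sub (b + 1))
    have e1 : 45 * (n + 1) + 45 * (b + 1) = 17460 := by omega
    have e2 : 25 * (45 * (b + 1)) = Nat.mul 1125 (b + 1) := by rw [rmul]; ring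
    rw [e1, e2] at hsh
    have hT' := Rp.add hT hsh
    refine ih (b + 1) _ _ _ _ (by omega) ?_ ?_ ?_ ?_
    · -- the new d
      have h12 := (RK.mulCq cC1_spec hd).add (RK.mulCq cC2_spec hd')
      have h34 := (RK.mulCq cC3_spec hd).add (RK.mulCq cC4_spec hd')
      have h34' := (h34.shift (45 * (b + 1)) (fun e he hv => (val_sub (b + 1) e he).1 hv)).mono
        (m' := 45 * (n + 1)) (by omega) le_rfl
      have hsum := fin_spec (h12.add h34') (by norm_num) (by omega)
      rw [e2] at hsum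
      have ht : RK (n + 1) _ ((C (w1 + w2) * D1 b + C (-(w1 * w2)) * Z1 b) +
          X ^ (b + 1) * (C (-(w1i + w2i)) * D1 b + C (w1i * w2i) * Z1 b)) :=
        hsum.congr fun e _ _ => by
          rw [tg_add', tg_add', tg_shift]
          congr 1
          split_ifs
          · rw [tg_add']
          · rfl
      have hE2 := expd_spec tG_spec ha (nt (n + 1) (b + 1)) (by omega)
      have hdn := RK.mul (P := n + 1) ht hE2 le_rfl hnt.1 (by omega)
      rw [expand_ig, D1_succ] at hdn
      exact hdn.trunc (Nat.le_succ n)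
    · exact RK.trunc hd (Nat.le_succ n)
    · have h5 := (RK.addf hg hd (by omega)).trunc (P' := n) (Nat.le_succ n)
      have h6 : S1 b + D1 b = S1 (b + 1) := (sum_range_succ _ _).symm
      rw [h6] at h5
      exact h5
    · have e3 : 63 * b + 63 = 63 * (b + 1) := by ring
      rw [e3] at hT'
      refine hT'.congr fun e _ _ => ?_
      have h6 : K1 (b + 1) = K1 b + X ^ (b + 1) * (D1 b * (S1 b + S1 b + D1 b) *
          PowerSeries.expand (b + 1) ha (ig 1 1 * ig (w1i ^ 2 * w2i ^ 2) 1)) := by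
        rw [map_mul, expand_ig, expand_ig]
        have h7 : K1 (b + 1) = K1 b + Hh (w1i ^ 2 * w2i ^ 2) (b + 1) *
            (D1 b * (S1 b + S1 b + D1 b)) := sum_range_succ _ _
        rw [h7, Hh]
        ring
      rw [h6, tg_add', tg_shift]

@[irreducible] noncomputable def vPhi : ℕ := ploop 387 1 1
@[irreducible] noncomputable def vT : ℕ := fdK (tloop 387 1 1 0 0 0)
@[irreducible] noncomputable def vZ : ℕ := mulK 388 (mulK 388 vPhi vT) cY

theorem RK_one' (P : ℕ) (hP : 1 ≤ P) : RK P 1 1 := by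
  have := RK_one.ext hP
  rw [map_one] at this
  exact this

theorem vPhi_spec : RK 388 vPhi (PP2 387) := by
  unfold vPhi
  have h := ploop_spec 387 0 1 (by
    have : PP2 0 = 1 := by simp [PP2, phiN]
    rw [this]
    exact RK_one' 388 (by norm_num))
  exact h

theorem vT_spec : RK 388 vT (K1 387) := by
  unfold vT
  have h := tloop_spec 387 0 1 0 0 0 (by norm_num) ?_ ?_ ?_ ?_
  · exact fdK_spec h (by norm_num) le_rfl
  · have : D1 0 = 1 := by simp [D1, dN, rh]
    rw [this]
    exact RK_one' 387 (by norm_num)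
  · have : Z1 0 = 0 := rfl
    rw [this, RK, tg_zero]
    exact Rp.zero _ _ _
  · have : S1 0 = 0 := by simp [S1, sf]
    rw [this, RK, tg_zero]
    exact Rp.zero _ _ _
  · have : K1 0 = 0 := by simp [K1, kS]
    rw [this, tg_zero]
    exact Rp.zero _ _ _

theorem vZ_spec : RK 388 vZ (kapW * C (Y1 * Y2)) := by
  unfold vZ
  have h := (vPhi_spec.mul vT_spec le_rfl le_rfl le_rfl).mul (cY_spec.ext (by norm_num : 1 ≤ 388))
    le_rfl le_rfl le_rfl
  refine h.congr fun n hn => ?_
  refine (coeff_mul_congr (fun m hm => ?_) fun m _ => rfl).symm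
  exact coeff_kap w1 (w1i ^ 2) w2 (w2i ^ 2) m 387 (by omega)

/-- the functional `ell` as a coefficient -/
theorem ell_eq (r : R2) : cf 2 4 (r * (Y1 * Y2)) = ell r := by
  have h1 : r * (Y1 * Y2) = C (C 2 + X) * (C (C 24) * r + C (C 36) * (X ^ 1 * r) +
      C (C 14) * (X ^ 2 * r) + X ^ 3 * r) := by
    rw [Y1, Y2]; ring
  rw [cf, h1, PowerSeries.coeff_C_mul, map_add, map_add, map_add, PowerSeries.coeff_C_mul,
    PowerSeries.coeff_C_mul, PowerSeries.coeff_C_mul, PowerSeries.coeff_X_pow_mul',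
    PowerSeries.coeff_X_pow_mul', PowerSeries.coeff_X_pow_mul', if_pos (by norm_num),
    if_pos (by norm_num), if_pos (by norm_num), add_mul, map_add, PowerSeries.coeff_C_mul,
    PowerSeries.coeff_succ_X_mul]
  simp only [map_add, PowerSeries.coeff_C_mul]
  rfl

/-- `F` modulo 31, packed -/
noncomputable def vFn (n : ℕ) : ℕ := Nat.rec 0 (fun n ih => Nat.add ih (Nat.mul (Nat.mod (Nat.mod
  (Nat.shiftRight vZ (Nat.add (Nat.mul 1125 n) 550)) 33554432) 31) (Nat.pow 2 (Nat.mul 25 n)))) n

@[irreducible] noncomputable def vF : ℕ := vFn 388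

theorem vFn_spec (n : ℕ) (hn : n ≤ 388) : Rp (fun _ => True) n 63 (vFn n)
    (fun e => ((coeff e Fser : ℤ) : ZMod 31)) := by
  induction n with
  | zero => exact (Rp.zero _ 0 63).congr fun e he _ => by omega
  | succ n ih =>
    have ih := ih (by omega)
    obtain ⟨P, h1, h2, h3, h4⟩ := vZ_spec
    have hd : (vZ >>> (25 * (45 * n + 22))) % 33554432 = P.coeff (45 * n + 22) := by
      rw [h1, eval_pk (m := 45 * 388) fun e he => h4 e (Or.inl he)]
      exact pk_digit (by omega) fun e => (h2 e).trans_lt (by norm_num)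
    have hv : ((P.coeff (45 * n + 22) : ℕ) : ZMod 31) = ((coeff n Fser : ℤ) : ZMod 31) := by
      rw [h3 (45 * n + 22) (by omega) (by unfold val; omega)]
      unfold tg dg
      have e1 : (45 * n + 22) / 45 = n := by omega
      have e2 : (45 * n + 22) % 45 / 9 = 2 := by omega
      have e3 : (45 * n + 22) % 9 = 4 := by omega
      rw [e1, e2, e3, PowerSeries.coeff_mul_C, ell_eq, Fser, PowerSeries.coeff_mk]
    have hb : Rp (fun _ => True) 1 63 (Nat.mod (Nat.mod
        (Nat.shiftRight vZ (Nat.add (Nat.mul 1125 n) 550)) 33554432) 31)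
        (fun _ => ((coeff n Fser : ℤ) : ZMod 31)) := by
      have e1 : Nat.add (Nat.mul 1125 n) 550 = 25 * (45 * n + 22) := by
        rw [radd, rmul]; ring
      rw [e1]
      have e2 : Nat.mod (Nat.mod (Nat.shiftRight vZ (25 * (45 * n + 22))) 33554432) 31 =
          P.coeff (45 * n + 22) % 31 := by
        rw [← hd]; rfl
      rw [e2]
      refine ⟨Polynomial.C (P.coeff (45 * n + 22) % 31), by rw [Polynomial.eval_C], fun e => ?_,
        fun e he _ => ?_, fun e he => ?_⟩
      · rw [Polynomial.coeff_C]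
        split_ifs
        · have := Nat.mod_lt (P.coeff (45 * n + 22)) (show 0 < 31 by norm_num)
          omega
        · exact Nat.zero_le _
      · have : e = 0 := by omega
        rw [Polynomial.coeff_C, if_pos this, ZMod.natCast_mod, hv]
      · rw [Polynomial.coeff_C, if_neg]
        rcases he with he | he
        · omega
        · exact absurd trivial he
    have := Rp.append ih hb (fun e => Iff.rfl) fun e he _ => by
      have : e = 0 := by omega
      subst this
      rw [add_zero]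
    exact this

theorem vF_spec : Rp (fun _ => True) 388 63 vF (fun e => ((coeff e Fser : ℤ) : ZMod 31)) := by
  unfold vF; exact vFn_spec 388 le_rfl

end Pool.Agent.Lib.MPd9449f.CertM
end

section
/-!
# Enumeration of the monomials and descent modulo 31
-/
open Finset PowerSeries

namespace Pool.Agent.Lib.MPd9449f.CertM

/-- monomials -/
abbrev Mon := ℕ × ℕ →₀ ℕ

noncomputable def Gm (m : Mon) : PowerSeries (ZMod 31) := m.prod fun p k => G31 p ^ k

theorem Gm_add (m m' : Mon) : Gm (m + m') = Gm m * Gm m' :=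
  Finsupp.prod_add_index' (fun _ => pow_zero _) fun _ _ _ => pow_add _ _ _

theorem Gm_single (v : ℕ × ℕ) : Gm (Finsupp.single v 1) = G31 v := by
  exact (Finsupp.prod_single_index (h := fun p k => G31 p ^ k) (pow_zero (G31 v))).trans
    (pow_one _)

theorem mwt_add (m m' : Mon) : mwt (m + m') = mwt m + mwt m' :=
  Finsupp.sum_add_index' (fun _ => by simp) fun _ _ _ => by ring

theorem mwt_single (v : ℕ × ℕ) (k : ℕ) : mwt (Finsupp.single v k) = k * wt v := by
  unfold mwt
  rw [Finsupp.sum_single_index (by simp)]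

/-! ### Kernel enumeration -/

noncomputable def kv (vs : List (ℕ × ℕ)) : List (ℕ × ℕ) :=
  List.rec [] (fun p _ ih =>
    (Nat.add (Nat.add (Nat.mul 2 p.1) 3) (Nat.mul 2 p.2), ds p.1 p.2) :: ih) vs

noncomputable def inner (v : ℕ × ℕ) (ih : ℕ → ℕ → List ℕ → List ℕ) (n : ℕ) :
    ℕ → ℕ → List ℕ → List ℕ :=
  Nat.rec (motive := fun _ => ℕ → ℕ → List ℕ → List ℕ) (fun _ _ acc => acc)
    (fun _ ihf W c acc => Bool.rec (motive := fun _ => List ℕ) (ih W c acc)
      (frc (mul1 c v.2) fun c' => frc (Nat.sub W v.1) fun W' => ihf W' c' (ih W c acc))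
      (Nat.ble v.1 W)) n

noncomputable def kmons (vs : List (ℕ × ℕ)) : ℕ → ℕ → List ℕ → List ℕ :=
  List.rec (motive := fun _ => ℕ → ℕ → List ℕ → List ℕ) (fun _ c acc => c :: acc)
    (fun v _ ih => inner v ih 7) vs

theorem inner_succ (v : ℕ × ℕ) (ih : ℕ → ℕ → List ℕ → List ℕ) (n W c : ℕ) (acc : List ℕ) :
    inner v ih (n + 1) W c acc = Bool.rec (motive := fun _ => List ℕ) (ih W c acc)
      (inner v ih n (Nat.sub W v.1) (mul1 c v.2) (ih W c acc)) (Nat.ble v.1 W) := by
  show Bool.rec (motive := fun _ => List ℕ) (ih W c acc)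
      (frc (mul1 c v.2) fun c' => frc (Nat.sub W v.1) fun W' =>
        inner v ih n W' c' (ih W c acc)) (Nat.ble v.1 W) = _
  rw [frc_eq, frc_eq]

/-- `x` represents the monomial `m` -/
def RelM (x : ℕ) (m : Mon) : Prop := R1 x (Gm m)

theorem inner_spec {v : ℕ × ℕ} {ih : ℕ → ℕ → List ℕ → List ℕ} {vs : List (ℕ × ℕ)}
    (hih : ∀ W c m acc macc, W ≤ 20 → RelM c m → List.Forall₂ RelM acc macc →
      ∃ ms, List.Forall₂ RelM (ih W c acc) ms ∧ (∀ m' ∈ macc, m' ∈ ms) ∧
        ∀ m' : Mon, (∀ p ∈ m'.support, p ∈ vs) → mwt m' ≤ W → m + m' ∈ ms) (n : ℕ) :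
    ∀ W c m acc macc, W ≤ 20 → RelM c m → List.Forall₂ RelM acc macc →
      ∃ ms, List.Forall₂ RelM (inner (wt v, ds v.1 v.2) ih n W c acc) ms ∧ (∀ m' ∈ macc, m' ∈ ms) ∧
        ∀ (k : ℕ) (m' : Mon), k < n → (∀ p ∈ m'.support, p ∈ vs) → k * wt v + mwt m' ≤ W →
          m + (Finsupp.single v k + m') ∈ ms := by
  induction n with
  | zero =>
    intro W c m acc macc _ _ hacc
    exact ⟨macc, hacc, fun _ h => h, fun k _ hk => absurd hk (Nat.not_lt_zero k)⟩
  | succ n ihn =>
    intro W c m acc macc hW hc hacc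
    obtain ⟨ms, h1, h2, h3⟩ := hih W c m acc macc hW hc hacc
    rw [inner_succ]
    dsimp only
    by_cases hwt : wt v ≤ W
    · have hb : Nat.ble (wt v) W = true := Nat.ble_eq_true_of_le hwt
      rw [hb]
      have hc' : RelM (mul1 c (ds v.1 v.2)) (m + Finsupp.single v 1) := by
        have := mul1_spec hc (ds_spec v.1 v.2)
        rw [← Gm_single, ← Gm_add] at this
        exact this
      obtain ⟨ms', g1, g2, g3⟩ := ihn (Nat.sub W (wt v)) _ _ _ _
        ((Nat.sub_le W (wt v)).trans hW) hc' h1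
      refine ⟨ms', g1, fun m' hm' => g2 m' (h2 m' hm'), fun k m' hk hm' hle => ?_⟩
      cases k with
      | zero =>
        rw [zero_mul, zero_add] at hle
        rw [Finsupp.single_zero, zero_add]
        exact g2 _ (h3 m' hm' hle)
      | succ k =>
        have e1 : m + (Finsupp.single v (k + 1) + m') =
            (m + Finsupp.single v 1) + (Finsupp.single v k + m') := by
          rw [show k + 1 = 1 + k by ring, Finsupp.single_add]
          abel
        rw [e1]
        refine g3 k m' (by omega) hm' ?_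
        rw [Nat.add_mul, one_mul] at hle
        show k * wt v + mwt m' ≤ W - wt v
        omega
    · have hb : Nat.ble (wt v) W = false := by
        cases hb : Nat.ble (wt v) W
        · rfl
        · exact absurd (Nat.le_of_ble_eq_true hb) hwt
      rw [hb]
      refine ⟨ms, h1, h2, fun k m' _ hm' hle => ?_⟩
      cases k with
      | zero =>
        rw [zero_mul, zero_add] at hle
        rw [Finsupp.single_zero, zero_add]
        exact h3 m' hm' hle
      | succ k =>
        exfalso
        rw [Nat.add_mul, one_mul] at hle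
        omega

theorem wt_ge (v : ℕ × ℕ) : 3 ≤ wt v := by unfold wt; omega

theorem kmons_spec (vs : List (ℕ × ℕ)) : ∀ W c m acc macc, W ≤ 20 → RelM c m →
    List.Forall₂ RelM acc macc → ∃ ms, List.Forall₂ RelM (kmons (kv vs) W c acc) ms ∧
      (∀ m' ∈ macc, m' ∈ ms) ∧
        ∀ m' : Mon, (∀ p ∈ m'.support, p ∈ vs) → mwt m' ≤ W → m + m' ∈ ms := by
  induction vs with
  | nil =>
    intro W c m acc macc _ hc hacc
    refine ⟨m :: macc, List.Forall₂.cons hc hacc, fun m' h => List.mem_cons_of_mem _ h,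
      fun m' hm' _ => ?_⟩
    have : m' = 0 := by
      rw [← Finsupp.support_eq_empty, Finset.eq_empty_iff_forall_notMem]
      intro p hp
      exact absurd (hm' p hp) List.not_mem_nil
    rw [this, add_zero]
    exact List.mem_cons_self
  | cons v vs ih =>
    intro W c m acc macc hW hc hacc
    obtain ⟨ms, h1, h2, h3⟩ := inner_spec ih 7 W c m acc macc hW hc hacc
    refine ⟨ms, h1, h2, fun m' hm' hle => ?_⟩
    have e1 : m' = Finsupp.single v (m' v) + m'.erase v := (Finsupp.single_add_erase v m').symm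
    have e2 : mwt m' = m' v * wt v + mwt (m'.erase v) := by
      conv_lhs => rw [e1, mwt_add, mwt_single]
    rw [e1]
    refine h3 (m' v) (m'.erase v) ?_ ?_ ?_
    · by_contra h
      have h5 := wt_ge v
      have h6 : 7 * 3 ≤ m' v * wt v := Nat.mul_le_mul (by omega) h5
      omega
    · intro p hp
      rw [Finsupp.support_erase, Finset.mem_erase] at hp
      rcases List.mem_cons.1 (hm' p hp.2) with h | h
      · exact absurd h hp.1
      · exact h
    · omega

/-! ### The variables -/

/-- the variables of weight at most 20 -/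
def vl : List (ℕ × ℕ) := [(0, 0), (0, 1), (0, 2), (0, 3), (0, 4), (0, 5), (0, 6), (0, 7), (0, 8),
  (1, 0), (1, 1), (1, 2), (1, 3), (1, 4), (1, 5), (1, 6), (1, 7), (2, 0), (2, 1), (2, 2), (2, 3),
  (2, 4), (2, 5), (2, 6), (3, 0), (3, 1), (3, 2), (3, 3), (3, 4), (3, 5), (4, 0), (4, 1), (4, 2),
  (4, 3), (4, 4), (5, 0), (5, 1), (5, 2), (5, 3), (6, 0), (6, 1), (6, 2), (7, 0), (7, 1), (8, 0)]

theorem mem_vl (p : ℕ × ℕ) (h : wt p ≤ 20) : p ∈ vl := by
  obtain ⟨a, l⟩ := p
  unfold wt at h
  dsimp only at h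
  have ha : a < 9 := by omega
  have hl : l < 9 := by omega
  have key : ∀ a l : Fin 9, 2 * a.val + 3 + 2 * l.val ≤ 20 → (a.val, l.val) ∈ vl := by
    decide +kernel
  exact key ⟨a, ha⟩ ⟨l, hl⟩ h

theorem mem_vl_of_mwt (m : Mon) (h : mwt m ≤ 20) : ∀ p ∈ m.support, p ∈ vl := by
  intro p hp
  apply mem_vl
  have h1 : m p * wt p ≤ mwt m :=
    Finset.single_le_sum (f := fun p => m p * wt p) (fun _ _ => Nat.zero_le _) hp
  have h2 : 1 ≤ m p := Nat.one_le_iff_ne_zero.2 (Finsupp.mem_support_iff.1 hp)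
  have h3 : 1 * wt p ≤ m p * wt p := Nat.mul_le_mul_right _ h2
  omega

/-! ### Descent -/

/-- `D^l G_{2a+3}` with integer coefficients -/
noncomputable def GZ (p : ℕ × ℕ) : PowerSeries ℤ :=
  PowerSeries.mk fun n => (n : ℤ) ^ p.2 * ((ArithmeticFunction.sigma (2 * p.1 + 2) n : ℕ) : ℤ)

noncomputable def GmZ (m : Mon) : PowerSeries ℤ := m.prod fun p k => GZ p ^ k

theorem map_GmZ (m : Mon) : PowerSeries.map (Int.castRingHom (ZMod 31)) (GmZ m) = Gm m := by
  unfold GmZ Gm Finsupp.prod
  rw [map_prod]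
  refine Finset.prod_congr rfl fun p _ => ?_
  rw [map_pow]
  congr 1
  ext1 n
  simp [GZ, G31]

theorem map_GmZ_rat (m : Mon) : PowerSeries.map (Int.castRingHom ℚ) (GmZ m) =
    ∏ p ∈ m.support, Gser p ^ m p := by
  unfold GmZ Finsupp.prod
  rw [map_prod]
  refine Finset.prod_congr rfl fun p _ => ?_
  rw [map_pow]
  congr 1
  ext1 n
  simp [GZ, Gser]

/-- the result of the kernel check -/
def Chk (hl : List ℕ) : Prop := run (vF :: kmons (kv vl) 20 1 []) hl [] = true

/-- the vector of a monomial or of `F` -/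
noncomputable def vec : Option Mon → Wv
  | none => ro fun e => ((coeff e Fser : ℤ) : ZMod 31)
  | some m => ro fun e => coeff e (Gm m)

theorem indep {hl : List ℕ} (h : Chk hl) (S : Finset Mon) (hS : ∀ m ∈ S, mwt m ≤ 20)
    (hlen : (kmons (kv vl) 20 1 []).length ≤ 387) (c : Option Mon → ZMod 31)
    (hc : ∑ m ∈ Finset.insertNone S, c m • vec m = 0) : ∀ m ∈ Finset.insertNone S, c m = 0 := by
  obtain ⟨ms, h1, -, h3⟩ := kmons_spec vl 20 1 0 [] [] le_rfl
    (by show R1 1 (Gm 0); unfold Gm; rw [Finsupp.prod_zero_index]; exact R1_one)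
    List.Forall₂.nil
  have h4 : List.Forall₂ (fun x t => Rp tr 388 63 x t) (vF :: kmons (kv vl) 20 1 [])
      ((fun e => ((coeff e Fser : ℤ) : ZMod 31)) :: ms.map fun m e => coeff e (Gm m)) := by
    refine List.Forall₂.cons vF_spec ?_
    rw [List.forall₂_map_right_iff]
    exact h1
  have h5 := run_spec _ _ hl [] [] h h4 List.Forall₂.nil trivial (by
    rw [List.length_cons, List.length_nil]; omega)
  have h6 : (((fun e => ((coeff e Fser : ℤ) : ZMod 31)) :: ms.map fun m e => coeff e (Gm m)) :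
      List Wv).map ro = (none :: ms.map some).map vec := by
    simp only [List.map_cons, List.map_map]
    rfl
  rw [h6] at h5
  refine IndF.coeff vec _ _ h5 _ (fun m hm => ?_) c ?_
  · cases m with
    | none => exact List.mem_cons_self
    | some m =>
      rw [Finset.some_mem_insertNone] at hm
      refine List.mem_cons_of_mem _ (List.mem_map.2 ⟨m, ?_, rfl⟩)
      have := h3 m (mem_vl_of_mwt m (hS m hm)) (hS m hm)
      rwa [zero_add] at this
  · rw [hc]
    exact Submodule.zero_mem _

theorem descent {hl : List ℕ} (h : Chk hl) (hlen : (kmons (kv vl) 20 1 []).length ≤ 387)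
    (S : Finset Mon) (hS : ∀ m ∈ S, mwt m ≤ 20) : ∀ D : ℕ, 0 < D → ∀ c : Mon → ℤ,
      (∀ n, (D : ℤ) * coeff n Fser = ∑ m ∈ S, c m * coeff n (GmZ m)) → False := by
  intro D
  induction D using Nat.strong_induction_on with
  | _ D ih =>
    intro hD c hrel
    have key := indep h S hS hlen (fun o => match o with
      | none => -(D : ZMod 31)
      | some m => ((c m : ℤ) : ZMod 31)) (by
        rw [Finset.sum_insertNone]
        show -(D : ZMod 31) • ro (fun e => ((coeff e Fser : ℤ) : ZMod 31)) +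
          ∑ m ∈ S, ((c m : ℤ) : ZMod 31) • ro (fun e => coeff e (Gm m)) = 0
        have e1 : -(D : ZMod 31) • ro (fun e => ((coeff e Fser : ℤ) : ZMod 31)) +
            ∑ m ∈ S, ((c m : ℤ) : ZMod 31) • ro (fun e => coeff e (Gm m)) =
            roL (-(D : ZMod 31) • (fun e => ((coeff e Fser : ℤ) : ZMod 31)) +
              ∑ m ∈ S, ((c m : ℤ) : ZMod 31) • (fun e => coeff e (Gm m))) := by
          rw [map_add, map_smul, map_sum]
          simp only [map_smul]
          rfl
        rw [e1]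
        have e2 : (-(D : ZMod 31) • (fun e => ((coeff e Fser : ℤ) : ZMod 31)) +
              ∑ m ∈ S, ((c m : ℤ) : ZMod 31) • (fun e => coeff e (Gm m)) : Wv) = 0 := by
          funext e
          rw [Pi.add_apply, Pi.smul_apply, Finset.sum_apply, Pi.zero_apply]
          have e3 := congrArg (Int.cast : ℤ → ZMod 31) (hrel e)
          rw [Int.cast_mul, Int.cast_natCast, Int.cast_sum] at e3
          rw [smul_eq_mul, neg_mul, e3, neg_add_eq_zero]
          refine Finset.sum_congr rfl fun m _ => ?_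
          rw [Int.cast_mul, Pi.smul_apply, smul_eq_mul, ← map_GmZ, PowerSeries.coeff_map]
          rfl
        rw [e2, map_zero])
    have h1 : ((D : ℕ) : ZMod 31) = 0 := by
      have := key none (Finset.none_mem_insertNone)
      exact neg_eq_zero.1 this
    have h2 : ∀ m ∈ S, ((c m : ℤ) : ZMod 31) = 0 := fun m hm =>
      key (some m) (Finset.some_mem_insertNone.2 hm)
    obtain ⟨D', rfl⟩ := (ZMod.natCast_eq_zero_iff D 31).1 h1
    refine ih D' (by omega) (by omega) (fun m => c m / 31) fun n => ?_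
    have h3 := hrel n
    have h4 : ∀ m ∈ S, c m * coeff n (GmZ m) = 31 * (c m / 31 * coeff n (GmZ m)) := by
      intro m hm
      have h5 : (31 : ℤ) ∣ c m := by
        have := (ZMod.intCast_zmod_eq_zero_iff_dvd (c m) 31).1 (h2 m hm)
        exact_mod_cast this
      rw [← mul_assoc, Int.mul_ediv_cancel' h5]
    rw [Finset.sum_congr rfl h4, ← Finset.mul_sum] at h3
    push_cast at h3
    have h5 : (31 : ℤ) * ((D' : ℤ) * coeff n Fser) =
        31 * ∑ m ∈ S, c m / 31 * coeff n (GmZ m) := by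
      rw [← h3]; ring
    exact mul_left_cancel₀ (by norm_num) h5

theorem specCERT_of {hl : List ℕ} (h : Chk hl)
    (hlen : (kmons (kv vl) 20 1 []).length ≤ 387) : SpecCERT := by
  intro P hP hEq
  set D : ℕ := ∏ m ∈ P.support, (P.coeff m).den with hD
  have hD0 : 0 < D := Finset.prod_pos fun m _ => (P.coeff m).den_pos
  have hc : ∀ m ∈ P.support, ∃ z : ℤ, (z : ℚ) = (D : ℚ) * P.coeff m := by
    intro m hm
    obtain ⟨k, hk⟩ := Finset.dvd_prod_of_mem (fun m => (P.coeff m).den) hm
    refine ⟨k * (P.coeff m).num, ?_⟩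
    rw [hD, hk]
    push_cast
    have h1 : ((P.coeff m).den : ℚ) * P.coeff m = (P.coeff m).num := by
      rw [mul_comm]; exact Rat.mul_den_eq_num _
    calc (k : ℚ) * ((P.coeff m).num : ℚ) = k * (((P.coeff m).den : ℚ) * P.coeff m) := by rw [h1]
      _ = _ := by ring
  choose! c hcc using hc
  refine descent h hlen P.support hP D hD0 c fun n => ?_
  have h1 := congrArg (coeff n) hEq
  rw [MvPolynomial.aeval_def, MvPolynomial.eval₂_eq, map_sum, FserQ, PowerSeries.coeff_map] at h1
  have h2 : ∀ m ∈ P.support, coeff n ((algebraMap ℚ (PowerSeries ℚ)) (P.coeff m) *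
      ∏ p ∈ m.support, Gser p ^ m p) = P.coeff m * ((coeff n (GmZ m) : ℤ) : ℚ) := by
    intro m _
    rw [← map_GmZ_rat, PowerSeries.algebraMap_apply, Algebra.algebraMap_self, RingHom.id_apply,
      PowerSeries.coeff_C_mul, PowerSeries.coeff_map]
    rfl
  rw [Finset.sum_congr rfl h2] at h1
  have h3 : ((D : ℤ) : ℚ) * ((coeff n Fser : ℤ) : ℚ) =
      ((∑ m ∈ P.support, c m * coeff n (GmZ m) : ℤ) : ℚ) := by
    rw [Int.cast_sum]
    have h4 : ((coeff n Fser : ℤ) : ℚ) = (Int.castRingHom ℚ) (coeff n Fser) := rfl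
    rw [h4, ← h1, Finset.mul_sum]
    refine Finset.sum_congr rfl fun m hm => ?_
    rw [Int.cast_mul, hcc m hm]
    push_cast
    ring
  exact_mod_cast h3

end Pool.Agent.Lib.MPd9449f.CertM
end

section
/-!
# The finite check

Modulo 31 the series `F` and the 387 monomials of weight at most 20 in the `D^l G_{2a+3}` are
linearly independent (388 coefficients). The kernel computes all these series as packed numbers
and performs the Gaussian elimination; `hl` is the list of the pivots.
-/
namespace Pool.Agent.Lib.MPd9449f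

namespace CertM

/-- pivots (slots after the rotation by four) -/
def hl : List ℕ := [
6, 10, 11, 12, 9, 13, 14, 15, 16, 17, 8, 18, 19, 20, 21, 23, 22, 24, 25, 26, 27, 28, 29, 30, 31,
32, 33, 35, 7, 34, 36, 37, 38, 39, 40, 41, 42, 43, 44, 45, 46, 47, 48, 49, 50, 51, 52, 53, 54, 55,
56, 57, 58, 59, 60, 61, 62, 63, 64, 65, 66, 67, 68, 69, 70, 71, 72, 73, 74, 75, 76, 77, 78, 79,
80, 81, 82, 83, 84, 85, 86, 87, 88, 89, 90, 91, 92, 93, 94, 95, 96, 97, 98, 99, 100, 101, 102,
103, 104, 105, 106, 107, 108, 109, 110, 111, 112, 113, 114, 115, 116, 117, 118, 119, 120, 121,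
122, 123, 124, 125, 126, 127, 128, 129, 130, 131, 132, 133, 134, 135, 136, 137, 138, 139, 140,
141, 142, 143, 144, 145, 146, 147, 148, 149, 150, 151, 152, 153, 154, 155, 156, 157, 158, 159,
160, 161, 162, 163, 164, 165, 166, 167, 169, 168, 170, 171, 5, 172, 174, 173, 175, 176, 177, 178,
179, 180, 181, 182, 183, 184, 185, 187, 186, 188, 189, 190, 191, 192, 193, 194, 195, 196, 197,
198, 199, 200, 201, 202, 203, 204, 205, 206, 207, 208, 209, 210, 211, 212, 213, 214, 215, 216,
217, 218, 219, 220, 221, 222, 223, 224, 225, 226, 227, 228, 229, 230, 231, 232, 233, 234, 235,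
236, 237, 238, 239, 240, 241, 242, 243, 244, 245, 246, 247, 248, 249, 250, 251, 252, 253, 254,
255, 256, 257, 258, 259, 260, 261, 262, 263, 264, 265, 266, 267, 268, 269, 270, 271, 272, 274,
273, 275, 276, 277, 278, 279, 281, 280, 282, 284, 283, 285, 286, 287, 288, 289, 290, 291, 292,
293, 294, 295, 296, 297, 298, 299, 300, 301, 302, 303, 304, 305, 306, 307, 308, 309, 310, 311,
312, 313, 314, 315, 316, 317, 318, 319, 320, 321, 322, 323, 324, 325, 326, 327, 328, 329, 330,
331, 332, 333, 334, 335, 336, 337, 338, 339, 341, 340, 342, 343, 344, 345, 346, 347, 348, 349,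
350, 351, 352, 353, 354, 355, 356, 357, 358, 359, 360, 361, 362, 363, 364, 365, 366, 367, 368,
369, 370, 371, 372, 373, 374, 375, 376, 377, 378, 380, 379, 381, 382, 383, 384, 385, 386, 387, 0,
1, 2, 3, 4]

theorem chk : Chk hl := by
  unfold Chk
  decide +kernel

theorem len_le : (kmons (kv vl) 20 1 []).length ≤ 387 := by
  decide +kernel

end CertM

/-- CERT -/
theorem specCERT : SpecCERT := CertM.specCERT_of CertM.chk CertM.len_le

end Pool.Agent.Lib.MPd9449f
end
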