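import Pool.Agent.Lib.MP_d9449f_ag.OQ.GRO

/-!
# Packed computation of the covariance series modulo 31
-/

open Finset PowerSeries

namespace Pool.Agent.Lib.MPd9449f.CertM

/-! ### Constants -/

theorem RK_const (r : R2) (a : ℕ → ℕ) (h1 : ∀ e, a e ≤ 63) (h2 : ∀ e, 45 ≤ e → a e = 0)
    (h3 : ∀ e, ¬ val e → a e = 0)
    (h4 : ∀ i j, i < 3 → j < 5 → ((a (9 * i + j) : ℕ) : ZMod 31) = ((cf i j r : ℤ) : ZMod 31)) :
    RK 1 (pk a 45) (C r) := by
  obtain ⟨P, q1, q2⟩ := exists_poly a 45 h2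
  refine ⟨P, q2.symm, fun e => by rw [q1]; exact h1 e, fun e he hv => ?_, fun e he => ?_⟩
  · have h5 := hv.1
    have h6 := hv.2
    rw [q1]
    unfold tg dg
    have h7 : e / 45 = 0 := by omega
    rw [h7, PowerSeries.coeff_C, if_pos rfl, ← h4 _ _ h5 h6]
    congr 2
    omega
  · rw [q1]
    rcases he with he | he
    · exact h2 e (by omega)
    · exact h3 e he

noncomputable def uW1 : ℕ := Nat.add 1 (Nat.pow 2 225)
noncomputable def uW2 : ℕ := Nat.add 1 (Nat.pow 2 25)
noncomputable def uI1 : ℕ := Nat.add 1 (Nat.add (Nat.mul 30 (Nat.pow 2 225)) (Nat.pow 2 450))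
noncomputable def uI2 : ℕ := Nat.add 1 (Nat.add (Nat.mul 30 (Nat.pow 2 25)) (Nat.add (Nat.pow 2 50)
  (Nat.add (Nat.mul 30 (Nat.pow 2 75)) (Nat.pow 2 100))))
noncomputable def uY1 : ℕ := Nat.add 2 (Nat.pow 2 225)
noncomputable def uY2 : ℕ := Nat.add 24 (Nat.add (Nat.mul 5 (Nat.pow 2 25))
  (Nat.add (Nat.mul 14 (Nat.pow 2 50)) (Nat.pow 2 75)))

theorem uW1_spec : RK 1 uW1 (C w1) := by
  have h : uW1 = pk (fun e => if e = 0 ∨ e = 9 then 1 else 0) 45 := by decide +kernel
  rw [h]
  refine RK_const _ _ (fun e => by split_ifs <;> norm_num) (fun e he => if_neg (by omega))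
    (fun e he => if_neg fun h => ?_) fun i j hi hj => ?_
  · rcases h with rfl | rfl <;> exact he (by decide)
  · interval_cases i <;> interval_cases j <;>
      simp [cf, w1, PowerSeries.coeff_one, PowerSeries.coeff_X]

theorem uW2_spec : RK 1 uW2 (C w2) := by
  have h : uW2 = pk (fun e => if e = 0 ∨ e = 1 then 1 else 0) 45 := by decide +kernel
  rw [h]
  refine RK_const _ _ (fun e => by split_ifs <;> norm_num) (fun e he => if_neg (by omega))
    (fun e he => if_neg fun h => ?_) fun i j hi hj => ?_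
  · rcases h with rfl | rfl <;> exact he (by decide)
  · interval_cases i <;> interval_cases j <;>
      simp [cf, w2, PowerSeries.coeff_one, PowerSeries.coeff_X]

theorem uI1_spec : RK 1 uI1 (C w1i) := by
  have h : uI1 = pk (fun e => if e = 0 ∨ e = 18 then 1 else if e = 9 then 30 else 0) 45 := by
    decide +kernel
  rw [h]
  refine RK_const _ _ (fun e => by split_ifs <;> norm_num) (fun e he => ?_)
    (fun e he => ?_) fun i j hi hj => ?_
  · rw [if_neg (by omega), if_neg (by omega)]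
  · rw [if_neg, if_neg]
    · rintro rfl; exact he (by decide)
    · rintro (rfl | rfl) <;> exact he (by decide)
  · have h30 : ((30 : ℕ) : ZMod 31) = -1 := by decide
    interval_cases i <;> interval_cases j <;>
      simp [cf, w1i, PowerSeries.coeff_C]
    exact h30

theorem coeff_negone (i n : ℕ) : coeff i ((-1 : PowerSeries ℤ) ^ n) =
    if i = 0 then (-1) ^ n else 0 := by
  have : ((-1 : PowerSeries ℤ) ^ n) = C ((-1) ^ n) := by simp
  rw [this, PowerSeries.coeff_C]

theorem uI2_spec : RK 1 uI2 (C w2i) := by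
  have h : uI2 = pk (fun e => if e = 0 ∨ e = 2 ∨ e = 4 then 1 else if e = 1 ∨ e = 3 then 30
      else 0) 45 := by
    decide +kernel
  rw [h]
  refine RK_const _ _ (fun e => by split_ifs <;> norm_num) (fun e he => ?_)
    (fun e he => ?_) fun i j hi hj => ?_
  · rw [if_neg (by omega), if_neg (by omega)]
  · rw [if_neg, if_neg]
    · rintro (rfl | rfl) <;> exact he (by decide)
    · rintro (rfl | rfl | rfl) <;> exact he (by decide)
  · have h30 : ((30 : ℕ) : ZMod 31) = -1 := by decide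
    rw [cf, w2i, PowerSeries.coeff_mk, coeff_negone]
    interval_cases i <;> interval_cases j <;> simp <;> exact h30

/-- `2 + u1` -/
noncomputable def Y1 : R2 := C (C 2 + X)
/-- `24 + 36 u2 + 14 u2^2 + u2^3` -/
noncomputable def Y2 : R2 := C (C 24) + C (C 36) * X + C (C 14) * X ^ 2 + X ^ 3

theorem uY1_spec : RK 1 uY1 (C Y1) := by
  have h : uY1 = pk (fun e => if e = 0 then 2 else if e = 9 then 1 else 0) 45 := by
    decide +kernel
  rw [h]
  refine RK_const _ _ (fun e => by split_ifs <;> norm_num) (fun e he => ?_)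
    (fun e he => ?_) fun i j hi hj => ?_
  · rw [if_neg (by omega), if_neg (by omega)]
  · rw [if_neg, if_neg] <;> (rintro rfl; exact he (by decide))
  · have e1 : cf i j Y1 = if j = 0 then (if i = 0 then 2 else if i = 1 then 1 else 0) else 0 := by
      rw [cf, Y1, PowerSeries.coeff_C]
      by_cases h0 : j = 0
      · rw [if_pos h0, if_pos h0, map_add, PowerSeries.coeff_C, PowerSeries.coeff_X]
        split_ifs <;> first | omega | rfl
      · rw [if_neg h0, if_neg h0, map_zero]
    rw [e1]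
    interval_cases i <;> interval_cases j <;> rfl

theorem uY2_spec : RK 1 uY2 (C Y2) := by
  have h : uY2 = pk (fun e => if e = 0 then 24 else if e = 1 then 5 else if e = 2 then 14
      else if e = 3 then 1 else 0) 45 := by
    decide +kernel
  rw [h]
  refine RK_const _ _ (fun e => by split_ifs <;> norm_num) (fun e he => ?_)
    (fun e he => ?_) fun i j hi hj => ?_
  · rw [if_neg (by omega), if_neg (by omega), if_neg (by omega), if_neg (by omega)]
  · rw [if_neg, if_neg, if_neg, if_neg] <;> (rintro rfl; exact he (by decide))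
  · have e1 : ∀ j, coeff j Y2 = if j = 0 then C 24 else if j = 1 then C 36 else if j = 2 then C 14
        else if j = 3 then 1 else 0 := by
      intro j
      rw [Y2, map_add, map_add, map_add, PowerSeries.coeff_C, PowerSeries.coeff_C_mul,
        PowerSeries.coeff_C_mul, PowerSeries.coeff_X, PowerSeries.coeff_X_pow,
        PowerSeries.coeff_X_pow]
      split_ifs <;> first | omega | simp
    have e2 : cf i j Y2 = if i = 0 then (if j = 0 then 24 else if j = 1 then 36 else if j = 2 then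
        14 else if j = 3 then 1 else 0) else 0 := by
      rw [cf, e1]
      split_ifs with h1 h2 h3 h4 h5 <;>
        first
        | rw [PowerSeries.coeff_C, if_pos (by assumption)]
        | rw [PowerSeries.coeff_C, if_neg (by assumption)]
        | rw [PowerSeries.coeff_one, if_pos (by assumption)]
        | rw [PowerSeries.coeff_one, if_neg (by assumption)]
        | rw [map_zero]
    rw [e2]
    interval_cases i <;> interval_cases j <;> rfl

theorem RK.mulC {x y : ℕ} {r s : R2} (hx : RK 1 x (C r)) (hy : RK 1 y (C s)) :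
    RK 1 (mulK 1 x y) (C (r * s)) := by
  have := RK.mul (P := 1) hx hy le_rfl le_rfl (by norm_num)
  rw [← map_mul] at this
  exact this

theorem RK.addC {x y : ℕ} {r s : R2} (hx : RK 1 x (C r)) (hy : RK 1 y (C s)) :
    RK 1 (fdK (Nat.add x y)) (C (r + s)) := by
  have := RK.addf hx hy (by norm_num)
  rw [← map_add] at this
  exact this

theorem RK.negC {x : ℕ} {r : R2} (hx : RK 1 x (C r)) :
    RK 1 (fdK (Nat.mul 30 x)) (C (-r)) := by
  have := RK.negf hx (by norm_num)
  rw [← map_neg] at this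
  exact this

@[irreducible] noncomputable def cX1 : ℕ := mulK 1 uI1 uI1
@[irreducible] noncomputable def cX2 : ℕ := mulK 1 uI2 uI2
@[irreducible] noncomputable def cN1 : ℕ := fdK (Nat.mul 30 (mulK 1 uW1 uW1))
@[irreducible] noncomputable def cN2 : ℕ := fdK (Nat.mul 30 (mulK 1 uW2 uW2))
@[irreducible] noncomputable def cX : ℕ := mulK 1 cX1 cX2
@[irreducible] noncomputable def cC1 : ℕ := fdK (Nat.add uW1 uW2)
@[irreducible] noncomputable def cC2 : ℕ := fdK (Nat.mul 30 (mulK 1 uW1 uW2))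
@[irreducible] noncomputable def cC3 : ℕ := fdK (Nat.mul 30 (fdK (Nat.add uI1 uI2)))
@[irreducible] noncomputable def cC4 : ℕ := mulK 1 uI1 uI2
@[irreducible] noncomputable def cY : ℕ := mulK 1 uY1 uY2

theorem cX1_spec : RK 1 cX1 (C (w1i ^ 2)) := by
  unfold cX1; rw [sq]; exact uI1_spec.mulC uI1_spec
theorem cX2_spec : RK 1 cX2 (C (w2i ^ 2)) := by
  unfold cX2; rw [sq]; exact uI2_spec.mulC uI2_spec
theorem cN1_spec : RK 1 cN1 (C (-(w1 * w1))) := by
  unfold cN1; exact (uW1_spec.mulC uW1_spec).negC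
theorem cN2_spec : RK 1 cN2 (C (-(w2 * w2))) := by
  unfold cN2; exact (uW2_spec.mulC uW2_spec).negC
theorem cX_spec : RK 1 cX (C (w1i ^ 2 * w2i ^ 2)) := by
  unfold cX; exact cX1_spec.mulC cX2_spec
theorem cC1_spec : RK 1 cC1 (C (w1 + w2)) := by
  unfold cC1; exact uW1_spec.addC uW2_spec
theorem cC2_spec : RK 1 cC2 (C (-(w1 * w2))) := by
  unfold cC2; exact (uW1_spec.mulC uW2_spec).negC
theorem cC3_spec : RK 1 cC3 (C (-(w1i + w2i))) := by
  unfold cC3; exact (uI1_spec.addC uI2_spec).negC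
theorem cC4_spec : RK 1 cC4 (C (w1i * w2i)) := by
  unfold cC4; exact uI1_spec.mulC uI2_spec
theorem cY_spec : RK 1 cY (C (Y1 * Y2)) := by
  unfold cY; exact uY1_spec.mulC uY2_spec

/-! ### Tables -/

/-- `1 + c q` -/
noncomputable def lin (c : ℕ) : ℕ := Nat.add 1 (Nat.mul c (Nat.pow 2 1125))

theorem lin_spec {c : ℕ} {r : R2} (hc : RK 1 c (C r)) : RK 388 (lin c) (1 + C r * X) := by
  have h1 : RK 1 1 (1 + C r * X) := RK_one.congr fun n hn => by
    have : n = 0 := by omega
    subst this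
    simp
  have h2 := Rp.append h1 hc (fun e => val_add 1 e) ?_
  · have e1 : 25 * (45 * 1) = 1125 := by norm_num
    rw [e1] at h2
    refine Rp.extend h2 (by norm_num) fun e he _ => ?_
    unfold tg dg
    have h3 : e / 45 ≠ 0 := by omega
    have h4 : e / 45 ≠ 1 := by omega
    rw [map_add, PowerSeries.coeff_one, if_neg h3, PowerSeries.coeff_C_mul, PowerSeries.coeff_X,
      if_neg h4]
    simp [cf]
  · intro e he _
    unfold tg dg
    have h1 : (45 * 1 + e) / 45 = 1 := by omega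
    have h2 : (45 * 1 + e) % 45 / 9 = e % 45 / 9 := by omega
    have h3 : (45 * 1 + e) % 9 = e % 9 := by omega
    have h4 : e / 45 = 0 := by omega
    rw [h1, h2, h3, h4]
    simp

@[irreducible] noncomputable def tG : ℕ := gtab 1 388
@[irreducible] noncomputable def tT : ℕ := mulK 388 tG (gtab cX 388)
@[irreducible] noncomputable def tP : ℕ := mulK 388 (mulK 388 (gtab cX1 388) (gtab cX2 388))
  (mulK 388 (lin cN1) (lin cN2))

theorem tG_spec : RK 388 tG (ig 1 1) := by
  unfold tG; exact gtab_spec RK_one 388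

theorem tT_spec : RK 388 tT (ig 1 1 * ig (w1i ^ 2 * w2i ^ 2) 1) := by
  unfold tT; exact tG_spec.mul (gtab_spec cX_spec 388) le_rfl le_rfl le_rfl

theorem tP_spec : RK 388 tP (ig (w1i ^ 2) 1 * ig (w2i ^ 2) 1 *
    ((1 + C (-(w1 * w1)) * X) * (1 + C (-(w2 * w2)) * X))) := by
  unfold tP
  exact ((gtab_spec cX1_spec 388).mul (gtab_spec cX2_spec 388) le_rfl le_rfl le_rfl).mul
    ((lin_spec cN1_spec).mul (lin_spec cN2_spec) le_rfl le_rfl le_rfl) le_rfl le_rfl le_rfl

theorem expand_ig (x : R2) (a : ℕ) (ha : a ≠ 0) : PowerSeries.expand a ha (ig x 1) = ig x a := by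
  ext1 n
  rw [PowerSeries.coeff_expand, ig, ig, PowerSeries.coeff_mk, PowerSeries.coeff_mk]
  simp

/-! ### The product `φ(x1) φ(x2)` -/

noncomputable def ploop (n : ℕ) : ℕ → ℕ → ℕ :=
  Nat.rec (motive := fun _ => ℕ → ℕ → ℕ) (fun _ y => y)
    (fun _ ih a y => frc (mulK 388 y (expd tP a (nt 388 a))) fun y' =>
      frc (Nat.succ a) fun a' => ih a' y') n

theorem ploop_succ (n a y : ℕ) : ploop (n + 1) a y =
    ploop n (a + 1) (mulK 388 y (expd tP a (nt 388 a))) := by
  show frc (mulK 388 y (expd tP a (nt 388 a))) (fun y' =>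
      frc (Nat.succ a) fun a' => ploop n a' y') = _
  rw [frc_eq, frc_eq]

/-- `φ_N(x1) φ_N(x2)` -/
noncomputable def PP2 (N : ℕ) : PowerSeries R2 :=
  phiN (w1i ^ 2) (w1 * w1) N * phiN (w2i ^ 2) (w2 * w2) N

theorem ploop_spec (n : ℕ) : ∀ b y : ℕ, RK 388 y (PP2 b) → RK 388 (ploop n (b + 1) y) (PP2 (b + n)) := by
  induction n with
  | zero => intro b y hy; exact hy
  | succ n ih =>
    intro b y hy
    rw [ploop_succ, show b + (n + 1) = (b + 1) + n by ring]
    refine ih (b + 1) _ ?_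
    have h1 := nt_spec 388 (b + 1) (by omega)
    have h2 := expd_spec tP_spec (show b + 1 ≠ 0 by omega) (nt 388 (b + 1)) h1.2
    have h3 := hy.mul h2 le_rfl h1.1 le_rfl
    refine h3.congr fun m _ => ?_
    congr 1
    unfold PP2
    rw [phiN_succ, phiN_succ]
    simp only [map_mul, expand_ig, map_add, map_one, PowerSeries.expand_C, PowerSeries.expand_X,
      map_neg]
    ring

/-! ### The sum `∑ H_{M+1} Δ_M` -/

theorem Rp.mulC {V : ℕ → Prop} [DecidablePred V] {m m₁ B B' x y N : ℕ} {t t' : ℕ → ZMod 31}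
    (h : Rp V m₁ B x t) (ht : ∀ e, m₁ ≤ e → V e → t e = 0) (h' : Rp V m B' y t')
    (hN : Nat.count V m₁ ≤ N) : Rq V m (N * (B * B')) (Nat.mul x y) (cv V t t') := by
  obtain ⟨P, h1, h2, h3, h4⟩ := h
  obtain ⟨Q, g1, g2, g3, g4⟩ := h'
  refine ⟨P * Q, ?_, fun s => ?_, fun s hs hv => ?_⟩
  · rw [h1, g1, Polynomial.eval_mul]; rfl
  · rw [Polynomial.coeff_mul, Finset.Nat.sum_antidiagonal_eq_sum_range_succ
      (fun i j => P.coeff i * Q.coeff j)]
    calc ∑ i ∈ range (s + 1), P.coeff i * Q.coeff (s - i)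
        ≤ ∑ i ∈ range (s + 1), (if i ∈ (range m₁).filter V then B * B' else 0) := by
          refine sum_le_sum fun i _ => ?_
          split_ifs with hi
          · exact Nat.mul_le_mul (h2 _) (g2 _)
          · rw [mem_filter, mem_range, not_and_or, not_lt] at hi
            rw [h4 i hi, zero_mul]
      _ = (((range (s + 1)).filter fun i => i ∈ (range m₁).filter V).card) * (B * B') := by
          rw [← sum_filter, sum_const, smul_eq_mul]
      _ ≤ N * (B * B') := by
          refine Nat.mul_le_mul_right _ (le_trans (card_le_card fun i hi => ?_)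
            ((Nat.count_eq_card_filter_range V m₁).ge.trans hN))
          exact (mem_filter.1 hi).2
  · rw [Polynomial.coeff_mul, Nat.cast_sum]
    refine sum_congr rfl fun p hp => ?_
    have hp' := HasAntidiagonal.mem_antidiagonal.1 hp
    rw [Nat.cast_mul]
    congr 1
    · split_ifs with hv1
      · by_cases h5 : p.1 < m₁
        · exact h3 _ h5 hv1
        · rw [h4 _ (Or.inl (not_lt.1 h5)), ht _ (not_lt.1 h5) hv1, Nat.cast_zero]
      · rw [h4 _ (Or.inr hv1), Nat.cast_zero]
    · split_ifs with hv1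
      · exact g3 _ (by omega) hv1
      · rw [g4 _ (Or.inr hv1), Nat.cast_zero]

theorem RK.mulCq {P c y : ℕ} {r : R2} {g : PowerSeries R2} (hc : RK 1 c (C r)) (hy : RK P y g) :
    Rq val (45 * P) 59535 (Nat.mul c y) (tg (C r * g)) := by
  have h1 := Rp.mulC (N := 15) hc (fun e he _ => tg_C_ge r (by omega)) hy (by
    rw [show 45 * 1 = 45 * 1 from rfl, count_val])
  exact h1.congr fun e _ hv => tg_mul _ _ e hv

noncomputable def tloop (n : ℕ) : ℕ → ℕ → ℕ → ℕ → ℕ → ℕ :=
  Nat.rec (motive := fun _ => ℕ → ℕ → ℕ → ℕ → ℕ → ℕ) (fun _ _ _ _ T => T)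
    (fun n ih a d d' g T =>
      frc (Nat.add T (Nat.mul (mulK (Nat.succ n) (mulK (Nat.succ n) d (fdK (Nat.add (Nat.mul 2 g) d)))
        (expd tT a (nt (Nat.succ n) a))) (Nat.pow 2 (Nat.mul 1125 a)))) fun T' =>
      frc (Nat.mod (mulK (Nat.succ n) (fdK (Nat.land (Nat.mod (Nat.add
        (Nat.add (Nat.mul cC1 d) (Nat.mul cC2 d'))
        (Nat.mul (Nat.add (Nat.mul cC3 d) (Nat.mul cC4 d')) (Nat.pow 2 (Nat.mul 1125 a))))
          (Nat.pow 2 (Nat.mul 1125 (Nat.succ n)))) mK)) (expd tG a (nt (Nat.succ n) a)))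
          (Nat.pow 2 (Nat.mul 1125 n))) fun dn =>
      frc (Nat.mod d (Nat.pow 2 (Nat.mul 1125 n))) fun dn' =>
      frc (Nat.mod (fdK (Nat.add g d)) (Nat.pow 2 (Nat.mul 1125 n))) fun gn =>
      frc (Nat.succ a) fun a' => ih a' dn dn' gn T') n

theorem tloop_succ (n a d d' g T : ℕ) : tloop (n + 1) a d d' g T =
    tloop n (a + 1)
      (Nat.mod (mulK (n + 1) (fdK (Nat.land (Nat.mod (Nat.add
        (Nat.add (Nat.mul cC1 d) (Nat.mul cC2 d'))
        (Nat.mul (Nat.add (Nat.mul cC3 d) (Nat.mul cC4 d')) (Nat.pow 2 (Nat.mul 1125 a))))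
          (Nat.pow 2 (Nat.mul 1125 (n + 1)))) mK)) (expd tG a (nt (n + 1) a)))
          (Nat.pow 2 (Nat.mul 1125 n)))
      (Nat.mod d (Nat.pow 2 (Nat.mul 1125 n)))
      (Nat.mod (fdK (Nat.add g d)) (Nat.pow 2 (Nat.mul 1125 n)))
      (Nat.add T (Nat.mul (mulK (n + 1) (mulK (n + 1) d (fdK (Nat.add (Nat.mul 2 g) d)))
        (expd tT a (nt (n + 1) a))) (Nat.pow 2 (Nat.mul 1125 a)))) := by
  show frc (Nat.add T (Nat.mul (mulK (Nat.succ n) (mulK (Nat.succ n) d (fdK (Nat.add (Nat.mul 2 g) d)))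
        (expd tT a (nt (Nat.succ n) a))) (Nat.pow 2 (Nat.mul 1125 a)))) (fun T' =>
      frc (Nat.mod (mulK (Nat.succ n) (fdK (Nat.land (Nat.mod (Nat.add
        (Nat.add (Nat.mul cC1 d) (Nat.mul cC2 d'))
        (Nat.mul (Nat.add (Nat.mul cC3 d) (Nat.mul cC4 d')) (Nat.pow 2 (Nat.mul 1125 a))))
          (Nat.pow 2 (Nat.mul 1125 (Nat.succ n)))) mK)) (expd tG a (nt (Nat.succ n) a)))
          (Nat.pow 2 (Nat.mul 1125 n))) fun dn =>
      frc (Nat.mod d (Nat.pow 2 (Nat.mul 1125 n))) fun dn' =>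
      frc (Nat.mod (fdK (Nat.add g d)) (Nat.pow 2 (Nat.mul 1125 n))) fun gn =>
      frc (Nat.succ a) fun a' => tloop n a' dn dn' gn T') = _
  rw [frc_eq, frc_eq, frc_eq, frc_eq, frc_eq]

end Pool.Agent.Lib.MPd9449f.CertM
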