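import Pool.Agent.Lib.MP_d9449f_ag.OQ.SpecS

section
/-!
# PS: sums over paths are nested sums
-/
open PowerSeries Finset

namespace Pool.Agent.Lib.MPd9449f

namespace PSM

section transfer

variable {A B : Type} [CommRing B]

/-- forward transfer -/
def fw (s : Finset A) (W : ℕ → A → A → B) (a : A → B) : ℕ → A → B
  | 0 => a
  | k + 1 => fun l => ∑ m ∈ s, fw s W a k m * W k m l

/-- backward transfer (`j` steps, ending at time `n`) -/
def bw (s : Finset A) (W : ℕ → A → A → B) (b : A → B) (n : ℕ) : ℕ → A → B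
  | 0 => b
  | j + 1 => fun m => ∑ l ∈ s, W (n - (j + 1)) m l * bw s W b n j l

theorem sum_fw (s : Finset A) (W : ℕ → A → A → B) (a : A → B) : ∀ (n : ℕ) (b : A → B),
    ∑ p ∈ Fintype.piFinset (fun _ : Fin (n + 1) => s),
      a (p 0) * (∏ k : Fin n, W k (p k.castSucc) (p k.succ)) * b (p (Fin.last n)) =
      ∑ l ∈ s, fw s W a n l * b l := by
  intro n
  induction n with
  | zero =>
    intro b
    simp only [fw]
    refine Finset.sum_bij' (fun p _ => p 0) (fun l _ => fun _ => l) ?_ ?_ ?_ ?_ ?_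
    · intro p hp
      exact (Fintype.mem_piFinset.1 hp) 0
    · intro l hl
      exact Fintype.mem_piFinset.2 fun _ => hl
    · intro p _
      funext i
      have hi : i = 0 := Fin.ext (by have := i.2; simp only [Fin.val_zero]; omega)
      rw [hi]
    · intro l _
      rfl
    · intro p _
      simp
  | succ n ih =>
    intro b
    have h1 : ∑ l ∈ s, fw s W a (n + 1) l * b l =
        ∑ l ∈ s, ∑ m ∈ s, fw s W a n m * (W n m l * b l) := by
      refine Finset.sum_congr rfl fun l _ => ?_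
      simp only [fw, Finset.sum_mul]
      exact Finset.sum_congr rfl fun m _ => by ring
    rw [h1]
    have h2 : ∀ l, ∑ m ∈ s, fw s W a n m * (W n m l * b l) =
        ∑ p ∈ Fintype.piFinset (fun _ : Fin (n + 1) => s),
          a (p 0) * (∏ k : Fin n, W k (p k.castSucc) (p k.succ)) *
            (W n (p (Fin.last n)) l * b l) := fun l => (ih fun m => W n m l * b l).symm
    simp only [h2]
    rw [← Finset.sum_product']
    refine Finset.sum_bij' (fun p _ => (p (Fin.last (n + 1)), fun i => p i.castSucc))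
      (fun q _ => Fin.snoc q.2 q.1) ?_ ?_ ?_ ?_ ?_
    · intro p hp
      rw [Fintype.mem_piFinset] at hp
      rw [Finset.mem_product]
      exact ⟨hp _, Fintype.mem_piFinset.2 fun i => hp _⟩
    · intro q hq
      rw [Finset.mem_product] at hq
      rw [Fintype.mem_piFinset]
      intro i
      refine Fin.lastCases ?_ (fun j => ?_) i
      · simp only [Fin.snoc_last]
        exact hq.1
      · simp only [Fin.snoc_castSucc]
        exact (Fintype.mem_piFinset.1 hq.2) j
    · intro p _
      funext i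
      refine Fin.lastCases ?_ (fun j => ?_) i
      · simp only [Fin.snoc_last]
      · simp only [Fin.snoc_castSucc]
    · intro q _
      ext1
      · simp only [Fin.snoc_last]
      · funext i
        simp only [Fin.snoc_castSucc]
    · intro p _
      rw [Fin.prod_univ_castSucc]
      simp only [Fin.val_castSucc, Fin.val_last, Fin.succ_last, Fin.castSucc_zero,
        Fin.succ_castSucc]
      ring

theorem fw_bw (s : Finset A) (W : ℕ → A → A → B) (a b : A → B) (n : ℕ) : ∀ j ≤ n,
    ∑ l ∈ s, fw s W a n l * b l = ∑ l ∈ s, fw s W a (n - j) l * bw s W b n j l := by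
  intro j
  induction j with
  | zero => intro _; simp [bw]
  | succ j ih =>
    intro hj
    rw [ih (by omega)]
    have h1 : n - j = (n - (j + 1)) + 1 := by omega
    rw [h1]
    simp only [fw, bw, Finset.sum_mul, Finset.mul_sum]
    rw [Finset.sum_comm]
    exact Finset.sum_congr rfl fun m _ => Finset.sum_congr rfl fun l _ => by ring

end transfer

variable {N : ℕ} {B : Type} [CommRing B]

theorem mem_box {L : ℕ} {l : Fin N → ℕ} : l ∈ box N L ↔ ∀ i, l i ≤ L := by
  simp [box, Fintype.mem_piFinset]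

theorem mem_below {l m : Fin N → ℕ} : m ∈ below l ↔ ∀ i : Fin N, lv l (i + 1) ≤ m i ∧ m i ≤ l i := by
  simp [below, Fintype.mem_piFinset]

theorem below_box {L : ℕ} {l m : Fin N → ℕ} (hl : l ∈ box N L) (hm : m ∈ below l) :
    m ∈ box N L := by
  rw [mem_box] at *
  rw [mem_below] at hm
  exact fun i => (hm i).2.trans (hl i)

theorem sum_ite_below {L : ℕ} {l : Fin N → ℕ} (hl : l ∈ box N L) (f : (Fin N → ℕ) → B) :
    ∑ m ∈ box N L, (if m ∈ below l then f m else 0) = ∑ m ∈ below l, f m := by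
  rw [← Finset.sum_filter]
  congr 1
  ext m
  rw [Finset.mem_filter]
  exact ⟨fun h => h.2, fun h => ⟨below_box hl h, h⟩⟩

/-- the weight of a step -/
def Wt (N : ℕ) (D : ℕ → (Fin N → ℕ) → B) (k : ℕ) (m l : Fin N → ℕ) : B :=
  if k < N then (if m ∈ below l then D (k + 1) l else 0)
  else (if l ∈ below m then D (k + 1) l else 0)

theorem fw_eq {L : ℕ} (D : ℕ → (Fin N → ℕ) → B) : ∀ k ≤ N, ∀ l ∈ box N L,
    fw (box N L) (Wt N D) (fun l => D 0 l * del l) k l = chn D k l := by
  intro k
  induction k with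
  | zero => intro _ l _; rfl
  | succ k ih =>
    intro hk l hl
    simp only [fw, chn]
    have hk' : k < N := hk
    have h1 : ∀ m ∈ box N L, fw (box N L) (Wt N D) (fun l => D 0 l * del l) k m * Wt N D k m l =
        if m ∈ below l then D (k + 1) l * chn D k m else 0 := by
      intro m hm
      rw [ih (by omega) m hm, Wt, if_pos hk']
      split_ifs
      · ring
      · ring
    rw [Finset.sum_congr rfl h1, sum_ite_below hl, Finset.mul_sum]

theorem bw_eq {L : ℕ} (D : ℕ → (Fin N → ℕ) → B) : ∀ j < N, ∀ l ∈ box N L,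
    D (2 * N - j) l * bw (box N L) (Wt N D) del (2 * N) j l =
      chn (fun j => D (2 * N - j)) j l := by
  intro j
  induction j with
  | zero => intro _ l _; rfl
  | succ j ih =>
    intro hj l hl
    simp only [bw, chn]
    congr 1
    have hj' : ¬ 2 * N - (j + 1) < N := by omega
    have h1 : ∀ m ∈ box N L, Wt N D (2 * N - (j + 1)) l m *
        bw (box N L) (Wt N D) del (2 * N) j m =
        if m ∈ below l then chn (fun j => D (2 * N - j)) j m else 0 := by
      intro m hm
      rw [Wt, if_neg hj', ← ih (by omega) m hm]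
      have h2 : 2 * N - (j + 1) + 1 = 2 * N - j := by omega
      rw [h2]
      split_ifs
      · rfl
      · rw [zero_mul]
    rw [Finset.sum_congr rfl h1, sum_ite_below hl]

theorem prod_ite_all {n : ℕ} (P : Fin n → Prop) [DecidablePred P] (f : Fin n → B) :
    (∏ k, if P k then f k else 0) = if ∀ k, P k then ∏ k, f k else 0 := by
  split_ifs with h
  · exact Finset.prod_congr rfl fun k _ => by rw [if_pos (h k)]
  · push Not at h
    obtain ⟨k, hk⟩ := h
    exact Finset.prod_eq_zero (Finset.mem_univ k) (if_neg hk)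

end PSM

open PSM in
theorem specPS : SpecPS := by
  classical
  intro B _ N L D hN
  have h1 : ∑ p ∈ paths N L, ∏ k : Fin (2 * N + 1), D k (p k) =
      ∑ p ∈ Fintype.piFinset (fun _ : Fin (2 * N + 1) => box N L),
        (D 0 (p 0) * del (p 0)) * (∏ k : Fin (2 * N), Wt N D k (p k.castSucc) (p k.succ)) *
          del (p (Fin.last (2 * N))) := by
    rw [paths, Finset.sum_filter]
    refine Finset.sum_congr rfl fun p _ => ?_
    have h2 : ∏ k : Fin (2 * N), Wt N D k (p k.castSucc) (p k.succ) =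
        if ∀ k : Fin (2 * N), (if (k : ℕ) < N then p k.castSucc ∈ below (p k.succ)
          else p k.succ ∈ below (p k.castSucc)) then
          ∏ k : Fin (2 * N), D ((k : ℕ) + 1) (p k.succ) else 0 := by
      rw [← prod_ite_all]
      refine Finset.prod_congr rfl fun k _ => ?_
      rw [Wt]
      by_cases hk : (k : ℕ) < N
      · simp only [if_pos hk]
      · simp only [if_neg hk]
    rw [h2, Fin.prod_univ_succ]
    simp only [del, Fin.val_zero, Fin.val_succ]
    by_cases ha : p 0 = 0
    · by_cases hb : p (Fin.last (2 * N)) = 0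
      · by_cases hc : ∀ k : Fin (2 * N), (if (k : ℕ) < N then p k.castSucc ∈ below (p k.succ)
          else p k.succ ∈ below (p k.castSucc))
        · rw [if_pos ⟨ha, hb, hc⟩, if_pos ha, if_pos hb, if_pos hc]
          ring
        · rw [if_neg (fun h => hc h.2.2), if_neg hc]
          ring
      · rw [if_neg (fun h => hb h.2.1), if_neg hb]
        ring
    · rw [if_neg (fun h => ha h.1), if_neg ha]
      ring
  rw [h1]
  rw [sum_fw (box N L) (Wt N D) (fun l => D 0 l * del l) (2 * N) del]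
  rw [fw_bw (box N L) (Wt N D) (fun l => D 0 l * del l) del (2 * N) N (by omega)]
  refine Finset.sum_congr rfl fun l hl => ?_
  have h3 : 2 * N - N = N := by omega
  rw [h3, fw_eq D N le_rfl l hl]
  congr 1
  obtain ⟨M, rfl⟩ : ∃ M, N = M + 1 := ⟨N - 1, by omega⟩
  have h4 : M + 1 - 1 = M := rfl
  rw [h4]
  simp only [bw]
  have h5 : ∀ m ∈ box (M + 1) L, Wt (M + 1) D (2 * (M + 1) - (M + 1)) l m *
      bw (box (M + 1) L) (Wt (M + 1) D) del (2 * (M + 1)) M m =
      if m ∈ below l then chn (fun j => D (2 * (M + 1) - j)) M m else 0 := by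
    intro m hm
    have hj' : ¬ 2 * (M + 1) - (M + 1) < M + 1 := by omega
    rw [Wt, if_neg hj', ← bw_eq D M (Nat.lt_succ_self M) m hm]
    have h2 : 2 * (M + 1) - (M + 1) + 1 = 2 * (M + 1) - M := by omega
    rw [h2]
    split_ifs
    · rfl
    · rw [zero_mul]
  rw [Finset.sum_congr rfl h5, sum_ite_below hl]

end Pool.Agent.Lib.MPd9449f
end

section
/-!
# REV: reversal of paths
-/
open PowerSeries Finset

namespace Pool.Agent.Lib.MPd9449f

namespace REVM

variable {N : ℕ}

/-- the reversed path -/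
def rv (p : Fin (2 * N + 1) → Fin N → ℕ) : Fin (2 * N + 1) → Fin N → ℕ := fun k => p k.rev

theorem rv_rv (p : Fin (2 * N + 1) → Fin N → ℕ) : rv (rv p) = p := by
  funext k
  simp [rv]

theorem rv_mem {L : ℕ} {p : Fin (2 * N + 1) → Fin N → ℕ} (hp : p ∈ paths N L) :
    rv p ∈ paths N L := by
  rw [paths, Finset.mem_filter] at *
  obtain ⟨h1, h2, h3, h4⟩ := hp
  rw [Fintype.mem_piFinset] at *
  refine ⟨fun k => h1 _, ?_, ?_, ?_⟩
  · change p (Fin.rev 0) = 0
    rw [Fin.rev_zero]
    exact h3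
  · change p (Fin.rev (Fin.last (2 * N))) = 0
    rw [Fin.rev_last]
    exact h2
  · intro k
    have h5 := h4 k.rev
    have h6 : (rv p) k.castSucc = p k.rev.succ := by
      change p k.castSucc.rev = _
      rw [Fin.rev_castSucc]
    have h7 : (rv p) k.succ = p k.rev.castSucc := by
      change p k.succ.rev = _
      rw [Fin.rev_succ]
    rw [h6, h7]
    have hk := k.2
    have h8 : ((k.rev : Fin (2 * N)) : ℕ) = 2 * N - (k + 1) := Fin.val_rev k
    by_cases h : (k : ℕ) < N
    · rw [if_pos h]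
      rwa [if_neg (by omega)] at h5
    · rw [if_neg h]
      rwa [if_pos (by omega)] at h5

theorem psz_rv (p : Fin (2 * N + 1) → Fin N → ℕ) : psz (rv p) = psz p :=
  Equiv.sum_comp Fin.revPerm fun k => sz (p k)

theorem slc_rv (p : Fin (2 * N + 1) → Fin N → ℕ) {k : ℕ} (hk : k ≤ 2 * N) :
    slc (rv p) (2 * N - k) = slc p k := by
  rw [slc, slc, dif_pos (by omega), dif_pos (by omega)]
  change p _ = _
  congr 1
  apply Fin.ext
  rw [Fin.val_rev]
  simp only
  omega

end REVM

open REVM in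
theorem specREV : SpecREV := by
  intro R _ N L k1 k2 G1 G2 hk1 hk2
  rw [avg, avg]
  refine Finset.sum_bij' (fun p _ => rv p) (fun p _ => rv p) (fun p hp => rv_mem hp)
    (fun p hp => rv_mem hp) (fun p _ => rv_rv p) (fun p _ => rv_rv p) ?_
  intro p _
  rw [psz_rv]
  have h1 := slc_rv (rv p) hk1
  have h2 := slc_rv (rv p) hk2
  rw [rv_rv] at h1 h2
  rw [h1, h2]

end Pool.Agent.Lib.MPd9449f
end

section
open PowerSeries Finset

namespace Pool.Agent.Lib.MPd9449f

namespace RVM

lemma lv_lt {N : ℕ} (l : Fin N → ℕ) {i : ℕ} (h : i < N) : lv l i = l ⟨i, h⟩ := by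
  simp [lv, h]

lemma lv_ge {N : ℕ} (l : Fin N → ℕ) {i : ℕ} (h : N ≤ i) : lv l i = 0 := by
  simp [lv, Nat.not_lt.mpr h]

lemma mem_above {N L : ℕ} {m l : Fin N → ℕ} : l ∈ above L m ↔
    ∀ i, m i ≤ l i ∧ l i ≤ (if (i : ℕ) = 0 then L else lv m (i - 1)) := by
  simp [above, Fintype.mem_piFinset]

lemma above_anti {N L : ℕ} {m l : Fin N → ℕ} (h : l ∈ above L m) (hm : Antitone m) :
    Antitone l := by
  rw [mem_above] at h
  intro i j hij
  rcases eq_or_lt_of_le hij with rfl | hlt
  · exact le_rfl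
  · have h1 := (h j).2
    have hj : ((j : ℕ) = 0) = False := by
      have : (i : ℕ) < j := hlt
      simp; omega
    rw [if_neg (by rw [hj]; exact not_false)] at h1
    have hj' : (j : ℕ) - 1 < N := by omega
    rw [lv_lt _ hj'] at h1
    refine h1.trans ((hm ?_).trans (h i).1)
    have : (i : ℕ) < j := hlt
    show (i : ℕ) ≤ (j : ℕ) - 1
    omega

lemma above_zero {N L : ℕ} (hN : 1 ≤ N) {m l : Fin N → ℕ} (h : l ∈ above L m) :
    lv l 0 ≤ L := by
  rw [mem_above] at h
  rw [lv_lt _ hN]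
  have := (h ⟨0, hN⟩).2
  simpa using this

lemma above_sz {N L : ℕ} (hN : 1 ≤ N) {m l : Fin N → ℕ} (h : l ∈ above L m) :
    sz m ≤ sz l ∧ lv m 0 ≤ lv l 0 ∧ lv l 0 - lv m 0 ≤ sz l - sz m := by
  rw [mem_above] at h
  have h1 : sz m ≤ sz l := Finset.sum_le_sum fun i _ => (h i).1
  have h2 : lv m 0 ≤ lv l 0 := by
    rw [lv_lt _ hN, lv_lt _ hN]; exact (h _).1
  refine ⟨h1, h2, ?_⟩
  have h3 : lv l 0 + sz m ≤ sz l + lv m 0 := by
    rw [lv_lt _ hN, lv_lt _ hN, sz, sz,
      ← Finset.add_sum_erase univ _ (Finset.mem_univ (⟨0, hN⟩ : Fin N)),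
      ← Finset.add_sum_erase univ l (Finset.mem_univ (⟨0, hN⟩ : Fin N))]
    have : ∑ x ∈ univ.erase (⟨0, hN⟩ : Fin N), m x ≤ ∑ x ∈ univ.erase (⟨0, hN⟩ : Fin N), l x :=
      Finset.sum_le_sum fun i _ => (h i).1
    omega
  omega

/-- the partition `pin` as a function on `Fin N` is antitone -/
lemma pin_anti {N L k : ℕ} {m : Fin N → ℕ} (hm : Antitone m) (hL : lv m 0 ≤ L) :
    Antitone (fun j : Fin N => pin L k (lv m) j) := by
  have hlv : ∀ a b : ℕ, a ≤ b → lv m b ≤ lv m a := by
    intro a b hab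
    by_cases hb : b < N
    · rw [lv_lt _ hb, lv_lt _ (lt_of_le_of_lt hab hb)]
      exact hm hab
    · rw [lv_ge _ (Nat.not_lt.mp hb)]; exact Nat.zero_le _
  intro i j hij
  have hij' : (i : ℕ) ≤ j := hij
  simp only [pin]
  by_cases hi : (i : ℕ) = 0
  · rw [if_pos hi]
    by_cases hj : (j : ℕ) = 0
    · rw [if_pos hj]
    · rw [if_neg hj]
      split_ifs with hjk
      · have := hlv 0 (j - 1) (Nat.zero_le _); omega
      · have := hlv 0 j (Nat.zero_le _); omega
  · rw [if_neg hi, if_neg (show ¬(j : ℕ) = 0 by omega)]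
    by_cases hjk : (j : ℕ) ≤ k
    · rw [if_pos hjk, if_pos (show (i : ℕ) ≤ k by omega)]
      have := hlv (i - 1) (j - 1) (by omega); omega
    · rw [if_neg hjk]
      by_cases hik : (i : ℕ) ≤ k
      · rw [if_pos hik]
        have := hlv (i - 1) j (by omega); omega
      · rw [if_neg hik]
        exact hlv i j hij'

lemma alt_congr {B : Type} [CommRing B] (k : ℕ) (X : ℕ → B) (l l' : ℕ → ℕ)
    (h : ∀ j < k, l j = l' j) : alt k X l = alt k X l' := by
  unfold alt
  congr 1
  ext i j
  simp only [Matrix.of_apply]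
  rw [h j j.2]

/-- one step of the Pieri rule -/
lemma step (hPIE : SpecPIE) (hALT : SpecALT) {R : Type} [CommRing R] [IsDomain R] (N L : ℕ)
    (Y : ℕ → PowerSeries R) (Z : PowerSeries R) (m : Fin N → ℕ) (hN : 1 ≤ N) (hv : vd Y N ≠ 0)
    (hZ : X ∣ Z) (hm : Antitone m) (hL : lv m 0 ≤ L) :
    X ^ (L + 1) ∣ X ^ (lv m 0) *
      ((∏ l ∈ range N, (1 - Z * Y l)) * (∑ l ∈ above L m, Z ^ (sz l - sz m) * sch Y N l)
        - sch Y N m) := by
  have hA : ∀ l : Fin N → ℕ, Antitone l → vd Y N * sch Y N l = alt N Y (lv l) := fun l hl =>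
    hALT _ N N Y l le_rfl hl (lv_ge _ le_rfl)
  have h1 := hPIE _ N L Y Z m hN hm hL
  have h2 : (∏ l ∈ range N, (1 - Z * Y l)) * (∑ l ∈ above L m, Z ^ (sz l - sz m) * sch Y N l)
      - sch Y N m = - (Z ^ (L + 1 - lv m 0) *
        ∑ k ∈ range N, (-1) ^ k * Z ^ (lv m 0 - lv m k + k) *
          sch Y N (fun j : Fin N => pin L k (lv m) j)) := by
    apply mul_left_cancel₀ hv
    have e1 : vd Y N * ((∏ l ∈ range N, (1 - Z * Y l)) *
        (∑ l ∈ above L m, Z ^ (sz l - sz m) * sch Y N l) - sch Y N m) =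
        (∏ i ∈ range N, (1 - Y i * Z)) *
        (∑ l ∈ above L m, Z ^ (sz l - sz m) * alt N Y (lv l)) - alt N Y (lv m) := by
      rw [← hA m hm, mul_sub]
      congr 1
      rw [mul_left_comm, Finset.mul_sum]
      congr 1
      · exact Finset.prod_congr rfl fun i _ => by rw [mul_comm Z]
      · refine Finset.sum_congr rfl fun l hl => ?_
        rw [← hA l (above_anti hl hm)]; ring
    rw [e1, h1]
    have e2 : vd Y N * -(Z ^ (L + 1 - lv m 0) *
        ∑ k ∈ range N, (-1) ^ k * Z ^ (lv m 0 - lv m k + k) *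
          sch Y N (fun j : Fin N => pin L k (lv m) j)) =
        - (Z ^ (L + 1 - lv m 0) *
        ∑ k ∈ range N, (-1) ^ k * Z ^ (lv m 0 - lv m k + k) * alt N Y (pin L k (lv m))) := by
      rw [mul_neg, mul_left_comm, Finset.mul_sum]
      congr 2
      refine Finset.sum_congr rfl fun k _ => ?_
      have : alt N Y (pin L k (lv m)) = vd Y N * sch Y N (fun j : Fin N => pin L k (lv m) j) := by
        rw [hA _ (pin_anti hm hL)]
        apply alt_congr
        intro j hj
        rw [lv_lt _ hj]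
      rw [this]; ring
    rw [e2]; ring
  rw [h2, mul_neg, dvd_neg]
  obtain ⟨W, hW⟩ := hZ
  have : X ^ (L + 1) = (X : PowerSeries R) ^ (lv m 0) * X ^ (L + 1 - lv m 0) := by
    rw [← pow_add]; congr 1; omega
  rw [this]
  apply mul_dvd_mul_left
  apply Dvd.dvd.mul_right
  exact pow_dvd_pow_of_dvd ⟨W, hW⟩ _

end RVM

open RVM in
theorem specRV (hPIE : SpecPIE) (hALT : SpecALT) : SpecRV := by
  intro R _ _ N L a Y Z m hN hv hZ
  induction a generalizing m with
  | zero =>
    intro _ _
    simp [dn]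
  | succ a ih =>
    intro hm hL
    have hst := step hPIE hALT N L Y (Z a) m hN hv (hZ a) hm hL
    have key : (∏ t ∈ range (a + 1), ∏ l ∈ range N, (1 - Z t * Y l)) *
          dn L Z (sch Y N) (a + 1) m - sch Y N m =
        ((∏ l ∈ range N, (1 - Z a * Y l)) *
            (∑ l ∈ above L m, Z a ^ (sz l - sz m) * sch Y N l) - sch Y N m) +
        (∏ l ∈ range N, (1 - Z a * Y l)) * ∑ l ∈ above L m, Z a ^ (sz l - sz m) *
          ((∏ t ∈ range a, ∏ l ∈ range N, (1 - Z t * Y l)) * dn L Z (sch Y N) a l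
            - sch Y N l) := by
      rw [Finset.prod_range_succ]
      have e : ∑ l ∈ above L m, Z a ^ (sz l - sz m) *
          ((∏ t ∈ range a, ∏ l ∈ range N, (1 - Z t * Y l)) * dn L Z (sch Y N) a l
            - sch Y N l) = (∏ t ∈ range a, ∏ l ∈ range N, (1 - Z t * Y l)) *
            dn L Z (sch Y N) (a + 1) m - ∑ l ∈ above L m, Z a ^ (sz l - sz m) * sch Y N l := by
        rw [dn, Finset.mul_sum, ← Finset.sum_sub_distrib]
        refine Finset.sum_congr rfl fun l _ => ?_
        ring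
      rw [e]; ring
    rw [key, mul_add]
    refine dvd_add hst ?_
    rw [mul_left_comm, Finset.mul_sum]
    apply Dvd.dvd.mul_left
    apply Finset.dvd_sum
    intro l hl
    obtain ⟨hs1, hs2, hs3⟩ := above_sz hN hl
    have h1 := ih l (above_anti hl hm) (above_zero hN hl)
    refine h1.trans ?_
    rw [← mul_assoc]
    apply mul_dvd_mul_right
    obtain ⟨W, hW⟩ := hZ a
    have h2 : (X : PowerSeries R) ^ (lv l 0) = X ^ (lv m 0) * X ^ (lv l 0 - lv m 0) := by
      rw [← pow_add]; congr 1; omega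
    rw [h2]
    apply mul_dvd_mul_left
    refine (pow_dvd_pow _ hs3).trans (pow_dvd_pow_of_dvd ⟨W, hW⟩ _)

end Pool.Agent.Lib.MPd9449f
end

section
open PowerSeries Finset

namespace Pool.Agent.Lib.MPd9449f

namespace Z0M

lemma up_congr {N : ℕ} {B : Type} [CommRing B] (Z Z' : ℕ → B) (v : (Fin N → ℕ) → B)
    (n : ℕ) (h : ∀ t < n, Z t = Z' t) : ∀ m, up Z v n m = up Z' v n m := by
  induction n with
  | zero => intro m; rfl
  | succ n ih =>
    intro m
    rw [up, up]
    refine Finset.sum_congr rfl fun l _ => ?_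
    rw [ih (fun t ht => h t (by omega)) l, h n (by omega)]

lemma prod_pi0 (R : Type) [CommRing R] (N : ℕ) (Xv : ℕ → PowerSeries R)
    (hXv : ∀ i < N, Xv i = X ^ (N - i)) :
    ∏ i ∈ range N, ∏ l ∈ range N, (1 - Xv i * (X : PowerSeries R) ^ (N - 1 - l)) = pi0 R N := by
  rw [pi0, ← Finset.prod_range_reflect]
  refine Finset.prod_congr rfl fun i hi => ?_
  rw [← Finset.prod_range_reflect]
  refine Finset.prod_congr rfl fun l hl => ?_
  rw [Finset.mem_range] at hi hl
  rw [hXv _ (by omega), ← pow_add]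
  congr 2
  omega

end Z0M

open Z0M in
theorem specZ0 (hCHA : SpecCHA) (hCAU : SpecCAU) (hVNZ : SpecVNZ) : SpecZ0 := by
  intro R _ _ N L k1 k2 hN
  have h0 : avg N L k1 k2 (fun _ => (1 : PowerSeries R)) (fun _ => 1) =
      avg N L N (2 * N - N) (fun _ => (1 : PowerSeries R)) (fun _ => 1) := by
    simp only [avg]
  rw [h0, hCHA R N L N N _ _ hN le_rfl le_rfl]
  set Xv : ℕ → PowerSeries R := fun i => X ^ (max (N - i) 1) with hXv
  have hXv' : ∀ i < N, Xv i = X ^ (N - i) := by
    intro i hi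
    rw [hXv]
    show X ^ (max (N - i) 1) = X ^ (N - i)
    congr 1
    omega
  have h1 : (∑ l ∈ box N L,
      up (fun t => (X : PowerSeries R) ^ (N - (N + t)))
          (fun m => 1 * sch (fun j => X ^ (N - j)) N m) (N - N) l *
        up (fun t => X ^ (N - 1 - (N + t)))
          (fun m => 1 * sch (fun j => X ^ (N - 1 - j)) N m) (N - N) l) =
      ∑ l ∈ box N L, sch Xv N l * sch (fun j => X ^ (N - 1 - j)) N l := by
    refine Finset.sum_congr rfl fun l _ => ?_
    rw [Nat.sub_self]
    simp only [up, one_mul]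
    congr 1
    exact up_congr _ _ _ _ (fun t ht => (hXv' t ht).symm) _
  rw [h1]
  have h2 := hCAU R N L N Xv (fun j => X ^ (N - 1 - j)) hN (hVNZ R N (N - 1) (by omega)).1
    (fun t => dvd_pow_self _ (by have := le_max_right (N - t) 1; omega))
  rw [prod_pi0 R N Xv hXv'] at h2
  exact h2

end Pool.Agent.Lib.MPd9449f
end
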