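import Pool.Agent.Lib.MP_d9449f_ag.WBDefs
import Pool.Agent.Lib.MP_d9449f_ag.OQ.SpecT

section
/-!
# Evaluation of formal power series and the formal version of `SpecWB`
-/
open MvPolynomial Finset

namespace Pool.Agent.Lib.MPd9449f

namespace Gr

/-- absolute convergence of a formal power series at `q` -/
def Cv (q : ℂ) (f : PowerSeries ℚ) : Prop :=
  Summable fun n => ‖((PowerSeries.coeff n f : ℚ) : ℂ) * q ^ n‖

/-- value of a formal power series at `q` -/
noncomputable def ev (q : ℂ) (f : PowerSeries ℚ) : ℂ :=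
  ∑' n, ((PowerSeries.coeff n f : ℚ) : ℂ) * q ^ n

theorem cv_C (q : ℂ) (a : ℚ) : Cv q (PowerSeries.C a) := by
  refine summable_of_ne_finset_zero (s := {0}) fun n hn => ?_
  have h : n ≠ 0 := by simpa using hn
  simp [PowerSeries.coeff_C, h]

theorem ev_C (q : ℂ) (a : ℚ) : ev q (PowerSeries.C a) = a := by
  rw [ev, tsum_eq_single 0]
  · simp
  · intro n hn
    simp [PowerSeries.coeff_C, hn]

theorem cv_add {q : ℂ} {f g : PowerSeries ℚ} (hf : Cv q f) (hg : Cv q g) : Cv q (f + g) := by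
  refine Summable.of_nonneg_of_le (fun n => norm_nonneg _) (fun n => ?_) (hf.add hg)
  rw [map_add, Rat.cast_add, add_mul]
  exact norm_add_le _ _

theorem ev_add {q : ℂ} {f g : PowerSeries ℚ} (hf : Cv q f) (hg : Cv q g) :
    ev q (f + g) = ev q f + ev q g := by
  rw [ev, ev, ev, ← (Summable.of_norm hf).tsum_add (Summable.of_norm hg)]
  refine tsum_congr fun n => ?_
  rw [map_add, Rat.cast_add, add_mul]

theorem coeff_mul_pow (q : ℂ) (f g : PowerSeries ℚ) (n : ℕ) :
    ((PowerSeries.coeff n (f * g) : ℚ) : ℂ) * q ^ n = ∑ x ∈ antidiagonal n,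
      (((PowerSeries.coeff x.1 f : ℚ) : ℂ) * q ^ x.1) *
        (((PowerSeries.coeff x.2 g : ℚ) : ℂ) * q ^ x.2) := by
  rw [PowerSeries.coeff_mul, Rat.cast_sum, sum_mul]
  refine sum_congr rfl fun x hx => ?_
  rw [← mem_antidiagonal.1 hx, pow_add]
  push_cast
  ring

theorem cv_mul {q : ℂ} {f g : PowerSeries ℚ} (hf : Cv q f) (hg : Cv q g) : Cv q (f * g) := by
  have h := summable_norm_sum_mul_antidiagonal_of_summable_norm hf hg
  refine h.congr fun n => ?_
  rw [coeff_mul_pow]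

theorem ev_mul {q : ℂ} {f g : PowerSeries ℚ} (hf : Cv q f) (hg : Cv q g) :
    ev q (f * g) = ev q f * ev q g := by
  rw [ev, ev, ev, tsum_mul_tsum_eq_tsum_sum_antidiagonal_of_summable_norm hf hg]
  exact tsum_congr fun n => coeff_mul_pow q f g n

theorem cv_G {q : ℂ} (hq : ‖q‖ < 1) (p : ℕ × ℕ) (G : PowerSeries ℚ)
    (hG : ∀ n, PowerSeries.coeff n G =
      (n : ℚ) ^ p.2 * (ArithmeticFunction.sigma (2 * p.1 + 2) n : ℚ)) : Cv q G := by
  have h1 := summable_norm_pow_mul_geometric_of_norm_lt_one (R := ℂ) (p.2 + (2 * p.1 + 2 + 1)) hq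
  refine Summable.of_nonneg_of_le (fun n => norm_nonneg _) (fun n => ?_) h1
  rw [hG, norm_mul, norm_mul]
  refine mul_le_mul_of_nonneg_right ?_ (norm_nonneg _)
  push_cast
  rw [norm_mul, norm_pow, norm_pow, Complex.norm_natCast, Complex.norm_natCast, pow_add]
  refine mul_le_mul_of_nonneg_left ?_ (by positivity)
  exact_mod_cast ArithmeticFunction.sigma_le_pow_succ (2 * p.1 + 2) n

theorem ev_G (q : ℂ) (p : ℕ × ℕ) (G : PowerSeries ℚ)
    (hG : ∀ n, PowerSeries.coeff n G =
      (n : ℚ) ^ p.2 * (ArithmeticFunction.sigma (2 * p.1 + 2) n : ℚ)) : ev q G = Gfun p q := by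
  rw [ev, Gfun]
  refine tsum_congr fun n => ?_
  rw [hG]
  push_cast
  ring

theorem ev_aeval {q : ℂ} (hq : ‖q‖ < 1) (G : ℕ × ℕ → PowerSeries ℚ)
    (hG : ∀ p n, PowerSeries.coeff n (G p) =
      (n : ℚ) ^ p.2 * (ArithmeticFunction.sigma (2 * p.1 + 2) n : ℚ))
    (P : MvPolynomial (ℕ × ℕ) ℚ) :
    Cv q (aeval G P) ∧ ev q (aeval G P) = aeval (fun p => Gfun p q) P := by
  induction P using MvPolynomial.induction_on with
  | C a =>
    have h1 : aeval G (C a : MvPolynomial (ℕ × ℕ) ℚ) = PowerSeries.C a := by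
      rw [algHom_C]; rfl
    rw [h1]
    refine ⟨cv_C q a, ?_⟩
    rw [ev_C, algHom_C]
    rfl
  | add P Q hP hQ =>
    rw [map_add, map_add]
    exact ⟨cv_add hP.1 hQ.1, by rw [ev_add hP.1 hQ.1, hP.2, hQ.2]⟩
  | mul_X P p hP =>
    have h1 := cv_G hq p (G p) (hG p)
    rw [map_mul, map_mul, aeval_X, aeval_X]
    exact ⟨cv_mul hP.1 h1, by rw [ev_mul hP.1 h1, hP.2, ev_G q p (G p) (hG p)]⟩

/-- formal version of `SpecWB` -/
theorem wb_formal (h : SpecWB) (G : ℕ × ℕ → PowerSeries ℚ)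
    (hG : ∀ p n, PowerSeries.coeff n (G p) =
      (n : ℚ) ^ p.2 * (ArithmeticFunction.sigma (2 * p.1 + 2) n : ℚ))
    (P : MvPolynomial (ℕ × ℕ) ℚ) (k A : ℝ) (hk : 0 ≤ k)
    (hF : ∀ q : ℂ, ‖q‖ < 1 →
      ‖∑' n, ((PowerSeries.coeff n (aeval G P) : ℚ) : ℂ) * q ^ n‖ ≤ A * (1 - ‖q‖) ^ (-k)) :
    ∀ m ∈ P.support, ((m.sum fun p n => n * wt p : ℕ) : ℝ) ≤ 2 * k := by
  intro m hm
  refine h (MvPolynomial.map (algebraMap ℚ ℂ) P) k A hk (fun q hq => ?_) m ?_
  · have h1 := (ev_aeval hq G hG P).2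
    rw [aeval_map_algebraMap, ← h1]
    exact hF q hq
  · rw [MvPolynomial.mem_support_iff] at hm ⊢
    rw [coeff_map]
    simpa using hm

end Gr

end Pool.Agent.Lib.MPd9449f
end

section
/-!
# EVL: evaluation of polynomials in the `D^l G_j`
-/
namespace Pool.Agent.Lib.MPd9449f

theorem specEVL : SpecEVL := by
  intro P q hq
  have h := Gr.ev_aeval hq Gser (fun p n => by rw [Gser, PowerSeries.coeff_mk]) P
  rw [MvPolynomial.aeval_map_algebraMap, ← h.2]
  exact (Summable.of_norm h.1).hasSum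

end Pool.Agent.Lib.MPd9449f
end

section
/-!
# Assembly
-/
open PowerSeries Finset

namespace Pool.Agent.Lib.MPd9449f

namespace FINM

lemma map_gs (hF : SpecFIN0) {g : Finset Box → ℤ} :
    PowerSeries.map (Int.castRingHom ℚ) (gs g) = gs (fun π => (g π : ℚ)) := by
  ext n
  simp only [gs, PowerSeries.coeff_map, PowerSeries.coeff_mk]
  have h1 : ∀ (g : Finset Box → ℤ), ∑ᶠ π ∈ PP n, g π = ∑ π ∈ (hF n).toFinset, g π := by
    intro g
    rw [finsum_mem_eq_finite_toFinset_sum _ (hF n)]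
  have h2 : ∀ (g : Finset Box → ℚ), ∑ᶠ π ∈ PP n, g π = ∑ π ∈ (hF n).toFinset, g π := by
    intro g
    rw [finsum_mem_eq_finite_toFinset_sum _ (hF n)]
  rw [h1, h2]
  simp

lemma ch_eq (π : Finset Box) (k : ℕ) :
    ch ((-2 : ℚ), (1 : ℚ), (1 : ℚ)) π k = (pa k π : ℚ) / (k.factorial : ℚ) := by
  unfold ch pa
  rw [Int.cast_sum, Finset.sum_div]
  refine Finset.sum_congr rfl fun b _ => ?_
  congr 1
  unfold lin Box.chr
  push_cast
  ring

lemma qs_one : qs 1 = gs (fun _ => (1 : ℚ)) := by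
  unfold qs
  simp

lemma gs_smul (c : ℚ) (g : Finset Box → ℚ) :
    gs (fun π => c * g π) = PowerSeries.C c * gs g := by
  ext n
  simp only [gs, PowerSeries.coeff_mk, PowerSeries.coeff_C_mul]
  rw [mul_finsum_mem]

lemma qs_mul : qs (MvPolynomial.X 2 * MvPolynomial.X 4) =
    PowerSeries.C (1 / 48 : ℚ) * gs (fun π => ((pa 2 π * pa 4 π : ℤ) : ℚ)) := by
  rw [← gs_smul]
  unfold qs
  congr 1
  funext π
  rw [map_mul, MvPolynomial.aeval_X, MvPolynomial.aeval_X, ch_eq, ch_eq]
  push_cast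
  simp only [Nat.factorial]
  push_cast
  ring

/-- constant coefficient of the MacMahon series -/
lemma gs_one_coeff : PowerSeries.constantCoeff (gs (fun _ => (1 : ℚ))) = 1 := by
  rw [← PowerSeries.coeff_zero_eq_constantCoeff_apply]
  simp only [gs, PowerSeries.coeff_mk]
  have h : PP 0 = {∅} := by
    ext π
    simp only [PP, Set.mem_ofPred_eq, Set.mem_singleton_iff]
    constructor
    · rintro ⟨-, h⟩
      exact Finset.card_eq_zero.mp h
    · rintro rfl
      refine ⟨?_, by simp⟩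
      intro a b _ ha
      simp at ha
  rw [h, finsum_mem_singleton]

lemma F_mem (hF : SpecFIN0) (hFK : SpecFK) (hONE : SpecONE)
    (h : qs (MvPolynomial.X 2 * MvPolynomial.X 4) * (qs 1)⁻¹ ∈
      Algebra.adjoin ℚ (Set.range Gser)) :
    FserQ ∈ Algebra.adjoin ℚ (Set.range Gser) := by
  obtain ⟨g2, hg2, e2⟩ := hONE 2 (Or.inl rfl)
  obtain ⟨g4, hg4, e4⟩ := hONE 4 (Or.inr rfl)
  set M : PowerSeries ℚ := gs (fun _ => (1 : ℚ)) with hM
  have hM1 : M * M⁻¹ = 1 := by
    apply PowerSeries.mul_inv_cancel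
    rw [hM, gs_one_coeff]
    exact one_ne_zero
  have hFK' := congrArg (PowerSeries.map (Int.castRingHom ℚ)) hFK
  simp only [map_sub, map_mul, map_pow] at hFK'
  rw [map_gs hF, map_gs hF, map_gs hF, map_gs hF] at hFK'
  have hone : (gs fun _ => ((1 : ℤ) : ℚ)) = M := by
    rw [hM]
    congr 1
  rw [hone, e2, e4] at hFK'
  rw [qs_one, qs_mul, ← hM] at h
  set S : PowerSeries ℚ := gs (fun π => ((pa 2 π * pa 4 π : ℤ) : ℚ)) with hS
  have key : FserQ = PowerSeries.C (48 : ℚ) * (PowerSeries.C (1 / 48 : ℚ) * S * M⁻¹) - g2 * g4 := by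
    have h1 : M ^ 2 * FserQ = M * S - M * g2 * (M * g4) := by
      unfold FserQ
      rw [← hFK']
    have h2 : FserQ = M⁻¹ * (M⁻¹ * (M ^ 2 * FserQ)) := by
      have : M⁻¹ * (M⁻¹ * (M ^ 2 * FserQ)) = (M * M⁻¹) * (M * M⁻¹) * FserQ := by ring
      rw [this, hM1]
      ring
    rw [h2, h1]
    have h3 : M⁻¹ * (M⁻¹ * (M * S - M * g2 * (M * g4))) =
        (M * M⁻¹) * (S * M⁻¹) - (M * M⁻¹) * (M * M⁻¹) * (g2 * g4) := by ring
    rw [h3, hM1]
    have h4 : PowerSeries.C (48 : ℚ) * (PowerSeries.C (1 / 48 : ℚ) * S * M⁻¹) = S * M⁻¹ := by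
      rw [mul_assoc (PowerSeries.C (1 / 48 : ℚ)), ← mul_assoc (PowerSeries.C (48 : ℚ)), ← map_mul]
      norm_num
    rw [h4]
    ring
  rw [key]
  refine Subalgebra.sub_mem _ (Subalgebra.mul_mem _ ?_ h) (Subalgebra.mul_mem _ hg2 hg4)
  exact Subalgebra.algebraMap_mem _ (48 : ℚ)

lemma bound (hGRO : SpecGRO) (hEVL : SpecEVL) (P : MvPolynomial (ℕ × ℕ) ℚ)
    (hP : MvPolynomial.aeval Gser P = FserQ) : ∃ A : ℝ, ∀ q : ℂ, ‖q‖ < 1 →
      ‖MvPolynomial.aeval (fun p => Gfun p q) (MvPolynomial.map (algebraMap ℚ ℂ) P)‖ ≤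
        A * (1 - ‖q‖) ^ (-(41 / 4 : ℝ)) := by
  obtain ⟨A, hA⟩ := hGRO
  refine ⟨A, fun q hq => ?_⟩
  obtain ⟨hs, hb⟩ := hA ‖q‖ (norm_nonneg q) hq
  have h1 := hEVL P q hq
  rw [hP] at h1
  rw [← h1.tsum_eq]
  have h2 : ∀ n, ‖((coeff n FserQ : ℚ) : ℂ) * q ^ n‖ = |((coeff n Fser : ℤ) : ℝ)| * ‖q‖ ^ n := by
    intro n
    rw [norm_mul, norm_pow]
    congr 1
    unfold FserQ
    rw [PowerSeries.coeff_map]
    simp
  have hs' : Summable fun n => ‖((coeff n FserQ : ℚ) : ℂ) * q ^ n‖ := by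
    simpa only [h2] using hs
  refine (norm_tsum_le_tsum_norm hs').trans ?_
  simp only [h2]
  exact hb

end FINM

theorem specFIN (hF : SpecFIN0) (hTT : SpecTT) (hTQ : SpecTQ) (hZG : SpecZG) (hFK : SpecFK)
    (hONE : SpecONE) (hCERT : SpecCERT) (hEVL : SpecEVL) (hGRO : SpecGRO) (hWB : SpecWB) :
    SpecFINAL := by
  have h0 : ¬InKoqZ (bracket' s0 (MvPolynomial.X 2 * MvPolynomial.X 4)) := by
    intro h
    have h1 := hZG (hTQ _ h)
    have h2 := FINM.F_mem hF hFK hONE h1
    rw [Algebra.adjoin_range_eq_range_aeval] at h2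
    obtain ⟨P, hP⟩ := h2
    replace hP : MvPolynomial.aeval Gser P = FserQ := hP
    obtain ⟨A, hA⟩ := FINM.bound hGRO hEVL P hP
    refine hCERT P ?_ hP
    intro m hm
    have h3 := hWB (MvPolynomial.map (algebraMap ℚ ℂ) P) (41 / 4) A (by norm_num) hA m (by
      rw [MvPolynomial.support_map_of_injective _ (algebraMap ℚ ℂ).injective]
      exact hm)
    have h4 : ((mwt m : ℕ) : ℝ) ≤ 2 * (41 / 4) := h3
    have h5 : ((mwt m : ℕ) : ℝ) < (21 : ℕ) := by
      push_cast
      linarith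
    have h6 : mwt m < 21 := by exact_mod_cast h5
    omega
  exact ⟨fun h => h0 (hTT _ h), h0⟩

end Pool.Agent.Lib.MPd9449f
end

section
/-!
# FIN0: there are finitely many plane partitions of a given size
-/
open PowerSeries Finset

namespace Pool.Agent.Lib.MPd9449f

namespace FIN0M

theorem lt_card {π : Finset Box} (h : IsLowerSet (π : Set Box)) {b : Box} (hb : b ∈ π) :
    b.1 < π.card ∧ b.2.1 < π.card ∧ b.2.2 < π.card := by
  obtain ⟨i, j, k⟩ := b
  refine ⟨?_, ?_, ?_⟩
  · have h1 : (range (i + 1)).image (fun t => ((t, j, k) : Box)) ⊆ π := by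
      intro c hc
      obtain ⟨t, ht, rfl⟩ := mem_image.1 hc
      refine h ?_ hb
      rw [Prod.le_def, Prod.le_def]
      exact ⟨Nat.lt_succ_iff.1 (mem_range.1 ht), le_rfl, le_rfl⟩
    have h2 := card_le_card h1
    rw [card_image_of_injective _ (fun a b hab => by simpa using hab), card_range] at h2
    exact h2
  · have h1 : (range (j + 1)).image (fun t => ((i, t, k) : Box)) ⊆ π := by
      intro c hc
      obtain ⟨t, ht, rfl⟩ := mem_image.1 hc
      refine h ?_ hb
      rw [Prod.le_def, Prod.le_def]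
      exact ⟨le_rfl, Nat.lt_succ_iff.1 (mem_range.1 ht), le_rfl⟩
    have h2 := card_le_card h1
    rw [card_image_of_injective _ (fun a b hab => by simpa using hab), card_range] at h2
    exact h2
  · have h1 : (range (k + 1)).image (fun t => ((i, j, t) : Box)) ⊆ π := by
      intro c hc
      obtain ⟨t, ht, rfl⟩ := mem_image.1 hc
      refine h ?_ hb
      rw [Prod.le_def, Prod.le_def]
      exact ⟨le_rfl, le_rfl, Nat.lt_succ_iff.1 (mem_range.1 ht)⟩
    have h2 := card_le_card h1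
    rw [card_image_of_injective _ (fun a b hab => by simpa using hab), card_range] at h2
    exact h2

end FIN0M

theorem specFIN0 : SpecFIN0 := by
  intro n
  refine Set.Finite.subset
    (Finset.finite_toSet (range n ×ˢ (range n ×ˢ range n)).powerset) ?_
  rintro π ⟨h, rfl⟩
  rw [Finset.mem_coe, mem_powerset]
  intro b hb
  obtain ⟨h1, h2, h3⟩ := FIN0M.lt_card h hb
  rw [mem_product, mem_product, mem_range, mem_range, mem_range]
  exact ⟨h1, h2, h3⟩

end Pool.Agent.Lib.MPd9449f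
end

section
/-!
# FK: the series `F` is the covariance of `p_2` and `p_4`
-/
set_option autoImplicit false

open PowerSeries Finset

namespace Pool.Agent.Lib.MPd9449f.FKM

open Pool.Agent.Lib.MPd9449f

/-- `(1+X)^{-1}` in `ℤ[[X]]` -/
noncomputable def vv : PowerSeries ℤ := PowerSeries.mk fun n => (-1) ^ n

lemma vv_mul : vv * (1 + X) = 1 := by
  ext n
  rw [mul_add, mul_one, map_add]
  cases n with
  | zero => simp [vv]
  | succ n =>
    rw [coeff_succ_mul_X, vv, coeff_mk, coeff_mk, coeff_one, if_neg (Nat.succ_ne_zero n)]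
    rw [pow_succ]; ring

/-- `(1+X)^(m-i)` -/
noncomputable def DD (i m : ℕ) : PowerSeries ℤ := vv ^ i * (1 + X) ^ m

lemma DD_succ_right (i m : ℕ) : DD i (m + 1) = DD i m * (1 + X) := by
  unfold DD; rw [pow_succ, mul_assoc]

lemma DD_succ_left (i m : ℕ) : DD (i + 1) m * (1 + X) = DD i m := by
  unfold DD
  calc vv ^ (i + 1) * (1 + X) ^ m * (1 + X) = vv ^ i * (1 + X) ^ m * (vv * (1 + X)) := by ring
    _ = _ := by rw [vv_mul, mul_one]

lemma coeff_mul_zero' (F : PowerSeries ℤ) : coeff 0 (F * (1 + X)) = coeff 0 F := by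
  rw [mul_add, mul_one, map_add, coeff_zero_mul_X, add_zero]

lemma coeff_mul_succ' (F : PowerSeries ℤ) (n : ℕ) :
    coeff (n + 1) (F * (1 + X)) = coeff (n + 1) F + coeff n F := by
  rw [mul_add, mul_one, map_add, coeff_succ_mul_X]

/-- the first coefficients of `(1+X)^c` -/
def Good (F : PowerSeries ℤ) (c : ℤ) : Prop :=
  coeff 0 F = 1 ∧ coeff 1 F = c ∧ 2 * coeff 2 F = c * (c - 1) ∧
    6 * coeff 3 F = c * (c - 1) * (c - 2) ∧
    24 * coeff 4 F = c * (c - 1) * (c - 2) * (c - 3)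

lemma good_iff (F : PowerSeries ℤ) (c : ℤ) : Good (F * (1 + X)) (c + 1) ↔ Good F c := by
  have e0 := coeff_mul_zero' F
  have e1 : coeff 1 (F * (1 + X)) = coeff 1 F + coeff 0 F := coeff_mul_succ' F 0
  have e2 : coeff 2 (F * (1 + X)) = coeff 2 F + coeff 1 F := coeff_mul_succ' F 1
  have e3 : coeff 3 (F * (1 + X)) = coeff 3 F + coeff 2 F := coeff_mul_succ' F 2
  have e4 : coeff 4 (F * (1 + X)) = coeff 4 F + coeff 3 F := coeff_mul_succ' F 3
  unfold Good
  rw [e0, e1, e2, e3, e4]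
  constructor
  · rintro ⟨h0, h1, h2, h3, h4⟩
    have g1 : coeff 1 F = c := by linarith
    have g2 : 2 * coeff 2 F = c * (c - 1) := by rw [g1] at h2; linarith
    have g3 : 6 * coeff 3 F = c * (c - 1) * (c - 2) := by linarith
    refine ⟨h0, g1, g2, g3, ?_⟩
    linarith
  · rintro ⟨h0, h1, h2, h3, h4⟩
    refine ⟨h0, by rw [h1, h0], ?_, ?_, ?_⟩
    · rw [h1]; linarith
    · linarith
    · linarith

lemma good_DD (i m : ℕ) : Good (DD i m) ((m : ℤ) - i) := by
  induction i with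
  | zero =>
    induction m with
    | zero =>
      unfold Good DD
      simp [coeff_one]
    | succ m ih =>
      rw [DD_succ_right]
      have := (good_iff (DD 0 m) ((m : ℤ) - (0 : ℕ))).2 ih
      convert this using 1
      push_cast; ring
  | succ i ih =>
    rw [← good_iff, DD_succ_left]
    convert ih using 1
    push_cast; ring

lemma DD_sq (i m : ℕ) : 2 * coeff 2 (DD i m) + coeff 1 (DD i m) = ((m : ℤ) - i) ^ 2 := by
  obtain ⟨_, h1, h2, _, _⟩ := good_DD i m
  rw [h1, h2]; ring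

lemma DD_four (i m : ℕ) : 24 * coeff 4 (DD i m) + 36 * coeff 3 (DD i m) +
    14 * coeff 2 (DD i m) + coeff 1 (DD i m) = ((m : ℤ) - i) ^ 4 := by
  obtain ⟨_, h1, h2, h3, h4⟩ := good_DD i m
  rw [h1, h4]
  linear_combination 6 * h3 + 7 * h2

/-! ### the two variables -/

lemma w1i_eq : w1i = C vv := rfl

lemma w2i_eq : w2i = PowerSeries.map (C (R := ℤ)) vv := by
  ext n : 1
  rw [coeff_map, w2i, vv, coeff_mk, coeff_mk, map_pow, map_neg, map_one]

lemma w2_eq : w2 = PowerSeries.map (C (R := ℤ)) (1 + X) := by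
  rw [map_add, map_one, PowerSeries.map_X]; rfl

lemma cf_mul (a b : ℕ) (A B : PowerSeries ℤ) :
    cf a b (C A * PowerSeries.map (C (R := ℤ)) B) = coeff a A * coeff b B := by
  unfold cf
  rw [coeff_C_mul, coeff_map, mul_comm A, coeff_C_mul, mul_comm]

lemma ell_mul (A B : PowerSeries ℤ) :
    ell (C A * PowerSeries.map (C (R := ℤ)) B) =
      (2 * coeff 2 A + coeff 1 A) *
        (24 * coeff 4 B + 36 * coeff 3 B + 14 * coeff 2 B + coeff 1 B) := by
  unfold ell
  simp only [cf_mul]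
  ring

/-- `ell` as an additive homomorphism -/
noncomputable def ellHom : R2 →+ ℤ where
  toFun := ell
  map_zero' := by simp [ell, cf]
  map_add' r s := by
    simp only [ell, cf, map_add]; ring

lemma ellHom_apply (r : R2) : ellHom r = ell r := rfl

lemma ell_box (b b' : Box) :
    ell (((w1i ^ 2) ^ b.1 * w1 ^ b.2.1 * w1 ^ b.2.2) *
      ((w2i ^ 2) ^ b'.1 * w2 ^ b'.2.1 * w2 ^ b'.2.2)) =
      (-2 * (b.1 : ℤ) + b.2.1 + b.2.2) ^ 2 * (-2 * (b'.1 : ℤ) + b'.2.1 + b'.2.2) ^ 4 := by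
  have h1 : (w1i ^ 2) ^ b.1 * w1 ^ b.2.1 * w1 ^ b.2.2 = C (DD (2 * b.1) (b.2.1 + b.2.2)) := by
    rw [w1i_eq, w1, DD, map_mul, map_pow, map_pow, pow_add, ← pow_mul, mul_assoc]
  have h2 : (w2i ^ 2) ^ b'.1 * w2 ^ b'.2.1 * w2 ^ b'.2.2 =
      PowerSeries.map (C (R := ℤ)) (DD (2 * b'.1) (b'.2.1 + b'.2.2)) := by
    rw [w2i_eq, w2_eq, DD, map_mul, map_pow, map_pow, pow_add, ← pow_mul, mul_assoc]
  rw [h1, h2, ell_mul, DD_sq, DD_four]
  push_cast
  ring

lemma ell_Chp (π π' : Finset Box) :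
    ellHom (Chp (w1i ^ 2) w1 w1 π * Chp (w2i ^ 2) w2 w2 π') = pa 2 π * pa 4 π' := by
  unfold Chp pa
  rw [Finset.sum_mul_sum, Finset.sum_mul_sum, map_sum]
  refine Finset.sum_congr rfl fun b _ => ?_
  rw [map_sum]
  refine Finset.sum_congr rfl fun b' _ => ?_
  rw [ellHom_apply, ell_box]

/-! ### finiteness of the set of plane partitions -/

lemma PP_finite (n : ℕ) : (PP n).Finite := by
  refine Set.Finite.subset
    (Finset.finite_toSet (range n ×ˢ (range n ×ˢ range n)).powerset) ?_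
  rintro π ⟨hl, hc⟩
  rw [Finset.mem_coe, Finset.mem_powerset]
  intro b hb
  have key : ∀ (k : ℕ) (f : ℕ → Box), Function.Injective f → (∀ i ≤ k, f i ≤ b) → k < n := by
    intro k f hf hle
    have h1 : (range (k + 1)).image f ⊆ π := by
      intro x hx
      obtain ⟨i, hi, rfl⟩ := Finset.mem_image.1 hx
      exact hl (hle i (Nat.lt_succ_iff.1 (Finset.mem_range.1 hi))) hb
    have h2 := Finset.card_le_card h1
    rw [Finset.card_image_of_injective _ hf, Finset.card_range, hc] at h2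
    omega
  rw [Finset.mem_product, Finset.mem_product, Finset.mem_range, Finset.mem_range,
    Finset.mem_range]
  refine ⟨key b.1 (fun i => (i, b.2.1, b.2.2)) ?_ ?_, key b.2.1 (fun i => (b.1, i, b.2.2)) ?_ ?_,
    key b.2.2 (fun i => (b.1, b.2.1, i)) ?_ ?_⟩
  · intro i j h; exact congrArg Prod.fst h
  · intro i hi; exact ⟨hi, le_refl _, le_refl _⟩
  · intro i j h; exact congrArg (fun x : Box => x.2.1) h
  · intro i hi; exact ⟨le_refl _, hi, le_refl _⟩
  · intro i j h; exact congrArg (fun x : Box => x.2.2) h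
  · intro i hi; exact ⟨le_refl _, le_refl _, hi⟩

/-- the finset of plane partitions of `n` -/
noncomputable def PPf (n : ℕ) : Finset (Finset Box) := (PP_finite n).toFinset

lemma coeff_gs {R : Type} [CommRing R] (g : Finset Box → R) (n : ℕ) :
    coeff n (gs g) = ∑ π ∈ PPf n, g π := by
  unfold gs
  rw [coeff_mk, PPf]
  exact finsum_mem_eq_finite_toFinset_sum _ (PP_finite n)

/-- `ell` applied to the coefficients -/
noncomputable def LL (F : PowerSeries R2) : PowerSeries ℤ :=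
  PowerSeries.mk fun n => ellHom (coeff n F)

lemma LL_sub (F G : PowerSeries R2) : LL (F - G) = LL F - LL G := by
  ext n
  simp only [LL, coeff_mk, map_sub]

lemma LL_mul (a : PowerSeries ℤ) (F : PowerSeries R2) :
    LL (PowerSeries.map (Int.castRingHom R2) a * F) = a * LL F := by
  ext n
  simp only [LL, coeff_mk, coeff_mul, map_sum, coeff_map]
  refine Finset.sum_congr rfl fun p _ => ?_
  rw [eq_intCast, ← zsmul_eq_mul, map_zsmul, smul_eq_mul]

lemma gs_one : gs (fun _ => (1 : R2)) =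
    PowerSeries.map (Int.castRingHom R2) (gs (fun _ => (1 : ℤ))) := by
  ext n : 1
  rw [coeff_map, coeff_gs, coeff_gs, map_sum]
  simp

lemma LL_Chp : LL (gs (fun π => Chp (w1i ^ 2) w1 w1 π * Chp (w2i ^ 2) w2 w2 π)) =
    gs (fun π => pa 2 π * pa 4 π) := by
  ext n
  simp only [LL, coeff_mk, coeff_gs, map_sum, ell_Chp]

lemma LL_Chp2 : LL (gs (Chp (w1i ^ 2) w1 w1) * gs (Chp (w2i ^ 2) w2 w2)) =
    gs (pa 2) * gs (pa 4) := by
  ext n
  simp only [LL, coeff_mk, coeff_mul, coeff_gs, map_sum]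
  refine Finset.sum_congr rfl fun p _ => ?_
  rw [Finset.sum_mul_sum, Finset.sum_mul_sum, map_sum]
  refine Finset.sum_congr rfl fun π _ => ?_
  rw [map_sum]
  exact Finset.sum_congr rfl fun π' _ => ell_Chp π π'

lemma w1i_mul : w1i * w1 = 1 := by
  rw [w1i_eq, w1, ← map_mul, vv_mul, map_one]

lemma w2i_mul : w2i * w2 = 1 := by
  rw [w2i_eq, w2_eq, ← map_mul, vv_mul, map_one]

lemma vv_sq_ne : vv ^ 2 ≠ 1 := by
  intro h
  obtain ⟨_, h1, _⟩ := good_DD 2 0
  unfold DD at h1
  rw [h, pow_zero, mul_one, coeff_one] at h1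
  norm_num at h1

lemma w1i_ne : w1i ^ 2 ≠ 1 := by
  intro h
  rw [w1i_eq, ← map_pow, ← map_one (C (R := PowerSeries ℤ))] at h
  exact vv_sq_ne (PowerSeries.C_injective h)

lemma w2i_ne : w2i ^ 2 ≠ 1 := by
  intro h
  rw [w2i_eq, ← map_pow, ← map_one (PowerSeries.map (C (R := ℤ)))] at h
  exact vv_sq_ne (PowerSeries.map_injective _ PowerSeries.C_injective h)

end Pool.Agent.Lib.MPd9449f.FKM

namespace Pool.Agent.Lib.MPd9449f

open FKM

theorem specFK (hTWO : SpecTWO) : SpecFK := by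
  have h1 : w1i ^ 2 * w1 * w1 = 1 := by
    calc w1i ^ 2 * w1 * w1 = (w1i * w1) * (w1i * w1) := by ring
      _ = 1 := by rw [w1i_mul, one_mul]
  have h2 : w2i ^ 2 * w2 * w2 = 1 := by
    calc w2i ^ 2 * w2 * w2 = (w2i * w2) * (w2i * w2) := by ring
      _ = 1 := by rw [w2i_mul, one_mul]
  have h := hTWO R2 (w1i ^ 2) w1 w1 (w2i ^ 2) w2 w2 h1 h2 w1i_ne w2i_ne
  have h3 := congrArg LL h
  rw [LL_sub, LL_Chp2, gs_one, LL_mul, LL_Chp, ← map_pow, LL_mul] at h3
  exact h3

end Pool.Agent.Lib.MPd9449f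
end

section
/-!
# ONE: the expectations of `p_2` and `p_4`
-/
open PowerSeries Finset

namespace Pool.Agent.Lib.MPd9449f.ONEM

/-- change of coefficients in a generating series -/
lemma map_gs (hF : SpecFIN0) (g : Finset Box → ℤ) :
    PowerSeries.map (Int.castRingHom ℚ) (gs g) = gs (fun π => (g π : ℚ)) := by
  ext n
  simp only [gs, coeff_map, coeff_mk]
  rw [finsum_mem_eq_finite_toFinset_sum _ (hF n), finsum_mem_eq_finite_toFinset_sum _ (hF n),
    map_sum]
  rfl

lemma sum2 (n : ℕ) : (2 * ∑ m ∈ range n, (m : ℚ) ^ 2 * ((n : ℚ) - m)) =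
    ((n : ℚ) ^ 4 - (n : ℚ) ^ 2) / 6 := by
  have h : ∀ (k : ℕ) (x : ℚ), ∑ m ∈ range k, (m : ℚ) ^ 2 * (x - m) =
      x * ((k : ℚ) * (k - 1) * (2 * k - 1) / 6) - ((k : ℚ) * (k - 1) / 2) ^ 2 := by
    intro k x
    induction k with
    | zero => simp
    | succ k ih =>
      rw [sum_range_succ, ih]
      push_cast
      ring
  rw [h]
  ring

lemma sum4 (n : ℕ) : (2 * ∑ m ∈ range n, (m : ℚ) ^ 4 * ((n : ℚ) - m)) =
    (2 * (n : ℚ) ^ 6 - 5 * (n : ℚ) ^ 4 + 3 * (n : ℚ) ^ 2) / 30 := by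
  have h : ∀ (k : ℕ) (x : ℚ), ∑ m ∈ range k, (m : ℚ) ^ 4 * (x - m) =
      x * ((k : ℚ) * (k - 1) * (2 * k - 1) * (3 * k ^ 2 - 3 * k - 1) / 30) -
        ((k : ℚ) ^ 2 * (k - 1) ^ 2 * (2 * k ^ 2 - 2 * k - 1) / 12) := by
    intro k x
    induction k with
    | zero => simp
    | succ k ih =>
      rw [sum_range_succ, ih]
      push_cast
      ring
  rw [h]
  ring

lemma sig (k N : ℕ) : ((ArithmeticFunction.sigma k N : ℕ) : ℚ) = ∑ n ∈ N.divisors, (n : ℚ) ^ k := by
  rw [ArithmeticFunction.sigma_apply]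
  push_cast
  rfl

lemma Gser_mem (p : ℕ × ℕ) : Gser p ∈ Algebra.adjoin ℚ (Set.range Gser) :=
  Algebra.subset_adjoin ⟨p, rfl⟩

end Pool.Agent.Lib.MPd9449f.ONEM

namespace Pool.Agent.Lib.MPd9449f

open ONEM

theorem specONE (hF : SpecFIN0) (hQ : SpecQA) (hS : SpecSYM) : SpecONE := by
  intro a ha
  rcases ha with rfl | rfl
  · refine ⟨(1 / 2 : ℚ) • Gser (1, 0) - (1 / 2 : ℚ) • Gser (0, 0), ?_, ?_⟩
    · exact Subalgebra.sub_mem _ (Subalgebra.smul_mem _ (Gser_mem _) _)
        (Subalgebra.smul_mem _ (Gser_mem _) _)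
    · rw [← map_gs hF, hS.1, hQ 2 (by decide) (by norm_num), map_mul, map_mul, map_gs hF]
      rw [← mul_assoc, mul_comm (PowerSeries.map (Int.castRingHom ℚ) 3), mul_assoc]
      simp only [Int.cast_one]
      congr 1
      ext N
      rw [map_ofNat]
      have h3 : (3 : PowerSeries ℚ) = C (3 : ℚ) := (map_ofNat C 3).symm
      rw [h3, coeff_C_mul, coeff_map, coeff_mk, map_sub, coeff_smul, coeff_smul]
      simp only [Gser, coeff_mk, pow_zero, one_mul, smul_eq_mul, mul_zero, mul_one, zero_add]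
      rw [sig, sig, eq_intCast]
      push_cast
      simp_rw [sum2]
      rw [mul_sum, mul_sum, mul_sum, ← sum_sub_distrib]
      refine sum_congr rfl fun n _ => ?_
      ring
  · refine ⟨(3 / 5 : ℚ) • Gser (2, 0) - (3 / 2 : ℚ) • Gser (1, 0) + (9 / 10 : ℚ) • Gser (0, 0),
      ?_, ?_⟩
    · exact Subalgebra.add_mem _ (Subalgebra.sub_mem _ (Subalgebra.smul_mem _ (Gser_mem _) _)
        (Subalgebra.smul_mem _ (Gser_mem _) _)) (Subalgebra.smul_mem _ (Gser_mem _) _)
    · rw [← map_gs hF, hS.2, hQ 4 (by decide) (by norm_num), map_mul, map_mul, map_gs hF]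
      rw [← mul_assoc, mul_comm (PowerSeries.map (Int.castRingHom ℚ) 9), mul_assoc]
      simp only [Int.cast_one]
      congr 1
      ext N
      rw [map_ofNat]
      have h3 : (9 : PowerSeries ℚ) = C (9 : ℚ) := (map_ofNat C 9).symm
      rw [h3, coeff_C_mul, coeff_map, coeff_mk, map_add, map_sub, coeff_smul, coeff_smul,
        coeff_smul]
      simp only [Gser, coeff_mk, pow_zero, one_mul, smul_eq_mul, mul_zero, mul_one, zero_add]
      rw [sig, sig, sig, eq_intCast]
      push_cast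
      simp_rw [sum4]
      rw [mul_sum, mul_sum, mul_sum, mul_sum, ← sum_sub_distrib, ← sum_add_distrib]
      refine sum_congr rfl fun n _ => ?_
      ring

end Pool.Agent.Lib.MPd9449f
end

section
/-!
# SLZ: the expected size of a slice
-/
open PowerSeries Finset

namespace Pool.Agent.Lib.MPd9449f

namespace SLZM

section chains

variable {N : ℕ} {B : Type} [CommRing B]

theorem sz_le_of_below {l m : Fin N → ℕ} (h : m ∈ below l) : sz m ≤ sz l := by
  unfold below at h
  rw [Fintype.mem_piFinset] at h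
  apply Finset.sum_le_sum
  intro i _
  exact (mem_Icc.1 (h i)).2

theorem up_congr (X X' : ℕ → B) (v v' : (Fin N → ℕ) → B) (hv : ∀ l, v l = v' l) (t : ℕ) :
    (∀ s < t, X s = X' s) → ∀ l, up X v t l = up X' v' t l := by
  induction t with
  | zero => intro _ l; exact hv l
  | succ t ih =>
    intro hX l
    simp only [up]
    rw [hX t (Nat.lt_succ_self t)]
    apply Finset.sum_congr rfl
    intro m _
    rw [ih (fun s hs => hX s (Nat.lt_succ_of_lt hs)) m]

theorem up_add (X : ℕ → B) (v : (Fin N → ℕ) → B) (k t : ℕ) :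
    ∀ l, up (fun s => X (k + s)) (up X v k) t l = up X v (k + t) l := by
  induction t with
  | zero => intro l; rfl
  | succ t ih =>
    intro l
    show ∑ m ∈ below l, X (k + t) ^ (sz l - sz m) * up (fun s => X (k + s)) (up X v k) t m =
      ∑ m ∈ below l, X (k + t) ^ (sz l - sz m) * up X v (k + t) m
    apply Finset.sum_congr rfl
    intro m _
    rw [ih m]

theorem up_scale (c : B) (X : ℕ → B) (k : ℕ) :
    ∀ l : Fin N → ℕ, c ^ sz l * up X del k l = up (fun j => c * X j) del k l := by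
  induction k with
  | zero =>
    intro l
    simp only [up, del]
    by_cases h : l = 0
    · subst h
      simp [sz]
    · simp [h]
  | succ k ih =>
    intro l
    simp only [up]
    rw [Finset.mul_sum]
    apply Finset.sum_congr rfl
    intro m hm
    rw [← ih m, mul_pow]
    have h1 : c ^ sz l = c ^ (sz l - sz m) * c ^ sz m := by
      rw [← pow_add, Nat.sub_add_cancel (sz_le_of_below hm)]
    rw [h1]
    ring

end chains

/-- the coefficient of `ε` -/
noncomputable def P1 (f : PowerSeries (PowerSeries ℤ)) : PowerSeries ℤ :=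
  PowerSeries.mk fun n => coeff 1 (coeff n f)

/-- `ε = 0` -/
noncomputable def P0 : PowerSeries (PowerSeries ℤ) →+* PowerSeries ℤ :=
  PowerSeries.map (constantCoeff (R := ℤ))

theorem coeff1_mul (a b : PowerSeries ℤ) :
    coeff 1 (a * b) = coeff 1 a * constantCoeff b + constantCoeff a * coeff 1 b := by
  rw [coeff_mul, show (1 : ℕ) = 0 + 1 from rfl, Finset.Nat.antidiagonal_succ]
  simp
  ring

theorem P1_mul (f g : PowerSeries (PowerSeries ℤ)) :
    P1 (f * g) = P1 f * P0 g + P0 f * P1 g := by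
  ext n
  rw [map_add, coeff_mul n (P1 f) (P0 g), coeff_mul n (P0 f) (P1 g)]
  simp only [P1, P0, coeff_mk, coeff_map]
  rw [coeff_mul n f g, map_sum, ← Finset.sum_add_distrib]
  apply Finset.sum_congr rfl
  intro x _
  exact coeff1_mul _ _

theorem P1_add (f g : PowerSeries (PowerSeries ℤ)) : P1 (f + g) = P1 f + P1 g := by
  ext n; simp [P1]

theorem P1_sub (f g : PowerSeries (PowerSeries ℤ)) : P1 (f - g) = P1 f - P1 g := by
  ext n; simp [P1]

theorem P1_sum {ι : Type} (s : Finset ι) (f : ι → PowerSeries (PowerSeries ℤ)) :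
    P1 (∑ i ∈ s, f i) = ∑ i ∈ s, P1 (f i) := by
  ext n; simp [P1]

theorem P1_C (a : PowerSeries ℤ) : P1 (C a) = C (coeff 1 a) := by
  ext n
  simp only [P1, coeff_mk, coeff_C]
  split_ifs <;> simp

theorem P0_C (a : PowerSeries ℤ) : P0 (C a) = C (constantCoeff a) := by
  unfold P0
  rw [map_C]

theorem P1_X_pow (n : ℕ) : P1 (X ^ n) = 0 := by
  ext m
  simp only [P1, coeff_mk, coeff_X_pow, map_zero]
  split_ifs
  · rw [coeff_one]; simp
  · simp

theorem P0_X_pow (n : ℕ) : P0 (X ^ n) = X ^ n := by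
  unfold P0
  rw [map_pow, map_X]

theorem P1_one : P1 1 = 0 := by
  have := P1_X_pow 0
  simpa using this

theorem P1_prod {ι : Type} (s : Finset ι) (f : ι → PowerSeries (PowerSeries ℤ))
    (u : ι → PowerSeries ℤ) (h : ∀ i ∈ s, P1 (f i) = u i * P0 (f i)) :
    P1 (∏ i ∈ s, f i) = (∑ i ∈ s, u i) * P0 (∏ i ∈ s, f i) := by
  classical
  induction s using Finset.induction_on with
  | empty => simp [P1_one]
  | insert i s hi ih =>
    rw [Finset.prod_insert hi, Finset.sum_insert hi, P1_mul, map_mul,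
      h i (Finset.mem_insert_self i s), ih (fun j hj => h j (Finset.mem_insert_of_mem hj))]
    ring

theorem ig_one_mul (a : ℕ) (ha : 1 ≤ a) : (1 - X ^ a) * ig (1 : ℤ) a = 1 := by
  have h : ig (1 : ℤ) a = 1 + X ^ a * ig (1 : ℤ) a := by
    ext n
    simp only [ig, map_add, coeff_mk, one_pow, coeff_one, coeff_X_pow_mul']
    by_cases hn : a ≤ n
    · have h0 : n ≠ 0 := by omega
      rw [if_neg h0, if_pos hn, zero_add]
      have h1 : a ∣ n ↔ a ∣ n - a := by
        conv_lhs => rw [show n = a + (n - a) by omega]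
        exact Nat.dvd_add_right (dvd_refl a)
      simp only [h1]
    · rw [if_neg hn, add_zero]
      by_cases h0 : n = 0
      · subst h0; simp
      · rw [if_neg h0, if_neg]
        intro hd
        exact hn (Nat.le_of_dvd (Nat.pos_of_ne_zero h0) hd)
  linear_combination h

theorem pow_dvd_P1 {n : ℕ} {f : PowerSeries (PowerSeries ℤ)} (h : X ^ n ∣ f) : X ^ n ∣ P1 f := by
  obtain ⟨g, rfl⟩ := h
  rw [P1_mul, P1_X_pow, P0_X_pow, zero_mul, zero_add]
  exact Dvd.intro _ rfl

theorem pow_dvd_P0 {n : ℕ} {f : PowerSeries (PowerSeries ℤ)} (h : X ^ n ∣ f) : X ^ n ∣ P0 f := by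
  obtain ⟨g, rfl⟩ := h
  rw [map_mul, P0_X_pow]
  exact Dvd.intro _ rfl

/-- `1 + ε` -/
noncomputable def ee : PowerSeries ℤ := 1 + X

theorem coeff1_ee_pow (n : ℕ) : coeff 1 (ee ^ n) = (n : ℤ) ∧ constantCoeff (ee ^ n) = 1 := by
  induction n with
  | zero => simp [coeff_one]
  | succ n ih =>
    rw [pow_succ, coeff1_mul, map_mul, ih.1, ih.2]
    simp [ee, coeff_one]

/-- the variables of the left half, all divisible by `X` -/
noncomputable def Xv (N k : ℕ) (t : ℕ) : PowerSeries (PowerSeries ℤ) :=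
  if t < k then C ee * X ^ (N - t) else if t < N then X ^ (N - t) else X

/-- the variables of the right half -/
noncomputable def Yv (N : ℕ) (t : ℕ) : PowerSeries (PowerSeries ℤ) := X ^ (N - 1 - t)

theorem X_dvd_Xv (N k : ℕ) (hk : k ≤ N) (t : ℕ) : X ∣ Xv N k t := by
  unfold Xv
  split_ifs with h1 h2
  · exact Dvd.dvd.mul_left (dvd_pow_self X (by omega)) _
  · exact dvd_pow_self X (by omega)
  · exact dvd_rfl

theorem sch_Xv (N k : ℕ) (hk : k ≤ N) (l : Fin N → ℕ) :
    up (fun t => (X : PowerSeries (PowerSeries ℤ)) ^ (N - (k + t)))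
      (fun m => C (ee ^ sz m) * sch (fun j => (X : PowerSeries (PowerSeries ℤ)) ^ (N - j)) k m)
      (N - k) l = sch (Xv N k) N l := by
  have h1 : ∀ m : Fin N → ℕ, C (ee ^ sz m) *
      sch (fun j => (X : PowerSeries (PowerSeries ℤ)) ^ (N - j)) k m = up (Xv N k) del k m := by
    intro m
    unfold sch
    rw [map_pow, up_scale]
    apply up_congr _ _ _ _ (fun _ => rfl)
    intro s hs
    unfold Xv
    rw [if_pos hs]
  have h2 : up (fun t => (X : PowerSeries (PowerSeries ℤ)) ^ (N - (k + t)))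
      (fun m => C (ee ^ sz m) * sch (fun j => (X : PowerSeries (PowerSeries ℤ)) ^ (N - j)) k m)
      (N - k) l = up (fun s => Xv N k (k + s)) (up (Xv N k) del k) (N - k) l := by
    apply up_congr _ _ _ _ h1
    intro s hs
    unfold Xv
    rw [if_neg (by omega), if_pos (by omega)]
  rw [h2, up_add]
  unfold sch
  rw [Nat.add_sub_cancel' hk]

theorem P1_fac (a : ℕ) (ha : 1 ≤ a) :
    P1 (1 - C ee * X ^ a) = -(X ^ a * ig 1 a) * P0 (1 - C ee * X ^ a) := by
  rw [P1_sub, P1_one, P1_mul, P1_X_pow, P1_C, P0_X_pow, mul_zero, add_zero]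
  have h1 := coeff1_ee_pow 1
  rw [pow_one] at h1
  rw [h1.1, map_sub, map_one, map_mul, P0_C, P0_X_pow, h1.2]
  have h2 := ig_one_mul a ha
  simp only [Nat.cast_one, map_one, one_mul, zero_sub]
  linear_combination X ^ a * h2

theorem P1_fac' (a : ℕ) :
    P1 (1 - X ^ a) = 0 * P0 (1 - X ^ a) := by
  rw [P1_sub, P1_one, P1_X_pow]; simp

/-- the double product -/
noncomputable def PP1 (N k : ℕ) : PowerSeries (PowerSeries ℤ) :=
  ∏ i ∈ range N, ∏ l ∈ range N, (1 - Xv N k i * Yv N l)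

theorem P0_PP1 (N k : ℕ) (hk : k ≤ N) : P0 (PP1 N k) = pi0 ℤ N := by
  unfold PP1 pi0
  rw [map_prod]
  rw [← Finset.prod_range_reflect]
  apply Finset.prod_congr rfl
  intro i hi
  rw [mem_range] at hi
  rw [map_prod, ← Finset.prod_range_reflect]
  apply Finset.prod_congr rfl
  intro l hl
  rw [mem_range] at hl
  have h0 : constantCoeff ee = 1 := by
    have := (coeff1_ee_pow 1).2
    rwa [pow_one] at this
  have h1 : P0 (Xv N k (N - 1 - i)) = X ^ (i + 1) := by
    unfold Xv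
    split_ifs with h1 h2
    · rw [map_mul, P0_C, P0_X_pow, h0, map_one, one_mul]
      congr 1; omega
    · rw [P0_X_pow]
      congr 1; omega
    · omega
  rw [map_sub, map_one, map_mul, h1]
  unfold Yv
  rw [P0_X_pow, ← pow_add]
  congr 2
  omega

theorem P1_PP1 (N k : ℕ) (hk : k ≤ N) : P1 (PP1 N k) =
    -(∑ j ∈ range k, ∑ l ∈ range N, X ^ (2 * N - 1 - j - l) * ig 1 (2 * N - 1 - j - l)) *
      pi0 ℤ N := by
  rw [← P0_PP1 N k hk]
  unfold PP1
  rw [P1_prod (range N) _ (fun i => if i < k then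
    ∑ l ∈ range N, -(X ^ (2 * N - 1 - i - l) * ig 1 (2 * N - 1 - i - l)) else 0)]
  · congr 1
    rw [Finset.sum_ite, Finset.sum_const_zero, add_zero, ← Finset.sum_neg_distrib]
    have h1 : (range N).filter (fun i => i < k) = range k := by
      ext i; simp only [mem_filter, mem_range]; omega
    rw [h1]
    apply Finset.sum_congr rfl
    intro i _
    rw [Finset.sum_neg_distrib]
  · intro i hi
    rw [mem_range] at hi
    split_ifs with h
    · apply P1_prod
      intro l hl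
      rw [mem_range] at hl
      have h1 : Xv N k i * Yv N l = C ee * X ^ (2 * N - 1 - i - l) := by
        unfold Xv Yv
        rw [if_pos h, mul_assoc, ← pow_add]
        congr 2
        omega
      rw [h1]
      exact P1_fac _ (by omega)
    · have h2 := P1_prod (range N) (fun l => 1 - Xv N k i * Yv N l) (fun _ => 0) (by
        intro l hl
        rw [mem_range] at hl
        have h1 : Xv N k i * Yv N l = X ^ (2 * N - 1 - i - l) := by
          unfold Xv Yv
          rw [if_neg h, if_pos hi, ← pow_add]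
          congr 1
          omega
        rw [h1]
        exact P1_fac' _)
      rw [h2, Finset.sum_const_zero]

end SLZM

open SLZM in
/-- SLZ: the expected size of a slice. -/
theorem specSLZ (hCHA : SpecCHA) (hCAU : SpecCAU) (hVNZ : SpecVNZ) : SpecSLZ := by
  intro N L k hLN hkN
  have hN : 1 ≤ N := by omega
  have h1 := hCHA (PowerSeries ℤ) N L k N (fun m => C (ee ^ sz m)) (fun _ => 1) hN hkN le_rfl
  have h2 : ∀ l : Fin N → ℕ,
      up (fun t => (X : PowerSeries (PowerSeries ℤ)) ^ (N - 1 - (N + t)))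
        (fun m => (fun _ => (1 : PowerSeries (PowerSeries ℤ))) m *
          sch (fun j => (X : PowerSeries (PowerSeries ℤ)) ^ (N - 1 - j)) N m) (N - N) l =
      sch (Yv N) N l := by
    intro l
    rw [Nat.sub_self]
    show 1 * _ = _
    rw [one_mul]
    rfl
  simp only [h2] at h1
  simp only [sch_Xv N k hkN] at h1
  have h3 := hCAU (PowerSeries ℤ) N L N (Xv N k) (Yv N) hN (hVNZ (PowerSeries ℤ) N (N - 1)
    (by omega)).1 (X_dvd_Xv N k hkN)
  rw [← h1] at h3
  change X ^ (L + 1) ∣ PP1 N k * avg N L k (2 * N - N) (fun m => C (ee ^ sz m)) (fun _ => 1) - 1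
    at h3
  set S := avg N L k (2 * N - N) (fun m => C (ee ^ sz m)) (fun _ => (1 : PowerSeries (PowerSeries ℤ)))
    with hS
  have hS1 : P1 S = ∑ p ∈ paths N L, X ^ psz p * C (sz (slc p k) : ℤ) := by
    rw [hS]
    unfold avg
    rw [P1_sum]
    apply Finset.sum_congr rfl
    intro p _
    rw [mul_one, P1_mul, P1_X_pow, zero_mul, zero_add, P0_X_pow, P1_C, (coeff1_ee_pow _).1]
  have h4 := pow_dvd_P1 h3
  have h5 := pow_dvd_P0 h3
  rw [P1_sub, P1_one, sub_zero, P1_mul, P1_PP1 N k hkN, P0_PP1 N k hkN, hS1] at h4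
  rw [map_sub, map_one, map_mul, P0_PP1 N k hkN] at h5
  have h6 := dvd_add h4 (Dvd.dvd.mul_left h5
    (∑ j ∈ range k, ∑ l ∈ range N, X ^ (2 * N - 1 - j - l) * ig 1 (2 * N - 1 - j - l)))
  convert h6 using 1
  ring

end Pool.Agent.Lib.MPd9449f
end

section
/-!
# QA: the expectation of `∑ (j - k)^a`
-/
open PowerSeries Finset

namespace Pool.Agent.Lib.MPd9449f

namespace QAM

theorem coeff_F (M n : ℕ) (hn : 1 ≤ n) :
    coeff M (X ^ n * ig (1 : ℤ) n) = if n ∈ M.divisors then 1 else 0 := by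
  rw [coeff_X_pow_mul']
  by_cases h : n ≤ M
  · rw [if_pos h]
    simp only [ig, coeff_mk, one_pow]
    have h1 : n ∣ M ↔ n ∣ M - n := by
      conv_lhs => rw [show M = n + (M - n) by omega]
      exact Nat.dvd_add_right (dvd_refl n)
    have h2 : n ∈ M.divisors ↔ n ∣ M - n := by
      rw [Nat.mem_divisors, h1]
      exact ⟨fun h => h.1, fun h' => ⟨h', by omega⟩⟩
    simp only [h2]
  · rw [if_neg h, if_neg]
    intro hd
    exact h (Nat.divisor_le hd)

/-- the statistic through the slices -/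
def Psi (N a : ℕ) (p : Fin (2 * N + 1) → Fin N → ℕ) : ℤ :=
  ∑ k ∈ range (2 * N + 1), ((k : ℤ) - N) ^ a * (sz (slc p k) : ℤ)

theorem lt_of_mem {n : ℕ} {π : Finset Box} (hπ : π ∈ PP n) {b : Box} (hb : b ∈ π) :
    b.2.1 < n ∧ b.2.2 < n := by
  obtain ⟨h1, h2⟩ := hπ
  constructor
  · have h3 : (range (b.2.1 + 1)).card ≤ π.card := by
      apply Finset.card_le_card_of_injOn (fun j => ((b.1, j, b.2.2) : Box))
      · intro j hj
        have hj' : j ≤ b.2.1 := by
          have := mem_range.1 (mem_coe.1 hj); omega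
        exact h1 (show ((b.1, j, b.2.2) : Box) ≤ b from ⟨le_rfl, hj', le_rfl⟩) hb
      · intro j _ j' _ h
        exact congrArg (fun c : Box => c.2.1) h
    rw [card_range] at h3
    omega
  · have h3 : (range (b.2.2 + 1)).card ≤ π.card := by
      apply Finset.card_le_card_of_injOn (fun j => ((b.1, b.2.1, j) : Box))
      · intro j hj
        have hj' : j ≤ b.2.2 := by
          have := mem_range.1 (mem_coe.1 hj); omega
        exact h1 (show ((b.1, b.2.1, j) : Box) ≤ b from ⟨le_rfl, le_rfl, hj'⟩) hb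
      · intro j _ j' _ h
        exact congrArg (fun c : Box => c.2.2) h
    rw [card_range] at h3
    omega

theorem qa_slices (N n a : ℕ) (π : Finset Box) (hπ : π ∈ PP n) (hn : n < N) :
    qa a π = Psi N a (slices N π) := by
  have h1 : Psi N a (slices N π) = ∑ k ∈ range (2 * N + 1), ∑ r : Fin N, ∑ b ∈ π,
      if b.2.1 = (r : ℕ) + (k - N) ∧ b.2.2 = (r : ℕ) + (N - k) then ((k : ℤ) - N) ^ a else 0 := by
    unfold Psi
    apply Finset.sum_congr rfl
    intro k hk
    rw [mem_range] at hk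
    unfold slc
    rw [dif_pos hk]
    unfold sz slices
    push_cast
    rw [Finset.mul_sum]
    apply Finset.sum_congr rfl
    intro r _
    rw [← Finset.sum_filter, Finset.sum_const, nsmul_eq_mul, mul_comm]
  rw [h1]
  have h2 : ∀ k ∈ range (2 * N + 1), (∑ r : Fin N, ∑ b ∈ π,
      if b.2.1 = (r : ℕ) + (k - N) ∧ b.2.2 = (r : ℕ) + (N - k) then ((k : ℤ) - N) ^ a else 0) =
      ∑ b ∈ π, ∑ r : Fin N,
      if b.2.1 = (r : ℕ) + (k - N) ∧ b.2.2 = (r : ℕ) + (N - k) then ((k : ℤ) - N) ^ a else 0 :=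
    fun k _ => Finset.sum_comm
  rw [Finset.sum_congr rfl h2, Finset.sum_comm]
  unfold qa
  apply Finset.sum_congr rfl
  intro b hb
  obtain ⟨hb1, hb2⟩ := lt_of_mem hπ hb
  rw [Finset.sum_eq_single (N + b.2.1 - b.2.2)]
  · rw [Finset.sum_eq_single (⟨min b.2.1 b.2.2, by omega⟩ : Fin N)]
    · rw [if_pos]
      · congr 1
        rw [Nat.cast_sub (by omega)]
        push_cast
        ring
      · constructor
        · show b.2.1 = min b.2.1 b.2.2 + (N + b.2.1 - b.2.2 - N)
          omega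
        · show b.2.2 = min b.2.1 b.2.2 + (N - (N + b.2.1 - b.2.2))
          omega
    · intro r _ hr
      rw [if_neg]
      rintro ⟨h3, h4⟩
      apply hr
      apply Fin.ext
      show (r : ℕ) = min b.2.1 b.2.2
      omega
    · intro h; exact absurd (Finset.mem_univ _) h
  · intro k hk hkn
    rw [mem_range] at hk
    apply Finset.sum_eq_zero
    intro r _
    rw [if_neg]
    rintro ⟨h3, h4⟩
    apply hkn
    omega
  · intro h
    exact absurd (mem_range.2 (by omega)) h

theorem gs_mod (hBRI : SpecBRI) (N L : ℕ) (hLN : L < N) (g : Finset Box → ℤ)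
    (Ψ : (Fin (2 * N + 1) → Fin N → ℕ) → ℤ)
    (hg : ∀ n < N, ∀ π ∈ PP n, g π = Ψ (slices N π)) :
    X ^ (L + 1) ∣ gs g - ∑ p ∈ paths N L, X ^ psz p * C (Ψ p) := by
  rw [X_pow_dvd_iff]
  intro n hn
  rw [map_sub, sub_eq_zero]
  unfold gs
  rw [coeff_mk, finsum_mem_congr rfl (fun π hπ => hg n (by omega) π hπ),
    hBRI ℤ N L n Ψ (by omega) (by omega), map_sum, Finset.sum_filter]
  apply Finset.sum_congr rfl
  intro p _
  rw [coeff_mul_C, coeff_X_pow]
  by_cases h : psz p = n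
  · rw [if_pos h, if_pos h.symm, one_mul]
  · rw [if_neg h, if_neg (fun h' => h h'.symm), zero_mul]

theorem sum_sym (N : ℕ) (h : ℤ → ℤ) (heven : ∀ x, h (-x) = h x) (h0 : h 0 = 0) :
    ∑ k ∈ range (2 * N + 1), h ((k : ℤ) - N) = 2 * ∑ m ∈ range (N + 1), h m := by
  have e : 2 * N + 1 = N + (N + 1) := by ring
  rw [e, Finset.sum_range_add]
  have h1 : ∑ x ∈ range N, h ((x : ℤ) - N) = ∑ x ∈ range (N + 1), h (x : ℤ) := by
    rw [Finset.sum_range_succ' (fun x : ℕ => h (x : ℤ)), ← Finset.sum_range_reflect]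
    simp only [Nat.cast_zero, h0, add_zero]
    apply Finset.sum_congr rfl
    intro x hx
    rw [mem_range] at hx
    rw [← heven]
    congr 1
    rw [Nat.cast_sub (by omega), Nat.cast_sub (by omega)]
    push_cast
    ring
  have h2 : ∑ x ∈ range (N + 1), h (((N + x : ℕ) : ℤ) - N) = ∑ x ∈ range (N + 1), h (x : ℤ) := by
    apply Finset.sum_congr rfl
    intro x _
    congr 1
    push_cast
    ring
  rw [h1, h2]
  ring

/-- the right hand side of SLZ -/
noncomputable def U (N k : ℕ) : PowerSeries ℤ :=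
  ∑ j ∈ range k, ∑ l ∈ range N, X ^ (2 * N - 1 - j - l) * ig 1 (2 * N - 1 - j - l)

theorem coeff_U (N k M : ℕ) (hk : k ≤ N) (hM : M < N) :
    coeff M (U N k) = ∑ n ∈ M.divisors, ((n - (N - k) : ℕ) : ℤ) := by
  unfold U
  rw [map_sum]
  have h1 : ∀ j ∈ range k, coeff M (∑ l ∈ range N,
      X ^ (2 * N - 1 - j - l) * ig (1 : ℤ) (2 * N - 1 - j - l)) =
      ∑ n ∈ M.divisors, if N - j ≤ n then (1 : ℤ) else 0 := by
    intro j hj
    rw [mem_range] at hj
    rw [map_sum, ← Finset.sum_range_reflect]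
    have h2 : ∀ l ∈ range N, coeff M (X ^ (2 * N - 1 - j - (N - 1 - l)) *
        ig (1 : ℤ) (2 * N - 1 - j - (N - 1 - l))) =
        ∑ n ∈ M.divisors, if n = N - j + l then (1 : ℤ) else 0 := by
      intro l hl
      rw [mem_range] at hl
      rw [coeff_F M _ (by omega), show 2 * N - 1 - j - (N - 1 - l) = N - j + l by omega,
        Finset.sum_ite_eq' M.divisors (N - j + l) (fun _ => (1 : ℤ))]
    rw [Finset.sum_congr rfl h2, Finset.sum_comm]
    apply Finset.sum_congr rfl
    intro n hn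
    have hnM := Nat.divisor_le hn
    by_cases h3 : N - j ≤ n
    · rw [if_pos h3, Finset.sum_eq_single (n - (N - j))]
      · rw [if_pos (by omega)]
      · intro l _ hl
        rw [if_neg (by omega)]
      · intro h
        exact absurd (mem_range.2 (by omega)) h
    · rw [if_neg h3]
      apply Finset.sum_eq_zero
      intro l _
      rw [if_neg (by omega)]
  rw [Finset.sum_congr rfl h1, Finset.sum_comm]
  apply Finset.sum_congr rfl
  intro n hn
  have hnM := Nat.divisor_le hn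
  rw [← Finset.sum_filter, Finset.sum_const, nsmul_eq_mul, mul_one]
  congr 1
  have h2 : (range k).filter (fun j => N - j ≤ n) = Ico (N - n) k := by
    ext j; simp only [mem_filter, mem_range, mem_Ico]; omega
  rw [h2, Nat.card_Ico]
  omega

end QAM

open QAM in
/-- QA: the expectation of `∑ (j - k)^a`. -/
theorem specQA (hSLZ : SpecSLZ) (hREV : SpecREV) (hBRI : SpecBRI) (hZ0 : SpecZ0) : SpecQA := by
  intro a ha ha0
  set Q : PowerSeries ℤ := PowerSeries.mk fun N =>
    ∑ n ∈ N.divisors, 2 * ∑ m ∈ range n, (m : ℤ) ^ a * ((n : ℤ) - m) with hQ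
  have key : ∀ L : ℕ, X ^ (L + 1) ∣ gs (qa a) - gs (fun _ => (1 : ℤ)) * Q := by
    intro L
    obtain ⟨N, hN⟩ : ∃ N, N = L + 1 := ⟨_, rfl⟩
    have hLN : L < N := by omega
    have h1 := gs_mod hBRI N L hLN (qa a) (Psi N a) (fun n hn π hπ => qa_slices N n a π hπ hn)
    have h2 := gs_mod hBRI N L hLN (fun _ => 1) (fun _ => 1) (fun n hn π hπ => rfl)
    have h3 := hZ0 ℤ N L 0 0 (by omega)
    have hS0 : avg N L 0 0 (fun _ => (1 : PowerSeries ℤ)) (fun _ => 1) =
        ∑ p ∈ paths N L, X ^ psz p * C (1 : ℤ) := by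
      unfold avg
      simp
    rw [hS0] at h3
    set S0 : PowerSeries ℤ := ∑ p ∈ paths N L, X ^ psz p * C (1 : ℤ) with hS0d
    set A : PowerSeries ℤ := ∑ p ∈ paths N L, X ^ psz p * C (Psi N a p) with hA
    -- the slices
    let T : ℕ → PowerSeries ℤ := fun k => ∑ p ∈ paths N L, X ^ psz p * C (sz (slc p k) : ℤ)
    have hT : ∀ k ≤ 2 * N, X ^ (L + 1) ∣ pi0 ℤ N * T k - U N (min k (2 * N - k)) := by
      intro k hk
      by_cases hkN : k ≤ N
      · rw [min_eq_left (by omega)]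
        exact hSLZ N L k hLN hkN
      · rw [min_eq_right (by omega)]
        have h5 := hREV ℤ N L k 0 (fun l => C (sz l : ℤ)) (fun _ => 1) hk (by omega)
        have h6 : T (2 * N - k) = T k := by
          unfold avg at h5
          simp only [mul_one] at h5
          exact h5
        rw [← h6]
        exact hSLZ N L (2 * N - k) hLN (by omega)
    have hAT : A = ∑ k ∈ range (2 * N + 1), C (((k : ℤ) - N) ^ a) * T k := by
      rw [hA]
      simp only [T, Finset.mul_sum]
      rw [Finset.sum_comm]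
      apply Finset.sum_congr rfl
      intro p _
      unfold Psi
      rw [map_sum, Finset.mul_sum]
      apply Finset.sum_congr rfl
      intro k _
      rw [map_mul]
      ring
    let W : PowerSeries ℤ := ∑ k ∈ range (2 * N + 1), C (((k : ℤ) - N) ^ a) * U N (min k (2 * N - k))
    have h4 : X ^ (L + 1) ∣ pi0 ℤ N * A - W := by
      rw [hAT, Finset.mul_sum, ← Finset.sum_sub_distrib]
      apply Finset.dvd_sum
      intro k hk
      rw [mem_range] at hk
      have := Dvd.dvd.mul_left (hT k (by omega)) (C (((k : ℤ) - N) ^ a))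
      convert this using 1
      ring
    have h5 : X ^ (L + 1) ∣ W - Q := by
      rw [X_pow_dvd_iff]
      intro M hM
      rw [map_sub, sub_eq_zero, hQ, coeff_mk]
      simp only [W]
      rw [map_sum]
      have h6 : ∀ k ∈ range (2 * N + 1), coeff M (C (((k : ℤ) - N) ^ a) * U N (min k (2 * N - k))) =
          ∑ n ∈ M.divisors, ((k : ℤ) - N) ^ a * (((n - ((k : ℤ) - N).natAbs : ℕ)) : ℤ) := by
        intro k hk
        rw [mem_range] at hk
        rw [coeff_C_mul, coeff_U N _ M (by omega) (by omega), Finset.mul_sum]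
        apply Finset.sum_congr rfl
        intro n _
        congr 3
        omega
      rw [Finset.sum_congr rfl h6, Finset.sum_comm]
      apply Finset.sum_congr rfl
      intro n hn
      have hnM := Nat.divisor_le hn
      rw [sum_sym N (fun x => x ^ a * (((n - x.natAbs : ℕ)) : ℤ))
        (by intro x; simp only [Int.natAbs_neg]; rw [ha.neg_pow]) (by simp [ha0.ne'])]
      congr 1
      rw [← Finset.sum_subset (Finset.range_subset_range.2 (show n ≤ N + 1 by omega))]
      · apply Finset.sum_congr rfl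
        intro m hm
        rw [mem_range] at hm
        rw [Int.natAbs_natCast, Nat.cast_sub hm.le]
      · intro m _ hm
        rw [mem_range, not_lt] at hm
        rw [Int.natAbs_natCast, Nat.sub_eq_zero_of_le hm]
        simp
    obtain ⟨c1, h1⟩ := h1
    obtain ⟨c2, h2⟩ := h2
    obtain ⟨c3, h3⟩ := h3
    obtain ⟨c4, h4⟩ := h4
    obtain ⟨c5, h5⟩ := h5
    refine ⟨c1 + gs (fun _ => (1 : ℤ)) * c5 - c2 * W - c3 * A + S0 * c4, ?_⟩
    linear_combination h1 + gs (fun _ => (1 : ℤ)) * h5 - W * h2 - A * h3 + S0 * h4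
  ext n
  have h := (X_pow_dvd_iff.1 (key n)) n (Nat.lt_succ_self n)
  rw [map_sub, sub_eq_zero] at h
  exact h

end Pool.Agent.Lib.MPd9449f
end

section
/-!
# The diagonal characters do not occur in the vertex character
-/
open Finset

namespace Pool.Agent.Lib.MPd9449f

namespace VKM

theorem tm_mul (a b : Chr) : tm a * tm b = tm (a + b) := by
  unfold tm
  rw [AddMonoidAlgebra.single_mul_single]
  simp

theorem tm_zero : tm 0 = 1 := rfl

/-- the vertex character as a sum of Laurent monomials -/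
theorem Vc_eq (π : Finset Box) :
    Vc π = ∑ b ∈ π, tm (Box.chr b) - ∑ b ∈ π, tm (-(Box.chr b) + (-1, -1, -1)) +
      ∑ a ∈ π, ∑ b ∈ π,
        (tm (Box.chr a - Box.chr b + (-1, -1, -1)) - tm (Box.chr a - Box.chr b)
          + (tm (Box.chr a - Box.chr b + (-1, 0, 0)) + tm (Box.chr a - Box.chr b + (0, -1, 0))
            + tm (Box.chr a - Box.chr b + (0, 0, -1)))
          - (tm (Box.chr a - Box.chr b + (0, -1, -1)) + tm (Box.chr a - Box.chr b + (-1, 0, -1))
            + tm (Box.chr a - Box.chr b + (-1, -1, 0)))) := by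
  have hK : ((1 - tm (1, 0, 0)) * (1 - tm (0, 1, 0)) * (1 - tm (0, 0, 1))) * tm (-1, -1, -1) =
      tm (-1, -1, -1) - tm 0 + (tm (-1, 0, 0) + tm (0, -1, 0) + tm (0, 0, -1)) -
        (tm (0, -1, -1) + tm (-1, 0, -1) + tm (-1, -1, 0)) := by
    have e : ((1 - tm (1, 0, 0)) * (1 - tm (0, 1, 0)) * (1 - tm (0, 0, 1))) * tm (-1, -1, -1) =
        tm (-1, -1, -1) - tm (1, 0, 0) * tm (0, 1, 0) * tm (0, 0, 1) * tm (-1, -1, -1) +
          (tm (0, 1, 0) * tm (0, 0, 1) * tm (-1, -1, -1) +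
            tm (1, 0, 0) * tm (0, 0, 1) * tm (-1, -1, -1) +
            tm (1, 0, 0) * tm (0, 1, 0) * tm (-1, -1, -1)) -
          (tm (1, 0, 0) * tm (-1, -1, -1) + tm (0, 1, 0) * tm (-1, -1, -1) +
            tm (0, 0, 1) * tm (-1, -1, -1)) := by ring
    rw [e]
    simp only [tm_mul, Prod.mk_add_mk]
    norm_num
    rfl
  unfold Vc Qc Qd
  rw [mul_assoc (_ * _) _ (tm (-1, -1, -1)), hK, Finset.sum_mul, Finset.sum_mul_sum,
    Finset.sum_mul]
  congr 1
  · congr 1
    exact Finset.sum_congr rfl fun b _ => tm_mul _ _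
  · refine Finset.sum_congr rfl fun a _ => ?_
    rw [Finset.sum_mul]
    refine Finset.sum_congr rfl fun b _ => ?_
    rw [tm_mul, mul_sub, mul_add, mul_sub, mul_add, mul_add, mul_add, mul_add]
    simp only [tm_mul, add_zero, ← sub_eq_add_neg]

/-- number of pairs with given difference -/
theorem count (π : Finset Box) (hπ : IsLowerSet (π : Set Box)) (c : Box) :
    ((π ×ˢ π).filter fun p : Box × Box => Box.chr p.1 - Box.chr p.2 = Box.chr c).card =
      (π.filter fun a => c ≤ a).card := by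
  apply Finset.card_nbij' (fun p => p.1) (fun a => (a, a - c))
  · intro p hp
    simp only [Finset.coe_filter, Set.mem_ofPred_eq, Finset.mem_product] at hp ⊢
    obtain ⟨⟨h1, h2⟩, h3⟩ := hp
    refine ⟨h1, ?_⟩
    obtain ⟨⟨a1, a2, a3⟩, b1, b2, b3⟩ := p
    obtain ⟨c1, c2, c3⟩ := c
    simp only [Box.chr, Prod.mk_sub_mk, Prod.mk.injEq] at h3
    refine ⟨?_, ?_, ?_⟩ <;> simp <;> omega
  · intro a ha
    simp only [Finset.coe_filter, Set.mem_ofPred_eq, Finset.mem_product] at ha ⊢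
    obtain ⟨h1, h2⟩ := ha
    obtain ⟨a1, a2, a3⟩ := a
    obtain ⟨c1, c2, c3⟩ := c
    simp only [Prod.mk_le_mk] at h2
    refine ⟨⟨h1, ?_⟩, ?_⟩
    · refine hπ ?_ h1
      refine ⟨?_, ?_, ?_⟩ <;> simp
    · simp only [Box.chr, Prod.mk_sub_mk, Prod.mk.injEq]
      refine ⟨?_, ?_, ?_⟩ <;> omega
  · intro p hp
    simp only [Finset.coe_filter, Set.mem_ofPred_eq, Finset.mem_product] at hp
    obtain ⟨⟨h1, h2⟩, h3⟩ := hp
    obtain ⟨⟨a1, a2, a3⟩, b1, b2, b3⟩ := p
    obtain ⟨c1, c2, c3⟩ := c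
    simp only [Box.chr, Prod.mk_sub_mk, Prod.mk.injEq] at h3 ⊢
    refine ⟨trivial, ?_, ?_, ?_⟩ <;> omega
  · intro a ha
    rfl

/-- number of pairs with difference `v` -/
def nn (π : Finset Box) (v : Chr) : ℤ :=
  ∑ a ∈ π, ∑ b ∈ π, if Box.chr a - Box.chr b = v then 1 else 0

theorem nn_nat (π : Finset Box) (hπ : IsLowerSet (π : Set Box)) (c : Box) :
    nn π (Box.chr c) = ∑ a ∈ π, if c ≤ a then 1 else 0 := by
  have h := count π hπ c
  unfold nn
  rw [← Finset.sum_product', Finset.sum_boole, Finset.sum_boole]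
  exact_mod_cast h

theorem nn_neg (π : Finset Box) (v : Chr) : nn π (-v) = nn π v := by
  unfold nn
  rw [Finset.sum_comm]
  refine Finset.sum_congr rfl fun a _ => Finset.sum_congr rfl fun b _ => ?_
  refine if_congr ?_ rfl rfl
  rw [← neg_sub, neg_inj]

/-- coefficient at `w` as a homomorphism -/
noncomputable def co (w : Chr) : Laur →+ ℤ :=
  (Finsupp.applyAddHom w).comp AddMonoidAlgebra.coeffAddEquiv.toAddMonoidHom

theorem co_apply (w : Chr) (f : Laur) : co w f = f.coeff w := rfl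

theorem co_tm (w v : Chr) : co w (tm v) = if v = w then 1 else 0 := by
  rw [co_apply, tm, AddMonoidAlgebra.coeff_single, Finsupp.single_apply]

theorem sum_nn (π : Finset Box) (s w : Chr) :
    (∑ a ∈ π, ∑ b ∈ π, if Box.chr a - Box.chr b + s = w then (1 : ℤ) else 0) = nn π (w - s) := by
  unfold nn
  refine Finset.sum_congr rfl fun a _ => Finset.sum_congr rfl fun b _ => ?_
  refine if_congr ?_ rfl rfl
  rw [eq_sub_iff_add_eq]

theorem co_Vc (π : Finset Box) (w : Chr) :
    (Vc π).coeff w = (∑ b ∈ π, if Box.chr b = w then (1 : ℤ) else 0) -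
      (∑ b ∈ π, if -Box.chr b + (-1, -1, -1) = w then (1 : ℤ) else 0) +
      (nn π (w - (-1, -1, -1)) - nn π w +
        (nn π (w - (-1, 0, 0)) + nn π (w - (0, -1, 0)) + nn π (w - (0, 0, -1))) -
        (nn π (w - (0, -1, -1)) + nn π (w - (-1, 0, -1)) + nn π (w - (-1, -1, 0)))) := by
  rw [← co_apply, Vc_eq]
  simp only [map_add, map_sub, map_sum, co_tm]
  congr 1
  simp only [Finset.sum_add_distrib, Finset.sum_sub_distrib, sum_nn]
  rfl

end VKM

open VKM in
theorem specVK : SpecVK := by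
  intro π k hπ
  rw [co_Vc]
  rcases le_or_gt 0 k with hk | hk
  · obtain ⟨j, rfl⟩ := Int.eq_ofNat_of_zero_le hk
    have e0 : (((j : ℤ), (j : ℤ), (j : ℤ)) : Chr) - (-1, -1, -1) = Box.chr (j + 1, j + 1, j + 1) := by
      simp [Box.chr]
    have e1 : nn π ((j : ℤ), (j : ℤ), (j : ℤ)) = nn π (Box.chr (j, j, j)) := rfl
    have e2 : (((j : ℤ), (j : ℤ), (j : ℤ)) : Chr) - (-1, 0, 0) = Box.chr (j + 1, j, j) := by
      simp [Box.chr]
    have e3 : (((j : ℤ), (j : ℤ), (j : ℤ)) : Chr) - (0, -1, 0) = Box.chr (j, j + 1, j) := by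
      simp [Box.chr]
    have e4 : (((j : ℤ), (j : ℤ), (j : ℤ)) : Chr) - (0, 0, -1) = Box.chr (j, j, j + 1) := by
      simp [Box.chr]
    have e5 : (((j : ℤ), (j : ℤ), (j : ℤ)) : Chr) - (0, -1, -1) = Box.chr (j, j + 1, j + 1) := by
      simp [Box.chr]
    have e6 : (((j : ℤ), (j : ℤ), (j : ℤ)) : Chr) - (-1, 0, -1) = Box.chr (j + 1, j, j + 1) := by
      simp [Box.chr]
    have e7 : (((j : ℤ), (j : ℤ), (j : ℤ)) : Chr) - (-1, -1, 0) = Box.chr (j + 1, j + 1, j) := by
      simp [Box.chr]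
    rw [e0, e1, e2, e3, e4, e5, e6, e7]
    simp only [nn_nat π hπ]
    simp only [← Finset.sum_add_distrib, ← Finset.sum_sub_distrib]
    refine Finset.sum_eq_zero fun b _ => ?_
    obtain ⟨a, b, c⟩ := b
    simp only [Box.chr, Prod.mk.injEq, Prod.mk_le_mk, Prod.neg_mk, Prod.mk_add_mk]
    split_ifs <;> omega
  · obtain ⟨j, hj⟩ : ∃ j : ℕ, k = -(j : ℤ) - 1 := ⟨(-k - 1).toNat, by omega⟩
    subst hj
    have e0 : ((-(j : ℤ) - 1, -(j : ℤ) - 1, -(j : ℤ) - 1) : Chr) - (-1, -1, -1) =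
        -Box.chr (j, j, j) := by
      simp [Box.chr]
    have e1 : nn π (-(j : ℤ) - 1, -(j : ℤ) - 1, -(j : ℤ) - 1) =
        nn π (-Box.chr (j + 1, j + 1, j + 1)) := by
      congr 1
      simp [Box.chr]; ring
    have e2 : ((-(j : ℤ) - 1, -(j : ℤ) - 1, -(j : ℤ) - 1) : Chr) - (-1, 0, 0) =
        -Box.chr (j, j + 1, j + 1) := by
      simp [Box.chr]; ring
    have e3 : ((-(j : ℤ) - 1, -(j : ℤ) - 1, -(j : ℤ) - 1) : Chr) - (0, -1, 0) =
        -Box.chr (j + 1, j, j + 1) := by
      simp [Box.chr]; ring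
    have e4 : ((-(j : ℤ) - 1, -(j : ℤ) - 1, -(j : ℤ) - 1) : Chr) - (0, 0, -1) =
        -Box.chr (j + 1, j + 1, j) := by
      simp [Box.chr]; ring
    have e5 : ((-(j : ℤ) - 1, -(j : ℤ) - 1, -(j : ℤ) - 1) : Chr) - (0, -1, -1) =
        -Box.chr (j + 1, j, j) := by
      simp [Box.chr]; ring
    have e6 : ((-(j : ℤ) - 1, -(j : ℤ) - 1, -(j : ℤ) - 1) : Chr) - (-1, 0, -1) =
        -Box.chr (j, j + 1, j) := by
      simp [Box.chr]; ring
    have e7 : ((-(j : ℤ) - 1, -(j : ℤ) - 1, -(j : ℤ) - 1) : Chr) - (-1, -1, 0) =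
        -Box.chr (j, j, j + 1) := by
      simp [Box.chr]; ring
    rw [e0, e1, e2, e3, e4, e5, e6, e7]
    simp only [nn_neg]
    simp only [nn_nat π hπ]
    simp only [← Finset.sum_add_distrib, ← Finset.sum_sub_distrib]
    refine Finset.sum_eq_zero fun b _ => ?_
    obtain ⟨a, b, c⟩ := b
    simp only [Box.chr, Prod.mk.injEq, Prod.mk_le_mk, Prod.neg_mk, Prod.mk_add_mk]
    split_ifs <;> omega

end Pool.Agent.Lib.MPd9449f
end

section
/-!
# The vertex measure for Calabi-Yau weights is a sign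
-/
open Finset

namespace Pool.Agent.Lib.MPd9449f

namespace SGAM

variable {K : Type} [Field K]

/-- diagonal characters -/
def Dia (w : Chr) : Prop := ∃ k : ℤ, w = (k, k, k)

theorem lin_add (s : K × K × K) (v w : Chr) : lin s (v + w) = lin s v + lin s w := by
  simp only [lin, Prod.fst_add, Prod.snd_add, Int.cast_add]
  ring

theorem lin_neg (s : K × K × K) (w : Chr) : lin s (-w) = -lin s w := by
  simp only [lin, Prod.fst_neg, Prod.snd_neg, Int.cast_neg]
  ring

theorem lin_dia (s : K × K × K) (hs : s.1 + s.2.1 + s.2.2 = 0) (k : ℤ) : lin s (k, k, k) = 0 := by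
  simp only [lin]
  linear_combination (k : K) * hs

theorem lin_ne (s : K × K × K) (hs : s.1 + s.2.1 + s.2.2 = 0)
    (hg : ∀ a b : ℤ, (a : K) * s.1 + b * s.2.1 = 0 → a = 0 ∧ b = 0) (w : Chr) (hw : ¬Dia w) :
    lin s w ≠ 0 := by
  obtain ⟨w1, w2, w3⟩ := w
  intro h
  apply hw
  have := hg (w1 - w3) (w2 - w3) (by
    simp only [lin] at h
    push_cast
    linear_combination h - (w3 : K) * hs)
  refine ⟨w1, ?_⟩
  obtain ⟨h1, h2⟩ := this
  rw [show w2 = w1 by omega, show w3 = w1 by omega]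

open Classical in
/-- the nonzero weights as units -/
noncomputable def gU (s : K × K × K) (w : Chr) : Kˣ :=
  if h : lin s w = 0 then 1 else Units.mk0 (lin s w) h

/-- inverse Euler class with the zero weights replaced by `1` -/
noncomputable def EE (s : K × K × K) : Laur →+ Additive Kˣ :=
  (Finsupp.liftAddHom fun w : Chr => (zmultiplesHom (Additive Kˣ) (Additive.ofMul (gU s w)⁻¹))).comp
    AddMonoidAlgebra.coeffAddEquiv.toAddMonoidHom

theorem EE_tm (s : K × K × K) (w : Chr) : EE s (tm w) = Additive.ofMul (gU s w)⁻¹ := by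
  unfold EE tm
  rw [AddMonoidHom.comp_apply]
  change (Finsupp.liftAddHom fun w : Chr =>
    (zmultiplesHom (Additive Kˣ) (Additive.ofMul (gU s w)⁻¹))) (Finsupp.single w 1) = _
  rw [Finsupp.liftAddHom_apply_single]
  simp

theorem EE_val (s : K × K × K) (V : Laur) (h : ∀ w, lin s w = 0 → V.coeff w = 0) :
    V.coeff.prod (fun w m => lin s w ^ (-m)) = (((EE s V).toMul : Kˣ) : K) := by
  have e : EE s V = V.coeff.sum fun w m => m • Additive.ofMul (gU s w)⁻¹ := rfl
  rw [e, Finsupp.sum, Finsupp.prod, toMul_sum, Units.coe_prod]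
  refine Finset.prod_congr rfl fun w hw => ?_
  have hw0 : lin s w ≠ 0 := fun h0 => (Finsupp.mem_support_iff.1 hw) (h w h0)
  rw [toMul_zsmul, toMul_ofMul, Units.val_zpow_eq_zpow_val, gU, dif_neg hw0, zpow_neg]
  simp

/-- the additive form of `gU` -/
noncomputable def ga (s : K × K × K) (w : Chr) : Additive Kˣ := Additive.ofMul (gU s w)

theorem EE_tm' (s : K × K × K) (w : Chr) : EE s (tm w) = -ga s w := by
  rw [EE_tm]; rfl

theorem ga_congr (s : K × K × K) {v w : Chr} (h : lin s v = lin s w) : ga s v = ga s w := by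
  unfold ga gU
  congr 1
  by_cases h0 : lin s w = 0
  · rw [dif_pos h0, dif_pos (h.trans h0)]
  · rw [dif_neg h0, dif_neg (by rw [h]; exact h0)]
    ext
    exact h

open Classical in
/-- comparison of opposite weights -/
theorem ga_neg (s : K × K × K) (hs : s.1 + s.2.1 + s.2.2 = 0)
    (hg : ∀ a b : ℤ, (a : K) * s.1 + b * s.2.1 = 0 → a = 0 ∧ b = 0) (w : Chr) :
    ga s (-w) - ga s w = Additive.ofMul (-1) + if Dia w then Additive.ofMul (-1) else 0 := by
  by_cases hw : Dia w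
  · rw [if_pos hw, ← ofMul_mul]
    obtain ⟨k, rfl⟩ := hw
    have h0 := lin_dia s hs k
    have h1 : lin s (-(k, k, k)) = 0 := by rw [lin_neg, h0, neg_zero]
    rw [ga_congr s (h1.trans h0.symm)]
    simp
  · rw [if_neg hw, add_zero]
    have h0 := lin_ne s hs hg w hw
    have h1 : lin s (-w) ≠ 0 := by rw [lin_neg]; exact neg_ne_zero.2 h0
    unfold ga
    rw [← ofMul_div]
    congr 1
    ext
    rw [gU, gU, dif_neg h0, dif_neg h1]
    push_cast
    rw [Units.val_mk0, Units.val_mk0, lin_neg]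
    field_simp

end SGAM

open SGAM VKM in
theorem specSGA : SpecSGA := by
  classical
  intro K _ _ s π hs hg hπ
  have hVK := specVK π
  rw [vertex, EE_val s (Vc π) (by
    intro w hw
    by_contra h
    by_cases hd : Dia w
    · obtain ⟨k, rfl⟩ := hd
      exact h (specVK π k hπ)
    · exact lin_ne s hs hg w hd hw)]
  have key : EE s (Vc π) = u0 π • Additive.ofMul (-1 : Kˣ) := by
    have hl1 : lin s (-1, -1, -1) = 0 := lin_dia s hs (-1)
    have hl2 : lin s (0, -1, -1) = lin s (1, 0, 0) := by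
      simp only [lin]; push_cast; linear_combination -hs
    have hl3 : lin s (-1, 0, -1) = lin s (0, 1, 0) := by
      simp only [lin]; push_cast; linear_combination -hs
    have hl4 : lin s (-1, -1, 0) = lin s (0, 0, 1) := by
      simp only [lin]; push_cast; linear_combination -hs
    have g1 : ∀ w : Chr, ga s (w + (-1, -1, -1)) = ga s w := fun w =>
      ga_congr s (by rw [lin_add, hl1, add_zero])
    have g2 : ∀ w : Chr, ga s (w + (0, -1, -1)) = ga s (w + (1, 0, 0)) := fun w =>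
      ga_congr s (by rw [lin_add, lin_add, hl2])
    have g3 : ∀ w : Chr, ga s (w + (-1, 0, -1)) = ga s (w + (0, 1, 0)) := fun w =>
      ga_congr s (by rw [lin_add, lin_add, hl3])
    have g4 : ∀ w : Chr, ga s (w + (-1, -1, 0)) = ga s (w + (0, 0, 1)) := fun w =>
      ga_congr s (by rw [lin_add, lin_add, hl4])
    have sw : ∀ c : Chr, (∑ a ∈ π, ∑ b ∈ π, ga s (Box.chr a - Box.chr b + c)) =
        ∑ a ∈ π, ∑ b ∈ π, ga s (-(Box.chr a - Box.chr b + -c)) := by
      intro c
      rw [Finset.sum_comm]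
      refine Finset.sum_congr rfl fun a _ => Finset.sum_congr rfl fun b _ => ?_
      congr 1
      abel
    have fin1 : (∑ b ∈ π, ga s (-Box.chr b)) - ∑ b ∈ π, ga s (Box.chr b) =
        (π.card + (π.filter fun b : Box => b.1 = b.2.1 ∧ b.2.1 = b.2.2).card) •
          Additive.ofMul (-1 : Kˣ) := by
      rw [← Finset.sum_sub_distrib, Finset.sum_congr rfl fun b _ => ga_neg s hs hg (Box.chr b),
        Finset.sum_add_distrib, Finset.sum_const, ← Finset.sum_filter, Finset.sum_const, add_smul]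
      congr 3
      refine Finset.filter_congr fun b _ => ?_
      obtain ⟨b1, b2, b3⟩ := b
      simp only [Dia, Box.chr, Prod.mk.injEq]
      constructor
      · rintro ⟨k, h1, h2, h3⟩
        omega
      · rintro ⟨h1, h2⟩
        exact ⟨b1, rfl, by rw [h1], by rw [h1, h2]⟩
    have fin2 : ∀ c : Chr, (∑ a ∈ π, ∑ b ∈ π, ga s (-(Box.chr a - Box.chr b + c))) -
        (∑ a ∈ π, ∑ b ∈ π, ga s (Box.chr a - Box.chr b + c)) =
        (π.card * π.card + uz π c) • Additive.ofMul (-1 : Kˣ) := by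
      intro c
      rw [← Finset.sum_product', ← Finset.sum_product', ← Finset.sum_sub_distrib,
        Finset.sum_congr rfl fun b _ => ga_neg s hs hg _,
        Finset.sum_add_distrib, Finset.sum_const, ← Finset.sum_filter, Finset.sum_const, add_smul,
        Finset.card_product]
      rfl
    rw [Vc_eq]
    simp only [map_add, map_sub, map_sum, EE_tm', g1, g2, g3, g4, Finset.sum_add_distrib,
      Finset.sum_sub_distrib, Finset.sum_neg_distrib]
    rw [sw (1, 0, 0), sw (0, 1, 0), sw (0, 0, 1)]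
    have q1 := fin2 (-1, 0, 0)
    have q2 := fin2 (0, -1, 0)
    have q3 := fin2 (0, 0, -1)
    have r1 : (-(1, 0, 0) : Chr) = (-1, 0, 0) := rfl
    have r2 : (-(0, 1, 0) : Chr) = (0, -1, 0) := rfl
    have r3 : (-(0, 0, 1) : Chr) = (0, 0, -1) := rfl
    rw [r1, r2, r3]
    have two : ∀ n : ℕ, (2 * n) • Additive.ofMul (-1 : Kˣ) = 0 := by
      intro n
      rw [mul_comm, mul_smul, two_smul, ← ofMul_mul]
      simp
    have hev : ∃ N, π.card + 3 * (π.card * π.card) = 2 * N := by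
      have : Even (π.card + 3 * (π.card * π.card)) := by
        rcases Nat.even_or_odd π.card with h | h
        · exact h.add ((h.mul_right _).mul_left _)
        · exact h.add_odd (by
            refine Odd.mul ?_ (h.mul h)
            decide)
      obtain ⟨N, hN⟩ := this
      exact ⟨N, by omega⟩
    obtain ⟨N, hN⟩ := hev
    have tot : u0 π • Additive.ofMul (-1 : Kˣ) =
        (π.card + (π.filter fun b : Box => b.1 = b.2.1 ∧ b.2.1 = b.2.2).card) •
          Additive.ofMul (-1 : Kˣ) +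
        ((π.card * π.card + uz π (-1, 0, 0)) • Additive.ofMul (-1 : Kˣ) +
          (π.card * π.card + uz π (0, -1, 0)) • Additive.ofMul (-1 : Kˣ) +
          (π.card * π.card + uz π (0, 0, -1)) • Additive.ofMul (-1 : Kˣ)) := by
      rw [← add_smul, ← add_smul, ← add_smul]
      have e : π.card + (π.filter fun b : Box => b.1 = b.2.1 ∧ b.2.1 = b.2.2).card +
        (π.card * π.card + uz π (-1, 0, 0) + (π.card * π.card + uz π (0, -1, 0)) +
          (π.card * π.card + uz π (0, 0, -1))) = 2 * N + u0 π := by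
        rw [← hN, u0]; ring
      rw [e, add_smul, two, zero_add]
    rw [tot, ← fin1, ← q1, ← q2, ← q3]
    abel
  rw [key]
  simp

end Pool.Agent.Lib.MPd9449f
end

section
/-!
# The parity of the number of diagonal characters
-/
open Finset

namespace Pool.Agent.Lib.MPd9449f

namespace SGBM

/-- number of boxes on a diagonal ray -/
theorem diag (π : Finset Box) (v : Chr) (k0 : ℤ)
    (h : ∀ (b : Box) (k : ℤ), Box.chr b = v - (k, k, k) → (b ∈ π ↔ k0 ≤ k))
    [DecidablePred fun b : Box => ∃ k : ℤ, Box.chr b = v - (k, k, k)] :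
    (π.filter fun b : Box => ∃ k : ℤ, Box.chr b = v - (k, k, k)).card =
      (min v.1 (min v.2.1 v.2.2) + 1 - k0).toNat := by
  rw [← Int.card_Icc]
  symm
  obtain ⟨v1, v2, v3⟩ := v
  apply Finset.card_bij (fun (k : ℤ) _ => (((v1 - k).toNat, (v2 - k).toNat, (v3 - k).toNat) : Box))
  · intro k hk
    rw [Finset.mem_Icc] at hk
    simp only at hk
    have e : Box.chr ((v1 - k).toNat, (v2 - k).toNat, (v3 - k).toNat) = (v1, v2, v3) - (k, k, k) := by
      simp only [Box.chr, Prod.mk_sub_mk, Prod.mk.injEq]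
      refine ⟨?_, ?_, ?_⟩ <;> omega
    rw [Finset.mem_filter]
    exact ⟨(h _ _ e).2 hk.1, k, e⟩
  · intro k hk k' hk' e
    rw [Finset.mem_Icc] at hk hk'
    simp only [Prod.mk.injEq] at hk hk' e
    omega
  · intro b hb
    rw [Finset.mem_filter] at hb
    obtain ⟨hb, k, e⟩ := hb
    refine ⟨k, ?_, ?_⟩
    · have := (h _ _ e).1 hb
      obtain ⟨b1, b2, b3⟩ := b
      simp only [Box.chr, Prod.mk_sub_mk, Prod.mk.injEq] at e
      rw [Finset.mem_Icc]
      simp only
      omega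
    · obtain ⟨b1, b2, b3⟩ := b
      simp only [Box.chr, Prod.mk_sub_mk, Prod.mk.injEq] at e
      simp only [Prod.mk.injEq]
      omega

/-- the number of pairs changes as follows if a box is added -/
theorem uz_insert (π : Finset Box) (m : Box) (hm : m ∉ π) (c : Chr)
    (hc : ¬ ∃ k : ℤ, c = (k, k, k)) :
    open Classical in
    uz (insert m π) c = uz π c +
      ((insert m π).filter fun b : Box => ∃ k : ℤ, Box.chr b = Box.chr m + c - (k, k, k)).card +
      ((insert m π).filter fun b : Box => ∃ k : ℤ, Box.chr b = Box.chr m - c - (k, k, k)).card := by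
  classical
  have key : ∀ S : Finset Box, uz S c = ∑ a ∈ S, ∑ b ∈ S,
      if ∃ k : ℤ, Box.chr a - Box.chr b + c = (k, k, k) then 1 else 0 := by
    intro S
    unfold uz
    rw [← Finset.sum_product', Finset.card_filter]
  rw [key, key, Finset.card_filter, Finset.card_filter, Finset.sum_insert hm, Finset.sum_insert hm]
  have h0 : ¬ ∃ k : ℤ, Box.chr m - Box.chr m + c = (k, k, k) := by
    rintro ⟨k, hk⟩
    exact hc ⟨k, by rw [← hk]; simp⟩
  have h1 : ∀ a : Box, (∃ k : ℤ, Box.chr m - Box.chr a + c = (k, k, k)) ↔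
      ∃ k : ℤ, Box.chr a = Box.chr m + c - (k, k, k) := by
    intro a
    refine exists_congr fun k => ?_
    constructor <;> intro h
    · rw [← h]; abel
    · rw [h]; abel
  have h2 : ∀ a : Box, (∃ k : ℤ, Box.chr a - Box.chr m + c = (k, k, k)) ↔
      ∃ k : ℤ, Box.chr a = Box.chr m - c - (k, k, k) := by
    intro a
    constructor
    · rintro ⟨k, h⟩
      refine ⟨-k, ?_⟩
      have : ((-k, -k, -k) : Chr) = -(k, k, k) := rfl
      rw [this, ← h]; abel
    · rintro ⟨k, h⟩
      refine ⟨-k, ?_⟩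
      have : ((-k, -k, -k) : Chr) = -(k, k, k) := rfl
      rw [this, h]; abel
  have h1m := (h1 m).not.1 h0
  have h2m := (h2 m).not.1 h0
  rw [Finset.sum_insert hm, Finset.sum_insert hm]
  simp only [if_neg h0, if_neg h1m, if_neg h2m, zero_add]
  have e : ∀ a ∈ π, (∑ b ∈ insert m π,
        if ∃ k : ℤ, Box.chr a - Box.chr b + c = (k, k, k) then 1 else 0) =
      (if ∃ k : ℤ, Box.chr a = Box.chr m - c - (k, k, k) then 1 else 0) +
        ∑ b ∈ π, if ∃ k : ℤ, Box.chr a - Box.chr b + c = (k, k, k) then 1 else 0 := by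
    intro a _
    rw [Finset.sum_insert hm]
    congr 1
    exact if_congr (h2 a) rfl rfl
  rw [Finset.sum_congr rfl e, Finset.sum_add_distrib]
  have e' : (∑ b ∈ π, if ∃ k : ℤ, Box.chr m - Box.chr b + c = (k, k, k) then 1 else 0) =
      ∑ b ∈ π, if ∃ k : ℤ, Box.chr b = Box.chr m + c - (k, k, k) then 1 else 0 :=
    Finset.sum_congr rfl fun b _ => if_congr (h1 b) rfl rfl
  rw [e']
  ring

theorem mem_lower {S : Finset Box} (hS : IsLowerSet (S : Set Box)) {m b : Box} (hm : m ∈ S)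
    (h : b.1 ≤ m.1 ∧ b.2.1 ≤ m.2.1 ∧ b.2.2 ≤ m.2.2) : b ∈ S :=
  hS (show b ≤ m from h) hm

/-- parity of the increment -/
theorem step (π : Finset Box) (m : Box) (hm : m ∉ π)
    (hS : IsLowerSet ((insert m π : Finset Box) : Set Box))
    (hmax : ∀ b ∈ insert m π, m.1 ≤ b.1 → m.2.1 ≤ b.2.1 → m.2.2 ≤ b.2.2 → b = m) :
    (u0 (insert m π)) % 2 = (u0 π + 1) % 2 := by
  classical
  obtain ⟨i, j, l⟩ := m
  set m : Box := (i, j, l) with hmdef
  have hmS : m ∈ insert m π := Finset.mem_insert_self _ _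
  have c1 : uz (insert m π) (-1, 0, 0) = uz π (-1, 0, 0) +
      (min ((i : ℤ) - 1) (min (j : ℤ) l) + 1).toNat + (min ((i : ℤ) + 1) (min (j : ℤ) l)).toNat := by
    rw [uz_insert π m hm (-1, 0, 0) (by
      rintro ⟨k, hk⟩
      simp only [Prod.mk.injEq] at hk
      omega), diag _ (Box.chr m + (-1, 0, 0)) 0, diag _ (Box.chr m - (-1, 0, 0)) 1]
    · simp only [hmdef, Box.chr, Prod.mk_add_mk, Prod.mk_sub_mk]
      congr 2 <;> congr 1 <;> omega
    · intro b k hb
      obtain ⟨b1, b2, b3⟩ := b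
      simp only [hmdef, Box.chr, Prod.mk_sub_mk, Prod.mk.injEq] at hb
      constructor
      · intro hbS
        by_contra hk
        have := hmax _ hbS (by simp [hmdef]; omega) (by simp [hmdef]; omega) (by simp [hmdef]; omega)
        simp only [hmdef, Prod.mk.injEq] at this
        omega
      · intro hk
        refine mem_lower hS hmS ⟨?_, ?_, ?_⟩ <;> simp [hmdef] <;> omega
    · intro b k hb
      obtain ⟨b1, b2, b3⟩ := b
      simp only [hmdef, Box.chr, Prod.mk_add_mk, Prod.mk_sub_mk, Prod.mk.injEq] at hb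
      constructor
      · intro hbS
        by_contra hk
        have := hmax _ hbS (by simp [hmdef]; omega) (by simp [hmdef]; omega) (by simp [hmdef]; omega)
        simp only [hmdef, Prod.mk.injEq] at this
        omega
      · intro hk
        refine mem_lower hS hmS ⟨?_, ?_, ?_⟩ <;> simp [hmdef] <;> omega
  have c2 : uz (insert m π) (0, -1, 0) = uz π (0, -1, 0) +
      (min (i : ℤ) (min ((j : ℤ) - 1) l) + 1).toNat + (min (i : ℤ) (min ((j : ℤ) + 1) l)).toNat := by
    rw [uz_insert π m hm (0, -1, 0) (by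
      rintro ⟨k, hk⟩
      simp only [Prod.mk.injEq] at hk
      omega), diag _ (Box.chr m + (0, -1, 0)) 0, diag _ (Box.chr m - (0, -1, 0)) 1]
    · simp only [hmdef, Box.chr, Prod.mk_add_mk, Prod.mk_sub_mk]
      congr 2 <;> congr 1 <;> omega
    · intro b k hb
      obtain ⟨b1, b2, b3⟩ := b
      simp only [hmdef, Box.chr, Prod.mk_sub_mk, Prod.mk.injEq] at hb
      constructor
      · intro hbS
        by_contra hk
        have := hmax _ hbS (by simp [hmdef]; omega) (by simp [hmdef]; omega) (by simp [hmdef]; omega)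
        simp only [hmdef, Prod.mk.injEq] at this
        omega
      · intro hk
        refine mem_lower hS hmS ⟨?_, ?_, ?_⟩ <;> simp [hmdef] <;> omega
    · intro b k hb
      obtain ⟨b1, b2, b3⟩ := b
      simp only [hmdef, Box.chr, Prod.mk_add_mk, Prod.mk_sub_mk, Prod.mk.injEq] at hb
      constructor
      · intro hbS
        by_contra hk
        have := hmax _ hbS (by simp [hmdef]; omega) (by simp [hmdef]; omega) (by simp [hmdef]; omega)
        simp only [hmdef, Prod.mk.injEq] at this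
        omega
      · intro hk
        refine mem_lower hS hmS ⟨?_, ?_, ?_⟩ <;> simp [hmdef] <;> omega
  have c3 : uz (insert m π) (0, 0, -1) = uz π (0, 0, -1) +
      (min (i : ℤ) (min (j : ℤ) ((l : ℤ) - 1)) + 1).toNat +
        (min (i : ℤ) (min (j : ℤ) ((l : ℤ) + 1))).toNat := by
    rw [uz_insert π m hm (0, 0, -1) (by
      rintro ⟨k, hk⟩
      simp only [Prod.mk.injEq] at hk
      omega), diag _ (Box.chr m + (0, 0, -1)) 0, diag _ (Box.chr m - (0, 0, -1)) 1]
    · simp only [hmdef, Box.chr, Prod.mk_add_mk, Prod.mk_sub_mk]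
      congr 2 <;> congr 1 <;> omega
    · intro b k hb
      obtain ⟨b1, b2, b3⟩ := b
      simp only [hmdef, Box.chr, Prod.mk_sub_mk, Prod.mk.injEq] at hb
      constructor
      · intro hbS
        by_contra hk
        have := hmax _ hbS (by simp [hmdef]; omega) (by simp [hmdef]; omega) (by simp [hmdef]; omega)
        simp only [hmdef, Prod.mk.injEq] at this
        omega
      · intro hk
        refine mem_lower hS hmS ⟨?_, ?_, ?_⟩ <;> simp [hmdef] <;> omega
    · intro b k hb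
      obtain ⟨b1, b2, b3⟩ := b
      simp only [hmdef, Box.chr, Prod.mk_add_mk, Prod.mk_sub_mk, Prod.mk.injEq] at hb
      constructor
      · intro hbS
        by_contra hk
        have := hmax _ hbS (by simp [hmdef]; omega) (by simp [hmdef]; omega) (by simp [hmdef]; omega)
        simp only [hmdef, Prod.mk.injEq] at this
        omega
      · intro hk
        refine mem_lower hS hmS ⟨?_, ?_, ?_⟩ <;> simp [hmdef] <;> omega
  have c0 : ((insert m π).filter fun b : Box => b.1 = b.2.1 ∧ b.2.1 = b.2.2).card =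
      (π.filter fun b : Box => b.1 = b.2.1 ∧ b.2.1 = b.2.2).card +
        if i = j ∧ j = l then 1 else 0 := by
    rw [Finset.card_filter, Finset.card_filter, Finset.sum_insert hm, add_comm]
  unfold u0
  rw [c0, c1, c2, c3]
  split_ifs <;> omega

end SGBM

open SGBM in
theorem specSGB : SpecSGB := by
  suffices H : ∀ (n : ℕ) (π : Finset Box), π.card = n → IsLowerSet (π : Set Box) →
      u0 π % 2 = π.card % 2 from fun π hπ => H _ π rfl hπ
  intro n
  induction n with
  | zero =>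
    intro π hn hπ
    rw [Finset.card_eq_zero] at hn
    subst hn
    simp [u0, uz]
  | succ n ih =>
    intro π hn hπ
    have hne : π.Nonempty := by
      rw [← Finset.card_pos]; omega
    obtain ⟨m, hmax⟩ := π.exists_maximal hne
    have hm : m ∈ π := hmax.1
    have hmx : ∀ b ∈ π, m.1 ≤ b.1 → m.2.1 ≤ b.2.1 → m.2.2 ≤ b.2.2 → b = m := by
      intro b hb h1 h2 h3
      have hle : m ≤ b := ⟨h1, h2, h3⟩
      exact le_antisymm (hmax.2 hb hle) hle
    have hins : insert m (π.erase m) = π := Finset.insert_erase hm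
    have hlow : IsLowerSet ((π.erase m : Finset Box) : Set Box) := by
      intro a b hba ha
      rw [Finset.mem_coe, Finset.mem_erase] at ha ⊢
      refine ⟨?_, hπ hba ha.2⟩
      rintro rfl
      exact ha.1 (hmx a ha.2 hba.1 hba.2.1 hba.2.2)
    have hc : (π.erase m).card = n := by
      rw [Finset.card_erase_of_mem hm, hn]; rfl
    have h1 := ih (π.erase m) hc hlow
    have h2 := step (π.erase m) m (Finset.notMem_erase _ _) (by rw [hins]; exact hπ)
      (by rw [hins]; exact hmx)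
    rw [hins] at h2
    rw [h2, hn]
    omega

end Pool.Agent.Lib.MPd9449f
end

section
/-!
# SYM: cyclic symmetry of plane partitions
-/
open PowerSeries Finset

namespace Pool.Agent.Lib.MPd9449f.SYMM

/-- cyclic rotation of the coordinates -/
def rot : Box ≃ Box where
  toFun b := (b.2.1, b.2.2, b.1)
  invFun b := (b.2.2, b.1, b.2.1)
  left_inv _ := rfl
  right_inv _ := rfl

lemma rot_le {a b : Box} : rot a ≤ rot b ↔ a ≤ b := by
  obtain ⟨a1, a2, a3⟩ := a
  obtain ⟨b1, b2, b3⟩ := b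
  simp only [rot, Equiv.coe_fn_mk, Prod.mk_le_mk]
  tauto

lemma map_rot_mem {n : ℕ} {π : Finset Box} (h : π ∈ PP n) : π.map rot.toEmbedding ∈ PP n := by
  obtain ⟨h1, h2⟩ := h
  refine ⟨?_, by rw [card_map]; exact h2⟩
  intro a b hba ha
  rw [mem_coe, mem_map_equiv] at ha ⊢
  refine h1 ?_ ha
  rw [← rot_le, Equiv.apply_symm_apply, Equiv.apply_symm_apply]
  exact hba

lemma map_rot_three (π : Finset Box) :
    ((π.map rot.toEmbedding).map rot.toEmbedding).map rot.toEmbedding = π := by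
  rw [map_map, map_map]
  ext b
  rw [mem_map]
  constructor
  · rintro ⟨a, ha, rfl⟩
    exact ha
  · intro hb
    exact ⟨b, hb, rfl⟩

lemma bij (n : ℕ) : Set.BijOn (fun π : Finset Box => π.map rot.toEmbedding) (PP n) (PP n) := by
  refine ⟨fun π h => map_rot_mem h, ?_, ?_⟩
  · intro a _ b _ hab
    exact map_injective _ hab
  · intro π h
    exact ⟨(π.map rot.toEmbedding).map rot.toEmbedding, map_rot_mem (map_rot_mem h),
      map_rot_three π⟩

lemma inv {n : ℕ} (g : Finset Box → ℤ) :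
    ∑ᶠ π ∈ PP n, g (π.map rot.toEmbedding) = ∑ᶠ π ∈ PP n, g π :=
  finsum_mem_eq_of_bijOn _ (bij n) fun _ _ => rfl

/-- averaging over the cyclic group -/
lemma avg3 (hF : SpecFIN0) {n : ℕ} (f h : Box → ℤ)
    (hfh : ∀ b, f b + f (rot b) + f (rot (rot b)) = h b + h (rot b) + h (rot (rot b))) :
    ∑ᶠ π ∈ PP n, ∑ b ∈ π, f b = ∑ᶠ π ∈ PP n, ∑ b ∈ π, h b := by
  have key : ∀ f : Box → ℤ, 3 * ∑ᶠ π ∈ PP n, ∑ b ∈ π, f b =
      ∑ᶠ π ∈ PP n, ∑ b ∈ π, (f b + f (rot b) + f (rot (rot b))) := by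
    intro f
    have e1 := inv (n := n) (fun π => ∑ b ∈ π, f b)
    have e2 := inv (n := n) (fun π => ∑ b ∈ π.map rot.toEmbedding, f b)
    rw [e1] at e2
    simp only [sum_map, Equiv.coe_toEmbedding] at e1 e2
    simp_rw [sum_add_distrib]
    rw [finsum_mem_add_distrib (hF n), finsum_mem_add_distrib (hF n), e1, e2]
    ring
  have h3 : 3 * ∑ᶠ π ∈ PP n, ∑ b ∈ π, f b = 3 * ∑ᶠ π ∈ PP n, ∑ b ∈ π, h b := by
    rw [key f, key h]
    simp_rw [hfh]
  linarith

lemma mul_finsum' (hF : SpecFIN0) {n : ℕ} (c : ℤ) (g : Finset Box → ℤ) :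
    ∑ᶠ π ∈ PP n, c * g π = c * ∑ᶠ π ∈ PP n, g π := by
  rw [mul_finsum_mem' (hF n)]
where
  mul_finsum_mem' {s : Set (Finset Box)} (hs : s.Finite) {c : ℤ} {g : Finset Box → ℤ} :
      ∑ᶠ π ∈ s, c * g π = c * ∑ᶠ π ∈ s, g π := by
    rw [finsum_mem_eq_finite_toFinset_sum _ hs, finsum_mem_eq_finite_toFinset_sum _ hs, mul_sum]

end Pool.Agent.Lib.MPd9449f.SYMM

namespace Pool.Agent.Lib.MPd9449f

open SYMM

theorem specSYM (hF : SpecFIN0) : SpecSYM := by
  constructor
  · ext n
    have h3 : (3 : PowerSeries ℤ) = C (3 : ℤ) := by simp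
    rw [h3, coeff_C_mul]
    simp only [gs, coeff_mk]
    rw [← mul_finsum' hF]
    simp only [pa, qa, mul_sum]
    refine avg3 hF (fun b => (-2 * (b.1 : ℤ) + b.2.1 + b.2.2) ^ 2)
      (fun b => 3 * ((b.2.1 : ℤ) - b.2.2) ^ 2) ?_
    rintro ⟨i, j, k⟩
    simp only [rot, Equiv.coe_fn_mk]
    ring
  · ext n
    have h3 : (9 : PowerSeries ℤ) = C (9 : ℤ) := by simp
    rw [h3, coeff_C_mul]
    simp only [gs, coeff_mk]
    rw [← mul_finsum' hF]
    simp only [pa, qa, mul_sum]
    refine avg3 hF (fun b => (-2 * (b.1 : ℤ) + b.2.1 + b.2.2) ^ 4)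
      (fun b => 9 * ((b.2.1 : ℤ) - b.2.2) ^ 4) ?_
    rintro ⟨i, j, k⟩
    simp only [rot, Equiv.coe_fn_mk]
    ring

end Pool.Agent.Lib.MPd9449f
end

section
/-!
# Transfer of `InKoqZ` along a specialization (used by TT and TQ)

A specialization is a `ℚ`-subalgebra `G` of `K × K'` which is the graph of a function from the first
factor to the second one.
-/
open PowerSeries Finset

namespace Pool.Agent.Lib.MPd9449f

namespace TRM

variable {K K' : Type} [Field K] [CharZero K] [Field K'] [CharZero K']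

/-- coefficientwise transfer -/
theorem transfer (G : Subalgebra ℚ (K × K')) (hG : ∀ g ∈ G, g.1 = 0 → g.2 = 0)
    (F : PowerSeries K) (F' : PowerSeries K') (hF : ∀ n, ((coeff n F, coeff n F') : K × K') ∈ G)
    (h : InKoqZ F) : InKoqZ F' := by
  set p1 : G →ₗ[ℚ] K := (LinearMap.fst ℚ K K').comp G.val.toLinearMap with hp1
  have hker : LinearMap.ker p1 = ⊥ := by
    rw [LinearMap.ker_eq_bot']
    intro g hg
    have h1 : (g : K × K').1 = 0 := hg
    have h2 := hG g g.2 h1
    apply Subtype.ext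
    exact Prod.ext h1 h2
  obtain ⟨r, hr⟩ := LinearMap.exists_leftInverse_of_injective p1 hker
  set l : K →ₗ[ℚ] K' := (LinearMap.snd ℚ K K').comp (G.val.toLinearMap.comp r) with hl
  have hlG : ∀ x y, (x, y) ∈ G → l x = y := by
    intro x y hxy
    have h1 : p1 ⟨(x, y), hxy⟩ = x := rfl
    have h2 : r x = ⟨(x, y), hxy⟩ := by
      conv_lhs => rw [← h1]
      exact LinearMap.congr_fun hr _
    show ((r x : G) : K × K').2 = y
    rw [h2]
  have key : ∀ H ∈ Submodule.span K ((PowerSeries.map (algebraMap ℚ K)) '' (oqZ : Set (PowerSeries ℚ))),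
      ∀ a : K, PowerSeries.mk (fun n => l (a * coeff n H)) ∈
        Submodule.span K' ((PowerSeries.map (algebraMap ℚ K')) '' (oqZ : Set (PowerSeries ℚ))) := by
    intro H hH
    induction hH using Submodule.span_induction with
    | mem H hH =>
      intro a
      obtain ⟨H0, hH0, rfl⟩ := hH
      have e : PowerSeries.mk (fun n => l (a * coeff n (PowerSeries.map (algebraMap ℚ K) H0))) =
          l a • PowerSeries.map (algebraMap ℚ K') H0 := by
        ext n
        rw [coeff_mk, PowerSeries.coeff_smul, coeff_map, coeff_map, mul_comm a, ← Algebra.smul_def,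
          map_smul, Algebra.smul_def, smul_eq_mul, mul_comm]
      rw [e]
      exact Submodule.smul_mem _ _ (Submodule.subset_span ⟨H0, hH0, rfl⟩)
    | zero =>
      intro a
      have e : PowerSeries.mk (fun n => l (a * coeff n (0 : PowerSeries K))) = 0 := by
        ext n
        rw [coeff_mk, map_zero, mul_zero, map_zero, map_zero]
      rw [e]
      exact Submodule.zero_mem _
    | add H1 H2 _ _ ih1 ih2 =>
      intro a
      have e : PowerSeries.mk (fun n => l (a * coeff n (H1 + H2))) =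
          PowerSeries.mk (fun n => l (a * coeff n H1)) + PowerSeries.mk (fun n => l (a * coeff n H2)) := by
        ext n
        rw [coeff_mk, map_add, mul_add, map_add, map_add, coeff_mk, coeff_mk]
      rw [e]
      exact Submodule.add_mem _ (ih1 a) (ih2 a)
    | smul b H _ ih =>
      intro a
      have e : PowerSeries.mk (fun n => l (a * coeff n (b • H))) =
          PowerSeries.mk (fun n => l (a * b * coeff n H)) := by
        ext n
        rw [coeff_mk, coeff_mk, PowerSeries.coeff_smul, smul_eq_mul, mul_assoc]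
      rw [e]
      exact ih _
  have h1 := key F h 1
  have e : PowerSeries.mk (fun n => l (1 * coeff n F)) = F' := by
    ext n
    rw [coeff_mk, one_mul]
    exact hlG _ _ (hF n)
  rw [e] at h1
  exact h1

theorem inKoqZ_rat {F : PowerSeries ℚ} (h : InKoqZ F) : F ∈ oqZ := by
  have h1 : Submodule.span ℚ ((PowerSeries.map (algebraMap ℚ ℚ)) '' (oqZ : Set (PowerSeries ℚ))) ≤
      Subalgebra.toSubmodule oqZ := by
    rw [Submodule.span_le]
    rintro _ ⟨H, hH, rfl⟩
    have e : PowerSeries.map (algebraMap ℚ ℚ) H = H := by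
      ext n
      rw [coeff_map]
      simp
    rw [e]
    exact hH
  exact h1 h

/-- series over a subalgebra of a product -/
theorem pair_mul {G : Subalgebra ℚ (K × K')} {F H : PowerSeries K} {F' H' : PowerSeries K'}
    (hF : ∀ n, ((coeff n F, coeff n F') : K × K') ∈ G)
    (hH : ∀ n, ((coeff n H, coeff n H') : K × K') ∈ G) (n : ℕ) :
    ((coeff n (F * H), coeff n (F' * H')) : K × K') ∈ G := by
  have e : ((coeff n (F * H), coeff n (F' * H')) : K × K') =
      ∑ p ∈ antidiagonal n, ((coeff p.1 F, coeff p.1 F') : K × K') * (coeff p.2 H, coeff p.2 H') := by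
    rw [PowerSeries.coeff_mul, PowerSeries.coeff_mul]
    refine Prod.ext ?_ ?_
    · rw [Prod.fst_sum]; rfl
    · rw [Prod.snd_sum]; rfl
  rw [e]
  exact Subalgebra.sum_mem _ fun p _ => Subalgebra.mul_mem _ (hF _) (hH _)

theorem pair_inv {G : Subalgebra ℚ (K × K')} {F : PowerSeries K} {F' : PowerSeries K'}
    (hF : ∀ n, ((coeff n F, coeff n F') : K × K') ∈ G)
    (h1 : constantCoeff F = 1) (h1' : constantCoeff F' = 1) (n : ℕ) :
    ((coeff n F⁻¹, coeff n F'⁻¹) : K × K') ∈ G := by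
  set FG : PowerSeries G := PowerSeries.mk fun n => ⟨_, hF n⟩ with hFG
  set IG : PowerSeries G := invOfUnit FG 1 with hIG
  have hc : constantCoeff FG = ((1 : Gˣ) : G) := by
    apply Subtype.ext
    rw [← coeff_zero_eq_constantCoeff_apply, hFG, coeff_mk]
    refine Prod.ext ?_ ?_
    · show coeff 0 F = 1
      rw [coeff_zero_eq_constantCoeff_apply, h1]
    · show coeff 0 F' = 1
      rw [coeff_zero_eq_constantCoeff_apply, h1']
  have hmul : FG * IG = 1 := mul_invOfUnit FG 1 hc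
  set f1 : G →+* K := (RingHom.fst K K').comp G.val.toRingHom with hf1
  set f2 : G →+* K' := (RingHom.snd K K').comp G.val.toRingHom with hf2
  have e1 : PowerSeries.map f1 FG = F := by
    ext n
    rw [coeff_map, hFG, coeff_mk]
    rfl
  have e2 : PowerSeries.map f2 FG = F' := by
    ext n
    rw [coeff_map, hFG, coeff_mk]
    rfl
  have g1 : F⁻¹ = PowerSeries.map f1 IG := by
    rw [PowerSeries.inv_eq_iff_mul_eq_one (by rw [h1]; exact one_ne_zero)]
    have := congrArg (PowerSeries.map f1) hmul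
    rw [map_mul, map_one, e1, mul_comm] at this
    exact this
  have g2 : F'⁻¹ = PowerSeries.map f2 IG := by
    rw [PowerSeries.inv_eq_iff_mul_eq_one (by rw [h1']; exact one_ne_zero)]
    have := congrArg (PowerSeries.map f2) hmul
    rw [map_mul, map_one, e2, mul_comm] at this
    exact this
  rw [g1, g2, coeff_map, coeff_map]
  exact (coeff n IG).2

/-- generating series with a general measure -/
noncomputable def ser (μ : Finset Box → K) (s : K × K × K) (f : MvPolynomial ℕ ℚ) : PowerSeries K :=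
  PowerSeries.mk fun n => ∑ᶠ π ∈ PP n, μ π * MvPolynomial.aeval (ch s π) f

theorem coeff_ser (μ : Finset Box → K) (s : K × K × K) (f : MvPolynomial ℕ ℚ) (n : ℕ) :
    coeff n (ser μ s f) =
      ∑ π ∈ (specFIN0 n).toFinset, μ π * MvPolynomial.aeval (ch s π) f := by
  rw [ser, coeff_mk, finsum_mem_eq_finite_toFinset_sum _ (specFIN0 n)]

theorem bracket_eq (s : K × K × K) (f : MvPolynomial ℕ ℚ) :
    bracket s f = ser (fun π => (-1) ^ π.card * vertex s π) s f := by
  ext n
  rw [coeff_ser, bracket, coeff_mk, finsum_mem_eq_finite_toFinset_sum _ (specFIN0 n), mul_sum]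
  refine sum_congr rfl fun π hπ => ?_
  rw [(Set.Finite.mem_toFinset _).1 hπ |>.2, mul_assoc]

theorem toFinset_zero : (specFIN0 0).toFinset = {∅} := by
  ext π
  rw [Set.Finite.mem_toFinset, mem_singleton]
  constructor
  · rintro ⟨_, h⟩
    exact card_eq_zero.1 h
  · rintro rfl
    refine ⟨?_, rfl⟩
    rw [coe_empty]
    exact isLowerSet_empty

theorem const_ser (μ : Finset Box → K) (s : K × K × K) (h : μ ∅ = 1) :
    constantCoeff (ser μ s 1) = 1 := by
  rw [← coeff_zero_eq_constantCoeff_apply, coeff_ser, toFinset_zero, sum_singleton, h, map_one,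
    one_mul]

theorem lin_mem {G : Subalgebra ℚ (K × K')} {s : K × K × K} {s' : K' × K' × K'}
    (h1 : (s.1, s'.1) ∈ G) (h2 : (s.2.1, s'.2.1) ∈ G) (h3 : (s.2.2, s'.2.2) ∈ G) (w : Chr) :
    (lin s w, lin s' w) ∈ G := by
  have e : ((lin s w, lin s' w) : K × K') =
      ((w.1 : ℤ) : K × K') * (s.1, s'.1) + ((w.2.1 : ℤ) : K × K') * (s.2.1, s'.2.1) +
        ((w.2.2 : ℤ) : K × K') * (s.2.2, s'.2.2) := by
    refine Prod.ext ?_ ?_
    · simp [lin]
    · simp [lin]
  rw [e]
  exact Subalgebra.add_mem _ (Subalgebra.add_mem _ (Subalgebra.mul_mem _ (intCast_mem _ _) h1)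
    (Subalgebra.mul_mem _ (intCast_mem _ _) h2)) (Subalgebra.mul_mem _ (intCast_mem _ _) h3)

theorem ch_mem {G : Subalgebra ℚ (K × K')} {s : K × K × K} {s' : K' × K' × K'}
    (h1 : (s.1, s'.1) ∈ G) (h2 : (s.2.1, s'.2.1) ∈ G) (h3 : (s.2.2, s'.2.2) ∈ G)
    (π : Finset Box) (k : ℕ) : (ch s π k, ch s' π k) ∈ G := by
  have e : ((ch s π k, ch s' π k) : K × K') =
      ∑ b ∈ π, ((k.factorial : ℚ)⁻¹) • ((lin s (Box.chr b), lin s' (Box.chr b)) : K × K') ^ k := by
    refine Prod.ext ?_ ?_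
    · rw [Prod.fst_sum]
      refine sum_congr rfl fun b _ => ?_
      show lin s (Box.chr b) ^ k / (k.factorial : K) = ((k.factorial : ℚ)⁻¹) • (lin s (Box.chr b)) ^ k
      rw [Algebra.smul_def, map_inv₀, map_natCast, div_eq_mul_inv, mul_comm]
    · rw [Prod.snd_sum]
      refine sum_congr rfl fun b _ => ?_
      show lin s' (Box.chr b) ^ k / (k.factorial : K') = ((k.factorial : ℚ)⁻¹) • (lin s' (Box.chr b)) ^ k
      rw [Algebra.smul_def, map_inv₀, map_natCast, div_eq_mul_inv, mul_comm]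
  rw [e]
  exact Subalgebra.sum_mem _ fun b _ => Subalgebra.smul_mem _
    (Subalgebra.pow_mem _ (lin_mem h1 h2 h3 _) _) _

theorem aeval_mem {G : Subalgebra ℚ (K × K')} {s : K × K × K} {s' : K' × K' × K'}
    (h1 : (s.1, s'.1) ∈ G) (h2 : (s.2.1, s'.2.1) ∈ G) (h3 : (s.2.2, s'.2.2) ∈ G)
    (π : Finset Box) (f : MvPolynomial ℕ ℚ) :
    (MvPolynomial.aeval (ch s π) f, MvPolynomial.aeval (ch s' π) f) ∈ G := by
  have e : ((MvPolynomial.aeval (ch s π) f, MvPolynomial.aeval (ch s' π) f) : K × K') =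
      MvPolynomial.aeval (fun k => ((ch s π k, ch s' π k) : K × K')) f := by
    have a1 := MvPolynomial.comp_aeval_apply (fun k => ((ch s π k, ch s' π k) : K × K'))
      (AlgHom.fst ℚ K K') f
    have a2 := MvPolynomial.comp_aeval_apply (fun k => ((ch s π k, ch s' π k) : K × K'))
      (AlgHom.snd ℚ K K') f
    simp only [AlgHom.fst_apply] at a1
    simp only [AlgHom.snd_apply] at a2
    exact Prod.ext a1.symm a2.symm
  rw [e]
  have := Subalgebra.mvPolynomial_aeval_coe G (fun k => (⟨_, ch_mem h1 h2 h3 π k⟩ : G)) f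
  rw [this]
  exact (MvPolynomial.aeval _ f : G).2

/-- the main transfer theorem -/
theorem main (G : Subalgebra ℚ (K × K')) (hG : ∀ g ∈ G, g.1 = 0 → g.2 = 0)
    {s : K × K × K} {s' : K' × K' × K'}
    (h1 : (s.1, s'.1) ∈ G) (h2 : (s.2.1, s'.2.1) ∈ G) (h3 : (s.2.2, s'.2.2) ∈ G)
    {μ : Finset Box → K} {μ' : Finset Box → K'}
    (hμ : ∀ π : Finset Box, IsLowerSet (π : Set Box) → (μ π, μ' π) ∈ G)
    (hμ0 : μ ∅ = 1) (hμ0' : μ' ∅ = 1) (f : MvPolynomial ℕ ℚ)
    (h : InKoqZ (ser μ s f * (ser μ s 1)⁻¹)) : InKoqZ (ser μ' s' f * (ser μ' s' 1)⁻¹) := by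
  have hser : ∀ (f : MvPolynomial ℕ ℚ) (n : ℕ),
      ((coeff n (ser μ s f), coeff n (ser μ' s' f)) : K × K') ∈ G := by
    intro f n
    have e : ((coeff n (ser μ s f), coeff n (ser μ' s' f)) : K × K') =
        ∑ π ∈ (specFIN0 n).toFinset, ((μ π, μ' π) : K × K') *
          (MvPolynomial.aeval (ch s π) f, MvPolynomial.aeval (ch s' π) f) := by
      rw [coeff_ser, coeff_ser]
      refine Prod.ext ?_ ?_
      · rw [Prod.fst_sum]; rfl
      · rw [Prod.snd_sum]; rfl
    rw [e]
    refine Subalgebra.sum_mem _ fun π hπ => Subalgebra.mul_mem _ (hμ π ?_) (aeval_mem h1 h2 h3 π f)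
    exact ((Set.Finite.mem_toFinset _).1 hπ).1
  refine transfer G hG _ _ (fun n => ?_) h
  exact pair_mul (hser f) (pair_inv (hser 1) (const_ser μ s hμ0) (const_ser μ' s' hμ0')) n

end TRM

end Pool.Agent.Lib.MPd9449f
end

section
/-!
# TQ: transfer from `K0` to `ℚ`
-/
open PowerSeries Finset

namespace Pool.Agent.Lib.MPd9449f

namespace TQM

/-- the ring `ℚ[s1, s2]` -/
abbrev R0 := MvPolynomial (Fin 2) ℚ

noncomputable def io : R0 →+* K0 := algebraMap R0 K0

theorem io_inj : Function.Injective io := IsFractionRing.injective R0 K0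

/-- evaluation at `s1 = a`, `s2 = b` -/
noncomputable def ev (a b : ℚ) : R0 →+* ℚ := MvPolynomial.eval ![a, b]

theorem ev_X0 (a b : ℚ) : ev a b (MvPolynomial.X 0) = a := by simp [ev]
theorem ev_X1 (a b : ℚ) : ev a b (MvPolynomial.X 1) = b := by simp [ev]

theorem ring_hom_C {L : Type} [Field L] [CharZero L] (φ : R0 →+* L) (r : ℚ) :
    φ (MvPolynomial.C r) = algebraMap ℚ L r := by
  have h : (φ.comp MvPolynomial.C : ℚ →+* L) = algebraMap ℚ L := Subsingleton.elim _ _
  exact RingHom.congr_fun h r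

/-- the specialization -/
noncomputable def G : Subalgebra ℚ (K0 × ℚ) where
  carrier := {g | ∃ a : R0, g.1 = io a ∧ g.2 = ev (-2) 1 a}
  mul_mem' := by
    rintro g g' ⟨a, h1, h2⟩ ⟨a', h1', h2'⟩
    exact ⟨a * a', by rw [map_mul, Prod.fst_mul, h1, h1'], by rw [map_mul, Prod.snd_mul, h2, h2']⟩
  add_mem' := by
    rintro g g' ⟨a, h1, h2⟩ ⟨a', h1', h2'⟩
    exact ⟨a + a', by rw [map_add, Prod.fst_add, h1, h1'], by rw [map_add, Prod.snd_add, h2, h2']⟩
  algebraMap_mem' := by
    intro r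
    refine ⟨MvPolynomial.C r, ?_, ?_⟩
    · rw [ring_hom_C]; rfl
    · rw [ring_hom_C]; rfl

theorem G_fun : ∀ g ∈ G, g.1 = 0 → g.2 = 0 := by
  rintro g ⟨a, h1, h2⟩ h
  rw [h] at h1
  have h3 : a = 0 := io_inj (by rw [map_zero]; exact h1.symm)
  rw [h2, h3, map_zero]

theorem s0_1 : s0.1 = io (MvPolynomial.X 0) := rfl
theorem s0_2 : s0.2.1 = io (MvPolynomial.X 1) := rfl
theorem s0_3 : s0.2.2 = io (-MvPolynomial.X 0 - MvPolynomial.X 1) := rfl

theorem s0_sum : s0.1 + s0.2.1 + s0.2.2 = 0 := by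
  rw [s0_1, s0_2, s0_3, ← map_add, ← map_add]
  have : (MvPolynomial.X 0 + MvPolynomial.X 1 + (-MvPolynomial.X 0 - MvPolynomial.X 1) : R0) = 0 := by
    ring
  rw [this, map_zero]

theorem s0_gen (a b : ℤ) (h : (a : K0) * s0.1 + b * s0.2.1 = 0) : a = 0 ∧ b = 0 := by
  have h1 : io ((a : R0) * MvPolynomial.X 0 + (b : R0) * MvPolynomial.X 1) = 0 := by
    rw [map_add, map_mul, map_mul, map_intCast, map_intCast, ← s0_1, ← s0_2]
    exact h
  have h2 : ((a : R0) * MvPolynomial.X 0 + (b : R0) * MvPolynomial.X 1) = 0 :=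
    io_inj (by rw [map_zero]; exact h1)
  have e1 := congrArg (ev 1 0) h2
  have e2 := congrArg (ev 0 1) h2
  rw [map_add, map_mul, map_mul, map_intCast, map_intCast, ev_X0, ev_X1, map_zero] at e1 e2
  constructor
  · have : (a : ℚ) = 0 := by linarith
    exact_mod_cast this
  · have : (b : ℚ) = 0 := by linarith
    exact_mod_cast this

theorem bracket_s0 (hSGA : SpecSGA) (hSGB : SpecSGB) (f : MvPolynomial ℕ ℚ) :
    bracket s0 f = TRM.ser (fun _ => 1) s0 f := by
  ext n
  rw [TRM.bracket_eq, TRM.coeff_ser, TRM.coeff_ser]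
  refine sum_congr rfl fun π hπ => ?_
  have hl := ((Set.Finite.mem_toFinset _).1 hπ).1
  have h1 := hSGA K0 s0 π s0_sum s0_gen hl
  have h2 := hSGB π hl
  have h3 : ((-1 : K0)) ^ π.card * vertex s0 π = 1 := by
    rw [h1, ← pow_add]
    exact Even.neg_one_pow (Nat.even_iff.2 (by omega))
  rw [h3]

theorem qs_eq (f : MvPolynomial ℕ ℚ) :
    qs f = TRM.ser (fun _ => 1) ((-2 : ℚ), (1 : ℚ), (1 : ℚ)) f := by
  ext n
  rw [qs, gs, TRM.ser, coeff_mk, coeff_mk]
  simp only [one_mul]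
  refine finsum_congr fun π => finsum_congr fun _ => ?_
  rw [MvPolynomial.aeval_def, MvPolynomial.aeval_def]
  congr 1

end TQM

theorem specTQ (hSGA : SpecSGA) (hSGB : SpecSGB) : SpecTQ := by
  intro f h
  rw [bracket', TQM.bracket_s0 hSGA hSGB, TQM.bracket_s0 hSGA hSGB] at h
  rw [TQM.qs_eq, TQM.qs_eq]
  apply TRM.inKoqZ_rat
  refine TRM.main TQM.G TQM.G_fun (s := s0) ?_ ?_ ?_ (fun π _ => Subalgebra.one_mem _) rfl rfl f h
  · exact ⟨MvPolynomial.X 0, TQM.s0_1, (TQM.ev_X0 _ _).symm⟩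
  · exact ⟨MvPolynomial.X 1, TQM.s0_2, (TQM.ev_X1 _ _).symm⟩
  · refine ⟨-MvPolynomial.X 0 - MvPolynomial.X 1, TQM.s0_3, ?_⟩
    rw [map_sub, map_neg, TQM.ev_X0, TQM.ev_X1]
    norm_num

end Pool.Agent.Lib.MPd9449f
end

section
/-!
# TT: transfer from the full torus to the Calabi-Yau torus
-/
open PowerSeries Finset

namespace Pool.Agent.Lib.MPd9449f

namespace TTM

/-- the ring `ℚ[t1, t2, t3]` -/
abbrev R3 := MvPolynomial (Fin 3) ℚ

noncomputable def io : R3 →+* KT := algebraMap R3 KT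

theorem io_inj : Function.Injective io := IsFractionRing.injective R3 KT

/-- restriction to the Calabi-Yau torus -/
noncomputable def ro : R3 →+* K0 :=
  MvPolynomial.eval₂Hom (algebraMap ℚ K0) ![s0.1, s0.2.1, s0.2.2]

theorem ro_X0 : ro (MvPolynomial.X 0) = s0.1 := by simp [ro]
theorem ro_X1 : ro (MvPolynomial.X 1) = s0.2.1 := by simp [ro]
theorem ro_X2 : ro (MvPolynomial.X 2) = s0.2.2 := by simp [ro]

theorem ring_hom_C {L : Type} [Field L] [CharZero L] (φ : R3 →+* L) (r : ℚ) :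
    φ (MvPolynomial.C r) = algebraMap ℚ L r := by
  have h : (φ.comp MvPolynomial.C : ℚ →+* L) = algebraMap ℚ L := Subsingleton.elim _ _
  exact RingHom.congr_fun h r

/-- the specialization -/
noncomputable def G : Subalgebra ℚ (KT × K0) where
  carrier := {g | ∃ a b : R3, ro b ≠ 0 ∧ g.1 * io b = io a ∧ g.2 * ro b = ro a}
  mul_mem' := by
    rintro g g' ⟨a, b, h0, h1, h2⟩ ⟨a', b', h0', h1', h2'⟩
    refine ⟨a * a', b * b', ?_, ?_, ?_⟩
    · rw [map_mul]; exact mul_ne_zero h0 h0'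
    · rw [map_mul, map_mul, Prod.fst_mul, ← h1, ← h1']; ring
    · rw [map_mul, map_mul, Prod.snd_mul, ← h2, ← h2']; ring
  add_mem' := by
    rintro g g' ⟨a, b, h0, h1, h2⟩ ⟨a', b', h0', h1', h2'⟩
    refine ⟨a * b' + a' * b, b * b', ?_, ?_, ?_⟩
    · rw [map_mul]; exact mul_ne_zero h0 h0'
    · rw [map_add, map_mul, map_mul, map_mul, Prod.fst_add, ← h1, ← h1']; ring
    · rw [map_add, map_mul, map_mul, map_mul, Prod.snd_add, ← h2, ← h2']; ring
  algebraMap_mem' := by
    intro r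
    refine ⟨MvPolynomial.C r, 1, ?_, ?_, ?_⟩
    · rw [map_one]; exact one_ne_zero
    · rw [ring_hom_C, map_one, mul_one]; rfl
    · rw [ring_hom_C, map_one, mul_one]; rfl

theorem mem_of_poly (a : R3) {x : KT} {y : K0} (h1 : x = io a) (h2 : y = ro a) : (x, y) ∈ G :=
  ⟨a, 1, by rw [map_one]; exact one_ne_zero, by rw [map_one, mul_one]; exact h1,
    by rw [map_one, mul_one]; exact h2⟩

theorem G_fun : ∀ g ∈ G, g.1 = 0 → g.2 = 0 := by
  rintro g ⟨a, b, h0, h1, h2⟩ h
  rw [h, zero_mul] at h1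
  have h3 : a = 0 := io_inj (by rw [map_zero]; exact h1.symm)
  rw [h3, map_zero] at h2
  exact (mul_eq_zero.1 h2).resolve_right h0

theorem inv_mem {x : KT} {y : K0} (h : (x, y) ∈ G) (hy : y ≠ 0) : (x⁻¹, y⁻¹) ∈ G := by
  obtain ⟨a, b, h0, h1, h2⟩ := h
  have hx : x ≠ 0 := fun hx => hy (G_fun (x, y) ⟨a, b, h0, h1, h2⟩ hx)
  simp only at h1 h2
  refine ⟨b, a, ?_, ?_, ?_⟩
  · rw [← h2]; exact mul_ne_zero hy h0
  · show x⁻¹ * io a = io b
    rw [← h1, inv_mul_cancel_left₀ hx]
  · show y⁻¹ * ro a = ro b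
    rw [← h2, inv_mul_cancel_left₀ hy]

theorem zpow_mem {x : KT} {y : K0} (h : (x, y) ∈ G) (hy : y ≠ 0) (m : ℤ) :
    (x ^ m, y ^ m) ∈ G := by
  obtain ⟨n, rfl | rfl⟩ := m.eq_nat_or_neg
  · rw [zpow_natCast, zpow_natCast]
    exact Subalgebra.pow_mem G h n
  · rw [zpow_neg, zpow_neg, zpow_natCast, zpow_natCast]
    exact inv_mem (Subalgebra.pow_mem G h n) (pow_ne_zero n hy)

theorem sT_mem1 : (sT.1, s0.1) ∈ G := mem_of_poly (MvPolynomial.X 0) rfl ro_X0.symm
theorem sT_mem2 : (sT.2.1, s0.2.1) ∈ G := mem_of_poly (MvPolynomial.X 1) rfl ro_X1.symm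
theorem sT_mem3 : (sT.2.2, s0.2.2) ∈ G := mem_of_poly (MvPolynomial.X 2) rfl ro_X2.symm

theorem lin_s0_ne (w : Chr) (h : ¬(w.1 = w.2.2 ∧ w.2.1 = w.2.2)) : lin s0 w ≠ 0 := by
  intro h0
  apply h
  have e : lin s0 w = ((w.1 - w.2.2 : ℤ) : K0) * s0.1 + ((w.2.1 - w.2.2 : ℤ) : K0) * s0.2.1 := by
    have h3 : s0.2.2 = -s0.1 - s0.2.1 := by
      have := TQM.s0_sum
      linear_combination this
    rw [lin, h3]
    push_cast
    ring
  rw [e] at h0
  obtain ⟨h1, h2⟩ := TQM.s0_gen _ _ h0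
  omega

theorem vertex_mem (hVK : SpecVK) (π : Finset Box) (hπ : IsLowerSet (π : Set Box)) :
    (vertex sT π, vertex s0 π) ∈ G := by
  have e : ((vertex sT π, vertex s0 π) : KT × K0) =
      ∏ w ∈ (Vc π).coeff.support, ((lin sT w ^ (-(Vc π).coeff w), lin s0 w ^ (-(Vc π).coeff w)) :
        KT × K0) := by
    refine Prod.ext ?_ ?_
    · rw [Prod.fst_prod]; rfl
    · rw [Prod.snd_prod]; rfl
  rw [e]
  refine Subalgebra.prod_mem _ fun w hw => ?_
  refine zpow_mem (TRM.lin_mem sT_mem1 sT_mem2 sT_mem3 w) (lin_s0_ne w ?_) _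
  rintro ⟨h1, h2⟩
  rw [Finsupp.mem_support_iff] at hw
  apply hw
  have hw' : w = (w.2.2, w.2.2, w.2.2) := by
    refine Prod.ext h1 (Prod.ext h2 rfl)
  rw [hw']
  exact hVK π _ hπ

theorem vertex_empty {L : Type} [Field L] [CharZero L] (s : L × L × L) : vertex s ∅ = 1 := by
  have h : Vc ∅ = 0 := by
    rw [Vc, Qc, Qd]
    simp
  rw [vertex, h]
  rfl

end TTM

theorem specTT (hVK : SpecVK) : SpecTT := by
  intro f h
  rw [bracket', TRM.bracket_eq, TRM.bracket_eq] at h ⊢
  refine TRM.main TTM.G TTM.G_fun TTM.sT_mem1 TTM.sT_mem2 TTM.sT_mem3 ?_ ?_ ?_ f h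
  · intro π hπ
    have h1 : ((-1 : KT × K0)) ^ π.card ∈ TTM.G :=
      Subalgebra.pow_mem _ (Subalgebra.neg_mem _ (Subalgebra.one_mem _)) _
    exact Subalgebra.mul_mem _ h1 (TTM.vertex_mem hVK π hπ)
  · rw [TTM.vertex_empty, card_empty, pow_zero, one_mul]
  · rw [TTM.vertex_empty, card_empty, pow_zero, one_mul]

end Pool.Agent.Lib.MPd9449f
end

section
/-!
# ZG: the odd q-zeta values are rational combinations of the `G_j`
-/
open PowerSeries Finset

namespace Pool.Agent.Lib.MPd9449f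

namespace ZGM

theorem coeff_qD_iter (l : ℕ) (F : PowerSeries ℚ) (n : ℕ) :
    coeff n (qD^[l] F) = (n : ℚ) ^ l * coeff n F := by
  induction l generalizing F with
  | zero => simp
  | succ l ih =>
    rw [Function.iterate_succ_apply, ih, qD, coeff_mk, pow_succ]
    ring

/-- `∏_{0<i<k} (Y - i²)` times `2 / (2k)!` -/
noncomputable def P (k : ℕ) : Polynomial ℚ :=
  Polynomial.C (2 / ((2 * k).factorial : ℚ)) *
    ∏ i ∈ range (k - 1), (Polynomial.X - Polynomial.C (((i : ℚ) + 1) ^ 2))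

noncomputable def Pi (k m : ℕ) : ℚ := ∏ i ∈ range (k - 1), ((m : ℚ) ^ 2 - ((i : ℚ) + 1) ^ 2)

theorem eval_P (k m : ℕ) :
    (P k).eval ((m : ℚ) ^ 2) = 2 / ((2 * k).factorial : ℚ) * Pi k m := by
  rw [P, Polynomial.eval_mul, Polynomial.eval_C, Polynomial.eval_prod, Pi]
  simp only [Polynomial.eval_sub, Polynomial.eval_X, Polynomial.eval_C]

theorem choose_a (k m : ℕ) (hk : 1 ≤ k) :
    ((2 * k).factorial : ℚ) * ((m + k).choose (2 * k) : ℚ) = ((m : ℚ) + k) * m * Pi k m := by
  induction k, hk using Nat.le_induction with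
  | base =>
    have h1 : (2 : ℚ) * ((m + 1).choose 2 : ℚ) = (m + 1) * m := by
      have := Nat.add_one_mul_choose_eq m 1
      have h2 : (((m + 1) * m.choose 1 : ℕ) : ℚ) = (((m + 1).choose 2 * 2 : ℕ) : ℚ) := by
        exact_mod_cast congrArg (Nat.cast (R := ℚ)) this
      rw [Nat.choose_one_right] at h2
      push_cast at h2
      linarith
    simp only [Pi, mul_one, Nat.sub_self, range_zero, prod_empty, Nat.factorial_two]
    push_cast
    exact h1
  | succ k hk ih =>
    have e1 := Nat.add_one_mul_choose_eq (m + k) (2 * k + 1)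
    have e2 := Nat.choose_succ_right_eq (m + k) (2 * k)
    have e1' : ((m : ℚ) + k + 1) * ((m + k).choose (2 * k + 1) : ℚ) =
        ((m + (k + 1)).choose (2 * (k + 1)) : ℚ) * (2 * k + 2) := by
      have := congrArg (Nat.cast (R := ℚ)) e1
      push_cast at this
      rw [show m + (k + 1) = m + k + 1 by ring, show 2 * (k + 1) = 2 * k + 1 + 1 by ring]
      rw [this]
      ring
    have e2' : ((m + k).choose (2 * k + 1) : ℚ) * (2 * k + 1) =
        ((m + k).choose (2 * k) : ℚ) * ((m : ℚ) - k) := by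
      rcases le_or_gt k m with h | h
      · have := congrArg (Nat.cast (R := ℚ)) e2
        rw [show m + k - 2 * k = m - k by omega] at this
        push_cast [Nat.cast_sub h] at this
        exact this
      · rw [Nat.choose_eq_zero_of_lt (by omega), Nat.choose_eq_zero_of_lt (by omega)]
        simp
    have hf : ((2 * (k + 1)).factorial : ℚ) = (2 * k + 2) * ((2 * k + 1) * ((2 * k).factorial : ℚ)) := by
      rw [show 2 * (k + 1) = 2 * k + 1 + 1 by ring, Nat.factorial_succ, Nat.factorial_succ]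
      push_cast
      ring
    have hPi : Pi (k + 1) m = Pi k m * ((m : ℚ) ^ 2 - (k : ℚ) ^ 2) := by
      rw [Pi, Pi, Nat.add_sub_cancel]
      obtain ⟨k', rfl⟩ : ∃ k', k = k' + 1 := ⟨k - 1, by omega⟩
      rw [prod_range_succ, Nat.add_sub_cancel]
      push_cast
      ring
    calc ((2 * (k + 1)).factorial : ℚ) * ((m + (k + 1)).choose (2 * (k + 1)) : ℚ)
        = ((2 * k + 1) * ((2 * k).factorial : ℚ)) *
          (((m + (k + 1)).choose (2 * (k + 1)) : ℚ) * (2 * k + 2)) := by rw [hf]; ring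
      _ = ((2 * k).factorial : ℚ) * ((m : ℚ) + k + 1) *
          (((m + k).choose (2 * k + 1) : ℚ) * (2 * k + 1)) := by rw [← e1']; ring
      _ = (((2 * k).factorial : ℚ) * ((m + k).choose (2 * k) : ℚ)) * ((m : ℚ) + k + 1) *
          ((m : ℚ) - k) := by rw [e2']; ring
      _ = _ := by rw [ih, hPi]; push_cast; ring

theorem choose_b (k m : ℕ) (hk : 1 ≤ k) :
    ((2 * k).factorial : ℚ) * ((m + k - 1).choose (2 * k) : ℚ) = ((m : ℚ) - k) * m * Pi k m := by
  have ha := choose_a k m hk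
  have e : ((m + k - 1).choose (2 * k) : ℚ) * ((m : ℚ) + k) =
      ((m + k).choose (2 * k) : ℚ) * ((m : ℚ) - k) := by
    rcases le_or_gt k m with h | h
    · have e1 := Nat.choose_mul_succ_eq (m + k - 1) (2 * k)
      rw [show m + k - 1 + 1 = m + k by omega, show m + k - 2 * k = m - k by omega] at e1
      have := congrArg (Nat.cast (R := ℚ)) e1
      push_cast [Nat.cast_sub h] at this
      exact this
    · rw [Nat.choose_eq_zero_of_lt (by omega), Nat.choose_eq_zero_of_lt (by omega)]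
      simp
  have hpos : (m : ℚ) + k ≠ 0 := by
    have : (0 : ℚ) < k := by exact_mod_cast hk
    positivity
  apply mul_right_cancel₀ hpos
  calc ((2 * k).factorial : ℚ) * ((m + k - 1).choose (2 * k) : ℚ) * ((m : ℚ) + k)
      = ((2 * k).factorial : ℚ) * (((m + k - 1).choose (2 * k) : ℚ) * ((m : ℚ) + k)) := by ring
    _ = (((2 * k).factorial : ℚ) * ((m + k).choose (2 * k) : ℚ)) * ((m : ℚ) - k) := by rw [e]; ring
    _ = _ := by rw [ha]; ring

/-- the coefficients of `y^k (1+y) / (1-y)^(2k+1)` -/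
theorem coeff_f (k m : ℕ) (hk : 1 ≤ k) :
    coeff m ((X : PowerSeries ℚ) ^ k * (1 + X) *
      (PowerSeries.mk fun n => ((2 * k + n).choose (2 * k) : ℚ))) =
      (m : ℚ) ^ 2 * (P k).eval ((m : ℚ) ^ 2) := by
  have hfac : ((2 * k).factorial : ℚ) ≠ 0 := by positivity
  have h1 : coeff m ((X : PowerSeries ℚ) ^ k * (1 + X) *
      (PowerSeries.mk fun n => ((2 * k + n).choose (2 * k) : ℚ))) =
      ((m + k).choose (2 * k) : ℚ) + ((m + k - 1).choose (2 * k) : ℚ) := by
    rw [show (X : PowerSeries ℚ) ^ k * (1 + X) *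
        (PowerSeries.mk fun n => ((2 * k + n).choose (2 * k) : ℚ)) =
        X ^ k * (PowerSeries.mk fun n => ((2 * k + n).choose (2 * k) : ℚ)) +
        X ^ (k + 1) * (PowerSeries.mk fun n => ((2 * k + n).choose (2 * k) : ℚ)) by ring,
      map_add, coeff_X_pow_mul', coeff_X_pow_mul', coeff_mk, coeff_mk]
    congr 1
    · split_ifs with h
      · congr 2; omega
      · rw [Nat.choose_eq_zero_of_lt (by omega)]; simp
    · split_ifs with h
      · congr 2; omega
      · rw [Nat.choose_eq_zero_of_lt (by omega)]; simp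
  rw [h1, eval_P]
  apply mul_left_cancel₀ hfac
  rw [mul_add, choose_a k m hk, choose_b k m hk]
  field_simp
  ring

theorem coeff_term (k n N : ℕ) (hk : 1 ≤ k) (hn : 1 ≤ n) :
    coeff N ((X : PowerSeries ℚ) ^ (k * n) * (1 + X ^ n) * ((1 - X ^ n) ^ (2 * k + 1))⁻¹) =
      if n ∣ N then ((N / n : ℕ) : ℚ) ^ 2 * (P k).eval (((N / n : ℕ) : ℚ) ^ 2) else 0 := by
  have hn0 : n ≠ 0 := by omega
  have h1 : ((X : PowerSeries ℚ) ^ (k * n) * (1 + X ^ n) * ((1 - X ^ n) ^ (2 * k + 1))⁻¹) =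
      expand n hn0 ((X : PowerSeries ℚ) ^ k * (1 + X) *
        (PowerSeries.mk fun n => ((2 * k + n).choose (2 * k) : ℚ))) := by
    have h2 := congrArg (expand n hn0)
      (mk_add_choose_mul_one_sub_pow_eq_one ℚ (2 * k))
    rw [map_mul, map_pow, map_sub, map_one, expand_X] at h2
    have h3 : ((1 - (X : PowerSeries ℚ) ^ n) ^ (2 * k + 1))⁻¹ =
        expand n hn0 (PowerSeries.mk fun n => ((2 * k + n).choose (2 * k) : ℚ)) := by
      rw [PowerSeries.inv_eq_iff_mul_eq_one]
      · exact h2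
      · rw [map_pow, map_sub, map_one, map_pow, constantCoeff_X, zero_pow hn0, sub_zero, one_pow]
        exact one_ne_zero
    rw [h3, map_mul, map_mul, map_add, map_one, map_pow, expand_X, ← pow_mul, mul_comm k n]
  rw [h1, coeff_expand]
  split_ifs with h
  · rw [coeff_f k _ hk]
  · rfl

theorem coeff_Zodd (k N : ℕ) (hk : 1 ≤ k) :
    coeff N (Zodd k) = ∑ a ∈ range ((P k).natDegree + 1),
      (P k).coeff a * (ArithmeticFunction.sigma (2 * a + 2) N : ℚ) := by
  rw [Zodd, coeff_mk]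
  have h1 : ∑ n ∈ Icc 1 N, coeff N ((X : PowerSeries ℚ) ^ (k * n) * (1 + X ^ n) *
      ((1 - X ^ n) ^ (2 * k + 1))⁻¹) =
      ∑ n ∈ Icc 1 N, if n ∣ N then ((N / n : ℕ) : ℚ) ^ 2 * (P k).eval (((N / n : ℕ) : ℚ) ^ 2)
        else 0 :=
    sum_congr rfl fun n hn => coeff_term k n N hk (mem_Icc.1 hn).1
  rw [h1, ← sum_filter]
  have h2 : (Icc 1 N).filter (fun n => n ∣ N) = N.divisors := by
    ext n
    rw [mem_filter, mem_Icc, Nat.mem_divisors]
    constructor
    · rintro ⟨⟨h1, h2⟩, h3⟩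
      exact ⟨h3, by omega⟩
    · rintro ⟨h1, h2⟩
      have := Nat.le_of_dvd (Nat.pos_of_ne_zero h2) h1
      have := Nat.pos_of_dvd_of_pos h1 (Nat.pos_of_ne_zero h2)
      exact ⟨⟨by omega, by omega⟩, h1⟩
  rw [h2, Nat.sum_div_divisors N (fun d => ((d : ℕ) : ℚ) ^ 2 * (P k).eval (((d : ℕ) : ℚ) ^ 2))]
  have h3 : ∀ d ∈ N.divisors, ((d : ℕ) : ℚ) ^ 2 * (P k).eval (((d : ℕ) : ℚ) ^ 2) =
      ∑ a ∈ range ((P k).natDegree + 1), (P k).coeff a * ((d : ℚ) ^ (2 * a + 2)) := by
    intro d _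
    rw [Polynomial.eval_eq_sum_range, mul_sum]
    refine sum_congr rfl fun a _ => ?_
    ring
  rw [sum_congr rfl h3, sum_comm]
  refine sum_congr rfl fun a _ => ?_
  rw [← mul_sum, ArithmeticFunction.sigma_apply]
  push_cast
  rfl

theorem qD_Zodd (k l : ℕ) (hk : 1 ≤ k) :
    qD^[l] (Zodd k) = ∑ a ∈ range ((P k).natDegree + 1), (P k).coeff a • Gser (a, l) := by
  ext N
  rw [coeff_qD_iter, coeff_Zodd k N hk, map_sum, mul_sum]
  refine sum_congr rfl fun a _ => ?_
  rw [PowerSeries.coeff_smul, Gser, coeff_mk, smul_eq_mul]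
  ring

end ZGM

theorem specZG : SpecZG := by
  refine Algebra.adjoin_le ?_
  rintro F ⟨k, l, hk, rfl⟩
  rw [ZGM.qD_Zodd k l hk]
  refine Subalgebra.sum_mem _ fun a _ => Subalgebra.smul_mem _ ?_ _
  exact Algebra.subset_adjoin ⟨(a, l), rfl⟩

end Pool.Agent.Lib.MPd9449f
end
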