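import Pool.Agent.Lib.MP_d9449f_ag.OQ.PIE
import Pool.Agent.Lib.MP_d9449f_ag.WBFin
import Pool.Agent.Lib.MP_d9449f_ag.OQ.ZG
import Pool.Agent.Lib.MP_d9449f_ag.OQ.Cert
import Pool.Agent.Lib.MP_d9449f_ag.OQ.GRO
import Pool.Agent.Lib.MP_d9449f_ag.OQ.Z0

section
/-!
# TWO: the exact two-point function of plane partitions
-/
open PowerSeries Finset

namespace Pool.Agent.Lib.MPd9449f

namespace TWOM

open BRIM

variable {R : Type} [CommRing R]

/-- generating series of a statistic of paths -/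
noncomputable def gp (N L : ℕ) (G : (Fin (2 * N + 1) → Fin N → ℕ) → R) : PowerSeries R :=
  ∑ p ∈ paths N L, X ^ psz p * C (G p)

theorem gs_gp (hB : SpecBRI) {N L : ℕ} (hNL : L < N) (g : Finset Box → R)
    (G : (Fin (2 * N + 1) → Fin N → ℕ) → R)
    (h : ∀ n ≤ L, ∀ π ∈ PP n, g π = G (slices N π)) :
    (X : PowerSeries R) ^ (L + 1) ∣ gs g - gp N L G := by
  rw [X_pow_dvd_iff]
  intro n hn
  rw [map_sub, sub_eq_zero]
  unfold gs gp
  rw [coeff_mk, map_sum]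
  have h1 : ∑ᶠ π ∈ PP n, g π = ∑ᶠ π ∈ PP n, G (slices N π) :=
    finsum_mem_congr rfl (h n (by omega))
  rw [h1, hB R N L n G (by omega) (by omega), Finset.sum_filter]
  refine Finset.sum_congr rfl fun p _ => ?_
  rw [mul_comm, coeff_C_mul, coeff_X_pow]
  by_cases hp : psz p = n
  · rw [if_pos hp, if_pos hp.symm, mul_one]
  · rw [if_neg hp, if_neg (Ne.symm hp), mul_zero]

/-- the weighted sum over the slices -/
def Phi (N : ℕ) (x y z : R) (p : Fin (2 * N + 1) → Fin N → ℕ) : R :=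
  ∑ k ∈ range (2 * N + 1), y ^ (k - N) * z ^ (N - k) * Cst x (y * z) (slc p k)

theorem Cst_zero {N : ℕ} (x xi : R) : Cst x xi (0 : Fin N → ℕ) = 0 := by
  unfold Cst
  simp

theorem Phi_eq {N L : ℕ} (hN : 1 ≤ N) (x y z : R) {p : Fin (2 * N + 1) → Fin N → ℕ}
    (hp : p ∈ paths N L) :
    Phi N x y z p =
      ∑ k ∈ Ico 1 (2 * N), y ^ (k - N) * z ^ (N - k) * Cst x (y * z) (slc p k) := by
  unfold Phi
  have h0 : slc p 0 = 0 := by
    rw [slc_lt p (by omega : 0 < 2 * N + 1)]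
    unfold paths at hp
    rw [mem_filter] at hp
    exact hp.2.1
  have h1 : slc p (2 * N) = 0 := by
    rw [slc_lt p (by omega : 2 * N < 2 * N + 1)]
    unfold paths at hp
    rw [mem_filter] at hp
    exact hp.2.2.1
  rw [Finset.sum_range_succ, h1, Cst_zero, mul_zero, add_zero]
  have e : range (2 * N) = insert 0 (Ico 1 (2 * N)) := by
    ext k
    rw [mem_insert, mem_range, mem_Ico]
    omega
  rw [e, Finset.sum_insert (by rw [mem_Ico]; omega), h0, Cst_zero, mul_zero, zero_add]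

end TWOM

open TWOM in
theorem specTWO (hBRI : SpecBRI) (hCHP : SpecCHP) (hCOV : SpecCOV) (hCOL : SpecCOL)
    (hZ0 : SpecZ0) : SpecTWO := by
  intro R _ _ x1 y1 z1 x2 y2 z2 h1 h2 hx1 hx2
  rw [← sub_eq_zero]
  ext n
  rw [map_zero]
  -- truncation
  set L := n with hL
  set N := n + 1 with hN
  have hLN : L < N := by omega
  have hN1 : 1 ≤ N := by omega
  suffices hdvd : (X : PowerSeries R) ^ (L + 1) ∣
      gs (fun _ => (1 : R)) * gs (fun π => Chp x1 y1 z1 π * Chp x2 y2 z2 π) -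
        gs (Chp x1 y1 z1) * gs (Chp x2 y2 z2) -
      gs (fun _ => (1 : R)) ^ 2 * kap x1 y1 z1 x2 y2 z2 by
    exact X_pow_dvd_iff.1 hdvd n (by omega)
  let W1 := Phi (R := R) N x1 y1 z1
  let W2 := Phi (R := R) N x2 y2 z2
  have g0 := gs_gp hBRI hLN (fun _ => (1 : R)) (fun _ => (1 : R)) (fun _ _ _ _ => rfl)
  have g1 := gs_gp hBRI hLN (Chp x1 y1 z1) W1
    (fun m hm π hπ => hCHP R N m π x1 y1 z1 hπ (by omega) h1)
  have g2 := gs_gp hBRI hLN (Chp x2 y2 z2) W2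
    (fun m hm π hπ => hCHP R N m π x2 y2 z2 hπ (by omega) h2)
  have g12 := gs_gp hBRI hLN (fun π => Chp x1 y1 z1 π * Chp x2 y2 z2 π) (fun p => W1 p * W2 p)
    (fun m hm π hπ => by
      have e1 := hCHP R N m π x1 y1 z1 hπ (by omega) h1
      have e2 := hCHP R N m π x2 y2 z2 hπ (by omega) h2
      rw [e1, e2]
      rfl)
  -- expansion of the covariance
  have hxi1 : x1 * (y1 * z1) = 1 := by rw [← mul_assoc]; exact h1
  have hxi2 : x2 * (y2 * z2) = 1 := by rw [← mul_assoc]; exact h2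
  have a0 : ∀ k1 k2 : ℕ, avg N L k1 k2 (fun _ => (1 : PowerSeries R)) (fun _ => 1) =
      gp N L (fun _ => (1 : R)) := by
    intro k1 k2
    unfold avg gp
    refine Finset.sum_congr rfl fun p _ => ?_
    rw [map_one, one_mul]
  let w1 : ℕ → R := fun k => y1 ^ (k - N) * z1 ^ (N - k)
  let w2 : ℕ → R := fun k => y2 ^ (k - N) * z2 ^ (N - k)
  let c1 : (Fin N → ℕ) → PowerSeries R := fun l => C (Cst x1 (y1 * z1) l)
  let c2 : (Fin N → ℕ) → PowerSeries R := fun l => C (Cst x2 (y2 * z2) l)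
  have a1 : ∀ k2 : ℕ, ∑ k1 ∈ Ico 1 (2 * N), C (w1 k1) * avg N L k1 k2 c1 (fun _ => 1) =
      gp N L W1 := by
    intro k2
    unfold avg gp
    simp_rw [Finset.mul_sum]
    rw [Finset.sum_comm]
    refine Finset.sum_congr rfl fun p hp => ?_
    have hPhi : W1 p = ∑ k ∈ Ico 1 (2 * N), w1 k * Cst x1 (y1 * z1) (slc p k) :=
      Phi_eq hN1 x1 y1 z1 hp
    rw [hPhi, map_sum, Finset.mul_sum]
    refine Finset.sum_congr rfl fun k _ => ?_
    simp only [c1, map_mul]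
    ring
  have a2 : ∀ k1 : ℕ, ∑ k2 ∈ Ico 1 (2 * N), C (w2 k2) * avg N L k1 k2 (fun _ => 1) c2 =
      gp N L W2 := by
    intro k1
    unfold avg gp
    simp_rw [Finset.mul_sum]
    rw [Finset.sum_comm]
    refine Finset.sum_congr rfl fun p hp => ?_
    have hPhi : W2 p = ∑ k ∈ Ico 1 (2 * N), w2 k * Cst x2 (y2 * z2) (slc p k) :=
      Phi_eq hN1 x2 y2 z2 hp
    rw [hPhi, map_sum, Finset.mul_sum]
    refine Finset.sum_congr rfl fun k _ => ?_
    simp only [c2, map_mul]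
    ring
  have a12 : ∑ k1 ∈ Ico 1 (2 * N), ∑ k2 ∈ Ico 1 (2 * N),
      C (w1 k1 * w2 k2) * avg N L k1 k2 c1 c2 = gp N L (fun p => W1 p * W2 p) := by
    unfold avg gp
    simp_rw [Finset.mul_sum]
    have e1 : ∀ k1 ∈ Ico 1 (2 * N), ∑ k2 ∈ Ico 1 (2 * N), ∑ p ∈ paths N L,
        (C (w1 k1 * w2 k2) * (X ^ psz p * (c1 (slc p k1) * c2 (slc p k2))) : PowerSeries R) =
        ∑ p ∈ paths N L, ∑ k2 ∈ Ico 1 (2 * N),
        (C (w1 k1 * w2 k2) * (X ^ psz p * (c1 (slc p k1) * c2 (slc p k2))) : PowerSeries R) :=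
      fun k1 _ => Finset.sum_comm
    rw [Finset.sum_congr rfl e1, Finset.sum_comm]
    refine Finset.sum_congr rfl fun p hp => ?_
    have hPhi1 : W1 p = ∑ k ∈ Ico 1 (2 * N), w1 k * Cst x1 (y1 * z1) (slc p k) :=
      Phi_eq hN1 x1 y1 z1 hp
    have hPhi2 : W2 p = ∑ k ∈ Ico 1 (2 * N), w2 k * Cst x2 (y2 * z2) (slc p k) :=
      Phi_eq hN1 x2 y2 z2 hp
    rw [hPhi1, hPhi2, Finset.sum_mul_sum, map_sum, Finset.mul_sum]
    refine Finset.sum_congr rfl fun k1 _ => ?_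
    rw [map_sum, Finset.mul_sum]
    refine Finset.sum_congr rfl fun k2 _ => ?_
    simp only [c1, c2, map_mul]
    ring
  -- covariances
  have hcov : (X : PowerSeries R) ^ (L + 1) ∣
      pi0 R N ^ 2 * (gp N L (fun _ => (1 : R)) * gp N L (fun p => W1 p * W2 p) -
        gp N L W1 * gp N L W2) - kap x1 y1 z1 x2 y2 z2 := by
    have hexp : gp N L (fun _ => (1 : R)) * gp N L (fun p => W1 p * W2 p) -
        gp N L W1 * gp N L W2 =
        ∑ k1 ∈ Ico 1 (2 * N), ∑ k2 ∈ Ico 1 (2 * N), C (w1 k1 * w2 k2) *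
          (avg N L k1 k2 (fun _ => 1) (fun _ => 1) * avg N L k1 k2 c1 c2 -
            avg N L k1 k2 c1 (fun _ => 1) * avg N L k1 k2 (fun _ => 1) c2) := by
      have b1 : ∀ k1 k2, avg N L k1 k2 c1 (fun _ => (1 : PowerSeries R)) =
          avg N L k1 0 c1 (fun _ => 1) := by
        intro k1 k2
        rfl
      have b2 : ∀ k1 k2, avg N L k1 k2 (fun _ => (1 : PowerSeries R)) c2 =
          avg N L 0 k2 (fun _ => 1) c2 := by
        intro k1 k2
        rfl
      rw [← a12, ← a1 0, ← a2 0, Finset.mul_sum, Finset.sum_mul_sum, ← Finset.sum_sub_distrib]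
      refine Finset.sum_congr rfl fun k1 _ => ?_
      rw [Finset.mul_sum, ← Finset.sum_sub_distrib]
      refine Finset.sum_congr rfl fun k2 _ => ?_
      rw [a0, b1 k1 k2, b2 k1 k2, map_mul]
      ring
    rw [hexp]
    have hcol := hCOL R N L x1 y1 z1 x2 y2 z2 h1 h2 hLN
    have hsum : (X : PowerSeries R) ^ (L + 1) ∣
        pi0 R N ^ 2 * ∑ k1 ∈ Ico 1 (2 * N), ∑ k2 ∈ Ico 1 (2 * N), C (w1 k1 * w2 k2) *
          (avg N L k1 k2 (fun _ => 1) (fun _ => 1) * avg N L k1 k2 c1 c2 -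
            avg N L k1 k2 c1 (fun _ => 1) * avg N L k1 k2 (fun _ => 1) c2) -
        ∑ k1 ∈ Ico 1 (2 * N), ∑ k2 ∈ Ico 1 (2 * N),
        C (y1 ^ (k1 - N) * z1 ^ (N - k1) * (y2 ^ (k2 - N) * z2 ^ (N - k2))) *
        ∑ i ∈ range N, ∑ j ∈ range N,
          Aa x1 (y1 * z1) i ((N - k1) + (k1 - N)) * Aa x2 (y2 * z2) j ((N - k2) + (k2 - N)) *
            Hh (x1 * x2) (i + j + 1 + ex N k1 k2) := by
      rw [Finset.mul_sum, ← Finset.sum_sub_distrib]
      refine Finset.dvd_sum fun k1 hk1 => ?_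
      rw [Finset.mul_sum, ← Finset.sum_sub_distrib]
      refine Finset.dvd_sum fun k2 hk2 => ?_
      rw [mem_Ico] at hk1 hk2
      have := hCOV R N L k1 k2 x1 (y1 * z1) x2 (y2 * z2) hxi1 hxi2 hx1 hx2 hLN hk1.1 hk1.2
        hk2.1 hk2.2
      have h3 := Dvd.dvd.mul_left this (C (w1 k1 * w2 k2))
      refine h3.trans (dvd_of_eq ?_)
      simp only [w1, w2, c1, c2]
      ring
    have h4 := dvd_add hsum hcol
    rw [sub_add_sub_cancel] at h4
    exact h4
  have hz := hZ0 R N L 0 0 hN1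
  rw [a0] at hz
  -- conclusion
  obtain ⟨u0, hu0⟩ := g0
  obtain ⟨u1, hu1⟩ := g1
  obtain ⟨u2, hu2⟩ := g2
  obtain ⟨u12, hu12⟩ := g12
  obtain ⟨uc, huc⟩ := hcov
  obtain ⟨uz, huz⟩ := hz
  set A0 := gp N L (fun _ => (1 : R))
  set A1 := gp N L W1
  set A2 := gp N L W2
  set A12 := gp N L (fun p => W1 p * W2 p)
  set P := pi0 R N
  set K := kap x1 y1 z1 x2 y2 z2
  have e0 : gs (fun _ => (1 : R)) = A0 + X ^ (L + 1) * u0 := by rw [← hu0]; ring
  have e1 : gs (Chp x1 y1 z1) = A1 + X ^ (L + 1) * u1 := by rw [← hu1]; ring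
  have e2 : gs (Chp x2 y2 z2) = A2 + X ^ (L + 1) * u2 := by rw [← hu2]; ring
  have e12 : gs (fun π => Chp x1 y1 z1 π * Chp x2 y2 z2 π) = A12 + X ^ (L + 1) * u12 := by
    rw [← hu12]; ring
  have ek : K = P ^ 2 * (A0 * A12 - A1 * A2) - X ^ (L + 1) * uc := by rw [← huc]; ring
  have ez : P * A0 = 1 + X ^ (L + 1) * uz := by rw [← huz]; ring
  set q : PowerSeries R := X ^ (L + 1)
  have main : q ∣ (A0 * A12 - A1 * A2) - A0 ^ 2 * K := by
    have : (A0 * A12 - A1 * A2) - A0 ^ 2 * K =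
        (A0 * A12 - A1 * A2) * (1 - (P * A0) ^ 2) + q * (A0 ^ 2 * uc) := by
      rw [ek]; ring
    rw [this, ez]
    exact ⟨-(A0 * A12 - A1 * A2) * (2 * uz + q * uz ^ 2) + A0 ^ 2 * uc, by ring⟩
  rw [e0, e1, e2, e12]
  obtain ⟨v, hv⟩ := main
  exact ⟨v + (A0 * u12 + u0 * A12 + q * u0 * u12 - A1 * u2 - u1 * A2 - q * u1 * u2) -
    (2 * A0 * u0 + q * u0 ^ 2) * K, by linear_combination hv⟩

end Pool.Agent.Lib.MPd9449f
end

section
/-!
# The odd q-zeta conjecture for Donaldson-Thomas point series is false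
-/
namespace Pool.Agent.Lib.MPd9449f

theorem main : SpecFINAL := by
  have hLV : SpecLV := specLV
  have hRV : SpecRV := specRV specPIE specALT
  have hCAU : SpecCAU := specCAU specADJ hRV
  have hCHA : SpecCHA := specCHA specPS
  have hCHB : SpecCHB := specCHB specPS specADJ
  have hZ0 : SpecZ0 := specZ0 hCHA hCAU specVNZ
  have hCVA : SpecCVA := specCVA hCHA specVNZ hLV hCAU
  have hCVB : SpecCVB := specCVB hCHB specVAN specVNZ hLV hRV hCAU
  have hCOV : SpecCOV := specCOV hCVA hCVB specLIM specCEV specREV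
  have hTWO : SpecTWO := specTWO specBRI specCHP hCOV specCOL hZ0
  have hSLZ : SpecSLZ := specSLZ hCHA hCAU specVNZ
  have hQA : SpecQA := specQA hSLZ specREV specBRI hZ0
  have hONE : SpecONE := specONE specFIN0 hQA (specSYM specFIN0)
  exact specFIN specFIN0 (specTT specVK) (specTQ specSGA specSGB) specZG (specFK hTWO) hONE
    specCERT specEVL specGRO specWB

end Pool.Agent.Lib.MPd9449f
end
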