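import Pool.Agent.Lib.MP_d9449f_ag.OQ.SpecS

section
/-!
# ADJ: the operators `up` and `dn` are transposed to each other
-/
open PowerSeries Finset

namespace Pool.Agent.Lib.MPd9449f

namespace ADJM

variable {N : ℕ}

theorem mem_box {L : ℕ} {l : Fin N → ℕ} : l ∈ box N L ↔ ∀ i, l i ≤ L := by
  simp [box, Fintype.mem_piFinset]

theorem mem_below {l m : Fin N → ℕ} : m ∈ below l ↔ ∀ i : Fin N, lv l (i + 1) ≤ m i ∧ m i ≤ l i := by
  simp [below, Fintype.mem_piFinset]

theorem mem_above {L : ℕ} {l m : Fin N → ℕ} : l ∈ above L m ↔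
    ∀ i : Fin N, m i ≤ l i ∧ l i ≤ (if (i : ℕ) = 0 then L else lv m (i - 1)) := by
  simp [above, Fintype.mem_piFinset]

theorem lv_lt {l : Fin N → ℕ} {i : ℕ} (h : i < N) : lv l i = l ⟨i, h⟩ := dif_pos h

theorem lv_ge {l : Fin N → ℕ} {i : ℕ} (h : ¬ i < N) : lv l i = 0 := dif_neg h

theorem iff {L : ℕ} {l m : Fin N → ℕ} :
    (l ∈ box N L ∧ m ∈ below l) ↔ (l ∈ above L m ∧ m ∈ box N L) := by
  rw [mem_box, mem_below, mem_above, mem_box]
  constructor
  · rintro ⟨h1, h2⟩
    refine ⟨fun i => ⟨(h2 i).2, ?_⟩, fun i => (h2 i).2.trans (h1 i)⟩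
    split_ifs with h0
    · exact h1 i
    · have hi : (i : ℕ) - 1 < N := by omega
      rw [lv_lt hi]
      have h3 := (h2 ⟨(i : ℕ) - 1, hi⟩).1
      have h4 : (i : ℕ) - 1 + 1 = i := by omega
      simp only [h4] at h3
      rw [lv_lt i.2] at h3
      exact h3
  · rintro ⟨h1, h2⟩
    refine ⟨fun i => ?_, fun i => ⟨?_, (h1 i).1⟩⟩
    · refine (h1 i).2.trans ?_
      split_ifs with h0
      · exact le_rfl
      · have hi : (i : ℕ) - 1 < N := by omega
        rw [lv_lt hi]
        exact h2 _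
    · by_cases hi : (i : ℕ) + 1 < N
      · rw [lv_lt hi]
        refine (h1 ⟨(i : ℕ) + 1, hi⟩).2.trans ?_
        rw [if_neg (by simp)]
        have h4 : (i : ℕ) + 1 - 1 = i := by omega
        simp only [h4]
        rw [lv_lt i.2]
      · rw [lv_ge hi]
        exact Nat.zero_le _

end ADJM

open ADJM in
theorem specADJ : SpecADJ := by
  intro B _ N L Z u v
  simp only [Finset.sum_mul, Finset.mul_sum]
  rw [Finset.sum_comm' (s := box N L) (t := fun l => below l) (t' := box N L)
    (s' := fun m => above L m) (fun l m => ADJM.iff)]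
  exact Finset.sum_congr rfl fun m _ => Finset.sum_congr rfl fun l _ => by ring

end Pool.Agent.Lib.MPd9449f
end

section
/-! VAN: Schur polynomials vanish unless the index is a partition with few rows. -/
open PowerSeries Finset

namespace Pool.Agent.Lib.MPd9449f

namespace VANM

variable {N : ℕ}

theorem lv_lt (l : Fin N → ℕ) {i : ℕ} (h : i < N) : lv l i = l ⟨i, h⟩ := by
  simp [lv, h]

theorem lv_ge (l : Fin N → ℕ) {i : ℕ} (h : N ≤ i) : lv l i = 0 := by
  simp [lv, Nat.not_lt.mpr h]

theorem lv_fin (l : Fin N → ℕ) (i : Fin N) : lv l i = l i := by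
  simp [lv]

theorem antitone_lv {l : Fin N → ℕ} (h : Antitone l) : Antitone (lv l) := by
  intro a b hab
  by_cases hb : b < N
  · rw [lv_lt l hb, lv_lt l (lt_of_le_of_lt hab hb)]
    exact h (by simpa using hab)
  · rw [lv_ge l (not_lt.mp hb)]
    exact Nat.zero_le _

theorem antitone_of_lv {l : Fin N → ℕ} (h : Antitone (lv l)) : Antitone l := by
  intro a b hab
  rw [← lv_fin l a, ← lv_fin l b]
  exact h hab

theorem mem_below {l m : Fin N → ℕ} :
    m ∈ below l ↔ ∀ i : Fin N, lv l (i + 1) ≤ m i ∧ m i ≤ l i := by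
  simp [below, Fintype.mem_piFinset]

theorem below_lv {l m : Fin N → ℕ} (h : m ∈ below l) (i : ℕ) :
    lv l (i + 1) ≤ lv m i ∧ lv m i ≤ lv l i := by
  by_cases hi : i < N
  · have := mem_below.mp h ⟨i, hi⟩
    rw [lv_lt m hi, lv_lt l hi]
    exact this
  · have hi' := not_lt.mp hi
    rw [lv_ge m hi', lv_ge l hi', lv_ge l (by omega)]
    exact ⟨le_rfl, le_rfl⟩

theorem antitone_of_below {l m : Fin N → ℕ} (h : m ∈ below l) : Antitone l := by
  apply antitone_of_lv
  apply antitone_nat_of_succ_le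
  intro n
  have := below_lv h n
  omega

theorem antitone_of_below' {l m : Fin N → ℕ} (h : m ∈ below l) : Antitone m := by
  apply antitone_of_lv
  apply antitone_nat_of_succ_le
  intro n
  have h1 := below_lv h n
  have h2 := below_lv h (n + 1)
  omega

theorem eq_zero_of {l : Fin N → ℕ} (h : Antitone l) (h0 : lv l 0 = 0) : l = 0 := by
  funext i
  have := antitone_lv h (Nat.zero_le (i : ℕ))
  rw [lv_fin, h0] at this
  simpa using this

theorem main {B : Type} [CommRing B] (X : ℕ → B) (k : ℕ) :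
    ∀ l : Fin N → ℕ, ¬(Antitone l ∧ lv l k = 0) → sch X k l = 0 := by
  induction k with
  | zero =>
    intro l hl
    have hne : l ≠ 0 := by
      rintro rfl
      apply hl
      refine ⟨fun _ _ _ => le_rfl, ?_⟩
      by_cases h : 0 < N
      · rw [lv_lt _ h]; rfl
      · rw [lv_ge _ (by omega)]
    simp [sch, up, del, hne]
  | succ k ih =>
    intro l hl
    change (∑ m ∈ below l, X k ^ (sz l - sz m) * sch X k m) = 0
    apply Finset.sum_eq_zero
    intro m hm
    rw [ih m, mul_zero]
    rintro ⟨_, h2⟩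
    apply hl
    refine ⟨antitone_of_below hm, ?_⟩
    have := (below_lv hm k).1
    omega

end VANM

theorem specVAN : SpecVAN := by
  intro B _ N k X l h
  exact VANM.main X k l h

end Pool.Agent.Lib.MPd9449f
end

section
/-! ALT: the branching rule for bialternants. -/
open PowerSeries Finset

namespace Pool.Agent.Lib.MPd9449f

namespace ALTM

open VANM

variable {B : Type} [CommRing B]

theorem det_next {n : ℕ} {P Q : Matrix (Fin (n + 1)) (Fin (n + 1)) B} (c : Fin n → B)
    (h0 : ∀ i, P i (Fin.last n) = Q i (Fin.last n))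
    (h1 : ∀ (i) (j : Fin n), P i j.castSucc = Q i j.castSucc + c j * P i j.succ) :
    P.det = Q.det := by
  rw [← Matrix.det_submatrix_equiv_self Fin.revPerm P,
    ← Matrix.det_submatrix_equiv_self Fin.revPerm Q]
  apply Matrix.det_eq_of_forall_col_eq_smul_add_pred (fun j => c (Fin.rev j))
  · intro i
    simp only [Matrix.submatrix_apply, Fin.revPerm_apply, Fin.rev_zero]
    exact h0 _
  · intro i j
    simp only [Matrix.submatrix_apply, Fin.revPerm_apply, Fin.rev_succ, Fin.rev_castSucc]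
    exact h1 _ _

theorem geom (x y : B) (p q c : ℕ) (h : p ≤ q) :
    (x - y) * ∑ t ∈ Icc p q, y ^ (q - t) * x ^ (t + c) =
      x ^ (q + 1 + c) - y ^ (q - p + 1) * x ^ (p + c) := by
  have h1 : ∑ t ∈ Icc p q, y ^ (q - t) * x ^ (t + c) =
      x ^ (p + c) * ∑ i ∈ range (q - p + 1), x ^ i * y ^ (q - p + 1 - 1 - i) := by
    have : Icc p q = Ico p (q + 1) := by
      ext a
      simp only [mem_Icc, mem_Ico]
      omega
    rw [this, Finset.sum_Ico_eq_sum_range, Finset.mul_sum]
    have : q + 1 - p = q - p + 1 := by omega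
    rw [this]
    refine Finset.sum_congr rfl fun i hi => ?_
    rw [mem_range] at hi
    have e1 : q - (p + i) = q - p + 1 - 1 - i := by omega
    have e2 : p + i + c = (p + c) + i := by omega
    rw [e1, e2, pow_add]
    ring
  have h2 := geom_sum₂_mul x y (q - p + 1)
  have e3 : q + 1 + c = (p + c) + (q - p + 1) := by omega
  rw [h1, e3, pow_add x (p + c)]
  linear_combination (x ^ (p + c)) * h2

theorem prod_fin_split {N : ℕ} (k : ℕ) (hk : k + 1 ≤ N) (g : Fin N → B) (s : Fin k → B) (u : B)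
    (h1 : ∀ (a : Fin N) (h : (a : ℕ) < k), g a = s ⟨a, h⟩)
    (h2 : ∀ a : Fin N, (a : ℕ) = k → g a = u)
    (h3 : ∀ a : Fin N, k < (a : ℕ) → g a = 1) :
    ∏ a, g a = (∏ j, s j) * u := by
  set G : ℕ → B := fun a => if h : a < k then s ⟨a, h⟩ else if a = k then u else 1 with hG
  have e1 : ∏ a, g a = ∏ a : Fin N, G a := by
    refine Finset.prod_congr rfl fun a _ => ?_
    rw [hG]
    simp only
    by_cases ha : (a : ℕ) < k
    · rw [dif_pos ha, h1 a ha]
    · rw [dif_neg ha]
      by_cases hb : (a : ℕ) = k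
      · rw [if_pos hb, h2 a hb]
      · rw [if_neg hb, h3 a (by omega)]
  rw [e1, Fin.prod_univ_eq_prod_range G N]
  have e2 : ∏ a ∈ range N, G a = ∏ a ∈ range (k + 1), G a := by
    symm
    apply Finset.prod_subset
    · intro a ha
      rw [mem_range] at ha ⊢
      omega
    · intro a _ ha
      rw [mem_range] at ha
      rw [hG]
      simp only
      rw [dif_neg (by omega), if_neg (by omega)]
  rw [e2, Finset.prod_range_succ]
  congr 1
  · rw [← Fin.prod_univ_eq_prod_range G k]
    refine Finset.prod_congr rfl fun a _ => ?_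
    rw [hG]
    simp
  · rw [hG]
    simp

/-- the determinant of differences of adjacent columns -/
theorem det_alt (k : ℕ) (X : ℕ → B) (f : ℕ → ℕ) (hf : ∀ j, f (j + 1) ≤ f j) :
    alt (k + 1) X f = X k ^ f k *
      Matrix.det (Matrix.of fun i j : Fin k => X i ^ (f j + 1 + (k - 1 - j)) -
        X k ^ (f j - f (j + 1) + 1) * X i ^ (f (j + 1) + (k - 1 - j))) := by
  have h1 : alt (k + 1) X f = Matrix.det (Matrix.of fun i j : Fin (k + 1) =>
      if (j : ℕ) < k then X i ^ (f j + 1 + (k - 1 - j)) -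
        X k ^ (f j - f (j + 1) + 1) * X i ^ (f (j + 1) + (k - 1 - j)) else X i ^ f k) := by
    rw [alt]
    apply det_next (fun j => X k ^ (f j - f (j + 1) + 1))
    · intro i
      simp
    · intro i j
      have hj := j.2
      simp only [Matrix.of_apply, Fin.val_castSucc, Fin.val_succ, if_pos hj]
      have e1 : f j + (k + 1 - 1 - j) = f j + 1 + (k - 1 - j) := by omega
      have e2 : k + 1 - 1 - (j + 1) = k - 1 - (j : ℕ) := by omega
      rw [e1, e2]
      ring
  rw [h1, Matrix.det_succ_row _ (Fin.last k), Fin.sum_univ_castSucc]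
  rw [Finset.sum_eq_zero, zero_add]
  · simp only [Matrix.of_apply, Fin.val_last, lt_irrefl, if_false]
    have : (-1 : B) ^ (k + k) = 1 := by
      rw [← two_mul, pow_mul]
      simp
    rw [this, one_mul]
    congr 2
    ext i j
    simp only [Matrix.submatrix_apply, Matrix.of_apply, Fin.succAbove_last, Fin.val_castSucc]
    rw [if_pos j.2]
  · intro j _
    have hj := j.2
    have e0 : (X k ^ (f j + 1 + (k - 1 - j)) -
        X k ^ (f j - f (j + 1) + 1) * X k ^ (f (j + 1) + (k - 1 - j)) : B) = 0 := by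
      have := hf j
      rw [← pow_add]
      have : f j - f (j + 1) + 1 + (f (j + 1) + (k - 1 - j)) = f j + 1 + (k - 1 - j) := by omega
      rw [this, sub_self]
    simp only [Matrix.of_apply, Fin.val_last, Fin.val_castSucc, if_pos hj]
    rw [e0]
    ring

theorem vd_succ (X : ℕ → B) (k : ℕ) : vd X (k + 1) = vd X k * ∏ i ∈ range k, (X i - X k) := by
  rw [vd, vd, Finset.prod_range_succ]
  rw [Finset.Ico_self, Finset.prod_empty, mul_one, ← Finset.prod_mul_distrib]
  refine Finset.prod_congr rfl fun i hi => ?_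
  rw [mem_range] at hi
  rw [Finset.prod_Ico_succ_top (by omega)]

theorem main {N : ℕ} (X : ℕ → B) (k : ℕ) : ∀ l : Fin N → ℕ,
    k ≤ N → Antitone l → lv l k = 0 → vd X k * sch X k l = alt k X (lv l) := by
  induction k with
  | zero =>
    intro l _ hl h0
    have : l = 0 := eq_zero_of hl h0
    subst this
    simp [vd, sch, up, del, alt]
  | succ k ih =>
    intro l hk hl h0
    have hanti := antitone_lv hl
    rw [det_alt k X (lv l) (fun j => hanti (Nat.le_succ j))]
    have s1 : sch X (k + 1) l = ∑ m ∈ below l, X k ^ (sz l - sz m) * sch X k m := rfl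
    rw [s1, vd_succ, mul_assoc, mul_left_comm, Finset.mul_sum]
    have s2 : ∀ m ∈ below l, vd X k * (X k ^ (sz l - sz m) * sch X k m) =
        ∑ σ : Equiv.Perm (Fin k), Equiv.Perm.sign σ • ∏ a : Fin N,
          (fun (a : Fin N) (t : ℕ) => X k ^ (l a - t) *
            (if h : (a : ℕ) < k then X (σ ⟨a, h⟩) ^ (t + (k - 1 - a)) else
              if (a : ℕ) = k then (if t = 0 then 1 else 0) else 1)) a (m a) := by
      intro m hm
      have hm1 := antitone_of_below' hm
      have hle : ∀ a, m a ≤ l a := fun a => (mem_below.mp hm a).2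
      have hs : X k ^ (sz l - sz m) = ∏ a : Fin N, X k ^ (l a - m a) := by
        rw [Finset.prod_pow_eq_pow_sum]
        congr 1
        rw [sz, sz, Finset.sum_tsub_distrib _ fun a _ => hle a]
      simp only [Finset.prod_mul_distrib]
      rw [← hs]
      by_cases hmk : lv m k = 0
      · have e1 := ih m (by omega) hm1 hmk
        rw [mul_left_comm, e1, alt, Matrix.det_apply, Finset.mul_sum]
        refine Finset.sum_congr rfl fun σ _ => ?_
        rw [mul_smul_comm]
        congr 2
        rw [prod_fin_split k hk _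
          (fun j : Fin k => X (σ j) ^ (lv m j + (k - 1 - j))) 1, mul_one]
        · simp only [Matrix.of_apply]
        · intro a ha
          rw [dif_pos ha, lv_fin]
        · intro a ha
          rw [dif_neg (by omega), if_pos ha, if_pos]
          rw [← lv_fin m a, ha, hmk]
        · intro a ha
          rw [dif_neg (by omega), if_neg (by omega)]
      · rw [VANM.main X k m (fun h => hmk h.2), mul_zero, mul_zero]
        symm
        apply Finset.sum_eq_zero
        intro σ _
        have : ∏ a : Fin N, (if h : (a : ℕ) < k then X (σ ⟨a, h⟩) ^ (m a + (k - 1 - a)) else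
              if (a : ℕ) = k then (if m a = 0 then (1 : B) else 0) else 1) = 0 := by
          apply Finset.prod_eq_zero (Finset.mem_univ (⟨k, by omega⟩ : Fin N))
          rw [dif_neg (by simp), if_pos rfl, if_neg]
          rw [← lv_fin m]
          exact hmk
        rw [this, mul_zero, smul_zero]
    rw [Finset.sum_congr rfl s2, Finset.sum_comm]
    simp only [← Finset.smul_sum]
    have s3 : ∀ σ : Equiv.Perm (Fin k), (∑ m ∈ below l, ∏ a : Fin N,
          (fun (a : Fin N) (t : ℕ) => X k ^ (l a - t) *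
            (if h : (a : ℕ) < k then X (σ ⟨a, h⟩) ^ (t + (k - 1 - a)) else
              if (a : ℕ) = k then (if t = 0 then (1 : B) else 0) else 1)) a (m a)) =
        (∏ j : Fin k, ∑ t ∈ Icc (lv l (j + 1)) (lv l j),
          X k ^ (lv l j - t) * X (σ j) ^ (t + (k - 1 - j))) * X k ^ (lv l k) := by
      intro σ
      rw [below]
      refine (Finset.prod_univ_sum (fun i : Fin N => Icc (lv l (i + 1)) (l i))
        (fun (a : Fin N) (t : ℕ) => X k ^ (l a - t) *
            (if h : (a : ℕ) < k then X (σ ⟨a, h⟩) ^ (t + (k - 1 - a)) else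
              if (a : ℕ) = k then (if t = 0 then (1 : B) else 0) else 1))).symm.trans ?_
      apply prod_fin_split k hk
      · intro a ha
        rw [lv_fin]
        refine Finset.sum_congr rfl fun t _ => ?_
        simp only
        rw [dif_pos ha]
      · intro a ha
        have hz : lv l ((a : ℕ) + 1) = 0 := by rw [ha]; exact h0
        rw [hz, Finset.sum_eq_single 0]
        · rw [dif_neg (by omega), if_pos ha, if_pos rfl, mul_one, Nat.sub_zero, ← lv_fin l a, ha]
        · intro t _ ht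
          rw [dif_neg (by omega), if_pos ha, if_neg ht, mul_zero]
        · intro h
          exact absurd (by simp) h
      · intro a ha
        have hz : l a = 0 := by
          rw [← lv_fin l a]
          have := hanti (show k + 1 ≤ (a : ℕ) by omega)
          omega
        have hz' : lv l ((a : ℕ) + 1) = 0 := by
          have := hanti (show k + 1 ≤ (a : ℕ) + 1 by omega)
          omega
        rw [hz, hz']
        simp only [Icc_self, sum_singleton]
        rw [dif_neg (by omega), if_neg (by omega)]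
        simp
    simp only [s3]
    rw [Matrix.det_apply, Finset.mul_sum, Finset.mul_sum]
    refine Finset.sum_congr rfl fun σ _ => ?_
    rw [mul_smul_comm, mul_smul_comm]
    congr 1
    have s4 : ∏ i ∈ range k, (X i - X k) = ∏ j : Fin k, (X (σ j) - X k) := by
      rw [← Fin.prod_univ_eq_prod_range (fun i => X i - X k) k]
      exact (Equiv.prod_comp σ (fun j : Fin k => X j - X k)).symm
    rw [s4, ← mul_assoc, mul_comm (X k ^ lv l k), ← Finset.prod_mul_distrib]
    congr 1
    refine Finset.prod_congr rfl fun j _ => ?_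
    rw [geom _ _ _ _ _ (hanti (Nat.le_succ j))]
    simp only [Matrix.of_apply]

end ALTM

theorem specALT : SpecALT := by
  intro B _ N k X l hk hl h0
  exact ALTM.main X k l hk hl h0

end Pool.Agent.Lib.MPd9449f
end

section
/-!
# BRI: three-dimensional partitions are paths of diagonal slices
-/
open PowerSeries Finset

namespace Pool.Agent.Lib.MPd9449f

namespace BRIM

/-- the height of the column `(j, k)` -/
def ht (π : Finset Box) (j k : ℕ) : ℕ := (π.filter fun b => b.2.1 = j ∧ b.2.2 = k).card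

theorem slices_eq (N : ℕ) (π : Finset Box) (k : Fin (2 * N + 1)) (r : Fin N) :
    slices N π k r = ht π ((r : ℕ) + ((k : ℕ) - N)) ((r : ℕ) + (N - (k : ℕ))) := rfl

theorem mem_iff {π : Finset Box} (h : IsLowerSet (π : Set Box)) (i j k : ℕ) :
    (i, j, k) ∈ π ↔ i < ht π j k := by
  constructor
  · intro hm
    have hle : (range (i + 1)).card ≤ ht π j k := by
      apply Finset.card_le_card_of_injOn (fun i' => ((i', j, k) : Box))
      · intro i' hi'
        have hi'' : i' < i + 1 := by simpa using hi'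
        have hmem : ((i', j, k) : Box) ∈ (π : Set Box) := by
          apply h (a := (i, j, k)) _ hm
          exact ⟨by simp only; omega, le_refl _⟩
        simp only [coe_filter, Set.mem_setOf_eq]
        exact ⟨hmem, trivial, trivial⟩
      · intro a _ b _ hab
        simpa using congrArg Prod.fst hab
    rw [card_range] at hle
    omega
  · intro hi
    by_contra hm
    have hle : ht π j k ≤ (range i).card := by
      apply Finset.card_le_card_of_injOn (fun b : Box => b.1)
      · intro b hb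
        simp only [coe_filter, Set.mem_setOf_eq] at hb
        obtain ⟨hb1, hb2, hb3⟩ := hb
        simp only [coe_range, Set.mem_Iio]
        by_contra hlt
        apply hm
        have : ((i, j, k) : Box) ∈ (π : Set Box) := by
          apply h (a := b) _ hb1
          refine ⟨by simp only; omega, ?_, ?_⟩
          · simp only; omega
          · simp only; omega
        exact this
      · intro a ha b hb hab
        simp only [coe_filter, Set.mem_setOf_eq] at ha hb
        obtain ⟨_, ha2, ha3⟩ := ha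
        obtain ⟨_, hb2, hb3⟩ := hb
        refine Prod.ext hab (Prod.ext ?_ ?_)
        · rw [ha2, hb2]
        · rw [ha3, hb3]
    rw [card_range] at hle
    omega

theorem ht_anti {π : Finset Box} (h : IsLowerSet (π : Set Box)) {j k j' k' : ℕ} (hj : j ≤ j')
    (hk : k ≤ k') : ht π j' k' ≤ ht π j k := by
  by_contra hlt
  push_neg at hlt
  have h1 : ((ht π j k, j', k') : Box) ∈ π := (mem_iff h _ _ _).2 hlt
  have h2 : ((ht π j k, j, k) : Box) ∈ (π : Set Box) := by
    apply h (a := (ht π j k, j', k')) _ h1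
    exact ⟨le_refl _, hj, hk⟩
  have h3 := (mem_iff h _ _ _).1 h2
  exact absurd h3 (lt_irrefl _)

theorem ht_le_card (π : Finset Box) (j k : ℕ) : ht π j k ≤ π.card := card_filter_le _ _

theorem bounds {n : ℕ} {π : Finset Box} (h : π ∈ PP n) {b : Box} (hb : b ∈ π) :
    b.1 < n ∧ b.2.1 < n ∧ b.2.2 < n := by
  obtain ⟨hl, hc⟩ := h
  obtain ⟨i, j, k⟩ := b
  refine ⟨?_, ?_, ?_⟩
  · have hle : (range (i + 1)).card ≤ π.card := by
      apply Finset.card_le_card_of_injOn (fun i' => ((i', j, k) : Box))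
      · intro a ha
        have ha' : a < i + 1 := by simpa using ha
        exact hl (a := (i, j, k)) ⟨by simp only; omega, le_refl _⟩ hb
      · intro a _ b _ hab
        simpa using congrArg Prod.fst hab
    rw [card_range, hc] at hle
    simp only
    omega
  · have hle : (range (j + 1)).card ≤ π.card := by
      apply Finset.card_le_card_of_injOn (fun j' => ((i, j', k) : Box))
      · intro a ha
        have ha' : a < j + 1 := by simpa using ha
        exact hl (a := (i, j, k)) ⟨le_refl _, by simp only; omega, le_refl _⟩ hb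
      · intro a _ b _ hab
        simpa using congrArg (fun c : Box => c.2.1) hab
    rw [card_range, hc] at hle
    simp only
    omega
  · have hle : (range (k + 1)).card ≤ π.card := by
      apply Finset.card_le_card_of_injOn (fun k' => ((i, j, k') : Box))
      · intro a ha
        have ha' : a < k + 1 := by simpa using ha
        exact hl (a := (i, j, k)) ⟨le_refl _, le_refl _, by simp only; omega⟩ hb
      · intro a _ b _ hab
        simpa using congrArg (fun c : Box => c.2.2) hab
    rw [card_range, hc] at hle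
    simp only
    omega

theorem ht_eq_zero {π : Finset Box} {N : ℕ} (h : ∀ b ∈ π, b.2.1 < N ∧ b.2.2 < N) {j k : ℕ}
    (hjk : N ≤ j ∨ N ≤ k) : ht π j k = 0 := by
  unfold ht
  rw [card_eq_zero, filter_eq_empty_iff]
  intro b hb hb2
  have := h b hb
  omega

/-- regrouping a sum over boxes by slices and rows -/
theorem sum_regroup {M : Type} [AddCommMonoid M] {π : Finset Box} {N : ℕ}
    (h : ∀ b ∈ π, b.2.1 < N ∧ b.2.2 < N) (F : Box → M) :
    ∑ b ∈ π, F b = ∑ k ∈ range (2 * N + 1), ∑ r ∈ range N,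
      ∑ b ∈ π.filter (fun b => b.2.1 = r + (k - N) ∧ b.2.2 = r + (N - k)), F b := by
  classical
  have hmaps : ∀ b ∈ π, (fun b : Box => (N + b.2.1 - b.2.2, min b.2.1 b.2.2)) b ∈
      (range (2 * N + 1)) ×ˢ (range N) := by
    intro b hb
    have := h b hb
    simp only [mem_product, mem_range]
    omega
  rw [← Finset.sum_fiberwise_of_maps_to hmaps, Finset.sum_product]
  refine Finset.sum_congr rfl fun k hk => Finset.sum_congr rfl fun r hr => ?_
  apply Finset.sum_congr _ fun _ _ => rfl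
  apply Finset.filter_congr
  intro b hb
  have := h b hb
  rw [mem_range] at hk hr
  rw [Prod.mk.injEq]
  omega

theorem psz_slices {π : Finset Box} {N : ℕ} (h : ∀ b ∈ π, b.2.1 < N ∧ b.2.2 < N) :
    psz (slices N π) = π.card := by
  have h1 := sum_regroup h (fun _ => (1 : ℕ))
  rw [← card_eq_sum_ones] at h1
  rw [h1, Finset.sum_range]
  unfold psz sz
  refine Finset.sum_congr rfl fun k _ => ?_
  rw [Finset.sum_range]
  refine Finset.sum_congr rfl fun r _ => ?_
  rw [← card_eq_sum_ones]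
  rfl

theorem lv_lt {N : ℕ} (l : Fin N → ℕ) {i : ℕ} (h : i < N) : lv l i = l ⟨i, h⟩ := by
  unfold lv
  rw [dif_pos h]

theorem lv_ge {N : ℕ} (l : Fin N → ℕ) {i : ℕ} (h : N ≤ i) : lv l i = 0 := by
  unfold lv
  rw [dif_neg (by omega)]

theorem slc_lt {N : ℕ} (p : Fin (2 * N + 1) → Fin N → ℕ) {k : ℕ} (h : k < 2 * N + 1) :
    slc p k = p ⟨k, h⟩ := by
  unfold slc
  rw [dif_pos h]

/-- slices of a lower set, as a function of natural numbers -/
theorem lv_slc {π : Finset Box} {N : ℕ} (h : ∀ b ∈ π, b.2.1 < N ∧ b.2.2 < N) {k : ℕ}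
    (hk : k < 2 * N + 1) (r : ℕ) :
    lv (slices N π ⟨k, hk⟩) r = ht π (r + (k - N)) (r + (N - k)) := by
  by_cases hr : r < N
  · rw [lv_lt _ hr]
    rfl
  · rw [lv_ge _ (by omega), ht_eq_zero h]
    omega

theorem slices_mem {n N L : ℕ} {π : Finset Box} (h : π ∈ PP n) (hN : n < N) (hL : n ≤ L) :
    slices N π ∈ paths N L := by
  have hb : ∀ b ∈ π, b.2.1 < N ∧ b.2.2 < N := fun b hb => by
    have := bounds h hb
    omega
  unfold paths
  rw [mem_filter]
  refine ⟨?_, ?_, ?_, ?_⟩
  · rw [Fintype.mem_piFinset]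
    intro k
    unfold box
    rw [Fintype.mem_piFinset]
    intro r
    rw [mem_range, slices_eq]
    have := ht_le_card π ((r : ℕ) + ((k : ℕ) - N)) ((r : ℕ) + (N - (k : ℕ)))
    rw [h.2] at this
    omega
  · funext r
    rw [slices_eq, ht_eq_zero hb]
    · rfl
    · right
      simp
  · funext r
    rw [slices_eq, ht_eq_zero hb]
    · rfl
    · left
      simp only [Fin.val_last]
      omega
  · intro k
    have hk := k.2
    split_ifs with hkN
    · unfold below
      rw [Fintype.mem_piFinset]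
      intro r
      rw [mem_Icc]
      have e1 : k.succ = ⟨(k : ℕ) + 1, by omega⟩ := Fin.ext (by simp)
      rw [e1, lv_slc hb, slices_eq, slices_eq]
      simp only [Fin.val_castSucc]
      constructor
      · apply ht_anti h.1 <;> omega
      · apply ht_anti h.1 <;> omega
    · unfold below
      rw [Fintype.mem_piFinset]
      intro r
      rw [mem_Icc]
      have e1 : k.castSucc = ⟨(k : ℕ), by omega⟩ := Fin.ext (by simp)
      rw [e1, lv_slc hb, slices_eq, slices_eq]
      simp only [Fin.val_succ]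
      constructor
      · apply ht_anti h.1 <;> omega
      · apply ht_anti h.1 <;> omega

/-- the heights of a path -/
def hh {N : ℕ} (p : Fin (2 * N + 1) → Fin N → ℕ) (j k : ℕ) : ℕ :=
  lv (slc p (N + j - k)) (min j k)

/-- the set of boxes of a path -/
def unsl (N L : ℕ) (p : Fin (2 * N + 1) → Fin N → ℕ) : Finset Box :=
  ((range L) ×ˢ ((range N) ×ˢ (range N))).filter fun b => b.1 < hh p b.2.1 b.2.2

theorem path_step {N L : ℕ} {p : Fin (2 * N + 1) → Fin N → ℕ} (hp : p ∈ paths N L) {k : ℕ}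
    (hk : k < 2 * N) (r : ℕ) :
    if k < N then lv (slc p (k + 1)) (r + 1) ≤ lv (slc p k) r ∧
        lv (slc p k) r ≤ lv (slc p (k + 1)) r
      else lv (slc p k) (r + 1) ≤ lv (slc p (k + 1)) r ∧
        lv (slc p (k + 1)) r ≤ lv (slc p k) r := by
  unfold paths at hp
  rw [mem_filter] at hp
  obtain ⟨_, _, _, hp4⟩ := hp
  have h4 := hp4 ⟨k, hk⟩
  have e1 : slc p k = p (Fin.castSucc ⟨k, hk⟩) := by
    rw [slc_lt p (by omega : k < 2 * N + 1)]
    rfl
  have e2 : slc p (k + 1) = p (Fin.succ ⟨k, hk⟩) := by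
    rw [slc_lt p (by omega : k + 1 < 2 * N + 1)]
    rfl
  rw [e1, e2]
  simp only at h4
  by_cases hr : r < N
  · split_ifs at h4 ⊢ with hkN
    · unfold below at h4
      rw [Fintype.mem_piFinset] at h4
      have := h4 ⟨r, hr⟩
      rw [mem_Icc] at this
      rw [lv_lt _ hr, lv_lt _ hr]
      exact this
    · unfold below at h4
      rw [Fintype.mem_piFinset] at h4
      have := h4 ⟨r, hr⟩
      rw [mem_Icc] at this
      rw [lv_lt _ hr, lv_lt _ hr]
      exact this
  · have hr' : N ≤ r := by omega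
    have hr'' : N ≤ r + 1 := by omega
    split_ifs
    · rw [lv_ge _ hr', lv_ge _ hr', lv_ge _ hr'']
      exact ⟨le_refl _, le_refl _⟩
    · rw [lv_ge _ hr', lv_ge _ hr', lv_ge _ hr'']
      exact ⟨le_refl _, le_refl _⟩

theorem lv_zero {N : ℕ} (r : ℕ) : lv (0 : Fin N → ℕ) r = 0 := by
  unfold lv
  split_ifs <;> rfl

theorem rows_left {N L : ℕ} {p : Fin (2 * N + 1) → Fin N → ℕ} (hp : p ∈ paths N L) :
    ∀ k : ℕ, k ≤ N → ∀ r, k ≤ r → lv (slc p k) r = 0 := by
  intro k
  induction k with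
  | zero =>
    intro _ r _
    have h0 : slc p 0 = 0 := by
      rw [slc_lt p (by omega : 0 < 2 * N + 1)]
      unfold paths at hp
      rw [mem_filter] at hp
      exact hp.2.1
    rw [h0, lv_zero]
  | succ k ih =>
    intro hk r hr
    have hs := path_step hp (k := k) (by omega) (r - 1)
    rw [if_pos (by omega)] at hs
    have h1 := ih (by omega) (r - 1) (by omega)
    have e : r - 1 + 1 = r := by omega
    rw [e] at hs
    omega

theorem rows_right {N L : ℕ} {p : Fin (2 * N + 1) → Fin N → ℕ} (hp : p ∈ paths N L) :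
    ∀ k : ℕ, k ≤ N → ∀ r, k ≤ r → lv (slc p (2 * N - k)) r = 0 := by
  intro k
  induction k with
  | zero =>
    intro _ r _
    have h0 : slc p (2 * N - 0) = 0 := by
      rw [slc_lt p (by omega : 2 * N - 0 < 2 * N + 1)]
      unfold paths at hp
      rw [mem_filter] at hp
      exact hp.2.2.1
    rw [h0, lv_zero]
  | succ k ih =>
    intro hk r hr
    have hs := path_step hp (k := 2 * N - (k + 1)) (by omega) (r - 1)
    rw [if_neg (by omega)] at hs
    have e2 : 2 * N - (k + 1) + 1 = 2 * N - k := by omega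
    rw [e2] at hs
    have h1 := ih (by omega) (r - 1) (by omega)
    have e : r - 1 + 1 = r := by omega
    rw [e] at hs
    omega

theorem hh_succ_left {N L : ℕ} {p : Fin (2 * N + 1) → Fin N → ℕ} (hp : p ∈ paths N L) {j k : ℕ}
    (hj : j < N) (hk : k < N) : hh p (j + 1) k ≤ hh p j k := by
  unfold hh
  have hs := path_step hp (k := N + j - k) (by omega)
  have e : N + (j + 1) - k = N + j - k + 1 := by omega
  rw [e]
  by_cases hjk : k ≤ j
  · have h1 := hs k
    rw [if_neg (by omega)] at h1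
    have e1 : min (j + 1) k = k := by omega
    have e2 : min j k = k := by omega
    rw [e1, e2]
    exact h1.2
  · have h1 := hs j
    rw [if_pos (by omega)] at h1
    have e1 : min (j + 1) k = j + 1 := by omega
    have e2 : min j k = j := by omega
    rw [e1, e2]
    exact h1.1

theorem hh_succ_right {N L : ℕ} {p : Fin (2 * N + 1) → Fin N → ℕ} (hp : p ∈ paths N L) {j k : ℕ}
    (hj : j < N) (hk : k < N) : hh p j (k + 1) ≤ hh p j k := by
  unfold hh
  have hs := path_step hp (k := N + j - (k + 1)) (by omega)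
  have e : N + j - k = N + j - (k + 1) + 1 := by omega
  rw [e]
  by_cases hjk : j ≤ k
  · have h1 := hs j
    rw [if_pos (by omega)] at h1
    have e1 : min j (k + 1) = j := by omega
    have e2 : min j k = j := by omega
    rw [e1, e2]
    exact h1.2
  · have h1 := hs k
    rw [if_neg (by omega)] at h1
    have e1 : min j (k + 1) = k + 1 := by omega
    have e2 : min j k = k := by omega
    rw [e1, e2]
    exact h1.1

theorem hh_anti_left {N L : ℕ} {p : Fin (2 * N + 1) → Fin N → ℕ} (hp : p ∈ paths N L) {k : ℕ}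
    (hk : k < N) : ∀ d j : ℕ, j + d < N → hh p (j + d) k ≤ hh p j k := by
  intro d
  induction d with
  | zero => intro j _; exact le_refl _
  | succ d ih =>
    intro j hj
    have h1 := hh_succ_left hp (j := j + d) (by omega) hk
    have h2 := ih j (by omega)
    have e : j + (d + 1) = j + d + 1 := by omega
    rw [e]
    exact h1.trans h2

theorem hh_anti_right {N L : ℕ} {p : Fin (2 * N + 1) → Fin N → ℕ} (hp : p ∈ paths N L) {j : ℕ}
    (hj : j < N) : ∀ d k : ℕ, k + d < N → hh p j (k + d) ≤ hh p j k := by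
  intro d
  induction d with
  | zero => intro k _; exact le_refl _
  | succ d ih =>
    intro k hk
    have h1 := hh_succ_right hp (k := k + d) hj (by omega)
    have h2 := ih k (by omega)
    have e : k + (d + 1) = k + d + 1 := by omega
    rw [e]
    exact h1.trans h2

theorem mem_unsl {N L : ℕ} {p : Fin (2 * N + 1) → Fin N → ℕ} {i j k : ℕ} :
    ((i, j, k) : Box) ∈ unsl N L p ↔ (i < L ∧ j < N ∧ k < N) ∧ i < hh p j k := by
  unfold unsl
  rw [mem_filter, mem_product, mem_product, mem_range, mem_range, mem_range]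

theorem unsl_lower {N L : ℕ} {p : Fin (2 * N + 1) → Fin N → ℕ} (hp : p ∈ paths N L) :
    IsLowerSet (unsl N L p : Set Box) := by
  rintro ⟨i, j, k⟩ ⟨i', j', k'⟩ hle hm
  have hm' : ((i, j, k) : Box) ∈ unsl N L p := hm
  rw [mem_unsl] at hm'
  obtain ⟨hi, hj, hk⟩ := hle
  simp only at hi hj hk
  have hgoal : ((i', j', k') : Box) ∈ unsl N L p := by
    rw [mem_unsl]
    refine ⟨by omega, ?_⟩
    have h1 := hh_anti_left hp (k := k) (by omega) (j - j') j' (by omega)
    have h2 := hh_anti_right hp (j := j') (by omega) (k - k') k' (by omega)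
    have e1 : j' + (j - j') = j := by omega
    have e2 : k' + (k - k') = k := by omega
    rw [e1] at h1
    rw [e2] at h2
    omega
  exact hgoal

theorem le_L {N L : ℕ} {p : Fin (2 * N + 1) → Fin N → ℕ} (hp : p ∈ paths N L)
    (k : Fin (2 * N + 1)) (r : Fin N) : p k r ≤ L := by
  unfold paths at hp
  rw [mem_filter, Fintype.mem_piFinset] at hp
  have := hp.1 k
  unfold box at this
  rw [Fintype.mem_piFinset] at this
  have := this r
  rw [mem_range] at this
  omega

theorem unsl_bound {N L : ℕ} {p : Fin (2 * N + 1) → Fin N → ℕ} :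
    ∀ b ∈ unsl N L p, b.2.1 < N ∧ b.2.2 < N := by
  rintro ⟨i, j, k⟩ hb
  rw [mem_unsl] at hb
  exact hb.1.2

theorem slices_unsl {N L : ℕ} {p : Fin (2 * N + 1) → Fin N → ℕ} (hp : p ∈ paths N L) :
    slices N (unsl N L p) = p := by
  funext k r
  rw [slices_eq]
  have hk := k.2
  have hr := r.2
  have hpk : slc p (k : ℕ) = p k := slc_lt p hk
  have hlv : lv (slc p (k : ℕ)) (r : ℕ) = p k r := by rw [hpk, lv_lt _ hr]
  by_cases hin : (r : ℕ) + ((k : ℕ) - N) < N ∧ (r : ℕ) + (N - (k : ℕ)) < N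
  · have hhe : hh p ((r : ℕ) + ((k : ℕ) - N)) ((r : ℕ) + (N - (k : ℕ))) = p k r := by
      unfold hh
      have e1 : N + ((r : ℕ) + ((k : ℕ) - N)) - ((r : ℕ) + (N - (k : ℕ))) = k := by omega
      have e2 : min ((r : ℕ) + ((k : ℕ) - N)) ((r : ℕ) + (N - (k : ℕ))) = r := by omega
      rw [e1, e2, hlv]
    have hiff : ∀ i : ℕ, i < ht (unsl N L p) ((r : ℕ) + ((k : ℕ) - N)) ((r : ℕ) + (N - (k : ℕ))) ↔
        i < p k r := by
      intro i
      rw [← mem_iff (unsl_lower hp), mem_unsl, hhe]
      have := le_L hp k r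
      constructor
      · intro h; exact h.2
      · intro h; exact ⟨⟨by omega, hin.1, hin.2⟩, h⟩
    apply le_antisymm
    · by_contra hlt
      push_neg at hlt
      exact absurd ((hiff _).1 hlt) (lt_irrefl _)
    · by_contra hlt
      push_neg at hlt
      exact absurd ((hiff _).2 hlt) (lt_irrefl _)
  · rw [ht_eq_zero unsl_bound (by omega)]
    rw [← hlv]
    by_cases hkN : (k : ℕ) ≤ N
    · exact (rows_left hp k hkN r (by omega)).symm
    · have h1 := rows_right hp (2 * N - k) (by omega) r (by omega)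
      have e : 2 * N - (2 * N - (k : ℕ)) = k := by omega
      rw [e] at h1
      exact h1.symm

theorem bijOn {N L n : ℕ} (hN : n < N) (hL : n ≤ L) :
    Set.BijOn (slices N) (PP n) (((paths N L).filter fun p => psz p = n : Finset _) : Set _) := by
  refine ⟨?_, ?_, ?_⟩
  · intro π hπ
    have hb : ∀ b ∈ π, b.2.1 < N ∧ b.2.2 < N := fun b hb => by
      have := bounds hπ hb
      omega
    rw [mem_coe, mem_filter]
    exact ⟨slices_mem hπ hN hL, (psz_slices hb).trans hπ.2⟩
  · intro π hπ σ hσ he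
    ext ⟨i, j, k⟩
    rw [mem_iff hπ.1, mem_iff hσ.1]
    by_cases hjk : j < N ∧ k < N
    · have h1 : ht π j k = ht σ j k := by
        have h2 := congrFun (congrFun he ⟨N + j - k, by omega⟩) ⟨min j k, by omega⟩
        rw [slices_eq, slices_eq] at h2
        have e1 : min j k + (N + j - k - N) = j := by omega
        have e2 : min j k + (N - (N + j - k)) = k := by omega
        simp only [e1, e2] at h2
        exact h2
      rw [h1]
    · have hb1 : ∀ b ∈ π, b.2.1 < N ∧ b.2.2 < N := fun b hb => by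
        have := bounds hπ hb
        omega
      have hb2 : ∀ b ∈ σ, b.2.1 < N ∧ b.2.2 < N := fun b hb => by
        have := bounds hσ hb
        omega
      rw [ht_eq_zero hb1 (by omega), ht_eq_zero hb2 (by omega)]
  · intro p hp
    rw [mem_coe, mem_filter] at hp
    obtain ⟨hp1, hp2⟩ := hp
    refine ⟨unsl N L p, ⟨unsl_lower hp1, ?_⟩, slices_unsl hp1⟩
    rw [← psz_slices (unsl_bound (p := p) (L := L)), slices_unsl hp1, hp2]

end BRIM

theorem specBRI : SpecBRI := by
  intro R _ N L n Ψ hN hL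
  rw [finsum_mem_eq_of_bijOn (g := Ψ) (slices N) (BRIM.bijOn hN hL) (fun _ _ => rfl),
    finsum_mem_coe_finset]

end Pool.Agent.Lib.MPd9449f
end

section
open PowerSeries Finset

namespace Pool.Agent.Lib.MPd9449f

namespace CAUM

lemma dn_succ' {N : ℕ} {B : Type} [CommRing B] (L : ℕ) (Z : ℕ → B) (v : (Fin N → ℕ) → B) (n : ℕ) :
    ∀ m, dn L Z v (n + 1) m =
      dn L (fun t => Z (t + 1)) (fun m => ∑ l ∈ above L m, Z 0 ^ (sz l - sz m) * v l) n m := by
  induction n with
  | zero => intro m; simp [dn]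
  | succ n ih =>
    intro m
    rw [dn]
    conv_rhs => rw [dn]
    refine Finset.sum_congr rfl fun l _ => ?_
    rw [ih l]

lemma dn_congr {N : ℕ} {B : Type} [CommRing B] (L : ℕ) (Z Z' : ℕ → B) (v : (Fin N → ℕ) → B)
    (n : ℕ) (h : ∀ t < n, Z t = Z' t) : ∀ m, dn L Z v n m = dn L Z' v n m := by
  induction n with
  | zero => intro m; rfl
  | succ n ih =>
    intro m
    rw [dn, dn]
    refine Finset.sum_congr rfl fun l _ => ?_
    rw [ih (fun t ht => h t (by omega)) l, h n (by omega)]

lemma up_congr {N : ℕ} {B : Type} [CommRing B] (Z Z' : ℕ → B) (v : (Fin N → ℕ) → B)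
    (n : ℕ) (h : ∀ t < n, Z t = Z' t) : ∀ m, up Z v n m = up Z' v n m := by
  induction n with
  | zero => intro m; rfl
  | succ n ih =>
    intro m
    rw [up, up]
    refine Finset.sum_congr rfl fun l _ => ?_
    rw [ih (fun t ht => h t (by omega)) l, h n (by omega)]

lemma adj_iter (hADJ : SpecADJ) {N : ℕ} {B : Type} [CommRing B] (L : ℕ) (Xv : ℕ → B)
    (u : (Fin N → ℕ) → B) (n : ℕ) : ∀ v : (Fin N → ℕ) → B,
    ∑ l ∈ box N L, up Xv u n l * v l =
      ∑ m ∈ box N L, u m * dn L (fun t => Xv (n - 1 - t)) v n m := by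
  induction n with
  | zero => intro v; rfl
  | succ n ih =>
    intro v
    have h1 := hADJ B N L (Xv n) (up Xv u n) v
    rw [show (∑ l ∈ box N L, up Xv u (n + 1) l * v l) =
      ∑ l ∈ box N L, (∑ m ∈ below l, Xv n ^ (sz l - sz m) * up Xv u n m) * v l from rfl, h1, ih]
    refine Finset.sum_congr rfl fun m _ => ?_
    congr 1
    rw [dn_succ']
    simp only [Nat.add_sub_cancel, Nat.sub_zero]
    apply dn_congr
    intro t ht
    congr 1
    omega

lemma zero_mem_box (N L : ℕ) : (0 : Fin N → ℕ) ∈ box N L := by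
  simp [box, Fintype.mem_piFinset]

lemma below_zero (N : ℕ) : below (0 : Fin N → ℕ) = {0} := by
  ext m
  rw [below, Fintype.mem_piFinset, Finset.mem_singleton]
  constructor
  · intro h
    funext i
    have := (Finset.mem_Icc.mp (h i)).2
    simpa using this
  · rintro rfl i
    rw [Finset.mem_Icc]
    refine ⟨?_, le_rfl⟩
    simp only [lv]
    split_ifs <;> simp

lemma sch_zero {N : ℕ} {B : Type} [CommRing B] (Y : ℕ → B) (k : ℕ) :
    sch Y k (0 : Fin N → ℕ) = 1 := by
  unfold sch
  induction k with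
  | zero => simp [up, del]
  | succ k ih =>
    rw [up]
    show ∑ m ∈ below (0 : Fin N → ℕ), Y k ^ (sz (0 : Fin N → ℕ) - sz m) * up Y del k m = 1
    rw [below_zero]; simp [ih]

end CAUM

open CAUM in
theorem specCAU (hADJ : SpecADJ) (hRV : SpecRV) : SpecCAU := by
  intro R _ _ N L n Xv Y hN hv hX
  have h1 : ∑ m ∈ box N L, sch Xv n m * sch Y N m =
      dn L (fun t => Xv (n - 1 - t)) (sch Y N) n (0 : Fin N → ℕ) := by
    unfold sch
    rw [adj_iter hADJ L Xv del n]
    rw [Finset.sum_eq_single_of_mem 0 (zero_mem_box N L)]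
    · simp [del]
    · intro b _ hb
      simp [del, hb]
  have h0 : lv (0 : Fin N → ℕ) 0 = 0 := by simp [lv]
  have h2 := hRV R N L n Y (fun t => Xv (n - 1 - t)) 0 hN hv (fun t => hX _)
    (fun _ _ _ => le_rfl) (by rw [h0]; exact Nat.zero_le _)
  rw [h0, pow_zero, one_mul, sch_zero] at h2
  rw [h1]
  have h3 : ∏ t ∈ range n, ∏ l ∈ range N, (1 - Xv (n - 1 - t) * Y l) =
      ∏ i ∈ range n, ∏ l ∈ range N, (1 - Xv i * Y l) :=
    Finset.prod_range_reflect (fun i => ∏ l ∈ range N, (1 - Xv i * Y l)) n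
  rw [h3] at h2
  exact h2

end Pool.Agent.Lib.MPd9449f
end

section
/-!
# The character of a slice and the eigenvalue (module CEV)
-/
open PowerSeries Finset

namespace Pool.Agent.Lib.MPd9449f

namespace CEVM

theorem slc_of_lt {N : ℕ} (p : Fin (2 * N + 1) → Fin N → ℕ) (k : ℕ) (h : k < 2 * N + 1) :
    slc p k = p ⟨k, h⟩ := by
  unfold slc
  rw [dif_pos h]

theorem lv_le_of_below {N : ℕ} {m l : Fin N → ℕ} (h : m ∈ below l) (i : ℕ) :
    lv l (i + 1) ≤ lv m i := by
  unfold below at h
  rw [Fintype.mem_piFinset] at h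
  by_cases hi : i < N
  · have h1 := h ⟨i, hi⟩
    rw [mem_Icc] at h1
    unfold lv at h1 ⊢
    rw [dif_pos hi]
    exact h1.1
  · unfold lv
    rw [dif_neg (by omega), dif_neg hi]

theorem mem_paths {N L : ℕ} {p : Fin (2 * N + 1) → Fin N → ℕ} (hp : p ∈ paths N L) :
    slc p 0 = 0 ∧ slc p (2 * N) = 0 ∧ (∀ k, k < N → slc p k ∈ below (slc p (k + 1))) ∧
      ∀ k, N ≤ k → k < 2 * N → slc p (k + 1) ∈ below (slc p k) := by
  unfold paths at hp
  rw [Finset.mem_filter] at hp
  obtain ⟨-, h0, h1, h2⟩ := hp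
  refine ⟨?_, ?_, ?_, ?_⟩
  · rw [slc_of_lt p 0 (by omega)]; exact h0
  · rw [slc_of_lt p (2 * N) (by omega)]; exact h1
  · intro k hk
    have h3 := h2 ⟨k, by omega⟩
    rw [if_pos hk] at h3
    rw [slc_of_lt p k (by omega), slc_of_lt p (k + 1) (by omega)]
    exact h3
  · intro k hk hk2
    have h3 := h2 ⟨k, hk2⟩
    rw [if_neg (by simp; omega)] at h3
    rw [slc_of_lt p k (by omega), slc_of_lt p (k + 1) (by omega)]
    exact h3

theorem lv_zero {N : ℕ} (i : ℕ) : lv (0 : Fin N → ℕ) i = 0 := by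
  unfold lv
  split_ifs <;> rfl

/-- rows of the left slices -/
theorem rows_left {N L : ℕ} {p : Fin (2 * N + 1) → Fin N → ℕ} (hp : p ∈ paths N L) :
    ∀ k, k ≤ N → ∀ i, k ≤ i → lv (slc p k) i = 0 := by
  obtain ⟨h0, -, h2, -⟩ := mem_paths hp
  intro k
  induction k with
  | zero => intro _ i _; rw [h0, lv_zero]
  | succ k ih =>
    intro hk i hi
    obtain ⟨j, rfl⟩ : ∃ j, i = j + 1 := ⟨i - 1, by omega⟩
    have h3 := lv_le_of_below (h2 k (by omega)) j
    rw [ih (by omega) j (by omega)] at h3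
    omega

/-- rows of the right slices -/
theorem rows_right {N L : ℕ} {p : Fin (2 * N + 1) → Fin N → ℕ} (hp : p ∈ paths N L) :
    ∀ t, t ≤ N → ∀ i, t ≤ i → lv (slc p (2 * N - t)) i = 0 := by
  obtain ⟨-, h0, -, h2⟩ := mem_paths hp
  intro t
  induction t with
  | zero => intro _ i _; rw [Nat.sub_zero, h0, lv_zero]
  | succ t ih =>
    intro hk i hi
    obtain ⟨j, rfl⟩ : ∃ j, i = j + 1 := ⟨i - 1, by omega⟩
    have h3 := lv_le_of_below (h2 (2 * N - (t + 1)) (by omega) (by omega)) j
    rw [show 2 * N - (t + 1) + 1 = 2 * N - t by omega, ih (by omega) j (by omega)] at h3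
    omega

theorem geom {R : Type} [CommRing R] (x : R) (n : ℕ) :
    (1 - x) * ∑ i ∈ range n, x ^ i = 1 - x ^ n := by
  induction n with
  | zero => simp
  | succ n ih => rw [Finset.sum_range_succ, mul_add, ih, pow_succ]; ring

theorem pow_inv {R : Type} [CommRing R] (x xi : R) (hx : x * xi = 1) (a b : ℕ) (h : a ≤ b) :
    xi ^ b * x ^ (b - a) = xi ^ a := by
  obtain ⟨c, rfl⟩ := Nat.exists_eq_add_of_le h
  rw [Nat.add_sub_cancel_left, pow_add, mul_assoc, ← mul_pow, mul_comm xi x, hx, one_pow, mul_one]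

/-- the identity for a function with at most `k` rows -/
theorem main {N : ℕ} {R : Type} [CommRing R] (x xi : R) (hx : x * xi = 1) (l : Fin N → ℕ)
    (k : ℕ) (hk1 : 1 ≤ k) (hk : k ≤ N) (hl : ∀ i, k ≤ i → lv l i = 0) :
    (1 - x) * Cst x xi l =
      ∑ r ∈ range k, xi ^ r - xi ^ (k - 1) * ∑ j ∈ range k, x ^ (lv l j + (k - 1 - j)) := by
  have h1 : (1 - x) * Cst x xi l = ∑ r ∈ range N, xi ^ r * (1 - x ^ lv l r) := by
    unfold Cst
    rw [Finset.mul_sum, ← Fin.sum_univ_eq_sum_range (fun r => xi ^ r * (1 - x ^ lv l r)) N]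
    refine Finset.sum_congr rfl fun r _ => ?_
    rw [← Finset.sum_mul, ← mul_assoc, geom]
    have h2 : lv l (r : ℕ) = l r := by
      unfold lv
      rw [dif_pos r.2]
    rw [h2]
    ring
  have h2 : ∑ r ∈ range N, xi ^ r * (1 - x ^ lv l r) =
      ∑ r ∈ range k, xi ^ r * (1 - x ^ lv l r) := by
    refine (Finset.sum_subset (Finset.range_mono hk) fun r _ hr => ?_).symm
    rw [Finset.mem_range, not_lt] at hr
    rw [hl r hr]
    simp
  rw [h1, h2, Finset.mul_sum, ← Finset.sum_sub_distrib]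
  refine Finset.sum_congr rfl fun r hr => ?_
  rw [Finset.mem_range] at hr
  have h3 := pow_inv x xi hx r (k - 1) (by omega)
  rw [pow_add]
  linear_combination (x ^ lv l r) * h3

end CEVM

open CEVM in
theorem specCEV : SpecCEV := by
  intro R _ N L k k' x xi p hx hp hk1 hk hkN hor
  refine main x xi hx (slc p k) k' hk1 hk fun i hi => ?_
  rcases hor with h | h
  · exact rows_left hp k (by omega) i (by omega)
  · have h1 := rows_right hp (2 * N - k) (by omega) i (by omega)
    rwa [show 2 * N - (2 * N - k) = k by omega] at h1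

end Pool.Agent.Lib.MPd9449f
end

section
/-!
# CHA: sums over paths with functions of two slices, on different sides
-/
open PowerSeries Finset

namespace Pool.Agent.Lib.MPd9449f

namespace CHAM

section general

variable {N : ℕ} {B : Type} [CommRing B]

theorem mem_below {l m : Fin N → ℕ} : m ∈ below l ↔ ∀ i : Fin N, lv l (i + 1) ≤ m i ∧ m i ≤ l i := by
  simp [below, Fintype.mem_piFinset]

theorem sz_le {l m : Fin N → ℕ} (h : m ∈ below l) : sz m ≤ sz l :=
  Finset.sum_le_sum fun i _ => (mem_below.1 h i).2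

theorem sz_zero : sz (0 : Fin N → ℕ) = 0 := by simp [sz]

theorem mul_del (f : (Fin N → ℕ) → B) (l : Fin N → ℕ) : f l * del l = f 0 * del l := by
  unfold del
  split_ifs with h
  · rw [h]
  · rw [mul_zero, mul_zero]

theorem chn_congr {E E' : ℕ → (Fin N → ℕ) → B} {k : ℕ} (h : ∀ j ≤ k, ∀ l, E j l = E' j l)
    (l : Fin N → ℕ) : chn E k l = chn E' k l := by
  induction k generalizing l with
  | zero => simp only [chn]; rw [h 0 le_rfl]
  | succ k ih =>
    simp only [chn]
    rw [h (k + 1) le_rfl]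
    congr 1
    exact Finset.sum_congr rfl fun m _ => ih (fun j hj => h j (by omega)) m

theorem up_congr {X X' : ℕ → B} {v v' : (Fin N → ℕ) → B} {k : ℕ} (h : ∀ j < k, X j = X' j)
    (hv : ∀ l, v l = v' l) (l : Fin N → ℕ) : up X v k l = up X' v' k l := by
  induction k generalizing l with
  | zero => exact hv l
  | succ k ih =>
    simp only [up]
    rw [h k (by omega)]
    exact Finset.sum_congr rfl fun m _ => by rw [ih (fun j hj => h j (by omega)) m]

/-- insertion of a factor at the last step -/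
theorem chn_ins {E E' : ℕ → (Fin N → ℕ) → B} {G : (Fin N → ℕ) → B} {k : ℕ}
    (h : ∀ j < k, ∀ l, E' j l = E j l) (hk : ∀ l, E' k l = G l * E k l) (l : Fin N → ℕ) :
    chn E' k l = G l * chn E k l := by
  cases k with
  | zero => simp only [chn]; rw [hk, mul_assoc]
  | succ k =>
    simp only [chn]
    rw [hk, mul_assoc]
    congr 2
    exact Finset.sum_congr rfl fun m _ => chn_congr (fun j hj => h j (by omega)) m

/-- `q^(c_k |l|)` times a chain sum is the iteration of the operators -/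
theorem up_chn (q : B) (c : ℕ → ℕ) (E : ℕ → (Fin N → ℕ) → B) (k : ℕ) (v : (Fin N → ℕ) → B)
    (hv : ∀ m, v m = q ^ (c k * sz m) * chn E k m) :
    ∀ t, (∀ j, k ≤ j → j < k + t → ∀ l, q ^ (c (j + 1) * sz l) * E (j + 1) l = q ^ (c j * sz l)) →
      ∀ l, up (fun s => q ^ c (k + s)) v t l = q ^ (c (k + t) * sz l) * chn E (k + t) l := by
  intro t
  induction t with
  | zero => intro _ l; exact hv l
  | succ t ih =>
    intro h l
    simp only [up]
    have ih' := ih (fun j h1 h2 => h j h1 (by omega))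
    have h1 : k + (t + 1) = (k + t) + 1 := by omega
    rw [h1]
    simp only [chn]
    rw [← mul_assoc, h (k + t) (by omega) (by omega) l, Finset.mul_sum]
    refine Finset.sum_congr rfl fun m hm => ?_
    rw [ih' m, ← pow_mul, ← mul_assoc, ← pow_add]
    have h2 : sz l - sz m + sz m = sz l := Nat.sub_add_cancel (sz_le hm)
    rw [← Nat.mul_add, h2]

theorem del_chn (q : B) (c : ℕ → ℕ) (E : ℕ → (Fin N → ℕ) → B) (h0 : E 0 0 = 1) (m : Fin N → ℕ) :
    del m = q ^ (c 0 * sz m) * chn E 0 m := by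
  simp only [chn]
  rw [← mul_assoc, mul_del (fun m => q ^ (c 0 * sz m) * E 0 m)]
  rw [sz_zero, mul_zero, pow_zero, h0, one_mul, one_mul]

theorem sch_chn (q : B) (c : ℕ → ℕ) (E : ℕ → (Fin N → ℕ) → B) (k : ℕ) (h0 : E 0 0 = 1)
    (h : ∀ j < k, ∀ l, q ^ (c (j + 1) * sz l) * E (j + 1) l = q ^ (c j * sz l)) (l : Fin N → ℕ) :
    sch (fun j => q ^ c j) k l = q ^ (c k * sz l) * chn E k l := by
  have h1 := up_chn q c E 0 del (del_chn q c E h0) k (fun j _ hj l => h j (by omega) l) l
  simp only [Nat.zero_add] at h1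
  exact h1

/-- `slc` at a valid index -/
theorem slc_eq {p : Fin (2 * N + 1) → Fin N → ℕ} {k : ℕ} (h : k < 2 * N + 1) :
    slc p k = p ⟨k, h⟩ := dif_pos h

theorem prod_ins {n : ℕ} (f : Fin n → B) {k : ℕ} (h : k < n) :
    (∏ j : Fin n, if (j : ℕ) = k then f j else 1) = f ⟨k, h⟩ := by
  rw [Finset.prod_eq_single (⟨k, h⟩ : Fin n)]
  · simp
  · intro b _ hb
    rw [if_neg]
    intro h1
    exact hb (Fin.ext h1)
  · intro h1
    exact absurd (Finset.mem_univ _) h1

end general

variable {R : Type} [CommRing R] {N : ℕ}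

/-- the weights of the slices -/
noncomputable def DD (k1 k2 : ℕ) (G1 G2 : (Fin N → ℕ) → PowerSeries R) (k : ℕ)
    (l : Fin N → ℕ) : PowerSeries R :=
  X ^ sz l * ((if k = k1 then G1 l else 1) * (if k = k2 then G2 l else 1))

theorem avg_eq (hPS : SpecPS) {L k1 k2 : ℕ} (G1 G2 : (Fin N → ℕ) → PowerSeries R) (hN : 1 ≤ N)
    (h1 : k1 ≤ 2 * N) (h2 : k2 ≤ 2 * N) :
    avg N L k1 k2 G1 G2 = ∑ l ∈ box N L, chn (DD k1 k2 G1 G2) N l *
      ∑ m ∈ below l, chn (fun j => DD k1 k2 G1 G2 (2 * N - j)) (N - 1) m := by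
  rw [← hPS _ N L (DD k1 k2 G1 G2) hN, avg]
  refine Finset.sum_congr rfl fun p _ => ?_
  simp only [DD]
  rw [Finset.prod_mul_distrib, Finset.prod_mul_distrib, Finset.prod_pow_eq_pow_sum,
    prod_ins (fun k => G1 (p k)) (Nat.lt_succ_of_le h1),
    prod_ins (fun k => G2 (p k)) (Nat.lt_succ_of_le h2), slc_eq (Nat.lt_succ_of_le h1),
    slc_eq (Nat.lt_succ_of_le h2)]
  rfl

/-- the right half of a path with a function of the slice `2N - k'`, `k' ≤ N`, which is inserted
before the last step (including the slice `N`) -/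
theorem right_eq (G : (Fin N → ℕ) → PowerSeries R) {k' : ℕ} (hN : 1 ≤ N) (hk : k' ≤ N)
    (E : ℕ → (Fin N → ℕ) → PowerSeries R) (hE : ∀ j < N, ∀ l, E j l = X ^ sz l * (if j = k' then G l else 1))
    (hEN : ∀ l, E N l = if N = k' then G l else 1) (l : Fin N → ℕ) :
    up (fun t => X ^ (N - 1 - (k' + t)))
      (fun m => G m * sch (fun j => (X : PowerSeries R) ^ (N - 1 - j)) k' m) (N - k') l =
      chn E N l := by
  have hv : ∀ m, G m * sch (fun j => (X : PowerSeries R) ^ (N - 1 - j)) k' m =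
      X ^ ((N - 1 - k') * sz m) * chn E k' m := by
    intro m
    let E0 : ℕ → (Fin N → ℕ) → PowerSeries R := fun j l => if j < N then X ^ sz l else 1
    have h1 := sch_chn (X : PowerSeries R) (fun j => N - 1 - j) E0 k'
      (by simp only [E0]; rw [if_pos (by omega), sz_zero, pow_zero])
      (by
        intro j hj l
        simp only [E0]
        by_cases h : j + 1 < N
        · rw [if_pos h, ← pow_add]
          congr 1
          have h3 : N - 1 - j = (N - 1 - (j + 1)) + 1 := by omega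
          rw [h3, Nat.add_mul, Nat.one_mul]
        · rw [if_neg h, mul_one]
          have h3 : N - 1 - j = N - 1 - (j + 1) := by omega
          rw [h3]) m
    rw [h1]
    have h2 : chn E k' m = G m * chn E0 k' m := by
      refine chn_ins ?_ ?_ m
      · intro j hj l
        rw [hE j (by omega), if_neg (by omega), mul_one]
        simp only [E0]
        rw [if_pos (by omega)]
      · intro l
        simp only [E0]
        by_cases h : k' < N
        · rw [hE k' h, if_pos rfl, if_pos h, mul_comm]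
        · have h3 : k' = N := by omega
          subst h3
          rw [hEN, if_pos rfl, if_neg (lt_irrefl _), mul_one]
    rw [h2]
    ring
  have h2 := up_chn (X : PowerSeries R) (fun j => N - 1 - j) E k' _ hv (N - k')
    (by
      intro j h1 h2 l
      by_cases h : j + 1 < N
      · rw [hE _ h, if_neg (by omega), mul_one, ← pow_add]
        congr 1
        have h3 : N - 1 - j = (N - 1 - (j + 1)) + 1 := by omega
        rw [h3, Nat.add_mul, Nat.one_mul]
      · have h3 : j + 1 = N := by omega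
        rw [h3, hEN, if_neg (by omega), mul_one]
        have h4 : N - 1 - j = N - 1 - N := by omega
        rw [h4]) l
  rw [h2]
  have h3 : k' + (N - k') = N := by omega
  have h4 : N - 1 - N = 0 := by omega
  rw [h3, h4, Nat.zero_mul, pow_zero, one_mul]

/-- the left half of a path with a function of the slice `k1`; the slice `N` is included -/
theorem left_eq (G : (Fin N → ℕ) → PowerSeries R) {k1 t : ℕ} (hk : k1 + t ≤ N)
    (E : ℕ → (Fin N → ℕ) → PowerSeries R)
    (hE : ∀ j ≤ k1 + t, ∀ l, E j l = X ^ sz l * (if j = k1 then G l else 1)) (l : Fin N → ℕ) :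
    up (fun t => X ^ (N - (k1 + t)))
      (fun m => G m * sch (fun j => (X : PowerSeries R) ^ (N - j)) k1 m) t l =
      X ^ ((N - (k1 + t)) * sz l) * chn E (k1 + t) l := by
  have hv : ∀ m, G m * sch (fun j => (X : PowerSeries R) ^ (N - j)) k1 m =
      X ^ ((N - k1) * sz m) * chn E k1 m := by
    intro m
    let E0 : ℕ → (Fin N → ℕ) → PowerSeries R := fun j l => X ^ sz l
    have h1 := sch_chn (X : PowerSeries R) (fun j => N - j) E0 k1
      (by simp only [E0]; rw [sz_zero, pow_zero])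
      (by
        intro j hj l
        simp only [E0]
        rw [← pow_add]
        congr 1
        have h3 : N - j = (N - (j + 1)) + 1 := by omega
        rw [h3, Nat.add_mul, Nat.one_mul]) m
    rw [h1]
    have h2 : chn E k1 m = G m * chn E0 k1 m := by
      refine chn_ins ?_ ?_ m
      · intro j hj l
        rw [hE j (by omega), if_neg (by omega), mul_one]
      · intro l
        rw [hE k1 (by omega), if_pos rfl, mul_comm]
    rw [h2]
    ring
  exact up_chn (X : PowerSeries R) (fun j => N - j) E k1 _ hv t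
    (by
      intro j h1 h2 l
      rw [hE _ (by omega), if_neg (by omega), mul_one, ← pow_add]
      congr 1
      have h3 : N - j = (N - (j + 1)) + 1 := by omega
      rw [h3, Nat.add_mul, Nat.one_mul]) l

end CHAM

open CHAM in
theorem specCHA (hPS : SpecPS) : SpecCHA := by
  intro R _ N L k1 k' G1 G2 hN hk1 hk'
  rw [avg_eq hPS G1 G2 hN (by omega) (by omega)]
  refine Finset.sum_congr rfl fun l _ => ?_
  have hl := left_eq G1 (k1 := k1) (t := N - k1) (by omega)
    (fun j l => X ^ sz l * (if j = k1 then G1 l else 1)) (fun j _ l => rfl) l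
  have h1 : k1 + (N - k1) = N := by omega
  rw [hl, h1, Nat.sub_self, Nat.zero_mul, pow_zero, one_mul]
  have hr := right_eq G2 hN hk'
    (fun j l => if j < N then X ^ sz l * (if j = k' then G2 l else 1) else
      (if N = k' then G2 l else 1)) (fun j hj l => if_pos hj)
      (fun l => if_neg (lt_irrefl _)) l
  rw [hr]
  obtain ⟨M, rfl⟩ : ∃ M, N = M + 1 := ⟨N - 1, by omega⟩
  have hM : M + 1 - 1 = M := rfl
  rw [hM]
  simp only [chn]
  rw [if_neg (lt_irrefl _)]
  have hs1 : ∀ m, chn (DD k1 (2 * (M + 1) - k') G1 G2) M m =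
      chn (fun j l => X ^ sz l * (if j = k1 then G1 l else 1)) M m := by
    intro m
    refine chn_congr ?_ m
    intro j hj l
    rw [DD, if_neg (by omega : ¬ j = 2 * (M + 1) - k'), mul_one]
  have hs2 : ∀ m, chn (fun j => DD k1 (2 * (M + 1) - k') G1 G2 (2 * (M + 1) - j)) M m =
      chn (fun j l => if j < M + 1 then X ^ sz l * (if j = k' then G2 l else 1) else
      (if M + 1 = k' then G2 l else 1)) M m := by
    intro m
    refine chn_congr ?_ m
    intro j hj l
    rw [DD, if_neg (by omega : ¬ 2 * (M + 1) - j = k1), one_mul,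
      if_pos (by omega : j < M + 1)]
    by_cases h : j = k'
    · rw [if_pos h, if_pos (by omega)]
    · rw [if_neg h, if_neg (by omega)]
  simp only [hs1, hs2]
  rw [DD]
  have h3 : (if M + 1 = 2 * (M + 1) - k' then G2 l else 1) = if M + 1 = k' then G2 l else 1 := by
    by_cases h : M + 1 = k'
    · rw [if_pos h, if_pos (by omega)]
    · rw [if_neg h, if_neg (by omega)]
  rw [h3]
  ring

end Pool.Agent.Lib.MPd9449f
end

section
/-!
# CHB: sums over paths with functions of two slices, on the same side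
-/
open PowerSeries Finset

namespace Pool.Agent.Lib.MPd9449f

namespace CHBM

open CHAM

theorem dn_congr {N L : ℕ} {B : Type} [CommRing B] {Z Z' : ℕ → B} {w : (Fin N → ℕ) → B} {a : ℕ}
    (h : ∀ t < a, Z t = Z' t) (m : Fin N → ℕ) : dn L Z w a m = dn L Z' w a m := by
  induction a generalizing m with
  | zero => rfl
  | succ a ih =>
    simp only [dn]
    rw [h a (by omega)]
    exact Finset.sum_congr rfl fun l _ => by rw [ih (fun j hj => h j (by omega)) l]

theorem adj_iter (hADJ : SpecADJ) {N L : ℕ} {B : Type} [CommRing B] (Xs : ℕ → B)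
    (v w : (Fin N → ℕ) → B) (a : ℕ) : ∀ s ≤ a,
    ∑ l ∈ box N L, up Xs v a l * w l =
      ∑ l ∈ box N L, up Xs v (a - s) l * dn L (fun t => Xs (a - 1 - t)) w s l := by
  intro s
  induction s with
  | zero => intro _; rfl
  | succ s ih =>
    intro hs
    rw [ih (by omega)]
    obtain ⟨b, hb⟩ : ∃ b, a - s = b + 1 := ⟨a - s - 1, by omega⟩
    have hb' : a - (s + 1) = b := by omega
    have hb2 : a - 1 - s = b := by omega
    rw [hb, hb']
    simp only [up, dn]
    rw [hADJ B N L (Xs b)]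
    simp only [hb2]

end CHBM

open CHAM CHBM in
theorem specCHB (hPS : SpecPS) (hADJ : SpecADJ) : SpecCHB := by
  intro R _ N L k1 k2 G1 G2 hN h12 hk2
  rw [avg_eq hPS G1 G2 hN (by omega) (by omega)]
  have hright : ∀ l : Fin N → ℕ,
      ∑ m ∈ below l, chn (fun j => DD k1 k2 G1 G2 (2 * N - j)) (N - 1) m =
        sch (fun j => (X : PowerSeries R) ^ (N - 1 - j)) N l := by
    intro l
    have hr := right_eq (fun _ => (1 : PowerSeries R)) (k' := N) hN le_rfl
      (fun j l => if j < N then X ^ sz l else 1)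
      (by
        intro j hj l
        rw [if_pos hj, if_neg (by omega), mul_one])
      (by
        intro l
        rw [if_neg (lt_irrefl _), if_pos rfl]) l
    rw [Nat.sub_self] at hr
    simp only [up, one_mul] at hr
    rw [hr]
    obtain ⟨M, rfl⟩ : ∃ M, N = M + 1 := ⟨N - 1, by omega⟩
    have hM : M + 1 - 1 = M := rfl
    rw [hM]
    simp only [chn]
    rw [if_neg (lt_irrefl _), one_mul]
    refine Finset.sum_congr rfl fun m _ => ?_
    refine chn_congr ?_ m
    intro j hj l
    rw [DD, if_neg (by omega : ¬ 2 * (M + 1) - j = k1), if_neg (by omega : ¬ 2 * (M + 1) - j = k2),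
      mul_one, mul_one, if_pos (by omega : j < M + 1)]
  simp only [hright]
  have hv : ∀ m : Fin N → ℕ, (fun m => G2 m * up (fun t => X ^ (N - (k1 + t)))
      (fun m => G1 m * sch (fun j => (X : PowerSeries R) ^ (N - j)) k1 m) (k2 - k1) m) m =
      X ^ ((N - k2) * sz m) * chn (DD k1 k2 G1 G2) k2 m := by
    intro m
    have hl := left_eq G1 (k1 := k1) (t := k2 - k1) (by omega)
      (fun j l => X ^ sz l * (if j = k1 then G1 l else 1)) (fun j _ l => rfl) m
    have h1 : k1 + (k2 - k1) = k2 := by omega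
    rw [h1] at hl
    have h2 : chn (DD k1 k2 G1 G2) k2 m = G2 m *
        chn (fun j l => X ^ sz l * (if j = k1 then G1 l else 1)) k2 m := by
      refine chn_ins ?_ ?_ m
      · intro j hj l
        rw [DD, if_neg (by omega : ¬ j = k2), mul_one]
      · intro l
        rw [DD, if_pos (rfl : k2 = k2)]
        ring
    simp only
    rw [hl, h2]
    ring
  have hleft : ∀ l : Fin N → ℕ, chn (DD k1 k2 G1 G2) N l =
      up (fun t => X ^ (N - (k2 + t))) (fun m => G2 m * up (fun t => X ^ (N - (k1 + t)))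
      (fun m => G1 m * sch (fun j => (X : PowerSeries R) ^ (N - j)) k1 m) (k2 - k1) m)
        (N - k2) l := by
    intro l
    have h1 := up_chn (X : PowerSeries R) (fun j => N - j) (DD k1 k2 G1 G2) k2 _ hv (N - k2)
      (by
        intro j h1 h2 l
        rw [DD, if_neg (by omega : ¬ j + 1 = k1), if_neg (by omega : ¬ j + 1 = k2), mul_one,
          mul_one, ← pow_add]
        congr 1
        have h3 : N - j = (N - (j + 1)) + 1 := by omega
        rw [h3, Nat.add_mul, Nat.one_mul]) l
    have h2 : k2 + (N - k2) = N := by omega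
    rw [h2, Nat.sub_self, Nat.zero_mul, pow_zero, one_mul] at h1
    exact h1.symm
  simp only [hleft]
  rw [adj_iter hADJ _ _ _ (N - k2) (N - k2) le_rfl, Nat.sub_self]
  refine Finset.sum_congr rfl fun m _ => ?_
  simp only [up]
  have hd : dn L (fun t => (X : PowerSeries R) ^ (N - (k2 + (N - k2 - 1 - t))))
      (sch (fun j => (X : PowerSeries R) ^ (N - 1 - j)) N) (N - k2) m =
      dn L (fun t => X ^ (t + 1)) (sch (fun j => (X : PowerSeries R) ^ (N - 1 - j)) N)
        (N - k2) m := by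
    refine dn_congr ?_ m
    intro t ht
    congr 1
    omega
  rw [hd]
  ring

end Pool.Agent.Lib.MPd9449f
end

section
/-!
# CHP: the box sum through the slices
-/
open PowerSeries Finset

namespace Pool.Agent.Lib.MPd9449f

namespace CHPM

open BRIM

theorem sum_col {M : Type} [AddCommMonoid M] {π : Finset Box} (h : IsLowerSet (π : Set Box))
    (j k : ℕ) (F : Box → M) :
    ∑ b ∈ π.filter (fun b => b.2.1 = j ∧ b.2.2 = k), F b =
      ∑ i ∈ range (ht π j k), F (i, j, k) := by
  symm
  apply Finset.sum_bij (fun (i : ℕ) _ => ((i, j, k) : Box))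
  · intro i hi
    rw [mem_range] at hi
    rw [mem_filter]
    exact ⟨(mem_iff h i j k).2 hi, rfl, rfl⟩
  · intro a _ b _ hab
    simpa using congrArg Prod.fst hab
  · rintro ⟨i, j', k'⟩ hb
    rw [mem_filter] at hb
    obtain ⟨hb1, hb2, hb3⟩ := hb
    simp only at hb2 hb3
    subst hb2
    subst hb3
    exact ⟨i, mem_range.2 ((mem_iff h _ _ _).1 hb1), rfl⟩
  · intro _ _; rfl

end CHPM

theorem specCHP : SpecCHP := by
  intro R _ N n π x y z hπ hN _
  have hb : ∀ b ∈ π, b.2.1 < N ∧ b.2.2 < N := fun b hb => by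
    have := BRIM.bounds hπ hb
    omega
  unfold Chp
  rw [BRIM.sum_regroup hb]
  refine Finset.sum_congr rfl fun k hk => ?_
  rw [mem_range] at hk
  rw [BRIM.slc_lt _ hk]
  unfold Cst
  rw [Finset.sum_range, Finset.mul_sum]
  refine Finset.sum_congr rfl fun r _ => ?_
  rw [CHPM.sum_col hπ.1, BRIM.slices_eq, Finset.mul_sum]
  refine Finset.sum_congr rfl fun i _ => ?_
  simp only
  rw [pow_add, pow_add, mul_pow]
  ring

end Pool.Agent.Lib.MPd9449f
end

section
/-! CID: the coefficients of the difference operator for a geometric progression. -/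
open PowerSeries Finset

namespace Pool.Agent.Lib.MPd9449f

namespace CIDM

theorem ig_mul {R : Type} [CommRing R] (a : ℕ) (ha : 1 ≤ a) :
    (1 - (X : PowerSeries R) ^ a) * ig 1 a = 1 := by
  ext n
  rw [sub_mul, one_mul, map_sub, coeff_X_pow_mul', coeff_one]
  simp only [ig, coeff_mk, one_pow]
  by_cases hn : n = 0
  · subst hn
    simp [Nat.not_le.mpr ha]
  · rw [if_neg hn]
    by_cases h : a ≤ n
    · rw [if_pos h]
      have : (a ∣ n) ↔ (a ∣ n - a) := by
        constructor
        · intro h1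
          exact Nat.dvd_sub h1 (dvd_refl a)
        · intro h1
          have := Nat.dvd_add h1 (dvd_refl a)
          rwa [Nat.sub_add_cancel h] at this
      by_cases h2 : a ∣ n
      · rw [if_pos h2, if_pos (this.mp h2), sub_self]
      · rw [if_neg h2, if_neg (fun h3 => h2 (this.mpr h3)), sub_self]
    · rw [if_neg h, if_neg, sub_zero]
      intro h1
      exact h (Nat.le_of_dvd (Nat.pos_of_ne_zero hn) h1)

/-- splitting the Vandermonde product at `i` -/
theorem split {B : Type} [CommRing B] (Y : ℕ → B) (k i : ℕ) (hi : i < k) :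
    vd Y k = (∏ a ∈ (range k).erase i, ∏ b ∈ (Ico (a + 1) k).erase i, (Y a - Y b)) *
      ((∏ a ∈ range i, (Y a - Y i)) * ∏ b ∈ Ico (i + 1) k, (Y i - Y b)) := by
  rw [vd, ← Finset.mul_prod_erase (range k) _ (mem_range.mpr hi)]
  have h1 : ∏ a ∈ (range k).erase i, ∏ b ∈ Ico (a + 1) k, (Y a - Y b) =
      ∏ a ∈ (range k).erase i, ((∏ b ∈ (Ico (a + 1) k).erase i, (Y a - Y b)) *
        (if a < i then (Y a - Y i) else 1)) := by
    refine Finset.prod_congr rfl fun a ha => ?_
    by_cases h : a < i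
    · rw [if_pos h, mul_comm]
      exact (Finset.mul_prod_erase (Ico (a + 1) k) (fun b => Y a - Y b)
        (by rw [mem_Ico]; omega)).symm
    · rw [if_neg h, mul_one, Finset.erase_eq_of_notMem]
      rw [mem_Ico]
      intro h2
      omega
  rw [h1, Finset.prod_mul_distrib]
  have h2 : ∏ a ∈ (range k).erase i, (if a < i then (Y a - Y i) else 1) =
      ∏ a ∈ range i, (Y a - Y i) := by
    rw [← Finset.prod_filter]
    refine Finset.prod_congr ?_ fun _ _ => rfl
    ext a
    simp only [mem_filter, mem_erase, mem_range]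
    omega
  rw [h2]
  ring

end CIDM

theorem specCID : SpecCID := by
  intro R _ k e i x hk hi
  rw [CIDM.split _ k i hi, CIDM.split (fun j => (X : PowerSeries R) ^ (e - j)) k i hi]
  set Y : ℕ → PowerSeries R := fun j => X ^ (e - j) with hY
  set y : PowerSeries R := C x * X ^ (e - i) with hy
  have h1 : ∏ a ∈ (range k).erase i, ∏ b ∈ (Ico (a + 1) k).erase i,
      (Function.update Y i y a - Function.update Y i y b) =
      ∏ a ∈ (range k).erase i, ∏ b ∈ (Ico (a + 1) k).erase i, (Y a - Y b) := by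
    refine Finset.prod_congr rfl fun a ha => Finset.prod_congr rfl fun b hb => ?_
    rw [Function.update_of_ne (ne_of_mem_erase ha), Function.update_of_ne (ne_of_mem_erase hb)]
  have h2 : ∏ a ∈ range i, (Function.update Y i y a - Function.update Y i y i) =
      (∏ a ∈ range i, (C x - X ^ (i - a)) * ig 1 (i - a)) * ∏ a ∈ range i, (Y a - Y i) := by
    rw [← Finset.prod_mul_distrib]
    refine Finset.prod_congr rfl fun a ha => ?_
    rw [mem_range] at ha
    rw [Function.update_self, Function.update_of_ne (by omega)]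
    have e1 : e - a = (e - i) + (i - a) := by omega
    have := CIDM.ig_mul (R := R) (i - a) (by omega)
    rw [hY, hy]
    simp only
    rw [e1, pow_add]
    linear_combination (X ^ (e - i) * (C x - X ^ (i - a))) * this
  have h3 : ∏ b ∈ Ico (i + 1) k, (Function.update Y i y i - Function.update Y i y b) =
      (∏ b ∈ Ico (i + 1) k, (1 - C x * X ^ (b - i)) * ig 1 (b - i)) *
        ∏ b ∈ Ico (i + 1) k, (Y i - Y b) := by
    rw [← Finset.prod_mul_distrib]
    refine Finset.prod_congr rfl fun b hb => ?_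
    rw [mem_Ico] at hb
    rw [Function.update_self, Function.update_of_ne (by omega)]
    have e1 : e - i = (e - b) + (b - i) := by omega
    have := CIDM.ig_mul (R := R) (b - i) (by omega)
    rw [hY, hy]
    simp only
    rw [e1, pow_add]
    linear_combination (X ^ (e - b) * (1 - C x * X ^ (b - i))) * this
  rw [h1, h2, h3]
  have h4 : ∏ b ∈ Ico (i + 1) k, (1 - C x * (X : PowerSeries R) ^ (b - i)) * ig 1 (b - i) =
      rh x (k - 1 - i) := by
    rw [rh, Finset.prod_Ico_eq_prod_range]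
    have : k - (i + 1) = k - 1 - i := by omega
    rw [this]
    refine Finset.prod_congr rfl fun b _ => ?_
    have : i + 1 + b - i = b + 1 := by omega
    rw [this]
  have h5 : ∏ a ∈ range i, (C x - (X : PowerSeries R) ^ (i - a)) * ig 1 (i - a) =
      ∏ b ∈ range i, (C x - X ^ (b + 1)) * ig 1 (b + 1) := by
    rw [← Finset.prod_range_reflect]
    refine Finset.prod_congr rfl fun b hb => ?_
    rw [mem_range] at hb
    have : i - (i - 1 - b) = b + 1 := by omega
    rw [this]
  rw [h4, h5, cc]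
  ring

end Pool.Agent.Lib.MPd9449f
end

section
/-!
# COL: the sum over all slices

Substitution `r1 = i + m1^-`, `s1 = i + m1^+`, `r2 = j + m2^-`, `s2 = j + m2^+`.
-/
open PowerSeries Finset

namespace Pool.Agent.Lib.MPd9449f

namespace COLM

/-- `{(r,s) | r + s < n}` -/
def tri (n : ℕ) : Finset (ℕ × ℕ) := ((range n) ×ˢ (range n)).filter fun p => p.1 + p.2 < n

lemma mem_tri {n : ℕ} {p : ℕ × ℕ} : p ∈ tri n ↔ p.1 + p.2 < n := by
  simp only [tri, mem_filter, mem_product, mem_range]
  omega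

lemma tri_zero : tri 0 = ∅ := by
  ext p
  simp [mem_tri]

variable {R : Type} [CommRing R]

lemma ff_eq (x z x' y' : R) (M : ℕ) :
    ff x z x' y' M = ∑ p ∈ tri (M + 1), C (z ^ p.1) * rh x p.1 * (C (y' ^ p.2) * rh x' p.2) := by
  unfold ff tri
  rw [sum_filter, sum_product]
  apply sum_congr rfl
  intro r hr
  rw [← sum_filter]
  apply sum_congr _ (fun _ _ => rfl)
  ext s
  simp only [mem_filter, mem_range] at hr ⊢
  omega

lemma sum_max (a b : ℕ × ℕ → PowerSeries R) (H : ℕ → PowerSeries R) (L : ℕ) :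
    ∑ q ∈ tri L ×ˢ tri L, a q.1 * b q.2 * H (max (q.1.1 + q.1.2) (q.2.1 + q.2.2) + 1) =
      ∑ M ∈ range L, H (M + 1) * ((∑ p ∈ tri (M + 1), a p) * (∑ p ∈ tri (M + 1), b p) -
        (∑ p ∈ tri M, a p) * ∑ p ∈ tri M, b p) := by
  induction L with
  | zero => simp [tri_zero]
  | succ L ih =>
    have hsub : tri L ×ˢ tri L ⊆ tri (L + 1) ×ˢ tri (L + 1) := by
      intro q hq
      rw [mem_product, mem_tri, mem_tri] at hq ⊢
      omega
    rw [sum_range_succ, ← ih, ← sum_sdiff hsub, add_comm]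
    congr 1
    rw [sum_mul_sum, sum_mul_sum, ← sum_product', ← sum_product', ← sum_sdiff hsub,
      add_sub_cancel_right, mul_sum]
    apply sum_congr rfl
    intro q hq
    rw [mem_sdiff, mem_product, mem_product, mem_tri, mem_tri, mem_tri, mem_tri] at hq
    have h1 : max (q.1.1 + q.1.2) (q.2.1 + q.2.2) = L := by omega
    rw [h1]
    ring

lemma Hh_dvd (x : R) (a : ℕ) : (X : PowerSeries R) ^ a ∣ Hh x a := by
  unfold Hh
  exact Dvd.intro _ (by rw [mul_assoc])

lemma coeff_Hh_mul (x : R) {a n : ℕ} (h : n < a) (f : PowerSeries R) :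
    coeff n (Hh x a * f) = 0 :=
  X_pow_dvd_iff.1 (Dvd.dvd.mul_right (Hh_dvd x a) f) n h

/-- the partial sums converge -/
lemma mk_kapN (x1 y1 z1 x2 y2 z2 : R) (L : ℕ) :
    (X : PowerSeries R) ^ (L + 1) ∣
      kapN x1 y1 z1 x2 y2 z2 L - PowerSeries.mk fun n => coeff n (kapN x1 y1 z1 x2 y2 z2 n) := by
  rw [X_pow_dvd_iff]
  intro n hn
  rw [map_sub, coeff_mk, sub_eq_zero]
  unfold kapN
  have h1 : range n ⊆ range L := range_subset_range.2 (by omega)
  rw [← sum_sdiff h1, map_add]
  rw [add_eq_right, map_sum]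
  apply sum_eq_zero
  intro M hM
  rw [mem_sdiff, mem_range, mem_range] at hM
  exact coeff_Hh_mul _ (by omega) _

/-- the index map -/
def em (N : ℕ) (t : (ℕ × ℕ) × (ℕ × ℕ)) : (ℕ × ℕ) × (ℕ × ℕ) :=
  ((t.2.1 + (N - t.1.1), t.2.2 + (t.1.2 - N)), (t.2.2 + (N - t.1.2), t.2.1 + (t.1.1 - N)))

/-- the index set -/
def ix (N : ℕ) : Finset ((ℕ × ℕ) × (ℕ × ℕ)) :=
  ((Ico 1 (2 * N)) ×ˢ (Ico 1 (2 * N))) ×ˢ ((range N) ×ˢ (range N))

lemma em_inj (N : ℕ) : Set.InjOn (em N) (ix N) := by
  rintro ⟨⟨k1, k2⟩, i, j⟩ _ ⟨⟨k1', k2'⟩, i', j'⟩ _ h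
  simp only [em, Prod.mk.injEq] at h ⊢
  omega

lemma tri_sub (N L : ℕ) (h : L < N) : tri L ×ˢ tri L ⊆ (ix N).image (em N) := by
  rintro ⟨⟨r1, s2⟩, r2, s1⟩ hq
  rw [mem_product, mem_tri, mem_tri] at hq
  simp only at hq
  rw [mem_image]
  refine ⟨((N + s1 - r1, N + s2 - r2), (min r1 s1, min r2 s2)), ?_, ?_⟩
  · simp only [ix, mem_product, mem_Ico, mem_range]
    omega
  · simp only [em, Prod.mk.injEq]
    omega

/-- the summands -/
noncomputable def W (x1 y1 z1 x2 y2 z2 : R) (q : (ℕ × ℕ) × (ℕ × ℕ)) : PowerSeries R :=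
  (C (z1 ^ q.1.1) * rh x1 q.1.1 * (C (y2 ^ q.1.2) * rh x2 q.1.2)) *
    (C (z2 ^ q.2.1) * rh x2 q.2.1 * (C (y1 ^ q.2.2) * rh x1 q.2.2)) *
    Hh (x1 * x2) (max (q.1.1 + q.1.2) (q.2.1 + q.2.2) + 1)

lemma W_dvd (x1 y1 z1 x2 y2 z2 : R) (q : (ℕ × ℕ) × (ℕ × ℕ)) (L : ℕ)
    (h : q ∉ tri L ×ˢ tri L) : (X : PowerSeries R) ^ (L + 1) ∣ W x1 y1 z1 x2 y2 z2 q := by
  rw [mem_product, mem_tri, mem_tri] at h
  unfold W
  apply Dvd.dvd.mul_left
  exact (pow_dvd_pow _ (by omega)).trans (Hh_dvd _ _)

lemma kapN_eq (x1 y1 z1 x2 y2 z2 : R) (L : ℕ) :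
    kapN x1 y1 z1 x2 y2 z2 L = ∑ q ∈ tri L ×ˢ tri L, W x1 y1 z1 x2 y2 z2 q := by
  unfold kapN W
  rw [sum_max (fun p => C (z1 ^ p.1) * rh x1 p.1 * (C (y2 ^ p.2) * rh x2 p.2))
    (fun p => C (z2 ^ p.1) * rh x2 p.1 * (C (y1 ^ p.2) * rh x1 p.2)) (Hh (x1 * x2)) L]
  apply sum_congr rfl
  intro M _
  congr 1
  rcases M with _ | M
  · simp only [Dl, ff_eq, tri_zero, sum_empty, mul_zero, sub_zero]
  · simp only [Dl, ff_eq]

lemma rh_pair (x : R) (i k N : ℕ) : rh x i * rh x (i + ((N - k) + (k - N))) =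
    rh x (i + (N - k)) * rh x (i + (k - N)) := by
  rcases le_total k N with h | h
  · have h1 : k - N = 0 := by omega
    rw [h1, add_zero, add_zero, mul_comm]
  · have h1 : N - k = 0 := by omega
    rw [h1, zero_add, add_zero]

lemma term_eq (x1 y1 z1 x2 y2 z2 : R) (N k1 k2 i j : ℕ) :
    C (y1 ^ (k1 - N) * z1 ^ (N - k1) * (y2 ^ (k2 - N) * z2 ^ (N - k2))) *
      (Aa x1 (y1 * z1) i ((N - k1) + (k1 - N)) * Aa x2 (y2 * z2) j ((N - k2) + (k2 - N)) *
        Hh (x1 * x2) (i + j + 1 + ex N k1 k2)) =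
      phi x1 (y1 * z1) * phi x2 (y2 * z2) *
        W x1 y1 z1 x2 y2 z2 (em N ((k1, k2), (i, j))) := by
  unfold Aa W em
  simp only
  have e1 : i + j + 1 + ex N k1 k2 =
      max (i + (N - k1) + (j + (k2 - N))) (j + (N - k2) + (i + (k1 - N))) + 1 := by
    unfold ex
    omega
  have e2 := rh_pair x1 i k1 N
  have e3 := rh_pair x2 j k2 N
  rw [e1]
  simp only [map_mul, map_pow, pow_add, mul_pow]
  linear_combination (C y1 ^ (k1 - N) * C z1 ^ (N - k1) * (C y2 ^ (k2 - N) * C z2 ^ (N - k2)) *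
    (C y1 ^ i * C z1 ^ i * phi x1 (y1 * z1) * (C y2 ^ j * C z2 ^ j * phi x2 (y2 * z2))) *
    Hh (x1 * x2) (max (i + (N - k1) + (j + (k2 - N))) (j + (N - k2) + (i + (k1 - N))) + 1)) *
      (rh x2 j * rh x2 (j + ((N - k2) + (k2 - N))) * e2 +
        rh x1 (i + (N - k1)) * rh x1 (i + (k1 - N)) * e3)

end COLM

open COLM in
theorem specCOL : SpecCOL := by
  intro R _ N L x1 y1 z1 x2 y2 z2 _ _ hL
  have h1 : (∑ k1 ∈ Ico 1 (2 * N), ∑ k2 ∈ Ico 1 (2 * N),
        C (y1 ^ (k1 - N) * z1 ^ (N - k1) * (y2 ^ (k2 - N) * z2 ^ (N - k2))) *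
        ∑ i ∈ range N, ∑ j ∈ range N,
          Aa x1 (y1 * z1) i ((N - k1) + (k1 - N)) * Aa x2 (y2 * z2) j ((N - k2) + (k2 - N)) *
            Hh (x1 * x2) (i + j + 1 + ex N k1 k2)) =
      phi x1 (y1 * z1) * phi x2 (y2 * z2) *
        ∑ q ∈ (ix N).image (em N), W x1 y1 z1 x2 y2 z2 q := by
    rw [sum_image (em_inj N), ix, sum_product, sum_product, mul_sum]
    apply sum_congr rfl
    intro k1 _
    rw [mul_sum]
    apply sum_congr rfl
    intro k2 _
    rw [sum_product, mul_sum, mul_sum]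
    apply sum_congr rfl
    intro i _
    rw [mul_sum, mul_sum]
    apply sum_congr rfl
    intro j _
    exact term_eq x1 y1 z1 x2 y2 z2 N k1 k2 i j
  rw [h1, ← sum_sdiff (tri_sub N L hL), ← kapN_eq]
  unfold kap
  rw [← mul_sub]
  apply Dvd.dvd.mul_left
  rw [add_sub_assoc]
  apply dvd_add
  · apply dvd_sum
    intro q hq
    exact W_dvd _ _ _ _ _ _ q L (mem_sdiff.1 hq).2
  · exact mk_kapN x1 y1 z1 x2 y2 z2 L

end Pool.Agent.Lib.MPd9449f
end

section
/-!
# Covariances of the characters of two slices (module COV)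
-/
open PowerSeries Finset

namespace Pool.Agent.Lib.MPd9449f

namespace COVM

variable {R : Type} [CommRing R]

/-- the covariance of two functions of slices -/
noncomputable def cv (N L k1 k2 : ℕ) (G1 G2 : (Fin N → ℕ) → PowerSeries R) : PowerSeries R :=
  avg N L k1 k2 (fun _ => 1) (fun _ => 1) * avg N L k1 k2 G1 G2 -
    avg N L k1 k2 G1 (fun _ => 1) * avg N L k1 k2 (fun _ => 1) G2

theorem avg_lin (N L k1 k2 : ℕ) (G1 G2 E1 E2 : (Fin N → ℕ) → PowerSeries R)
    (c1 c2 a1 a2 b1 b2 : PowerSeries R)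
    (h1 : ∀ p ∈ paths N L, c1 * G1 (slc p k1) = a1 - b1 * E1 (slc p k1))
    (h2 : ∀ p ∈ paths N L, c2 * G2 (slc p k2) = a2 - b2 * E2 (slc p k2)) :
    c1 * c2 * avg N L k1 k2 G1 G2 =
      a1 * a2 * avg N L k1 k2 (fun _ => 1) (fun _ => 1) -
        a1 * b2 * avg N L k1 k2 (fun _ => 1) E2 - b1 * a2 * avg N L k1 k2 E1 (fun _ => 1) +
        b1 * b2 * avg N L k1 k2 E1 E2 := by
  unfold avg
  rw [Finset.mul_sum, Finset.mul_sum, Finset.mul_sum, Finset.mul_sum, Finset.mul_sum,
    ← Finset.sum_sub_distrib, ← Finset.sum_sub_distrib, ← Finset.sum_add_distrib]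
  refine Finset.sum_congr rfl fun p hp => ?_
  linear_combination (X ^ psz p * (c2 * G2 (slc p k2))) * h1 p hp +
    (X ^ psz p * (a1 - b1 * E1 (slc p k1))) * h2 p hp

theorem avg_lin1 (N L k1 k2 : ℕ) (G1 E1 : (Fin N → ℕ) → PowerSeries R)
    (c1 a1 b1 : PowerSeries R)
    (h1 : ∀ p ∈ paths N L, c1 * G1 (slc p k1) = a1 - b1 * E1 (slc p k1)) :
    c1 * avg N L k1 k2 G1 (fun _ => 1) =
      a1 * avg N L k1 k2 (fun _ => 1) (fun _ => 1) - b1 * avg N L k1 k2 E1 (fun _ => 1) := by
  have h := avg_lin N L k1 k2 G1 (fun _ => 1) E1 (fun _ => 1) c1 1 a1 1 b1 0 h1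
    (fun p _ => by ring)
  linear_combination h

theorem avg_lin2 (N L k1 k2 : ℕ) (G2 E2 : (Fin N → ℕ) → PowerSeries R)
    (c2 a2 b2 : PowerSeries R)
    (h2 : ∀ p ∈ paths N L, c2 * G2 (slc p k2) = a2 - b2 * E2 (slc p k2)) :
    c2 * avg N L k1 k2 (fun _ => 1) G2 =
      a2 * avg N L k1 k2 (fun _ => 1) (fun _ => 1) - b2 * avg N L k1 k2 (fun _ => 1) E2 := by
  have h := avg_lin N L k1 k2 (fun _ => 1) G2 (fun _ => 1) E2 1 c2 1 a2 0 b2
    (fun p _ => by ring) h2
  linear_combination h

theorem cv_lin (N L k1 k2 : ℕ) (G1 G2 E1 E2 : (Fin N → ℕ) → PowerSeries R)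
    (c1 c2 a1 a2 b1 b2 : PowerSeries R)
    (h1 : ∀ p ∈ paths N L, c1 * G1 (slc p k1) = a1 - b1 * E1 (slc p k1))
    (h2 : ∀ p ∈ paths N L, c2 * G2 (slc p k2) = a2 - b2 * E2 (slc p k2)) :
    c1 * c2 * cv N L k1 k2 G1 G2 = b1 * b2 * cv N L k1 k2 E1 E2 := by
  have e0 := avg_lin N L k1 k2 G1 G2 E1 E2 c1 c2 a1 a2 b1 b2 h1 h2
  have e1 := avg_lin1 N L k1 k2 G1 E1 c1 a1 b1 h1
  have e2 := avg_lin2 N L k1 k2 G2 E2 c2 a2 b2 h2
  unfold cv
  linear_combination (avg N L k1 k2 (fun _ => 1) (fun _ => 1)) * e0 -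
    (c2 * avg N L k1 k2 (fun _ => 1) G2) * e1 -
    (a1 * avg N L k1 k2 (fun _ => 1) (fun _ => 1) - b1 * avg N L k1 k2 E1 (fun _ => 1)) * e2

theorem avg_comm (N L k1 k2 : ℕ) (G1 G2 : (Fin N → ℕ) → PowerSeries R) :
    avg N L k1 k2 G1 G2 = avg N L k2 k1 G2 G1 := by
  unfold avg
  refine Finset.sum_congr rfl fun p _ => ?_
  ring

theorem cv_comm (N L k1 k2 : ℕ) (G1 G2 : (Fin N → ℕ) → PowerSeries R) :
    cv N L k1 k2 G1 G2 = cv N L k2 k1 G2 G1 := by
  unfold cv
  rw [avg_comm N L k1 k2 (fun _ => 1) (fun _ => 1), avg_comm N L k1 k2 G1 G2,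
    avg_comm N L k1 k2 G1 (fun _ => 1), avg_comm N L k1 k2 (fun _ => 1) G2]
  ring

theorem cv_rev (hREV : SpecREV) (N L k1 k2 : ℕ) (G1 G2 : (Fin N → ℕ) → PowerSeries R)
    (h1 : k1 ≤ 2 * N) (h2 : k2 ≤ 2 * N) :
    cv N L (2 * N - k1) (2 * N - k2) G1 G2 = cv N L k1 k2 G1 G2 := by
  unfold cv
  rw [hREV R N L k1 k2 _ _ h1 h2, hREV R N L k1 k2 _ _ h1 h2, hREV R N L k1 k2 _ _ h1 h2,
    hREV R N L k1 k2 _ _ h1 h2]

/-- cancelling a nonzero constant -/
theorem cancel [IsDomain R] (c : R) (hc : c ≠ 0) (m : ℕ) (f : PowerSeries R)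
    (h : X ^ m ∣ C c * f) : X ^ m ∣ f := by
  rw [X_pow_dvd_iff] at h ⊢
  intro j hj
  have h1 := h j hj
  rw [coeff_C_mul] at h1
  exact (mul_eq_zero.1 h1).resolve_left hc

theorem Hh_dvd (x : R) (a : ℕ) : (X : PowerSeries R) ^ a ∣ Hh x a := by
  unfold Hh
  rw [mul_assoc]
  exact dvd_mul_right _ _

theorem sum_dvd_sub {α : Type} (s : Finset α) (f g : α → PowerSeries R) (d : PowerSeries R)
    (h : ∀ i ∈ s, d ∣ f i - g i) : d ∣ (∑ i ∈ s, f i) - ∑ i ∈ s, g i := by
  rw [← Finset.sum_sub_distrib]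
  exact Finset.dvd_sum h

theorem term_dvd {U V U' V' H : PowerSeries R} {a b c m : ℕ} (hU : X ^ a ∣ U - U')
    (hV : X ^ b ∣ V - V') (hH : X ^ c ∣ H) (h1 : m ≤ a + c) (h2 : m ≤ b + c) :
    X ^ m ∣ U * V * H - U' * V' * H := by
  have e : U * V * H - U' * V' * H = V * ((U - U') * H) + U' * ((V - V') * H) := by ring
  rw [e]
  refine dvd_add (Dvd.dvd.mul_left ?_ _) (Dvd.dvd.mul_left ?_ _)
  · refine (pow_dvd_pow _ h1).trans ?_
    rw [pow_add]
    exact mul_dvd_mul hU hH
  · refine (pow_dvd_pow _ h2).trans ?_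
    rw [pow_add]
    exact mul_dvd_mul hV hH

/-- the combinatorial core: reindexing, LIM and extension of the sums -/
theorem core (hLIM : SpecLIM) (N L k1 k2 n1 n2 M1 M2 e : ℕ) (x1 xi1 x2 xi2 : R)
    (hx1 : x1 * xi1 = 1) (hx2 : x2 * xi2 = 1) (h1 : k1 ≤ n1 + M1) (h2 : k2 ≤ n2 + M2)
    (hk1 : k1 ≤ N) (hk2 : k2 ≤ N) (hL : L < N) (he1 : N ≤ k1 + e) (he2 : N ≤ k2 + e)
    (e' : ℕ → ℕ → ℕ) (he : ∀ i j, i < k1 → j < k2 → e' (k1 - 1 - i) (k2 - 1 - j) = i + j + 1 + e)
    (s1 s2 : ℕ → ℕ) (hs1 : ∀ i, i < k1 → s1 (k1 - 1 - i) = n1 + 1 + i)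
    (hs2 : ∀ i, i < k2 → s2 (k2 - 1 - i) = n2 + 1 + i) :
    X ^ (L + 1) ∣ (C (xi1 ^ (k1 - 1)) * C (xi2 ^ (k2 - 1)) * ∑ i ∈ range k1, ∑ j ∈ range k2,
        cc x1 k1 i * rt x1 (s1 i) M1 * (cc x2 k2 j * rt x2 (s2 j) M2) * Hh (x1 * x2) (e' i j)) -
      ∑ i ∈ range N, ∑ j ∈ range N,
        Aa x1 xi1 i n1 * Aa x2 xi2 j n2 * Hh (x1 * x2) (i + j + 1 + e) := by
  set S : PowerSeries R := ∑ i ∈ range k1, ∑ j ∈ range k2,
        Aa x1 xi1 i n1 * Aa x2 xi2 j n2 * Hh (x1 * x2) (i + j + 1 + e) with hS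
  have part1 : X ^ (L + 1) ∣ (C (xi1 ^ (k1 - 1)) * C (xi2 ^ (k2 - 1)) *
      ∑ i ∈ range k1, ∑ j ∈ range k2,
        cc x1 k1 i * rt x1 (s1 i) M1 * (cc x2 k2 j * rt x2 (s2 j) M2) * Hh (x1 * x2) (e' i j)) -
      S := by
    rw [← Finset.sum_range_reflect, Finset.mul_sum]
    refine sum_dvd_sub _ _ _ _ fun i hi => ?_
    rw [Finset.mem_range] at hi
    rw [← Finset.sum_range_reflect, Finset.mul_sum]
    refine sum_dvd_sub _ _ _ _ fun j hj => ?_
    rw [Finset.mem_range] at hj
    rw [he i j hi hj, hs1 i hi, hs2 j hj]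
    have hU := hLIM R x1 xi1 k1 i n1 M1 hx1 hi h1
    have hV := hLIM R x2 xi2 k2 j n2 M2 hx2 hj h2
    have h := term_dvd hU hV (Hh_dvd (x1 * x2) (i + j + 1 + e)) (m := L + 1) (by omega) (by omega)
    convert h using 2
    ring
  have part2 : X ^ (L + 1) ∣ S - ∑ i ∈ range N, ∑ j ∈ range N,
        Aa x1 xi1 i n1 * Aa x2 xi2 j n2 * Hh (x1 * x2) (i + j + 1 + e) := by
    have e1 : ∑ i ∈ range N, ∑ j ∈ range N,
        Aa x1 xi1 i n1 * Aa x2 xi2 j n2 * Hh (x1 * x2) (i + j + 1 + e) =
        ∑ i ∈ range N, ∑ j ∈ range N, ((if i < k1 then (if j < k2 then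
          Aa x1 xi1 i n1 * Aa x2 xi2 j n2 * Hh (x1 * x2) (i + j + 1 + e) else 0) else 0) +
          (Aa x1 xi1 i n1 * Aa x2 xi2 j n2 * Hh (x1 * x2) (i + j + 1 + e) -
           (if i < k1 then (if j < k2 then
          Aa x1 xi1 i n1 * Aa x2 xi2 j n2 * Hh (x1 * x2) (i + j + 1 + e) else 0) else 0))) := by
      refine Finset.sum_congr rfl fun i _ => Finset.sum_congr rfl fun j _ => ?_
      ring
    have e2 : S = ∑ i ∈ range N, ∑ j ∈ range N, (if i < k1 then (if j < k2 then
          Aa x1 xi1 i n1 * Aa x2 xi2 j n2 * Hh (x1 * x2) (i + j + 1 + e) else 0) else 0) := by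
      rw [hS]
      have e3 : ∀ i, (∑ j ∈ range N, (if i < k1 then (if j < k2 then
          Aa x1 xi1 i n1 * Aa x2 xi2 j n2 * Hh (x1 * x2) (i + j + 1 + e) else 0) else 0)) =
          if i < k1 then ∑ j ∈ range k2,
            Aa x1 xi1 i n1 * Aa x2 xi2 j n2 * Hh (x1 * x2) (i + j + 1 + e) else 0 := by
        intro i
        by_cases hi : i < k1
        · simp only [if_pos hi]
          rw [← Finset.sum_filter]
          congr 1
          ext j
          simp only [Finset.mem_filter, Finset.mem_range]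
          omega
        · simp only [if_neg hi]
          simp
      rw [Finset.sum_congr rfl fun i _ => e3 i, ← Finset.sum_filter]
      congr 1
      ext i
      simp only [Finset.mem_filter, Finset.mem_range]
      omega
    rw [e1, e2]
    refine sum_dvd_sub _ _ _ _ fun i _ => sum_dvd_sub _ _ _ _ fun j _ => ?_
    have e4 : ∀ a b : PowerSeries R, a - (a + (b - a)) = -(b - a) := fun a b => by ring
    rw [e4, dvd_neg]
    by_cases hi : i < k1
    · by_cases hj : j < k2
      · rw [if_pos hi, if_pos hj, sub_self]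
        exact dvd_zero _
      · rw [if_pos hi, if_neg hj, sub_zero]
        exact Dvd.dvd.mul_left ((pow_dvd_pow _ (by omega)).trans (Hh_dvd _ _)) _
    · rw [if_neg hi, sub_zero]
      exact Dvd.dvd.mul_left ((pow_dvd_pow _ (by omega)).trans (Hh_dvd _ _)) _
  have h := dvd_add part1 part2
  rwa [sub_add_sub_cancel] at h

/-- the statement, in terms of the covariance -/
def Good (R : Type) [CommRing R] (N L k1 k2 : ℕ) (x1 xi1 x2 xi2 : R) : Prop :=
    X ^ (L + 1) ∣ pi0 R N ^ 2 *
      cv N L k1 k2 (fun l => C (Cst x1 xi1 l)) (fun l => C (Cst x2 xi2 l)) -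
      ∑ i ∈ range N, ∑ j ∈ range N,
        Aa x1 xi1 i ((N - k1) + (k1 - N)) * Aa x2 xi2 j ((N - k2) + (k2 - N)) *
          Hh (x1 * x2) (i + j + 1 + ex N k1 k2)

theorem good_comm (N L k1 k2 : ℕ) (x1 xi1 x2 xi2 : R)
    (h : Good R N L k2 k1 x2 xi2 x1 xi1) : Good R N L k1 k2 x1 xi1 x2 xi2 := by
  unfold Good at h ⊢
  rw [cv_comm, Finset.sum_comm] at h
  have hex : ex N k2 k1 = ex N k1 k2 := by
    unfold ex
    rw [max_comm]
  rw [hex, mul_comm x2 x1] at h
  convert h using 2
  refine Finset.sum_congr rfl fun i _ => Finset.sum_congr rfl fun j _ => ?_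
  rw [add_comm j i]
  ring

theorem good_rev (hREV : SpecREV) (N L k1 k2 : ℕ) (x1 xi1 x2 xi2 : R) (h1 : k1 ≤ 2 * N)
    (h2 : k2 ≤ 2 * N)
    (h : Good R N L (2 * N - k1) (2 * N - k2) x1 xi1 x2 xi2) : Good R N L k1 k2 x1 xi1 x2 xi2 := by
  unfold Good at h ⊢
  rw [cv_rev hREV N L k1 k2 _ _ h1 h2] at h
  have a1 : N - (2 * N - k1) + (2 * N - k1 - N) = N - k1 + (k1 - N) := by omega
  have a2 : N - (2 * N - k2) + (2 * N - k2 - N) = N - k2 + (k2 - N) := by omega
  have a3 : ex N (2 * N - k1) (2 * N - k2) = ex N k1 k2 := by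
    unfold ex
    omega
  rw [a1, a2, a3] at h
  exact h

end COVM

open COVM in
/-- the case `k1 ≤ N ≤ k2` -/
theorem COVM.caseA (hCVA : SpecCVA) (hLIM : SpecLIM) (hCEV : SpecCEV) (R : Type) [CommRing R]
    [IsDomain R] (N L k1 k2 : ℕ) (x1 xi1 x2 xi2 : R)
    (hx1 : x1 * xi1 = 1) (hx2 : x2 * xi2 = 1) (h1 : x1 ≠ 1) (h2 : x2 ≠ 1) (hL : L < N)
    (hk1 : 1 ≤ k1) (hk1' : k1 ≤ N) (hk2 : N ≤ k2) (hk2' : k2 < 2 * N) :
    Good R N L k1 k2 x1 xi1 x2 xi2 := by
  obtain ⟨k', hk', rfl⟩ : ∃ k', (1 ≤ k' ∧ k' ≤ N) ∧ k2 = 2 * N - k' :=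
    ⟨2 * N - k2, ⟨by omega, by omega⟩, by omega⟩
  have hx10 : x1 ≠ 0 := by rintro rfl; simp at hx1
  have hx20 : x2 ≠ 0 := by rintro rfl; simp at hx2
  have hA := hCVA R N L k1 k' x1 x2 hx10 hx20 hk1 hk1' hk'.1 hk'.2
  have hc : (1 - x1) * (1 - x2) ≠ 0 :=
    mul_ne_zero (sub_ne_zero.2 (Ne.symm h1)) (sub_ne_zero.2 (Ne.symm h2))
  have hlin := cv_lin N L k1 (2 * N - k') (fun l => C (Cst x1 xi1 l)) (fun l => C (Cst x2 xi2 l))
    (ev (C x1) k1) (ev (C x2) k') (C (1 - x1)) (C (1 - x2)) (C (∑ r ∈ range k1, xi1 ^ r))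
    (C (∑ r ∈ range k', xi2 ^ r)) (C (xi1 ^ (k1 - 1))) (C (xi2 ^ (k' - 1)))
    (fun p hp => by
      have h := hCEV R N L k1 k1 x1 xi1 p hx1 hp hk1 hk1' (by omega) (Or.inl le_rfl)
      rw [← map_mul, h, map_sub, map_mul]
      unfold ev
      rw [map_sum C (fun j => x1 ^ (lv (slc p k1) j + (k1 - 1 - j)))]
      simp only [map_pow])
    (fun p hp => by
      have h := hCEV R N L (2 * N - k') k' x2 xi2 p hx2 hp hk'.1 hk'.2 (by omega)
        (Or.inr (by omega))
      rw [← map_mul, h, map_sub, map_mul]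
      unfold ev
      rw [map_sum C (fun j => x2 ^ (lv (slc p (2 * N - k')) j + (k' - 1 - j)))]
      simp only [map_pow])
  have hcore := core hLIM N L k1 k' (N - k1) (N - k') N N ((N - k1) + (N - k')) x1 xi1 x2 xi2
    hx1 hx2 (by omega) (by omega) hk1' hk'.2 hL (by omega) (by omega)
    (fun i j => 2 * N - 1 - i - j) (fun i j hi hj => by omega)
    (fun i => N - i) (fun i => N - i) (fun i hi => by omega)
    (fun i hi => by omega)
  unfold Good
  refine cancel _ hc _ _ ?_
  have b1 : N - (2 * N - k') + (2 * N - k' - N) = N - k' := by omega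
  have b2 : N - k1 + (k1 - N) = N - k1 := by omega
  have b3 : ex N k1 (2 * N - k') = (N - k1) + (N - k') := by
    unfold ex
    omega
  rw [b1, b2, b3]
  have hA' : X ^ (L + 1) ∣ C (xi1 ^ (k1 - 1)) * C (xi2 ^ (k' - 1)) * (pi0 R N ^ 2 *
      cv N L k1 (2 * N - k') (ev (C x1) k1) (ev (C x2) k')) -
      C ((1 - x1) * (1 - x2)) * (C (xi1 ^ (k1 - 1)) * C (xi2 ^ (k' - 1)) *
        ∑ i ∈ range k1, ∑ j ∈ range k',
        cc x1 k1 i * rt x1 (N - i) N * (cc x2 k' j * rt x2 (N - j) N) *
          Hh (x1 * x2) (2 * N - 1 - i - j)) := by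
    have h := Dvd.dvd.mul_left hA (C (xi1 ^ (k1 - 1)) * C (xi2 ^ (k' - 1)))
    convert h using 1
    unfold cv
    ring
  have hfin := dvd_add hA' (Dvd.dvd.mul_left hcore (C ((1 - x1) * (1 - x2))))
  convert hfin using 1
  rw [map_mul]
  linear_combination (pi0 R N ^ 2) * hlin

open COVM in
/-- the case `k1 ≤ k2 ≤ N` -/
theorem COVM.caseB (hCVB : SpecCVB) (hLIM : SpecLIM) (hCEV : SpecCEV) (R : Type) [CommRing R]
    [IsDomain R] (N L k1 k2 : ℕ) (x1 xi1 x2 xi2 : R)
    (hx1 : x1 * xi1 = 1) (hx2 : x2 * xi2 = 1) (h1 : x1 ≠ 1) (h2 : x2 ≠ 1) (hL : L < N)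
    (hk1 : 1 ≤ k1) (hk12 : k1 ≤ k2) (hk2 : k2 ≤ N) :
    Good R N L k1 k2 x1 xi1 x2 xi2 := by
  have hx10 : x1 ≠ 0 := by rintro rfl; simp at hx1
  have hx20 : x2 ≠ 0 := by rintro rfl; simp at hx2
  have hA := hCVB R N L k1 k2 x1 x2 hx10 hx20 hk1 hk12 hk2
  have hc : (1 - x1) * (1 - x2) ≠ 0 :=
    mul_ne_zero (sub_ne_zero.2 (Ne.symm h1)) (sub_ne_zero.2 (Ne.symm h2))
  have hlin := cv_lin N L k1 k2 (fun l => C (Cst x1 xi1 l)) (fun l => C (Cst x2 xi2 l))
    (ev (C x1) k1) (ev (C x2) N) (C (1 - x1)) (C (1 - x2)) (C (∑ r ∈ range k1, xi1 ^ r))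
    (C (∑ r ∈ range N, xi2 ^ r)) (C (xi1 ^ (k1 - 1))) (C (xi2 ^ (N - 1)))
    (fun p hp => by
      have h := hCEV R N L k1 k1 x1 xi1 p hx1 hp hk1 (by omega) (by omega) (Or.inl le_rfl)
      rw [← map_mul, h, map_sub, map_mul]
      unfold ev
      rw [map_sum C (fun j => x1 ^ (lv (slc p k1) j + (k1 - 1 - j)))]
      simp only [map_pow])
    (fun p hp => by
      have h := hCEV R N L k2 N x2 xi2 p hx2 hp (by omega) le_rfl (by omega) (Or.inl hk2)
      rw [← map_mul, h, map_sub, map_mul]
      unfold ev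
      rw [map_sum C (fun j => x2 ^ (lv (slc p k2) j + (N - 1 - j)))]
      simp only [map_pow])
  have hcore := core hLIM N L k1 N (N - k1) (N - k2) N k2 (N - k1) x1 xi1 x2 xi2
    hx1 hx2 (by omega) (by omega) (by omega) le_rfl hL (by omega) (by omega)
    (fun i j => 2 * N - 1 - i - j) (fun i j hi hj => by omega)
    (fun i => N - i) (fun i => 2 * N - k2 - i) (fun i hi => by omega)
    (fun i hi => by omega)
  unfold Good
  refine cancel _ hc _ _ ?_
  have b1 : N - k2 + (k2 - N) = N - k2 := by omega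
  have b2 : N - k1 + (k1 - N) = N - k1 := by omega
  have b3 : ex N k1 k2 = N - k1 := by
    unfold ex
    omega
  rw [b1, b2, b3]
  have hA' : X ^ (L + 1) ∣ C (xi1 ^ (k1 - 1)) * C (xi2 ^ (N - 1)) * (pi0 R N ^ 2 *
      cv N L k1 k2 (ev (C x1) k1) (ev (C x2) N)) -
      C ((1 - x1) * (1 - x2)) * (C (xi1 ^ (k1 - 1)) * C (xi2 ^ (N - 1)) *
        ∑ i ∈ range k1, ∑ j ∈ range N,
        cc x1 k1 i * rt x1 (N - i) N * (cc x2 N j * rt x2 (2 * N - k2 - j) k2) *
          Hh (x1 * x2) (2 * N - 1 - i - j)) := by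
    have h := Dvd.dvd.mul_left hA (C (xi1 ^ (k1 - 1)) * C (xi2 ^ (N - 1)))
    convert h using 1
    unfold cv
    ring
  have hfin := dvd_add hA' (Dvd.dvd.mul_left hcore (C ((1 - x1) * (1 - x2))))
  convert hfin using 1
  rw [map_mul]
  linear_combination (pi0 R N ^ 2) * hlin

open COVM in
theorem specCOV (hCVA : SpecCVA) (hCVB : SpecCVB) (hLIM : SpecLIM) (hCEV : SpecCEV)
    (hREV : SpecREV) : SpecCOV := by
  intro R _ _ N L k1 k2 x1 xi1 x2 xi2 hx1 hx2 h1 h2 hL hk1 hk1' hk2 hk2'
  have key : Good R N L k1 k2 x1 xi1 x2 xi2 := by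
    rcases le_total k1 N with a | a
    · rcases le_total k2 N with b | b
      · rcases le_total k1 k2 with c | c
        · exact caseB hCVB hLIM hCEV R N L k1 k2 x1 xi1 x2 xi2 hx1 hx2 h1 h2 hL hk1 c b
        · exact good_comm _ _ _ _ _ _ _ _
            (caseB hCVB hLIM hCEV R N L k2 k1 x2 xi2 x1 xi1 hx2 hx1 h2 h1 hL hk2 c a)
      · exact caseA hCVA hLIM hCEV R N L k1 k2 x1 xi1 x2 xi2 hx1 hx2 h1 h2 hL hk1 a b hk2'
    · rcases le_total k2 N with b | b
      · exact good_comm _ _ _ _ _ _ _ _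
          (caseA hCVA hLIM hCEV R N L k2 k1 x2 xi2 x1 xi1 hx2 hx1 h2 h1 hL hk2 b a hk1')
      · refine good_rev hREV N L k1 k2 x1 xi1 x2 xi2 (by omega) (by omega) ?_
        rcases le_total k1 k2 with c | c
        · exact good_comm _ _ _ _ _ _ _ _
            (caseB hCVB hLIM hCEV R N L (2 * N - k2) (2 * N - k1) x2 xi2 x1 xi1 hx2 hx1 h2 h1 hL
              (by omega) (by omega) (by omega))
        · exact caseB hCVB hLIM hCEV R N L (2 * N - k1) (2 * N - k2) x1 xi1 x2 xi2 hx1 hx2 h1 h2
            hL (by omega) (by omega) (by omega)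
  exact key

end Pool.Agent.Lib.MPd9449f
end

section
/-!
# CVA: covariance of the eigenvalues on both sides of the central slice
-/
open PowerSeries Finset

namespace Pool.Agent.Lib.MPd9449f

namespace CVAM

/-! ### Elementary lemmas -/

lemma one_sub_mul_ig {R : Type} [CommRing R] (x : R) {a : ℕ} (ha : 1 ≤ a) :
    (1 - C x * (X : PowerSeries R) ^ a) * ig x a = 1 := by
  ext n
  rw [sub_mul, one_mul, map_sub, mul_assoc, coeff_C_mul, coeff_X_pow_mul', coeff_one]
  by_cases h0 : n = 0
  · subst h0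
    simp only [ig, coeff_mk, dvd_zero, if_true, Nat.zero_div, pow_zero]
    rw [if_neg (by omega)]
    simp
  · rw [if_neg h0]
    by_cases han : a ≤ n
    · rw [if_pos han]
      simp only [ig, coeff_mk]
      by_cases hd : a ∣ n
      · rw [if_pos hd, if_pos (Nat.dvd_sub hd (dvd_refl a))]
        obtain ⟨k, rfl⟩ := hd
        have hk : 1 ≤ k := by
          rcases Nat.eq_zero_or_pos k with h | h
          · subst h; simp at h0
          · exact h
        obtain ⟨k, rfl⟩ : ∃ k', k = k' + 1 := ⟨k - 1, by omega⟩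
        have h1 : a * (k + 1) - a = a * k := by
          rw [Nat.mul_add, Nat.mul_one, Nat.add_sub_cancel]
        rw [h1, Nat.mul_div_cancel_left _ (by omega), Nat.mul_div_cancel_left _ (by omega)]
        ring
      · rw [if_neg hd, if_neg]
        · simp
        · intro h
          apply hd
          have := Nat.dvd_add h (dvd_refl a)
          rwa [Nat.sub_add_cancel han] at this
    · rw [if_neg han]
      simp only [ig, coeff_mk]
      rw [if_neg]
      · simp
      · intro h
        exact han (Nat.le_of_dvd (by omega) h)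

lemma one_sub_mul_ig_one {R : Type} [CommRing R] {a : ℕ} (ha : 1 ≤ a) :
    (1 - (X : PowerSeries R) ^ a) * ig 1 a = 1 := by
  have := one_sub_mul_ig (1 : R) ha
  simpa using this

section chains

variable {N : ℕ} {B : Type} [CommRing B]

lemma up_congr {X X' : ℕ → B} (v : (Fin N → ℕ) → B) (n : ℕ) (h : ∀ t < n, X t = X' t) :
    up X v n = up X' v n := by
  induction n with
  | zero => rfl
  | succ n ih =>
    funext l
    simp only [up]
    rw [ih fun t ht => h t (by omega), h n (by omega)]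

lemma up_add (X : ℕ → B) (v : (Fin N → ℕ) → B) (k t : ℕ) :
    up (fun s => X (k + s)) (up X v k) t = up X v (k + t) := by
  induction t with
  | zero => rfl
  | succ t ih =>
    funext l
    rw [← Nat.add_assoc]
    simp only [up]
    rw [ih]

lemma sch_congr {X X' : ℕ → B} (n : ℕ) (h : ∀ t < n, X t = X' t) :
    (sch X n : (Fin N → ℕ) → B) = sch X' n := up_congr _ _ h

lemma up_sch (X : ℕ → B) (k t : ℕ) :
    up (fun s => X (k + s)) (sch X k : (Fin N → ℕ) → B) t = sch X (k + t) := up_add _ _ _ _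

end chains

section alg

variable {R : Type} [CommRing R]

/-- factor of the Cauchy product -/
lemma factor (x1 x2 : R) {a : ℕ} (ha : 1 ≤ a) (p q : Prop) [Decidable p] [Decidable q] :
    (1 - (if p then C x1 else 1) * (if q then C x2 else 1) * (X : PowerSeries R) ^ a) *
      ((if p then (1 - X ^ a) * ig x1 a else 1) * (if q then (1 - X ^ a) * ig x2 a else 1) *
        (if p then (if q then 1 + C ((1 - x1) * (1 - x2)) * Hh (x1 * x2) a else 1) else 1)) =
      1 - X ^ a := by
  have h1 := one_sub_mul_ig x1 ha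
  have h2 := one_sub_mul_ig x2 ha
  have h12 := one_sub_mul_ig (x1 * x2) ha
  have h0 := one_sub_mul_ig_one (R := R) ha
  by_cases hp : p <;> by_cases hq : q <;> simp only [hp, hq, if_true, if_false, Hh]
  · simp only [map_mul, map_sub, map_one] at *
    linear_combination (1 - X ^ a) * (h1 * ig x2 a * (1 - C x2 * X ^ a) + h2) +
      (1 - X ^ a) * ig x1 a * (1 - X ^ a) * ig x2 a * (1 - C x1) * (1 - C x2) * X ^ a * ig 1 a * h12
      + (1 - X ^ a) * ig x1 a * ig x2 a * (1 - C x1) * (1 - C x2) * X ^ a * h0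
  · linear_combination (1 - X ^ a) * h1
  · linear_combination (1 - X ^ a) * h2
  · ring

lemma rt_one (e n : ℕ) (he : 1 ≤ e) : rt (1 : R) e n = 1 := by
  rw [rt]
  exact Finset.prod_eq_one fun t _ => one_sub_mul_ig_one (by omega)

/-- the Cauchy product of the first `n` variables -/
noncomputable def Pn (R : Type) [CommRing R] (N n : ℕ) : PowerSeries R :=
  ∏ k ∈ range n, ∏ l ∈ range N, (1 - X ^ (2 * N - 1 - k - l))

lemma Pn_eq (N : ℕ) : Pn R N N = pi0 R N := by
  rw [Pn, pi0, ← Finset.prod_range_reflect]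
  refine Finset.prod_congr rfl fun k hk => ?_
  rw [← Finset.prod_range_reflect]
  refine Finset.prod_congr rfl fun l hl => ?_
  rw [mem_range] at hk hl
  congr 2
  omega

/-- the Cauchy product with two modified variables -/
lemma prodId (x1 x2 : R) {N n i j : ℕ} (hn : n ≤ N) (hi : i < n) (hj : j < N) :
    (∏ k ∈ range n, ∏ l ∈ range N,
        (1 - (if k = i then C x1 else 1) * (if l = j then C x2 else 1) *
          (X : PowerSeries R) ^ (2 * N - 1 - k - l))) *
      (rt x1 (N - i) N * rt x2 (2 * N - n - j) n *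
        (1 + C ((1 - x1) * (1 - x2)) * Hh (x1 * x2) (2 * N - 1 - i - j))) = Pn R N n := by
  have hα : rt x1 (N - i) N = ∏ k ∈ range n, ∏ l ∈ range N,
      (if k = i then (1 - X ^ (2 * N - 1 - k - l)) * ig x1 (2 * N - 1 - k - l) else 1) := by
    have : ∀ k ∈ range n, (∏ l ∈ range N,
      (if k = i then (1 - X ^ (2 * N - 1 - k - l)) * ig x1 (2 * N - 1 - k - l) else 1)) =
      if k = i then (∏ l ∈ range N,
        (1 - X ^ (2 * N - 1 - i - l)) * ig x1 (2 * N - 1 - i - l)) else 1 := by
      intro k _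
      by_cases h : k = i
      · simp [h]
      · simp [h]
    rw [Finset.prod_congr rfl this, Finset.prod_ite_eq' (range n) i, if_pos (mem_range.2 hi), rt,
      ← Finset.prod_range_reflect]
    refine Finset.prod_congr rfl fun l hl => ?_
    rw [mem_range] at hl
    have : N - i + (N - 1 - l) = 2 * N - 1 - i - l := by omega
    rw [this]
  have hβ : rt x2 (2 * N - n - j) n = ∏ k ∈ range n, ∏ l ∈ range N,
      (if l = j then (1 - X ^ (2 * N - 1 - k - l)) * ig x2 (2 * N - 1 - k - l) else 1) := by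
    have : ∀ k ∈ range n, (∏ l ∈ range N,
      (if l = j then (1 - X ^ (2 * N - 1 - k - l)) * ig x2 (2 * N - 1 - k - l) else 1)) =
        (1 - X ^ (2 * N - 1 - k - j)) * ig x2 (2 * N - 1 - k - j) := by
      intro k _
      rw [Finset.prod_ite_eq' (range N) j, if_pos (mem_range.2 hj)]
    rw [Finset.prod_congr rfl this, rt, ← Finset.prod_range_reflect]
    refine Finset.prod_congr rfl fun k hk => ?_
    rw [mem_range] at hk
    have : 2 * N - n - j + (n - 1 - k) = 2 * N - 1 - k - j := by omega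
    rw [this]
  have hγ : 1 + C ((1 - x1) * (1 - x2)) * Hh (x1 * x2) (2 * N - 1 - i - j) =
      ∏ k ∈ range n, ∏ l ∈ range N,
      (if k = i then (if l = j then
        1 + C ((1 - x1) * (1 - x2)) * Hh (x1 * x2) (2 * N - 1 - k - l) else 1) else 1) := by
    have : ∀ k ∈ range n, (∏ l ∈ range N,
      (if k = i then (if l = j then
        1 + C ((1 - x1) * (1 - x2)) * Hh (x1 * x2) (2 * N - 1 - k - l) else 1) else 1)) =
      if k = i then (1 + C ((1 - x1) * (1 - x2)) * Hh (x1 * x2) (2 * N - 1 - k - j)) else 1 := by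
      intro k _
      by_cases h : k = i
      · simp only [h, if_true]
        rw [Finset.prod_ite_eq' (range N) j, if_pos (mem_range.2 hj)]
      · simp [h]
    rw [Finset.prod_congr rfl this, Finset.prod_ite_eq' (range n) i, if_pos (mem_range.2 hi)]
  rw [hα, hβ, hγ, Pn]
  simp only [← Finset.prod_mul_distrib]
  refine Finset.prod_congr rfl fun k hk => Finset.prod_congr rfl fun l hl => ?_
  rw [mem_range] at hk hl
  exact factor x1 x2 (by omega) _ _

/-- the modified variables on the left -/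
noncomputable def Xm (N : ℕ) (x : R) (i : ℕ) : ℕ → PowerSeries R :=
  Function.update (fun j => (X : PowerSeries R) ^ (N - j)) i (C x * X ^ (N - i))

lemma Xm_apply (N : ℕ) (x : R) (i k : ℕ) :
    Xm N x i k = (if k = i then C x else 1) * X ^ (N - k) := by
  rw [Xm, Function.update_apply]
  by_cases h : k = i
  · simp [h]
  · simp [h]

lemma Xm_one (N i : ℕ) : Xm N (1 : R) i = fun j => (X : PowerSeries R) ^ (N - j) := by
  funext k
  rw [Xm_apply]
  simp

/-- the key lemma: scalar products of Schur functions with modified variables -/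
lemma key (hVNZ : SpecVNZ) (hCAU : SpecCAU) [IsDomain R] (x1 x2 : R) (hx2 : x2 ≠ 0)
    {N L n i j : ℕ} (hn : n ≤ N) (hi : i < n) (hj : j < N) :
    X ^ (L + 1) ∣ Pn R N n * (∑ m ∈ box N L, sch (Xm N x1 i) n m * sch (Xm (N - 1) x2 j) N m) -
      rt x1 (N - i) N * rt x2 (2 * N - n - j) n *
        (1 + C ((1 - x1) * (1 - x2)) * Hh (x1 * x2) (2 * N - 1 - i - j)) := by
  have h1 : vd (Xm (N - 1) x2 j) N ≠ 0 :=
    (hVNZ R N (N - 1) (by omega)).2 x2 j hx2 hj
  have h2 := hCAU R N L n (fun t => if t < n then Xm N x1 i t else 0) (Xm (N - 1) x2 j) (by omega)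
    h1 (by
      intro t
      by_cases ht : t < n
      · simp only [ht, if_true, Xm_apply]
        exact Dvd.dvd.mul_left (dvd_pow_self X (by omega)) _
      · simp [ht])
  have h3 : (∏ i' ∈ range n, ∏ l ∈ range N, (1 - (if i' < n then Xm N x1 i i' else 0) *
      Xm (N - 1) x2 j l)) = ∏ k ∈ range n, ∏ l ∈ range N,
        (1 - (if k = i then C x1 else 1) * (if l = j then C x2 else 1) *
          (X : PowerSeries R) ^ (2 * N - 1 - k - l)) := by
    refine Finset.prod_congr rfl fun k hk => Finset.prod_congr rfl fun l hl => ?_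
    rw [mem_range] at hk hl
    rw [if_pos hk, Xm_apply, Xm_apply]
    have : 2 * N - 1 - k - l = (N - k) + (N - 1 - l) := by omega
    rw [this, pow_add]
    ring
  have h4 : (sch (fun t => if t < n then Xm N x1 i t else 0) n : (Fin N → ℕ) → PowerSeries R) =
      sch (Xm N x1 i) n := sch_congr n fun t ht => if_pos ht
  rw [h3, h4] at h2
  have h5 := prodId x1 x2 hn hi hj
  rw [← h5]
  obtain ⟨c, hc⟩ := h2
  refine ⟨c * (rt x1 (N - i) N * rt x2 (2 * N - n - j) n *
        (1 + C ((1 - x1) * (1 - x2)) * Hh (x1 * x2) (2 * N - 1 - i - j))), ?_⟩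
  linear_combination (rt x1 (N - i) N * rt x2 (2 * N - n - j) n *
        (1 + C ((1 - x1) * (1 - x2)) * Hh (x1 * x2) (2 * N - 1 - i - j))) * hc

/-- algebra of the covariance -/
lemma comb {A : Type} [CommRing A] (p s w : A) (a b : ℕ) (c d : ℕ → A) (S : ℕ → ℕ → A)
    (S1 S2 α β : ℕ → A) (h : ℕ → ℕ → A) (h0 : p * s = 1)
    (h1 : ∀ i ∈ range a, p * S1 i = α i) (h2 : ∀ j ∈ range b, p * S2 j = β j)
    (h12 : ∀ i ∈ range a, ∀ j ∈ range b, p * S i j = α i * β j * (1 + w * h i j)) :
    p ^ 2 * (s * (∑ i ∈ range a, ∑ j ∈ range b, c i * d j * S i j) -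
      (∑ i ∈ range a, c i * S1 i) * (∑ j ∈ range b, d j * S2 j)) =
      w * ∑ i ∈ range a, ∑ j ∈ range b, c i * α i * (d j * β j) * h i j := by
  have e1 : p * (∑ i ∈ range a, ∑ j ∈ range b, c i * d j * S i j) =
      ∑ i ∈ range a, ∑ j ∈ range b, c i * d j * (α i * β j * (1 + w * h i j)) := by
    rw [Finset.mul_sum]
    refine Finset.sum_congr rfl fun i hi => ?_
    rw [Finset.mul_sum]
    refine Finset.sum_congr rfl fun j hj => ?_
    rw [← h12 i hi j hj]
    ring
  have e2 : p * (∑ i ∈ range a, c i * S1 i) = ∑ i ∈ range a, c i * α i := by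
    rw [Finset.mul_sum]
    refine Finset.sum_congr rfl fun i hi => ?_
    rw [← h1 i hi]
    ring
  have e3 : p * (∑ j ∈ range b, d j * S2 j) = ∑ j ∈ range b, d j * β j := by
    rw [Finset.mul_sum]
    refine Finset.sum_congr rfl fun i hi => ?_
    rw [← h2 i hi]
    ring
  have e4 : p ^ 2 * (s * (∑ i ∈ range a, ∑ j ∈ range b, c i * d j * S i j) -
      (∑ i ∈ range a, c i * S1 i) * (∑ j ∈ range b, d j * S2 j)) =
      (p * s) * (p * (∑ i ∈ range a, ∑ j ∈ range b, c i * d j * S i j)) -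
      (p * (∑ i ∈ range a, c i * S1 i)) * (p * (∑ j ∈ range b, d j * S2 j)) := by ring
  rw [e4, h0, one_mul, e1, e2, e3, Finset.sum_mul_sum, Finset.mul_sum, ← Finset.sum_sub_distrib]
  refine Finset.sum_congr rfl fun i hi => ?_
  rw [Finset.mul_sum, ← Finset.sum_sub_distrib]
  refine Finset.sum_congr rfl fun j hj => ?_
  ring

/-- algebra of the covariance modulo `q^(L+1)` -/
lemma combMod (L : ℕ) (p s w : PowerSeries R) (a b : ℕ) (c d : ℕ → PowerSeries R)
    (S : ℕ → ℕ → PowerSeries R)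
    (S1 S2 α β : ℕ → PowerSeries R) (h : ℕ → ℕ → PowerSeries R)
    (h0 : X ^ (L + 1) ∣ p * s - 1)
    (h1 : ∀ i ∈ range a, X ^ (L + 1) ∣ p * S1 i - α i)
    (h2 : ∀ j ∈ range b, X ^ (L + 1) ∣ p * S2 j - β j)
    (h12 : ∀ i ∈ range a, ∀ j ∈ range b,
      X ^ (L + 1) ∣ p * S i j - α i * β j * (1 + w * h i j)) :
    X ^ (L + 1) ∣ p ^ 2 * (s * (∑ i ∈ range a, ∑ j ∈ range b, c i * d j * S i j) -
      (∑ i ∈ range a, c i * S1 i) * (∑ j ∈ range b, d j * S2 j)) -
      w * ∑ i ∈ range a, ∑ j ∈ range b, c i * α i * (d j * β j) * h i j := by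
  set q := Ideal.Quotient.mk (Ideal.span {(X : PowerSeries R) ^ (L + 1)}) with hq
  have key : ∀ u : PowerSeries R, X ^ (L + 1) ∣ u ↔ q u = 0 := by
    intro u
    rw [hq, Ideal.Quotient.eq_zero_iff_mem, Ideal.mem_span_singleton]
  rw [key, map_sub, sub_eq_zero] at h0 ⊢
  have := comb (q p) (q s) (q w) a b (fun i => q (c i)) (fun i => q (d i))
    (fun i j => q (S i j)) (fun i => q (S1 i)) (fun i => q (S2 i)) (fun i => q (α i))
    (fun i => q (β i)) (fun i j => q (h i j)) (by rw [← map_mul, h0, map_one])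
    (by
      intro i hi
      have := h1 i hi
      rw [key, map_sub, sub_eq_zero] at this
      rw [← map_mul, this])
    (by
      intro i hi
      have := h2 i hi
      rw [key, map_sub, sub_eq_zero] at this
      rw [← map_mul, this])
    (by
      intro i hi j hj
      have := h12 i hi j hj
      rw [key, map_sub, sub_eq_zero] at this
      simp only [← map_mul, this]
      simp only [map_mul, map_add, map_one])
  simp only [map_mul, map_sub, map_sum, map_pow]
  exact this

end alg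

end CVAM

open CVAM in
/-- CVA: covariance of the eigenvalues on both sides of the central slice. -/
theorem specCVA (hCHA : SpecCHA) (hVNZ : SpecVNZ) (hLV : SpecLV) (hCAU : SpecCAU) : SpecCVA := by
  intro R _ _ N L k1 k' x1 x2 hx1 hx2 hk1 hk1N hk' hk'N
  have hA1 : up (fun t => (X : PowerSeries R) ^ (N - (k1 + t)))
      (fun m : Fin N → ℕ => 1 * sch (fun j => X ^ (N - j)) k1 m) (N - k1) =
      sch (Xm N 1 0) N := by
    simp only [one_mul]
    have := up_sch (N := N) (fun j => (X : PowerSeries R) ^ (N - j)) k1 (N - k1)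
    rw [Nat.add_sub_cancel' hk1N] at this
    rw [Xm_one, ← this]
  have hB1 : up (fun t => (X : PowerSeries R) ^ (N - 1 - (k' + t)))
      (fun m : Fin N → ℕ => 1 * sch (fun j => X ^ (N - 1 - j)) k' m) (N - k') =
      sch (Xm (N - 1) 1 0) N := by
    simp only [one_mul]
    have := up_sch (N := N) (fun j => (X : PowerSeries R) ^ (N - 1 - j)) k' (N - k')
    rw [Nat.add_sub_cancel' hk'N] at this
    rw [Xm_one, ← this]
  have hAe : ∀ l : Fin N → ℕ, up (fun t => (X : PowerSeries R) ^ (N - (k1 + t)))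
      (fun m : Fin N → ℕ => ev (C x1) k1 m * sch (fun j => X ^ (N - j)) k1 m) (N - k1) l =
      ∑ i ∈ range k1, cc x1 k1 i * sch (Xm N x1 i) N l := by
    intro l
    have := hLV R N k1 (N - k1) N x1 l hk1 (by omega) (by omega)
    rw [Nat.add_sub_cancel' hk1N] at this
    exact this
  have hBe : ∀ l : Fin N → ℕ, up (fun t => (X : PowerSeries R) ^ (N - 1 - (k' + t)))
      (fun m : Fin N → ℕ => ev (C x2) k' m * sch (fun j => X ^ (N - 1 - j)) k' m) (N - k') l =
      ∑ i ∈ range k', cc x2 k' i * sch (Xm (N - 1) x2 i) N l := by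
    intro l
    have := hLV R N k' (N - k') (N - 1) x2 l hk' (by omega) (by omega)
    rw [Nat.add_sub_cancel' hk'N] at this
    exact this
  have hN : 1 ≤ N := by omega
  have e0 : avg N L k1 (2 * N - k') (fun _ => (1 : PowerSeries R)) (fun _ => 1) =
      ∑ m ∈ box N L, sch (Xm N 1 0) N m * sch (Xm (N - 1) 1 0) N m := by
    rw [hCHA R N L k1 k' _ _ hN hk1N hk'N, hA1, hB1]
  have e1 : avg N L k1 (2 * N - k') (ev (C x1) k1) (fun _ => (1 : PowerSeries R)) =
      ∑ i ∈ range k1, cc x1 k1 i *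
        ∑ m ∈ box N L, sch (Xm N x1 i) N m * sch (Xm (N - 1) 1 0) N m := by
    rw [hCHA R N L k1 k' _ _ hN hk1N hk'N, hB1]
    simp only [hAe, Finset.sum_mul, Finset.mul_sum]
    rw [Finset.sum_comm]
    exact Finset.sum_congr rfl fun i _ => Finset.sum_congr rfl fun m _ => by ring
  have e2 : avg N L k1 (2 * N - k') (fun _ => (1 : PowerSeries R)) (ev (C x2) k') =
      ∑ j ∈ range k', cc x2 k' j *
        ∑ m ∈ box N L, sch (Xm N 1 0) N m * sch (Xm (N - 1) x2 j) N m := by
    rw [hCHA R N L k1 k' _ _ hN hk1N hk'N, hA1]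
    simp only [hBe, Finset.mul_sum]
    rw [Finset.sum_comm]
    exact Finset.sum_congr rfl fun i _ => Finset.sum_congr rfl fun m _ => by ring
  have e3 : avg N L k1 (2 * N - k') (ev (C x1) k1) (ev (C x2) k') =
      ∑ i ∈ range k1, ∑ j ∈ range k', cc x1 k1 i * cc x2 k' j *
        ∑ m ∈ box N L, sch (Xm N x1 i) N m * sch (Xm (N - 1) x2 j) N m := by
    rw [hCHA R N L k1 k' _ _ hN hk1N hk'N]
    simp only [hAe, hBe, Finset.sum_mul_sum]
    simp only [Finset.mul_sum]
    rw [Finset.sum_comm]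
    refine Finset.sum_congr rfl fun i _ => ?_
    rw [Finset.sum_comm]
    exact Finset.sum_congr rfl fun j _ => Finset.sum_congr rfl fun m _ => by ring
  rw [e0, e1, e2, e3]
  have hβ : ∀ j, 2 * N - N - j = N - j := fun j => by omega
  refine combMod L (pi0 R N) _ _ k1 k' (cc x1 k1) (cc x2 k') _ _ _
    (fun i => rt x1 (N - i) N) (fun j => rt x2 (N - j) N)
    (fun i j => Hh (x1 * x2) (2 * N - 1 - i - j)) ?_ ?_ ?_ ?_
  · have := key hVNZ hCAU (1 : R) 1 one_ne_zero (N := N) (L := L) (n := N) (i := 0) (j := 0)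
      le_rfl (by omega) (by omega)
    rw [Pn_eq, rt_one _ _ (by omega), rt_one _ _ (by omega)] at this
    simpa using this
  · intro i hi
    rw [mem_range] at hi
    have := key hVNZ hCAU x1 1 one_ne_zero (N := N) (L := L) (n := N) (i := i) (j := 0)
      le_rfl (by omega) (by omega)
    rw [Pn_eq, rt_one (R := R) _ _ (by omega)] at this
    simpa using this
  · intro j hj
    rw [mem_range] at hj
    have := key hVNZ hCAU 1 x2 hx2 (N := N) (L := L) (n := N) (i := 0) (j := j)
      le_rfl (by omega) (by omega)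
    rw [Pn_eq, rt_one (R := R) _ _ (by omega), hβ] at this
    simpa using this
  · intro i hi j hj
    rw [mem_range] at hi hj
    have := key hVNZ hCAU x1 x2 hx2 (N := N) (L := L) (n := N) (i := i) (j := j)
      le_rfl (by omega) (by omega)
    rw [Pn_eq, hβ] at this
    exact this

end Pool.Agent.Lib.MPd9449f
end

section
/-!
# CVB: covariance of the eigenvalues on the same side of the central slice
-/
open PowerSeries Finset

namespace Pool.Agent.Lib.MPd9449f

namespace CVBM

open CVAM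

variable {R : Type} [CommRing R] {N : ℕ}

lemma dvd_up {Xv : ℕ → PowerSeries R} {v : (Fin N → ℕ) → PowerSeries R} (n : ℕ)
    (hX : ∀ t < n, X ∣ Xv t) (hv : ∀ m, X ^ sz m ∣ v m) (l : Fin N → ℕ) :
    X ^ sz l ∣ up Xv v n l := by
  induction n generalizing l with
  | zero => exact hv l
  | succ n ih =>
    simp only [up]
    refine Finset.dvd_sum fun m _ => ?_
    have h1 : (X : PowerSeries R) ^ (sz l - sz m) ∣ Xv n ^ (sz l - sz m) :=
      pow_dvd_pow_of_dvd (hX n (by omega)) _
    have h2 := ih (fun t ht => hX t (by omega)) m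
    have h3 := mul_dvd_mul h1 h2
    rw [← pow_add] at h3
    exact (pow_dvd_pow _ (by omega)).trans h3

lemma dvd_sch {Xv : ℕ → PowerSeries R} (n : ℕ) (hX : ∀ t < n, X ∣ Xv t) (l : Fin N → ℕ) :
    X ^ sz l ∣ sch Xv n l := by
  refine dvd_up n hX (fun m => ?_) l
  by_cases h : m = 0
  · subst h
    have : sz (0 : Fin N → ℕ) = 0 := by simp [sz]
    rw [this, pow_zero]
    exact one_dvd _
  · simp [del, h]

lemma lv_zero_le (m : Fin N → ℕ) : lv m 0 ≤ sz m := by
  rw [lv]
  split_ifs with h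
  · exact Finset.single_le_sum (f := m) (fun _ _ => Nat.zero_le _) (mem_univ _)
  · exact Nat.zero_le _

lemma lv_zero_le_of_mem {L : ℕ} {m : Fin N → ℕ} (hm : m ∈ box N L) : lv m 0 ≤ L := by
  rw [lv]
  split_ifs with h
  · rw [box, Fintype.mem_piFinset] at hm
    have := hm ⟨0, h⟩
    rw [mem_range] at this
    omega
  · exact Nat.zero_le _

/-- the second part of the Cauchy product -/
noncomputable def Qn (R : Type) [CommRing R] (N a : ℕ) : PowerSeries R :=
  ∏ t ∈ range a, ∏ l ∈ range N, (1 - X ^ (t + 1) * X ^ (N - 1 - l))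

lemma Pn_mul_Qn {n : ℕ} (hn : n ≤ N) : Pn R N n * Qn R N (N - n) = pi0 R N := by
  rw [← Pn_eq]
  have h1 : Pn R N N = Pn R N n * ∏ k ∈ range (N - n), ∏ l ∈ range N,
      (1 - (X : PowerSeries R) ^ (2 * N - 1 - (n + k) - l)) := by
    rw [Pn, Pn]
    conv_lhs => rw [← Nat.add_sub_cancel' hn]
    rw [Finset.prod_range_add]
    congr 1 <;> simp only [Nat.add_sub_cancel' hn]
  rw [h1, Qn, ← Finset.prod_range_reflect]
  congr 1
  refine Finset.prod_congr rfl fun k hk => Finset.prod_congr rfl fun l hl => ?_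
  rw [mem_range] at hk hl
  rw [← pow_add]
  congr 2
  omega

/-- replacing the right part by the Schur function -/
lemma repl (hVNZ : SpecVNZ) (hRV : SpecRV) [IsDomain R] {L n : ℕ} (hN : 1 ≤ N) (hn : n ≤ N)
    (A g : (Fin N → ℕ) → PowerSeries R) (hA : ∀ m, X ^ sz m ∣ A m)
    (hA0 : ∀ m, ¬Antitone m → A m = 0) :
    X ^ (L + 1) ∣ pi0 R N * (∑ m ∈ box N L, A m * (g m *
        dn L (fun t => X ^ (t + 1)) (sch (fun j => X ^ (N - 1 - j)) N) (N - n) m)) -
      Pn R N n * (∑ m ∈ box N L, A m * (g m * sch (fun j => X ^ (N - 1 - j)) N m)) := by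
  rw [← Pn_mul_Qn hn, Finset.mul_sum, Finset.mul_sum, ← Finset.sum_sub_distrib]
  refine Finset.dvd_sum fun m hm => ?_
  by_cases hanti : Antitone m
  · have h1 := hRV R N L (N - n) (fun j => X ^ (N - 1 - j)) (fun t => X ^ (t + 1)) m hN
      (hVNZ R N (N - 1) (by omega)).1 (fun t => dvd_pow_self X (by omega)) hanti
      (lv_zero_le_of_mem hm)
    have h2 : X ^ lv m 0 ∣ A m := (pow_dvd_pow _ (lv_zero_le m)).trans (hA m)
    obtain ⟨b, hb⟩ := h2
    obtain ⟨c, hc⟩ := h1
    refine ⟨b * c * g m * Pn R N n, ?_⟩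
    rw [hb]
    rw [Qn]
    linear_combination (b * g m * Pn R N n) * hc
  · rw [hA0 m hanti]
    simp

end CVBM

open CVAM CVBM in
/-- CVB: covariance of the eigenvalues at the slices `k1 ≤ k2 ≤ N`. -/
theorem specCVB (hCHB : SpecCHB) (hVAN : SpecVAN) (hVNZ : SpecVNZ) (hLV : SpecLV) (hRV : SpecRV)
    (hCAU : SpecCAU) : SpecCVB := by
  intro R _ _ N L k1 k2 x1 x2 hx1 hx2 hk1 hk12 hk2
  have hN : 1 ≤ N := by omega
  have hA1 : up (fun t => (X : PowerSeries R) ^ (N - (k1 + t)))
      (fun m : Fin N → ℕ => 1 * sch (fun j => X ^ (N - j)) k1 m) (k2 - k1) =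
      sch (Xm N 1 0) k2 := by
    simp only [one_mul]
    have := up_sch (N := N) (fun j => (X : PowerSeries R) ^ (N - j)) k1 (k2 - k1)
    rw [Nat.add_sub_cancel' hk12] at this
    rw [Xm_one, ← this]
  have hAe : ∀ l : Fin N → ℕ, up (fun t => (X : PowerSeries R) ^ (N - (k1 + t)))
      (fun m : Fin N → ℕ => ev (C x1) k1 m * sch (fun j => X ^ (N - j)) k1 m) (k2 - k1) l =
      ∑ i ∈ range k1, cc x1 k1 i * sch (Xm N x1 i) k2 l := by
    intro l
    have := hLV R N k1 (k2 - k1) N x1 l hk1 (by omega) (by omega)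
    rw [Nat.add_sub_cancel' hk12] at this
    exact this
  have hBe : ∀ l : Fin N → ℕ, ev (C x2) N l * sch (fun j => (X : PowerSeries R) ^ (N - 1 - j)) N l =
      ∑ i ∈ range N, cc x2 N i * sch (Xm (N - 1) x2 i) N l := by
    intro l
    have := hLV R N N 0 (N - 1) x2 l hN (by omega) (by omega)
    exact this
  have hB1 : sch (fun j => (X : PowerSeries R) ^ (N - 1 - j)) N =
      (sch (Xm (N - 1) 1 0) N : (Fin N → ℕ) → PowerSeries R) := by
    rw [Xm_one]
  have hdX : ∀ (x : R) (i t : ℕ), t < k2 → X ∣ Xm N x i t := by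
    intro x i t ht
    rw [Xm_apply]
    exact Dvd.dvd.mul_left (dvd_pow_self X (by omega)) _
  have hs : ∀ (x : R) (i : ℕ) (m : Fin N → ℕ), X ^ sz m ∣ sch (Xm N x i) k2 m := fun x i m =>
    dvd_sch k2 (hdX x i) m
  have hs0 : ∀ (x : R) (i : ℕ) (m : Fin N → ℕ), ¬Antitone m → sch (Xm N x i) k2 m = 0 :=
    fun x i m hm => hVAN _ N k2 _ m fun h => hm h.1
  -- the four averages
  have e0 : X ^ (L + 1) ∣ pi0 R N * avg N L k1 k2 (fun _ => (1 : PowerSeries R)) (fun _ => 1) -
      Pn R N k2 * ∑ m ∈ box N L, sch (Xm N (1 : R) 0) k2 m * sch (Xm (N - 1) (1 : R) 0) N m := by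
    rw [hCHB R N L k1 k2 _ _ hN hk12 hk2, hA1]
    have := repl hVNZ hRV (L := L) hN hk2 (sch (Xm N (1 : R) 0) k2) (fun _ => 1) (hs 1 0) (hs0 1 0)
    rw [hB1] at this ⊢
    simpa only [one_mul] using this
  have e1 : X ^ (L + 1) ∣ pi0 R N * avg N L k1 k2 (ev (C x1) k1) (fun _ => (1 : PowerSeries R)) -
      Pn R N k2 * ∑ i ∈ range k1, cc x1 k1 i *
        ∑ m ∈ box N L, sch (Xm N x1 i) k2 m * sch (Xm (N - 1) (1 : R) 0) N m := by
    rw [hCHB R N L k1 k2 _ _ hN hk12 hk2]
    simp only [hAe]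
    have := repl hVNZ hRV (L := L) hN hk2
      (fun m => ∑ i ∈ range k1, cc x1 k1 i * sch (Xm N x1 i) k2 m) (fun _ => 1)
      (fun m => Finset.dvd_sum fun i _ => Dvd.dvd.mul_left (hs x1 i m) _)
      (fun m hm => Finset.sum_eq_zero fun i _ => by rw [hs0 x1 i m hm, mul_zero])
    rw [hB1] at this ⊢
    convert this using 3
    simp only [one_mul, Finset.sum_mul, Finset.mul_sum]
    rw [Finset.sum_comm]
    exact Finset.sum_congr rfl fun i _ => Finset.sum_congr rfl fun m _ => by ring
  have e2 : X ^ (L + 1) ∣ pi0 R N * avg N L k1 k2 (fun _ => (1 : PowerSeries R)) (ev (C x2) N) -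
      Pn R N k2 * ∑ j ∈ range N, cc x2 N j *
        ∑ m ∈ box N L, sch (Xm N (1 : R) 0) k2 m * sch (Xm (N - 1) x2 j) N m := by
    rw [hCHB R N L k1 k2 _ _ hN hk12 hk2, hA1]
    have := repl hVNZ hRV (L := L) hN hk2 (sch (Xm N (1 : R) 0) k2) (ev (C x2) N) (hs 1 0)
      (hs0 1 0)
    convert this using 3
    simp only [hBe, Finset.mul_sum]
    rw [Finset.sum_comm]
    exact Finset.sum_congr rfl fun i _ => Finset.sum_congr rfl fun m _ => by ring
  have e3 : X ^ (L + 1) ∣ pi0 R N * avg N L k1 k2 (ev (C x1) k1) (ev (C x2) N) -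
      Pn R N k2 * ∑ i ∈ range k1, ∑ j ∈ range N, cc x1 k1 i * cc x2 N j *
        ∑ m ∈ box N L, sch (Xm N x1 i) k2 m * sch (Xm (N - 1) x2 j) N m := by
    rw [hCHB R N L k1 k2 _ _ hN hk12 hk2]
    simp only [hAe]
    have := repl hVNZ hRV (L := L) hN hk2
      (fun m => ∑ i ∈ range k1, cc x1 k1 i * sch (Xm N x1 i) k2 m) (ev (C x2) N)
      (fun m => Finset.dvd_sum fun i _ => Dvd.dvd.mul_left (hs x1 i m) _)
      (fun m hm => Finset.sum_eq_zero fun i _ => by rw [hs0 x1 i m hm, mul_zero])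
    have hh : ∑ i ∈ range k1, ∑ j ∈ range N, cc x1 k1 i * cc x2 N j *
        ∑ m ∈ box N L, sch (Xm N x1 i) k2 m * sch (Xm (N - 1) x2 j) N m =
        ∑ m ∈ box N L, (∑ i ∈ range k1, cc x1 k1 i * sch (Xm N x1 i) k2 m) *
          (ev (C x2) N m * sch (fun j => X ^ (N - 1 - j)) N m) := by
      simp only [hBe, Finset.sum_mul_sum]
      simp only [Finset.mul_sum]
      conv_rhs => rw [Finset.sum_comm]
      refine Finset.sum_congr rfl fun i _ => ?_
      conv_rhs => rw [Finset.sum_comm]
      exact Finset.sum_congr rfl fun j _ => Finset.sum_congr rfl fun m _ => by ring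
    rw [hh]
    exact this
  have hcomb := combMod L (Pn R N k2)
    (∑ m ∈ box N L, sch (Xm N (1 : R) 0) k2 m * sch (Xm (N - 1) (1 : R) 0) N m)
    (C ((1 - x1) * (1 - x2))) k1 N (cc x1 k1) (cc x2 N)
    (fun i j => ∑ m ∈ box N L, sch (Xm N x1 i) k2 m * sch (Xm (N - 1) x2 j) N m)
    (fun i => ∑ m ∈ box N L, sch (Xm N x1 i) k2 m * sch (Xm (N - 1) (1 : R) 0) N m)
    (fun j => ∑ m ∈ box N L, sch (Xm N (1 : R) 0) k2 m * sch (Xm (N - 1) x2 j) N m)
    (fun i => rt x1 (N - i) N) (fun j => rt x2 (2 * N - k2 - j) k2)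
    (fun i j => Hh (x1 * x2) (2 * N - 1 - i - j))
    (by
      have := key hVNZ hCAU (1 : R) 1 one_ne_zero (N := N) (L := L) (n := k2) (i := 0) (j := 0)
        hk2 (by omega) (by omega)
      rw [rt_one _ _ (by omega), rt_one _ _ (by omega)] at this
      simpa using this)
    (by
      intro i hi
      rw [mem_range] at hi
      have := key hVNZ hCAU x1 1 one_ne_zero (N := N) (L := L) (n := k2) (i := i) (j := 0)
        hk2 (by omega) (by omega)
      rw [rt_one (R := R) _ _ (by omega)] at this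
      simpa using this)
    (by
      intro j hj
      rw [mem_range] at hj
      have := key hVNZ hCAU 1 x2 hx2 (N := N) (L := L) (n := k2) (i := 0) (j := j)
        hk2 (by omega) (by omega)
      rw [rt_one (R := R) _ _ (by omega)] at this
      simpa using this)
    (by
      intro i hi j hj
      rw [mem_range] at hi hj
      exact key hVNZ hCAU x1 x2 hx2 (N := N) (L := L) (n := k2) (i := i) (j := j)
        hk2 (by omega) (by omega))
  obtain ⟨c0, h0⟩ := e0
  obtain ⟨c1, h1⟩ := e1
  obtain ⟨c2, h2⟩ := e2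
  obtain ⟨c3, h3⟩ := e3
  obtain ⟨c4, h4⟩ := hcomb
  generalize avg N L k1 k2 (fun _ => (1 : PowerSeries R)) (fun _ => 1) = a0 at *
  generalize avg N L k1 k2 (ev (C x1) k1) (fun _ => (1 : PowerSeries R)) = a1 at *
  generalize avg N L k1 k2 (fun _ => (1 : PowerSeries R)) (ev (C x2) N) = a2 at *
  generalize avg N L k1 k2 (ev (C x1) k1) (ev (C x2) N) = a3 at *
  generalize (∑ m ∈ box N L, sch (Xm N (1 : R) 0) k2 m * sch (Xm (N - 1) (1 : R) 0) N m) = s0 at *
  generalize (∑ i ∈ range k1, cc x1 k1 i *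
        ∑ m ∈ box N L, sch (Xm N x1 i) k2 m * sch (Xm (N - 1) (1 : R) 0) N m) = s1 at *
  generalize (∑ j ∈ range N, cc x2 N j *
        ∑ m ∈ box N L, sch (Xm N (1 : R) 0) k2 m * sch (Xm (N - 1) x2 j) N m) = s2 at *
  generalize (∑ i ∈ range k1, ∑ j ∈ range N, cc x1 k1 i * cc x2 N j *
        ∑ m ∈ box N L, sch (Xm N x1 i) k2 m * sch (Xm (N - 1) x2 j) N m) = s3 at *
  refine ⟨c4 + c0 * (pi0 R N * a3) + Pn R N k2 * s0 * c3 - c1 * (pi0 R N * a2) -
    Pn R N k2 * s1 * c2, ?_⟩
  linear_combination h4 + (pi0 R N * a3) * h0 + Pn R N k2 * s0 * h3 - (pi0 R N * a2) * h1 -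
    Pn R N k2 * s1 * h2

end Pool.Agent.Lib.MPd9449f
end

section
/-! DOP: the difference operator on alternants. -/
open PowerSeries Finset

namespace Pool.Agent.Lib.MPd9449f

theorem specDOP : SpecDOP := by
  intro B _ k X z l
  have key : ∀ i ∈ range k, alt k (Function.update X i (z * X i)) l =
      ∑ σ : Equiv.Perm (Fin k), Equiv.Perm.sign σ •
        ((∏ j : Fin k, (if ((σ j : Fin k) : ℕ) = i then z ^ (l j + (k - 1 - j)) else 1)) *
          ∏ j : Fin k, X (σ j) ^ (l j + (k - 1 - j))) := by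
    intro i _
    rw [alt, Matrix.det_apply]
    refine Finset.sum_congr rfl fun σ _ => ?_
    congr 1
    rw [← Finset.prod_mul_distrib]
    refine Finset.prod_congr rfl fun j _ => ?_
    simp only [Matrix.of_apply]
    by_cases h : ((σ j : Fin k) : ℕ) = i
    · rw [h, Function.update_self, if_pos rfl, mul_pow]
    · rw [Function.update_of_ne h, if_neg h, one_mul]
  rw [Finset.sum_congr rfl key, Finset.sum_comm]
  rw [alt, Matrix.det_apply, Finset.mul_sum]
  refine Finset.sum_congr rfl fun σ _ => ?_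
  rw [mul_smul_comm, ← Finset.smul_sum, ← Finset.sum_mul]
  congr 2
  rw [← Fin.sum_univ_eq_sum_range (fun j => z ^ (l j + (k - 1 - j))) k,
    ← Fin.sum_univ_eq_sum_range
      (fun i => ∏ j : Fin k, (if ((σ j : Fin k) : ℕ) = i then z ^ (l j + (k - 1 - j)) else 1)) k]
  rw [← Equiv.sum_comp σ]
  refine Finset.sum_congr rfl fun i _ => ?_
  rw [Finset.prod_eq_single i]
  · simp
  · intro j _ hji
    rw [if_neg]
    intro h
    exact hji (σ.injective (Fin.ext h))
  · intro h
    exact absurd (Finset.mem_univ i) h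

end Pool.Agent.Lib.MPd9449f
end

section
/-!
# Passage to infinite products (module LIM)
-/
open PowerSeries Finset

namespace Pool.Agent.Lib.MPd9449f

namespace LIMM

variable {R : Type} [CommRing R]

/-- `ig x a` is the inverse of `1 - x q^a` -/
theorem ig_mul (x : R) (a : ℕ) (ha : 1 ≤ a) : ig x a * (1 - C x * X ^ a) = 1 := by
  have e : ig x a * (1 - C x * X ^ a) = ig x a - C x * (X ^ a * ig x a) := by ring
  rw [e]
  ext n
  rw [map_sub, coeff_C_mul, coeff_X_pow_mul', coeff_one]
  unfold ig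
  rw [coeff_mk, coeff_mk]
  rcases Nat.eq_zero_or_pos n with hn | hn
  · subst hn
    rw [if_pos (dvd_zero a), if_neg (by omega), if_pos rfl]
    simp
  · rw [if_neg (by omega : ¬ n = 0)]
    by_cases h : a ∣ n
    · obtain ⟨m, rfl⟩ := h
      have hm : 1 ≤ m := by
        rcases Nat.eq_zero_or_pos m with h0 | h0
        · subst h0; simp at hn
        · exact h0
      have h1 : a ≤ a * m := Nat.le_mul_of_pos_right a hm
      have h2 : a * m - a = a * (m - 1) := by
        rw [Nat.mul_sub]; simp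
      rw [if_pos (dvd_mul_right a m), if_pos h1, h2, if_pos (dvd_mul_right a _),
        Nat.mul_div_cancel_left _ (by omega), Nat.mul_div_cancel_left _ (by omega)]
      obtain ⟨t, rfl⟩ : ∃ t, m = t + 1 := ⟨m - 1, by omega⟩
      rw [Nat.add_sub_cancel, pow_succ]
      ring
    · rw [if_neg h]
      by_cases h1 : a ≤ n
      · rw [if_pos h1, if_neg]
        · simp
        · intro h2
          exact h ((Nat.dvd_sub_iff_left h1 (dvd_refl a)).1 h2)
      · rw [if_neg h1]; simp

theorem ig_sub_one (x : R) (a : ℕ) (ha : 1 ≤ a) : (X : PowerSeries R) ^ a ∣ ig x a - 1 := by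
  refine ⟨C x * ig x a, ?_⟩
  have h := ig_mul x a ha
  linear_combination h

theorem one_sub_sub_one (x : R) (a : ℕ) :
    (X : PowerSeries R) ^ a ∣ (1 - C x * X ^ a) - 1 := ⟨-C x, by ring⟩

/-- products of factors `≡ 1` stabilize -/
theorem prod_stab (f : ℕ → PowerSeries R) (hf : ∀ a, X ^ (a + 1) ∣ f a - 1) (m N : ℕ)
    (h : m ≤ N) : X ^ (m + 1) ∣ (∏ a ∈ range N, f a) - ∏ a ∈ range m, f a := by
  induction N, h using Nat.le_induction with
  | base => simp
  | succ N hN ih =>
    rw [Finset.prod_range_succ]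
    have e : (∏ a ∈ range N, f a) * f N - ∏ a ∈ range m, f a =
        (∏ a ∈ range N, f a) * (f N - 1) + ((∏ a ∈ range N, f a) - ∏ a ∈ range m, f a) := by ring
    rw [e]
    refine dvd_add (Dvd.dvd.mul_left ?_ _) ih
    exact (pow_dvd_pow _ (by omega)).trans (hf N)

theorem mul_sub_one {a b d : PowerSeries R} (ha : d ∣ a - 1) (hb : d ∣ b - 1) : d ∣ a * b - 1 := by
  have e : a * b - 1 = a * (b - 1) + (a - 1) := by ring
  rw [e]
  exact dvd_add (Dvd.dvd.mul_left hb _) ha

theorem phi_stab (x xi : R) (m : ℕ) : X ^ (m + 1) ∣ phi x xi - phiN x xi m := by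
  rw [X_pow_dvd_iff]
  intro j hj
  have h := prod_stab (fun a => (1 - C xi * X ^ (a + 1)) * ig x (a + 1))
    (fun a => mul_sub_one (one_sub_sub_one xi (a + 1)) (ig_sub_one x (a + 1) (by omega))) j m
    (by omega)
  rw [X_pow_dvd_iff] at h
  have h1 := h j (by omega)
  rw [map_sub] at h1
  rw [map_sub]
  unfold phi
  rw [coeff_mk]
  unfold phiN
  rw [sub_eq_zero] at h1 ⊢
  exact h1.symm

/-- finite products -/
noncomputable def Dp (x : R) (N : ℕ) : PowerSeries R := ∏ a ∈ range N, (1 - C x * X ^ (a + 1))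

noncomputable def Ep (x : R) (N : ℕ) : PowerSeries R := ∏ a ∈ range N, ig x (a + 1)

theorem Ep_mul_Dp (x : R) (N : ℕ) : Ep x N * Dp x N = 1 := by
  unfold Ep Dp
  rw [← Finset.prod_mul_distrib]
  exact Finset.prod_eq_one fun a _ => ig_mul x (a + 1) (by omega)

theorem Dp_stab (x : R) (m N : ℕ) (h : m ≤ N) : X ^ (m + 1) ∣ Dp x N - Dp x m :=
  prod_stab _ (fun a => one_sub_sub_one x (a + 1)) m N h

theorem Ep_stab (x : R) (m N : ℕ) (h : m ≤ N) : X ^ (m + 1) ∣ Ep x N - Ep x m :=
  prod_stab _ (fun a => ig_sub_one x (a + 1) (by omega)) m N h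

theorem rh_eq (x : R) (r : ℕ) : rh x r = Dp x r * Ep 1 r := by
  unfold rh Dp Ep
  rw [Finset.prod_mul_distrib]

theorem phiN_eq (x xi : R) (N : ℕ) : phiN x xi N = Dp xi N * Ep x N := by
  unfold phiN Dp Ep
  rw [Finset.prod_mul_distrib]

theorem cprod_eq (x xi : R) (hx : x * xi = 1) (m : ℕ) :
    C (xi ^ m) * ∏ b ∈ range m, (C x - X ^ (b + 1)) * ig 1 (b + 1) = Dp xi m * Ep 1 m := by
  unfold Dp Ep
  rw [Finset.prod_mul_distrib, ← mul_assoc]
  congr 1
  induction m with
  | zero => simp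
  | succ m ih =>
    rw [Finset.prod_range_succ, Finset.prod_range_succ, ← ih, pow_succ, map_mul]
    have h : (C xi : PowerSeries R) * (C x - X ^ (m + 1)) = 1 - C xi * X ^ (m + 1) := by
      rw [mul_sub, ← map_mul, mul_comm xi x, hx, map_one]
    rw [← h]
    ring

theorem rt_eq (x : R) (s M : ℕ) :
    rt x (s + 1) M = Dp 1 (s + M) * Ep 1 s * (Ep x (s + M) * Dp x s) := by
  unfold rt
  rw [Finset.prod_mul_distrib]
  have h1 : (∏ t ∈ range M, (1 - (X : PowerSeries R) ^ (s + 1 + t))) = Dp 1 (s + M) * Ep 1 s := by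
    have e : Dp (1 : R) (s + M) = Dp 1 s * ∏ t ∈ range M, (1 - (X : PowerSeries R) ^ (s + 1 + t)) := by
      unfold Dp
      rw [Finset.prod_range_add]
      congr 1
      refine Finset.prod_congr rfl fun t _ => ?_
      rw [map_one, one_mul, show s + t + 1 = s + 1 + t by ring]
    rw [e]
    have h := Ep_mul_Dp (1 : R) s
    linear_combination (-(∏ t ∈ range M, (1 - (X : PowerSeries R) ^ (s + 1 + t)))) * h
  have h2 : (∏ t ∈ range M, ig x (s + 1 + t)) = Ep x (s + M) * Dp x s := by
    have e : Ep x (s + M) = Ep x s * ∏ t ∈ range M, ig x (s + 1 + t) := by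
      unfold Ep
      rw [Finset.prod_range_add]
      congr 1
      refine Finset.prod_congr rfl fun t _ => ?_
      rw [show s + t + 1 = s + 1 + t by ring]
    rw [e]
    have h := Ep_mul_Dp x s
    linear_combination (-(∏ t ∈ range M, ig x (s + 1 + t))) * h
  rw [h1, h2]

end LIMM

open LIMM in
theorem specLIM : SpecLIM := by
  intro R _ x xi k i n M hx hik hkn
  obtain ⟨m, rfl⟩ : ∃ m, k = m + 1 + i := ⟨k - 1 - i, by omega⟩
  have h1 : m + 1 + i - i = m + 1 := by omega
  have h2 : m + 1 + i - 1 - i = m := by omega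
  have h3 : m + 1 + i - 1 = m + i := by omega
  have h4 : m + 1 + i - 1 - m = i := by omega
  rw [h1]
  unfold cc Aa
  rw [h2, h4, h3]
  have hs : n + 1 + i = (n + i) + 1 := by ring
  have hxi : (C (xi ^ (m + i)) : PowerSeries R) = C (xi ^ m) * C (xi ^ i) := by
    rw [pow_add, map_mul]
  rw [hs, rt_eq, hxi]
  have hc := cprod_eq x xi hx m
  have hd := Dp_stab (1 : R) m (n + i + M) (by omega)
  have he := Ep_stab x m (n + i + M) (by omega)
  have hp := phi_stab x xi m
  rw [phiN_eq] at hp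
  obtain ⟨d, hd⟩ := hd
  obtain ⟨e, he⟩ := he
  obtain ⟨p, hp⟩ := hp
  rw [sub_eq_iff_eq_add] at hd he hp
  have hE := Ep_mul_Dp (1 : R) m
  rw [show i + n = n + i by ring, rh_eq x (n + i), hd, he, hp]
  set P := ∏ b ∈ range m, (C x - (X : PowerSeries R) ^ (b + 1)) * ig 1 (b + 1) with hP
  refine ⟨C (xi ^ i) * rh x i * (Dp xi m * Ep 1 m) * Ep 1 (n + i) * Dp x (n + i) *
    (d * Ep x m + Dp 1 m * e + d * X ^ (m + 1) * e) - C (xi ^ i) * p * rh x i *
      (Dp x (n + i) * Ep 1 (n + i)), ?_⟩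
  linear_combination (C (xi ^ i) * rh x i * ((X ^ (m + 1) * d + Dp 1 m) * Ep 1 (n + i) *
    ((X ^ (m + 1) * e + Ep x m) * Dp x (n + i)))) * hc +
    C (xi ^ i) * rh x i * Dp xi m * Ep 1 (n + i) * Ep x m * Dp x (n + i) * hE

end Pool.Agent.Lib.MPd9449f
end

section
/-! VNZ: the Vandermonde products do not vanish. -/
open PowerSeries Finset

namespace Pool.Agent.Lib.MPd9449f

namespace VNZM

theorem xp {R : Type} [CommRing R] [IsDomain R] {a b : ℕ} (h : a ≠ b) :
    (X : PowerSeries R) ^ a - X ^ b ≠ 0 := by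
  intro h0
  have := congrArg (coeff a) h0
  simp [coeff_X_pow, h] at this

theorem cxp {R : Type} [CommRing R] [IsDomain R] {a b : ℕ} {x : R} (hx : x ≠ 0) (h : a ≠ b) :
    C x * (X : PowerSeries R) ^ a - X ^ b ≠ 0 := by
  intro h0
  have := congrArg (coeff a) h0
  rw [map_sub, coeff_C_mul, coeff_X_pow, coeff_X_pow, if_pos rfl, if_neg h, mul_one, sub_zero,
    map_zero] at this
  exact hx this

end VNZM

theorem specVNZ : SpecVNZ := by
  intro R _ _ k e hk
  refine ⟨?_, ?_⟩
  · rw [vd, Finset.prod_ne_zero_iff]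
    intro i hi
    rw [Finset.prod_ne_zero_iff]
    intro j hj
    rw [mem_range] at hi
    rw [mem_Ico] at hj
    exact VNZM.xp (by omega)
  · intro x i hx hi
    rw [vd, Finset.prod_ne_zero_iff]
    intro a ha
    rw [Finset.prod_ne_zero_iff]
    intro b hb
    rw [mem_range] at ha
    rw [mem_Ico] at hb
    have hab : a ≠ b := by omega
    by_cases hai : a = i
    · subst hai
      rw [Function.update_self, Function.update_of_ne (by omega)]
      exact VNZM.cxp hx (by omega)
    · rw [Function.update_of_ne hai]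
      by_cases hbi : b = i
      · subst hbi
        rw [Function.update_self]
        intro h
        exact VNZM.cxp (R := R) (a := e - b) (b := e - a) hx (by omega)
          (by rw [← neg_eq_zero, neg_sub]; exact h)
      · rw [Function.update_of_ne hbi]
        exact VNZM.xp (by omega)

end Pool.Agent.Lib.MPd9449f
end

section
/-! LV: the eigenvector property with the difference operator inserted at step `k`. -/
open PowerSeries Finset

namespace Pool.Agent.Lib.MPd9449f

namespace LVM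

variable {N : ℕ} {B : Type} [CommRing B]

/-- composition of steps -/
theorem up_add (Y : ℕ → B) (v : (Fin N → ℕ) → B) (k t : ℕ) :
    ∀ l, up Y v (k + t) l = up (fun s => Y (k + s)) (up Y v k) t l := by
  induction t with
  | zero => intro l; rfl
  | succ t ih =>
    intro l
    change (∑ m ∈ below l, Y (k + t) ^ (sz l - sz m) * up Y v (k + t) m) = _
    refine Finset.sum_congr rfl fun m _ => ?_
    rw [ih m]

/-- linearity -/
theorem up_sum {ι : Type} (S : Finset ι) (c : ι → B) (Y : ℕ → B) (v : ι → (Fin N → ℕ) → B)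
    (w : (Fin N → ℕ) → B) (hw : ∀ l, w l = ∑ i ∈ S, c i * v i l) (t : ℕ) :
    ∀ l, up Y w t l = ∑ i ∈ S, c i * up Y (v i) t l := by
  induction t with
  | zero => exact hw
  | succ t ih =>
    intro l
    change (∑ m ∈ below l, Y t ^ (sz l - sz m) * up Y w t m) =
      ∑ i ∈ S, c i * ∑ m ∈ below l, Y t ^ (sz l - sz m) * up Y (v i) t m
    simp only [Finset.mul_sum]
    rw [Finset.sum_comm]
    refine Finset.sum_congr rfl fun m _ => ?_
    rw [ih m, Finset.mul_sum]
    refine Finset.sum_congr rfl fun i _ => ?_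
    ring

/-- dependence on the variables -/
theorem up_congr {Y Y' : ℕ → B} (v : (Fin N → ℕ) → B) (t : ℕ) (h : ∀ s < t, Y s = Y' s) :
    ∀ l, up Y v t l = up Y' v t l := by
  induction t with
  | zero => intro l; rfl
  | succ t ih =>
    intro l
    change (∑ m ∈ below l, Y t ^ (sz l - sz m) * up Y v t m) =
      ∑ m ∈ below l, Y' t ^ (sz l - sz m) * up Y' v t m
    refine Finset.sum_congr rfl fun m _ => ?_
    rw [ih (fun s hs => h s (by omega)) m, h t (Nat.lt_succ_self t)]

theorem base {R : Type} [CommRing R] [IsDomain R] (k e : ℕ) (x : R) (l : Fin N → ℕ)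
    (hk : k ≤ N) (he : k ≤ e + 1) :
    ev (C x) k l * sch (fun j => (X : PowerSeries R) ^ (e - j)) k l =
      ∑ i ∈ range k, cc x k i *
        sch (Function.update (fun j => (X : PowerSeries R) ^ (e - j)) i (C x * X ^ (e - i)))
          k l := by
  by_cases h : Antitone l ∧ lv l k = 0
  · obtain ⟨h1, h2⟩ := h
    have hne := (specVNZ R k e he).1
    apply mul_left_cancel₀ hne
    have e1 := specALT (PowerSeries R) N k (fun j => (X : PowerSeries R) ^ (e - j)) l hk h1 h2
    have e2 := specDOP (PowerSeries R) k (fun j => (X : PowerSeries R) ^ (e - j)) (C x) (lv l)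
    rw [mul_left_comm, e1, ev, ← e2, Finset.mul_sum]
    refine Finset.sum_congr rfl fun i hi => ?_
    rw [mem_range] at hi
    have e3 := specALT (PowerSeries R) N k
      (Function.update (fun j => (X : PowerSeries R) ^ (e - j)) i (C x * X ^ (e - i))) l hk h1 h2
    have e4 := specCID R k e i x he hi
    rw [← e3, e4]
    ring
  · rw [specVAN (PowerSeries R) N k _ l h, mul_zero]
    symm
    apply Finset.sum_eq_zero
    intro i _
    rw [specVAN (PowerSeries R) N k _ l h, mul_zero]

end LVM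

theorem specLV : SpecLV := by
  intro R _ _ N k t e x l hk hN he
  rw [LVM.up_sum (range k) (fun i => cc x k i) _
    (fun i m => sch (Function.update (fun j => (X : PowerSeries R) ^ (e - j)) i
      (C x * X ^ (e - i))) k m) _
    (fun m => LVM.base k e x m (by omega) (by omega)) t l]
  refine Finset.sum_congr rfl fun i hi => ?_
  rw [mem_range] at hi
  congr 1
  refine Eq.trans ?_ (LVM.up_add (Function.update (fun j => (X : PowerSeries R) ^ (e - j)) i
      (C x * X ^ (e - i))) del k t l).symm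
  apply LVM.up_congr
  intro s _
  rw [Function.update_of_ne (by omega)]

end Pool.Agent.Lib.MPd9449f
end

section
/-! PIE: Pieri rule in a box. -/
open PowerSeries Finset

namespace Pool.Agent.Lib.MPd9449f

namespace PIEM

variable {B : Type} [CommRing B]

/-- determinant with columns `f 0, f 1, ...` -/
def dc (n : ℕ) (f : ℕ → ℕ → B) : B := Matrix.det (Matrix.of fun i j : Fin n => f j i)

theorem dc_congr {n : ℕ} {f g : ℕ → ℕ → B} (h : ∀ j < n, ∀ i < n, f j i = g j i) :
    dc n f = dc n g := by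
  unfold dc
  congr 1
  ext i j
  exact h j j.2 i i.2

theorem dc_sub {n a : ℕ} (ha : a < n) (f : ℕ → ℕ → B) (u v : ℕ → B) (c : B) :
    dc n (Function.update f a fun i => u i - c * v i) =
      dc n (Function.update f a u) - c * dc n (Function.update f a v) := by
  have key : ∀ w : ℕ → B, dc n (Function.update f a w) =
      Matrix.det ((Matrix.of fun i j : Fin n => f j i).updateCol ⟨a, ha⟩ fun i => w i) := by
    intro w
    unfold dc
    congr 1
    ext i j
    rw [Matrix.updateCol_apply]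
    by_cases hj : j = ⟨a, ha⟩
    · subst hj
      simp
    · have h1 : (j : ℕ) ≠ a := fun h => hj (Fin.ext h)
      simp [hj, h1]
  rw [key, key, key]
  have h1 : (fun i : Fin n => u i - c * v i) =
      (fun i : Fin n => u i) + (-c) • fun i : Fin n => v i := by
    funext i
    simp [sub_eq_add_neg]
  rw [h1, Matrix.det_updateCol_add, Matrix.det_updateCol_smul]
  ring

theorem dc_eq_zero {n a b : ℕ} (ha : a < n) (hb : b < n) (hab : a ≠ b) (f : ℕ → ℕ → B)
    (h : ∀ i, f a i = f b i) : dc n f = 0 := by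
  unfold dc
  refine Matrix.det_zero_of_column_eq (i := ⟨a, ha⟩) (j := ⟨b, hb⟩) ?_ fun k => ?_
  · intro h1
    exact hab (congrArg Fin.val h1)
  · exact h k

/-- columns `v, w_1 - y_1 w_0, ..., w_r - y_r w_{r-1}, w_{r+1}, ...` -/
def cD (v : ℕ → B) (y : ℕ → B) (r : ℕ) (w : ℕ → ℕ → B) : ℕ → ℕ → B := fun j =>
  if j = 0 then v else if j ≤ r then fun i => w j i - y j * w (j - 1) i else w j

/-- columns `v, w_0, ..., w_{k-1}, w_{k+1}, ...` -/
def cC (v : ℕ → B) (k : ℕ) (w : ℕ → ℕ → B) : ℕ → ℕ → B := fun j =>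
  if j = 0 then v else if j ≤ k then w (j - 1) else w j

theorem expand (n : ℕ) (v : ℕ → B) (y : ℕ → B) (r : ℕ) : r + 1 ≤ n → ∀ w : ℕ → ℕ → B,
    dc n (cD v y r w) =
      ∑ k ∈ range (r + 1), (-1) ^ k * (∏ j ∈ range k, y (j + 1)) * dc n (cC v k w) := by
  induction r with
  | zero =>
    intro _ w
    rw [zero_add, sum_range_one, pow_zero, range_zero, prod_empty, one_mul, one_mul]
    refine dc_congr fun j _ i _ => ?_
    unfold cD cC
    by_cases hj : j = 0
    · rw [if_pos hj, if_pos hj]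
    · rw [if_neg hj, if_neg hj, if_neg (by omega), if_neg (by omega)]
  | succ r ih =>
    intro hr w
    have e1 : cD v y (r + 1) w = Function.update (cD v y r w) (r + 1)
        (fun i => w (r + 1) i - y (r + 1) * w r i) := by
      funext j
      by_cases hj : j = r + 1
      · subst hj
        rw [Function.update_self]
        unfold cD
        rw [if_neg (by omega), if_pos le_rfl]
        rfl
      · rw [Function.update_of_ne hj]
        unfold cD
        by_cases h0 : j = 0
        · rw [if_pos h0, if_pos h0]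
        · rw [if_neg h0, if_neg h0]
          by_cases h1 : j ≤ r
          · rw [if_pos h1, if_pos (by omega)]
          · rw [if_neg h1, if_neg (by omega)]
    have e2 : Function.update (cD v y r w) (r + 1) (w (r + 1)) = cD v y r w := by
      have : w (r + 1) = cD v y r w (r + 1) := by
        unfold cD
        rw [if_neg (by omega), if_neg (by omega)]
      rw [this, Function.update_eq_self]
    have e3 : Function.update (cD v y r w) (r + 1) (w r) =
        cD v y r (Function.update w (r + 1) (w r)) := by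
      funext j
      by_cases hj : j = r + 1
      · subst hj
        rw [Function.update_self]
        unfold cD
        rw [if_neg (by omega), if_neg (by omega), Function.update_self]
      · rw [Function.update_of_ne hj]
        unfold cD
        by_cases h0 : j = 0
        · rw [if_pos h0, if_pos h0]
        · rw [if_neg h0, if_neg h0]
          by_cases h1 : j ≤ r
          · rw [if_pos h1, if_pos h1, Function.update_of_ne hj, Function.update_of_ne (by omega)]
          · rw [if_neg h1, if_neg h1, Function.update_of_ne hj]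
    rw [e1, dc_sub (by omega), e2, e3, ih (by omega), ih (by omega), sum_range_succ _ (r + 1)]
    have e4 : ∑ k ∈ range (r + 1), (-1) ^ k * (∏ j ∈ range k, y (j + 1)) *
        dc n (cC v k (Function.update w (r + 1) (w r))) =
        (-1) ^ r * (∏ j ∈ range r, y (j + 1)) * dc n (cC v (r + 1) w) := by
      rw [sum_range_succ]
      have h1 : ∑ k ∈ range r, (-1) ^ k * (∏ j ∈ range k, y (j + 1)) *
          dc n (cC v k (Function.update w (r + 1) (w r))) = 0 := by
        refine Finset.sum_eq_zero fun k hk => ?_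
        have hk' := mem_range.1 hk
        rw [dc_eq_zero (a := r) (b := r + 1) (by omega) (by omega) (by omega), mul_zero]
        intro i
        unfold cC
        rw [if_neg (by omega), if_neg (by omega), if_neg (by omega), if_neg (by omega),
          Function.update_self, Function.update_of_ne (by omega)]
      rw [h1, zero_add]
      congr 1
      refine dc_congr fun j _ i _ => ?_
      unfold cC
      by_cases h0 : j = 0
      · rw [if_pos h0, if_pos h0]
      · rw [if_neg h0, if_neg h0]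
        by_cases hj : j = r + 1
        · subst hj
          rw [if_neg (by omega), if_pos le_rfl, Function.update_self]
          rfl
        · by_cases h1 : j ≤ r
          · rw [if_pos h1, if_pos (by omega), Function.update_of_ne (by omega)]
          · rw [if_neg h1, if_neg (by omega), Function.update_of_ne hj]
    rw [e4, prod_range_succ, pow_succ]
    ring

theorem geom (x Y : B) (s m u : ℕ) (h : m ≤ u + 1) :
    (1 - x * Y) * ∑ t ∈ Icc m u, Y ^ (t - m) * x ^ (t + s) =
      x ^ (m + s) - Y ^ (u + 1 - m) * x ^ (u + 1 + s) := by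
  obtain ⟨d, hd⟩ := Nat.exists_eq_add_of_le h
  have h1 : Icc m u = (range d).image fun t => m + t := by
    ext t
    rw [mem_Icc, mem_image]
    constructor
    · rintro ⟨h2, h3⟩
      exact ⟨t - m, mem_range.2 (by omega), by omega⟩
    · rintro ⟨a, ha, rfl⟩
      have := mem_range.1 ha
      omega
  rw [h1, Finset.sum_image (fun a _ b _ hab => by simpa using hab), hd]
  have h2 : ∀ t, Y ^ (m + t - m) * x ^ (m + t + s) = x ^ (m + s) * (x * Y) ^ t := by
    intro t
    rw [Nat.add_sub_cancel_left, mul_pow]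
    ring
  simp only [h2]
  rw [← Finset.mul_sum]
  have h3 := mul_neg_geom_sum (x * Y) d
  rw [mul_left_comm, h3, mul_pow]
  ring

theorem prod_y {m : ℕ → ℕ} (hm : Antitone m) (Y : B) (k : ℕ) :
    ∏ j ∈ range k, Y ^ (m (j + 1 - 1) - m (j + 1) + 1) = Y ^ (m 0 - m k + k) := by
  induction k with
  | zero => simp
  | succ k ih =>
    rw [prod_range_succ, ih, ← pow_add]
    congr 1
    have h1 : m (k + 1) ≤ m k := hm (Nat.le_succ k)
    have h2 : m k ≤ m 0 := hm (Nat.zero_le k)
    rw [Nat.add_sub_cancel]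
    omega

end PIEM

open PIEM in
theorem specPIE : SpecPIE := by
  intro B _ N L X Y m hN hm hL
  obtain ⟨n, rfl⟩ : ∃ n, N = n + 1 := ⟨N - 1, by omega⟩
  have hmv := VANM.antitone_lv hm
  -- the sum is a determinant
  let E : Fin (n + 1) → Fin (n + 1) → B := fun i j =>
    ∑ t ∈ Icc (m j) (if (j : ℕ) = 0 then L else lv m (j - 1)),
      Y ^ (t - m j) * X i ^ (t + (n + 1 - 1 - j))
  have h1 : ∑ l ∈ above L m, Y ^ (sz l - sz m) * alt (n + 1) X (lv l) =
      Matrix.det (Matrix.of E) := by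
    rw [Matrix.det_apply']
    have h2 : ∀ l ∈ above L m, Y ^ (sz l - sz m) * alt (n + 1) X (lv l) =
        ∑ σ : Equiv.Perm (Fin (n + 1)), ((Equiv.Perm.sign σ : ℤ) : B) *
          ∏ j, (Y ^ (l j - m j) * X (σ j) ^ (l j + (n + 1 - 1 - j))) := by
      intro l hl
      have h3 : sz l - sz m = ∑ j, (l j - m j) := by
        have h4 : ∀ j, m j ≤ l j := by
          intro j
          unfold above at hl
          exact (mem_Icc.1 (Fintype.mem_piFinset.1 hl j)).1
        have h5 : sz l = sz m + ∑ j, (l j - m j) := by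
          unfold sz
          rw [← Finset.sum_add_distrib]
          exact Finset.sum_congr rfl fun j _ => by have := h4 j; omega
        omega
      rw [h3, alt, Matrix.det_apply', Finset.mul_sum]
      refine Finset.sum_congr rfl fun σ _ => ?_
      rw [Finset.prod_mul_distrib, Finset.prod_pow_eq_pow_sum, mul_left_comm]
      congr 2
      refine Finset.prod_congr rfl fun j _ => ?_
      rw [Matrix.of_apply, VANM.lv_fin]
    rw [Finset.sum_congr rfl h2, Finset.sum_comm]
    refine Finset.sum_congr rfl fun σ _ => ?_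
    rw [← Finset.mul_sum]
    congr 1
    unfold above
    rw [← Finset.prod_univ_sum (fun j : Fin (n + 1) =>
        Icc (m j) (if (j : ℕ) = 0 then L else lv m (j - 1)))
      (fun j t => Y ^ (t - m j) * X (σ j) ^ (t + (n + 1 - 1 - j)))]
    rfl
  rw [h1]
  -- multiply the rows
  have h6 : (∏ i ∈ range (n + 1), (1 - X i * Y)) * Matrix.det (Matrix.of E) =
      Matrix.det (Matrix.of fun i j : Fin (n + 1) => (1 - X i * Y) * E i j) := by
    rw [← Fin.prod_univ_eq_prod_range (fun i => 1 - X i * Y) (n + 1),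
      ← Matrix.det_mul_column (fun i : Fin (n + 1) => 1 - X i * Y) (Matrix.of E)]
    rfl
  rw [h6]
  let w : ℕ → ℕ → B := fun j i => X i ^ (lv m j + (n + 1 - 1 - j))
  let y : ℕ → B := fun j => Y ^ (lv m (j - 1) - lv m j + 1)
  let v : ℕ → B := fun i => X i ^ (L + (n + 1))
  have h7 : Matrix.det (Matrix.of fun i j : Fin (n + 1) => (1 - X i * Y) * E i j) =
      dc (n + 1) (Function.update (cD v y n w) 0 fun i => w 0 i - Y ^ (L + 1 - lv m 0) * v i) := by
    unfold dc
    congr 1
    ext i j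
    rw [Matrix.of_apply, Matrix.of_apply]
    change (1 - X i * Y) * ∑ t ∈ Icc (m j) (if (j : ℕ) = 0 then L else lv m (j - 1)),
      Y ^ (t - m j) * X i ^ (t + (n + 1 - 1 - j)) = _
    have hj := j.2
    by_cases h0 : (j : ℕ) = 0
    · rw [if_pos h0, h0, Function.update_self]
      have h8 : m j = lv m 0 := by rw [← VANM.lv_fin m j, h0]
      rw [geom _ _ _ _ _ (by omega), h8]
      change _ = X i ^ (lv m 0 + (n + 1 - 1 - 0)) - Y ^ (L + 1 - lv m 0) * X i ^ (L + (n + 1))
      congr 3
      omega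
    · rw [if_neg h0, Function.update_of_ne h0]
      have h9 : lv m j ≤ lv m (j - 1) := hmv (Nat.sub_le _ _)
      rw [← VANM.lv_fin m j, geom _ _ _ _ _ (by omega)]
      unfold cD
      rw [if_neg h0, if_pos (by omega)]
      change _ = X i ^ (lv m j + (n + 1 - 1 - j)) -
        Y ^ (lv m (j - 1) - lv m j + 1) * X i ^ (lv m (j - 1) + (n + 1 - 1 - (j - 1)))
      congr 3 <;> omega
  rw [h7, dc_sub (by omega)]
  congr 1
  · -- the first term
    unfold dc alt
    symm
    refine Matrix.det_eq_of_forall_col_eq_smul_add_pred (fun j : Fin n => y (j + 1)) ?_ ?_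
    · intro i
      rw [Matrix.of_apply, Matrix.of_apply, Fin.val_zero, Function.update_self]
    · intro i j
      rw [Matrix.of_apply, Matrix.of_apply, Matrix.of_apply, Fin.val_succ, Fin.val_castSucc,
        Function.update_of_ne (by omega)]
      unfold cD
      have hj := j.2
      rw [if_neg (by omega), if_pos (by omega)]
      change X i ^ (lv m (j + 1) + (n + 1 - 1 - (j + 1))) =
        X i ^ (lv m (j + 1) + (n + 1 - 1 - (j + 1))) - y (j + 1) *
          X i ^ (lv m (j + 1 - 1) + (n + 1 - 1 - (j + 1 - 1))) +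
          y (j + 1) * X i ^ (lv m j + (n + 1 - 1 - j))
      rw [Nat.add_sub_cancel, Nat.add_sub_cancel]
      ring
  · -- the second term
    congr 1
    have h10 : Function.update (cD v y n w) 0 v = cD v y n w := by
      have h11 : cD v y n w 0 = v := by
        unfold cD
        rw [if_pos rfl]
      have h12 := Function.update_eq_self 0 (cD v y n w)
      rwa [h11] at h12
    rw [h10, expand (n + 1) v y n le_rfl w]
    refine Finset.sum_congr rfl fun k hk => ?_
    have hk' := mem_range.1 hk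
    congr 1
    · congr 1
      exact prod_y hmv Y k
    · unfold dc alt
      congr 1
      ext i j
      rw [Matrix.of_apply, Matrix.of_apply]
      have hj := j.2
      unfold cC pin
      by_cases h0 : (j : ℕ) = 0
      · rw [if_pos h0, if_pos h0]
        change X i ^ (L + (n + 1)) = _
        congr 1
        omega
      · rw [if_neg h0, if_neg h0]
        by_cases h1 : (j : ℕ) ≤ k
        · rw [if_pos h1, if_pos h1]
          change X i ^ (lv m (j - 1) + (n + 1 - 1 - (j - 1))) = _
          congr 1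
          omega
        · rw [if_neg h1, if_neg h1]

end Pool.Agent.Lib.MPd9449f
end
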