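import Pool.Agent.Lib.MP_d9449f_ag.OQ.Defs

/-!
# The two-point function of plane partitions: definitions and Specs

Partitions are functions `Fin N → ℕ`; slices of a plane partition form a chain
`0 = p_0 ≺ p_1 ≺ ... ≺ p_N ≻ ... ≻ p_{2N} = 0` (`p_k` is the diagonal slice `j - k = m`,
`m = k - N`; natural subtraction gives `m^- = N - k` and `m^+ = k - N`).

Convention: in every module all other Specs may be taken as hypotheses.
-/

open PowerSeries Finset

namespace Pool.Agent.Lib.MPd9449f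

section chains

variable {N : ℕ} {B : Type} [CommRing B]

/-- `i`-th part of a partition, `0` beyond `N` -/
def lv (l : Fin N → ℕ) (i : ℕ) : ℕ := if h : i < N then l ⟨i, h⟩ else 0

/-- size of a partition -/
def sz (l : Fin N → ℕ) : ℕ := ∑ i, l i

/-- the `m ≺ l`: `l_{i+1} ≤ m_i ≤ l_i` -/
def below (l : Fin N → ℕ) : Finset (Fin N → ℕ) :=
  Fintype.piFinset fun i => Icc (lv l (i + 1)) (l i)

/-- the `l ≻ m` with `l_0 ≤ L`: `m_i ≤ l_i ≤ m_{i-1}` -/
def above (L : ℕ) (m : Fin N → ℕ) : Finset (Fin N → ℕ) :=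
  Fintype.piFinset fun i => Icc (m i) (if (i : ℕ) = 0 then L else lv m (i - 1))

/-- all functions with values at most `L` -/
def box (N L : ℕ) : Finset (Fin N → ℕ) := Fintype.piFinset fun _ => range (L + 1)

/-- `t` steps upwards with the variables `X 0, ..., X (t-1)` -/
def up (X : ℕ → B) (v : (Fin N → ℕ) → B) : ℕ → (Fin N → ℕ) → B
  | 0 => v
  | t + 1 => fun l => ∑ m ∈ below l, X t ^ (sz l - sz m) * up X v t m

/-- `t` steps downwards (transposed operator) with the variables `Z 0, ..., Z (t-1)` -/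
def dn (L : ℕ) (Z : ℕ → B) (v : (Fin N → ℕ) → B) : ℕ → (Fin N → ℕ) → B
  | 0 => v
  | t + 1 => fun m => ∑ l ∈ above L m, Z t ^ (sz l - sz m) * dn L Z v t l

/-- the vacuum -/
def del (l : Fin N → ℕ) : B := if l = 0 then 1 else 0

/-- the Schur polynomial `s_l(X 0, ..., X (k-1))` as a sum over chains -/
def sch (X : ℕ → B) (k : ℕ) : (Fin N → ℕ) → B := up X del k

/-- the alternant `det (X_i ^ (l_j + k - 1 - j))` -/
def alt (k : ℕ) (X : ℕ → B) (l : ℕ → ℕ) : B :=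
  Matrix.det (Matrix.of fun i j : Fin k => X i ^ (l j + (k - 1 - j)))

/-- the Vandermonde product `∏_{i<j<k} (X_i - X_j)` -/
def vd (X : ℕ → B) (k : ℕ) : B := ∏ i ∈ range k, ∏ j ∈ Ico (i + 1) k, (X i - X j)

/-- the eigenvalue `∑_{j<k} x^(l_j + k - 1 - j)` -/
def ev (x : B) (k : ℕ) (l : Fin N → ℕ) : B := ∑ j ∈ range k, x ^ (lv l j + (k - 1 - j))

/-- chains weighted by arbitrary functions of the slices -/
def chn (E : ℕ → (Fin N → ℕ) → B) : ℕ → (Fin N → ℕ) → B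
  | 0 => fun l => E 0 l * del l
  | k + 1 => fun l => E (k + 1) l * ∑ m ∈ below l, chn E k m

end chains

/-- the chains `0 = p_0 ≺ ... ≺ p_N ≻ ... ≻ p_{2N} = 0` with entries at most `L` -/
def paths (N L : ℕ) : Finset (Fin (2 * N + 1) → Fin N → ℕ) :=
  (Fintype.piFinset fun _ => box N L).filter fun p =>
    p 0 = 0 ∧ p (Fin.last (2 * N)) = 0 ∧
      ∀ k : Fin (2 * N), if (k : ℕ) < N then p k.castSucc ∈ below (p k.succ)
        else p k.succ ∈ below (p k.castSucc)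

/-- the `k`-th slice of a path, `0` for `k > 2N` -/
def slc {N : ℕ} (p : Fin (2 * N + 1) → Fin N → ℕ) (k : ℕ) : Fin N → ℕ :=
  if h : k < 2 * N + 1 then p ⟨k, h⟩ else 0

/-- number of boxes of a path -/
def psz {N : ℕ} (p : Fin (2 * N + 1) → Fin N → ℕ) : ℕ := ∑ k, sz (p k)

/-- `∑_p q^{|p|} G1(p_{k1}) G2(p_{k2})` over the paths in the box -/
noncomputable def avg {R : Type} [CommRing R] (N L k1 k2 : ℕ)
    (G1 G2 : (Fin N → ℕ) → PowerSeries R) : PowerSeries R :=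
  ∑ p ∈ paths N L, X ^ psz p * (G1 (slc p k1) * G2 (slc p k2))

/-- slices of a finite set of boxes: the slice `k` has `r`-th row
`#{i | (i, r + (k - N), r + (N - k)) ∈ π}` -/
def slices (N : ℕ) (π : Finset Box) : Fin (2 * N + 1) → Fin N → ℕ := fun k r =>
  (π.filter fun b => b.2.1 = (r : ℕ) + ((k : ℕ) - N) ∧ b.2.2 = (r : ℕ) + (N - (k : ℕ))).card

/-- `C(l; x) = ∑_r ∑_{i < l_r} x^i xi^r` (`xi = 1/x`) -/
def Cst {N : ℕ} {R : Type} [CommRing R] (x xi : R) (l : Fin N → ℕ) : R :=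
  ∑ r : Fin N, ∑ i ∈ range (l r), x ^ i * xi ^ (r : ℕ)

section series

variable {R : Type} [CommRing R]

/-- `∏_{t=e}^{e+n-1} (1 - q^t) / (1 - x q^t)` -/
noncomputable def rt (x : R) (e n : ℕ) : PowerSeries R :=
  ∏ t ∈ range n, (1 - X ^ (e + t)) * ig x (e + t)

/-- `c_i = ∏_{l ≠ i, l < k} (x X_i - X_l) / (X_i - X_l)` for `X_i = q^(e-i)` -/
noncomputable def cc (x : R) (k i : ℕ) : PowerSeries R :=
  rh x (k - 1 - i) * ∏ b ∈ range i, (C x - X ^ (b + 1)) * ig 1 (b + 1)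

/-- `∏_{k,l<N} (1 - q^(k+l+1))` -/
noncomputable def pi0 (R : Type) [CommRing R] (N : ℕ) : PowerSeries R :=
  ∏ k ∈ range N, ∏ l ∈ range N, (1 - X ^ (k + l + 1))

/-- `A_i = xi^i φ(x) rh_x(i) rh_x(i+n)` -/
noncomputable def Aa (x xi : R) (i n : ℕ) : PowerSeries R :=
  C (xi ^ i) * phi x xi * rh x i * rh x (i + n)

end series

/-! ### Chains and paths -/

/-- PS: sums over paths are nested sums. -/
def SpecPS : Prop := ∀ (B : Type) [CommRing B] (N L : ℕ) (D : ℕ → (Fin N → ℕ) → B), 1 ≤ N →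
  ∑ p ∈ paths N L, ∏ k : Fin (2 * N + 1), D k (p k) =
    ∑ l ∈ box N L, chn D N l * ∑ m ∈ below l, chn (fun j => D (2 * N - j)) (N - 1) m

/-- BRI: three-dimensional partitions of `n` are paths (`n < N`, `n ≤ L`). Here `j = r + m^+`,
`k = r + m^-`; inverse map: `{(i,j,k) | i < p_{N+j-k}(min j k)}`. -/
def SpecBRI : Prop := ∀ (R : Type) [CommRing R] (N L n : ℕ)
  (Ψ : (Fin (2 * N + 1) → Fin N → ℕ) → R), n < N → n ≤ L →
    ∑ᶠ π ∈ PP n, Ψ (slices N π) = ∑ p ∈ (paths N L).filter (fun p => psz p = n), Ψ p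

/-- CHP: the box sum through the slices: with `xyz = 1`,
`x^i y^j z^k = (y^{m^+} z^{m^-}) x^i (yz)^r` for `j = r + m^+`, `k = r + m^-`. -/
def SpecCHP : Prop := ∀ (R : Type) [CommRing R] (N n : ℕ) (π : Finset Box) (x y z : R),
  π ∈ PP n → n < N → x * y * z = 1 →
    Chp x y z π = ∑ k ∈ range (2 * N + 1),
      y ^ (k - N) * z ^ (N - k) * Cst x (y * z) (slc (slices N π) k)

/-- REV: reversal of paths (`p_k ↦ p_{2N-k}`). -/
def SpecREV : Prop := ∀ (R : Type) [CommRing R] (N L k1 k2 : ℕ)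
  (G1 G2 : (Fin N → ℕ) → PowerSeries R), k1 ≤ 2 * N → k2 ≤ 2 * N →
    avg N L (2 * N - k1) (2 * N - k2) G1 G2 = avg N L k1 k2 G1 G2

/-- ADJ: the operators `up` and `dn` are transposed to each other on `box N L`. -/
def SpecADJ : Prop := ∀ (B : Type) [CommRing B] (N L : ℕ) (Z : B) (u v : (Fin N → ℕ) → B),
  ∑ l ∈ box N L, (∑ m ∈ below l, Z ^ (sz l - sz m) * u m) * v l =
    ∑ m ∈ box N L, u m * ∑ l ∈ above L m, Z ^ (sz l - sz m) * v l

/-- CHA: `k1 ≤ N`, `k2 = 2N - k'` with `k' ≤ N` (from PS; the weight `q^{|p|}` is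
`∏ X_j^{|p_{j+1}| - |p_j|}` with `X_j = q^{N-j}` on the left including the slice `N` and
`Y_j = q^{N-1-j}` on the right without the slice `N`). -/
def SpecCHA : Prop := ∀ (R : Type) [CommRing R] (N L k1 k' : ℕ)
  (G1 G2 : (Fin N → ℕ) → PowerSeries R), 1 ≤ N → k1 ≤ N → k' ≤ N →
    avg N L k1 (2 * N - k') G1 G2 = ∑ l ∈ box N L,
      up (fun t => X ^ (N - (k1 + t)))
          (fun m => G1 m * sch (fun j => X ^ (N - j)) k1 m) (N - k1) l *
        up (fun t => X ^ (N - 1 - (k' + t)))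
          (fun m => G2 m * sch (fun j => X ^ (N - 1 - j)) k' m) (N - k') l

/-- CHB: `k1 ≤ k2 ≤ N` (from PS and ADJ). -/
def SpecCHB : Prop := ∀ (R : Type) [CommRing R] (N L k1 k2 : ℕ)
  (G1 G2 : (Fin N → ℕ) → PowerSeries R), 1 ≤ N → k1 ≤ k2 → k2 ≤ N →
    avg N L k1 k2 G1 G2 = ∑ m ∈ box N L,
      up (fun t => X ^ (N - (k1 + t)))
          (fun m => G1 m * sch (fun j => X ^ (N - j)) k1 m) (k2 - k1) m *
        (G2 m * dn L (fun t => X ^ (t + 1)) (sch (fun j => X ^ (N - 1 - j)) N) (N - k2) m)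

/-! ### Alternants -/

/-- ALT (branching rule). By induction on `k`: `l` has at most `k+1` rows; in the sum over
`m ≺ l` only `m` with at most `k` rows contribute (VAN); summing the columns
(`∑_{t=a}^{b-1} X_i^t X_k^{-t}` is geometric) gives the `k × k` determinant of
differences of adjacent columns of the `(k+1) × (k+1)` determinant (last row constant after
normalization). -/
def SpecALT : Prop := ∀ (B : Type) [CommRing B] (N k : ℕ) (X : ℕ → B) (l : Fin N → ℕ),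
  k ≤ N → Antitone l → lv l k = 0 → vd X k * sch X k l = alt k X (lv l)

/-- VAN: `s_l(X_0..X_{k-1})` vanishes unless `l` is a partition with at most `k` rows. -/
def SpecVAN : Prop := ∀ (B : Type) [CommRing B] (N k : ℕ) (X : ℕ → B) (l : Fin N → ℕ),
  ¬(Antitone l ∧ lv l k = 0) → sch X k l = 0

/-- the partition `(L+1, m_0+1, ..., m_{k-1}+1, m_{k+1}, ...)` -/
def pin (L k : ℕ) (m : ℕ → ℕ) : ℕ → ℕ := fun j =>
  if j = 0 then L + 1 else if j ≤ k then m (j - 1) + 1 else m j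

/-- PIE (Pieri rule in a box): column operations in a determinant. With `C_j = (X_i^{c_j})_i`,
`c_j = m_j + N - 1 - j`, and `C = (X_i^(L+N))_i`, the sum times `∏ (1 - X_i Y)` is the determinant
with columns `C_0 - Y^(L+1-m_0) C` and `C_j - Y^(c_{j-1} - c_j) C_{j-1}` (`j ≥ 1`) (geometric
sums). Expanding the first column: the first term is `det (C_0, C_1, ...)` by column operations,
the second is the alternating sum over the missing column `C_k`. -/
def SpecPIE : Prop := ∀ (B : Type) [CommRing B] (N L : ℕ) (X : ℕ → B) (Y : B) (m : Fin N → ℕ),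
  1 ≤ N → Antitone m → lv m 0 ≤ L →
    (∏ i ∈ range N, (1 - X i * Y)) *
        ∑ l ∈ above L m, Y ^ (sz l - sz m) * alt N X (lv l) =
      alt N X (lv m) - Y ^ (L + 1 - lv m 0) *
        ∑ k ∈ range N, (-1) ^ k * Y ^ (lv m 0 - lv m k + k) * alt N X (pin L k (lv m))

/-- DOP: the difference operator `∑_i T_{z,i}` on alternants. -/
def SpecDOP : Prop := ∀ (B : Type) [CommRing B] (k : ℕ) (X : ℕ → B) (z : B) (l : ℕ → ℕ),
  ∑ i ∈ range k, alt k (Function.update X i (z * X i)) l =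
    (∑ j ∈ range k, z ^ (l j + (k - 1 - j))) * alt k X l

/-- CID: the coefficients of the difference operator for a geometric progression. -/
def SpecCID : Prop := ∀ (R : Type) [CommRing R] (k e i : ℕ) (x : R), k ≤ e + 1 → i < k →
  vd (Function.update (fun j => (X : PowerSeries R) ^ (e - j)) i (C x * X ^ (e - i))) k =
    cc x k i * vd (fun j => X ^ (e - j)) k

/-- VNZ: the Vandermonde products do not vanish. -/
def SpecVNZ : Prop := ∀ (R : Type) [CommRing R] [IsDomain R] (k e : ℕ), k ≤ e + 1 →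
  vd (fun j => (X : PowerSeries R) ^ (e - j)) k ≠ 0 ∧
  ∀ (x : R) (i : ℕ), x ≠ 0 → i < k →
    vd (Function.update (fun j => (X : PowerSeries R) ^ (e - j)) i (C x * X ^ (e - i))) k ≠ 0

/-- LV: the eigenvector property with the operator inserted at step `k` (from ALT, VAN, DOP, CID,
VNZ by cancelling the Vandermonde product, then linearity). -/
def SpecLV : Prop := ∀ (R : Type) [CommRing R] [IsDomain R] (N k t e : ℕ) (x : R)
  (l : Fin N → ℕ), 1 ≤ k → k + t ≤ N → k + t ≤ e + 1 →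
    up (fun s => X ^ (e - (k + s)))
        (fun m => ev (C x) k m * sch (fun j => (X : PowerSeries R) ^ (e - j)) k m) t l =
      ∑ i ∈ range k, cc x k i *
        sch (Function.update (fun j => (X : PowerSeries R) ^ (e - j)) i (C x * X ^ (e - i)))
          (k + t) l

/-- RV: iterated Pieri rule modulo `q^(L+1)` (from PIE, ALT, cancelling the Vandermonde product;
the error of one step is divisible by `Z^(L+1-m_0)`; induction on `a`; the error terms
`e_l` satisfy `q^(L+1) ∣ q^{l_0} e_l`, and `|l| - |m| ≥ l_0 - m_0`). -/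
def SpecRV : Prop := ∀ (R : Type) [CommRing R] [IsDomain R] (N L a : ℕ)
  (Y Z : ℕ → PowerSeries R) (m : Fin N → ℕ), 1 ≤ N → vd Y N ≠ 0 → (∀ t, X ∣ Z t) →
    Antitone m → lv m 0 ≤ L →
    X ^ (L + 1) ∣ X ^ (lv m 0) *
      ((∏ t ∈ range a, ∏ l ∈ range N, (1 - Z t * Y l)) * dn L Z (sch Y N) a m - sch Y N m)

/-- CAU: Cauchy identity modulo `q^(L+1)` (from ADJ iterated and RV at `m = 0`, with
`Z t = Xv (n - 1 - t)`). -/
def SpecCAU : Prop := ∀ (R : Type) [CommRing R] [IsDomain R] (N L n : ℕ)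
  (Xv Y : ℕ → PowerSeries R), 1 ≤ N → vd Y N ≠ 0 → (∀ t, X ∣ Xv t) →
    X ^ (L + 1) ∣ (∏ i ∈ range n, ∏ l ∈ range N, (1 - Xv i * Y l)) *
      (∑ m ∈ box N L, sch Xv n m * sch Y N m) - 1

/-! ### Covariances -/

/-- Z0: the generating function (from CHA and CAU). -/
def SpecZ0 : Prop := ∀ (R : Type) [CommRing R] [IsDomain R] (N L k1 k2 : ℕ), 1 ≤ N →
  X ^ (L + 1) ∣ pi0 R N * avg N L k1 k2 (fun _ => (1 : PowerSeries R)) (fun _ => 1) - 1

/-- CVA: covariance of the eigenvalues at the slices `k1 ≤ N` and `2N - k'`, `k' ≤ N`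
(from CHA, LV, CAU, Z0). With `α_i = rt x1 (N-i) N`, `β_j = rt x2 (N-j) N`:
`∏_{k,l} (1 - X_k^{(i)} Y_l^{(j)})^{-1} = pi0^{-1} α_i β_j (1 + (1-x1)(1-x2) H)`,
`H = Hh (x1 x2) (2N-1-i-j)`. -/
def SpecCVA : Prop := ∀ (R : Type) [CommRing R] [IsDomain R] (N L k1 k' : ℕ) (x1 x2 : R),
  x1 ≠ 0 → x2 ≠ 0 → 1 ≤ k1 → k1 ≤ N → 1 ≤ k' → k' ≤ N →
    X ^ (L + 1) ∣ pi0 R N ^ 2 *
      (avg N L k1 (2 * N - k') (fun _ => 1) (fun _ => 1) *
          avg N L k1 (2 * N - k') (ev (C x1) k1) (ev (C x2) k') -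
        avg N L k1 (2 * N - k') (ev (C x1) k1) (fun _ => 1) *
          avg N L k1 (2 * N - k') (fun _ => 1) (ev (C x2) k')) -
      C ((1 - x1) * (1 - x2)) * ∑ i ∈ range k1, ∑ j ∈ range k',
        cc x1 k1 i * rt x1 (N - i) N * (cc x2 k' j * rt x2 (N - j) N) *
          Hh (x1 * x2) (2 * N - 1 - i - j)

/-- CVB: covariance of the eigenvalues at the slices `k1 ≤ k2 ≤ N`, the second one with `N` rows
(from CHB, LV, RV, CAU, Z0); `β_j = rt x2 (2N-k2-j) k2`. -/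
def SpecCVB : Prop := ∀ (R : Type) [CommRing R] [IsDomain R] (N L k1 k2 : ℕ) (x1 x2 : R),
  x1 ≠ 0 → x2 ≠ 0 → 1 ≤ k1 → k1 ≤ k2 → k2 ≤ N →
    X ^ (L + 1) ∣ pi0 R N ^ 2 *
      (avg N L k1 k2 (fun _ => 1) (fun _ => 1) *
          avg N L k1 k2 (ev (C x1) k1) (ev (C x2) N) -
        avg N L k1 k2 (ev (C x1) k1) (fun _ => 1) *
          avg N L k1 k2 (fun _ => 1) (ev (C x2) N)) -
      C ((1 - x1) * (1 - x2)) * ∑ i ∈ range k1, ∑ j ∈ range N,
        cc x1 k1 i * rt x1 (N - i) N * (cc x2 N j * rt x2 (2 * N - k2 - j) k2) *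
          Hh (x1 * x2) (2 * N - 1 - i - j)

/-- LIM: passage to infinite products. -/
def SpecLIM : Prop := ∀ (R : Type) [CommRing R] (x xi : R) (k i n M : ℕ), x * xi = 1 → i < k →
  k ≤ n + M →
    X ^ (k - i) ∣ C (xi ^ (k - 1)) * cc x k (k - 1 - i) * rt x (n + 1 + i) M - Aa x xi i n

/-- CEV: relation between `C(l; x)` and the eigenvalue with `k` rows: for a partition `l` with
at most `k` rows, `(1 - x) C(l; x) = ∑_{r<k} xi^r - xi^(k-1) ∑_{j<k} x^(l_j + k - 1 - j)`;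
at a slice of a path the number of rows is at most `min(k, 2N-k)`. -/
def SpecCEV : Prop := ∀ (R : Type) [CommRing R] (N L k k' : ℕ) (x xi : R)
  (p : Fin (2 * N + 1) → Fin N → ℕ), x * xi = 1 → p ∈ paths N L → 1 ≤ k' → k' ≤ N →
    k ≤ 2 * N → (k ≤ k' ∨ 2 * N - k ≤ k') →
    (1 - x) * Cst x xi (slc p k) =
      ∑ r ∈ range k', xi ^ r - xi ^ (k' - 1) * ∑ j ∈ range k', x ^ (lv (slc p k) j + (k' - 1 - j))

/-- the exponent `max(m1^- + m2^+, m2^- + m1^+)` -/
def ex (N k1 k2 : ℕ) : ℕ := max ((N - k1) + (k2 - N)) ((N - k2) + (k1 - N))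

/-- COV: covariance of `C(p_{k1}; x1)` and `C(p_{k2}; x2)` modulo `q^(L+1)`, `L < N`.
For `k1 ≤ N ≤ k2` from CVA, for `k1 ≤ k2 ≤ N` from CVB (with LIM, CEV, cancelling
`(1-x1)(1-x2)`), the other cases by REV and exchange of the two factors. -/
def SpecCOV : Prop := ∀ (R : Type) [CommRing R] [IsDomain R] (N L k1 k2 : ℕ) (x1 xi1 x2 xi2 : R),
  x1 * xi1 = 1 → x2 * xi2 = 1 → x1 ≠ 1 → x2 ≠ 1 → L < N →
  1 ≤ k1 → k1 < 2 * N → 1 ≤ k2 → k2 < 2 * N →
    X ^ (L + 1) ∣ pi0 R N ^ 2 *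
      (avg N L k1 k2 (fun _ => 1) (fun _ => 1) *
          avg N L k1 k2 (fun l => C (Cst x1 xi1 l)) (fun l => C (Cst x2 xi2 l)) -
        avg N L k1 k2 (fun l => C (Cst x1 xi1 l)) (fun _ => 1) *
          avg N L k1 k2 (fun _ => 1) (fun l => C (Cst x2 xi2 l))) -
      ∑ i ∈ range N, ∑ j ∈ range N,
        Aa x1 xi1 i ((N - k1) + (k1 - N)) * Aa x2 xi2 j ((N - k2) + (k2 - N)) *
          Hh (x1 * x2) (i + j + 1 + ex N k1 k2)

/-- COL: the sum over all slices. Substitute `r1 = i + m1^-`, `s1 = i + m1^+`, `r2 = j + m2^-`,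
`s2 = j + m2^+` (a bijection `(m, i) ↔ (r, s) ∈ ℕ²`): the exponent is
`max(r1 + s2, r2 + s1) + 1` and the weight of `(r1, s1)` is
`φ(x1) y1^{s1} rh(s1) z1^{r1} rh(r1)`. Then collect the terms with `max(..) = M`. -/
def SpecCOL : Prop := ∀ (R : Type) [CommRing R] (N L : ℕ) (x1 y1 z1 x2 y2 z2 : R),
  x1 * y1 * z1 = 1 → x2 * y2 * z2 = 1 → L < N →
    X ^ (L + 1) ∣ (∑ k1 ∈ Ico 1 (2 * N), ∑ k2 ∈ Ico 1 (2 * N),
        C (y1 ^ (k1 - N) * z1 ^ (N - k1) * (y2 ^ (k2 - N) * z2 ^ (N - k2))) *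
        ∑ i ∈ range N, ∑ j ∈ range N,
          Aa x1 (y1 * z1) i ((N - k1) + (k1 - N)) * Aa x2 (y2 * z2) j ((N - k2) + (k2 - N)) *
            Hh (x1 * x2) (i + j + 1 + ex N k1 k2)) -
      kap x1 y1 z1 x2 y2 z2

/-- TWO: **exact two-point function of plane partitions** (from BRI, CHP, COV, COL, Z0). -/
def SpecTWO : Prop := ∀ (R : Type) [CommRing R] [IsDomain R] (x1 y1 z1 x2 y2 z2 : R),
  x1 * y1 * z1 = 1 → x2 * y2 * z2 = 1 → x1 ≠ 1 → x2 ≠ 1 →
    gs (fun _ => (1 : R)) * gs (fun π => Chp x1 y1 z1 π * Chp x2 y2 z2 π) -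
        gs (Chp x1 y1 z1) * gs (Chp x2 y2 z2) =
      gs (fun _ => (1 : R)) ^ 2 * kap x1 y1 z1 x2 y2 z2

end Pool.Agent.Lib.MPd9449f
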